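import Pool.Agent.Q55.GcdSieve

set_option autoImplicit false
set_option maxHeartbeats 1000000

/-! # Sets which are rough in every class modulo `lcm (1, …, D + 1)` -/

namespace Pool.Agent.Q55.GcdSmall

open Finset Filter Pool.Agent.Q55.GcdSieve

lemma lcm_sq {X D : ℕ} (hX : 2 ≤ X) (hD1 : 1 ≤ D) (hD : (D : ℝ) ≤ Real.log X / 24) :
    Nat.lcmUpto (D + 1) * Nat.lcmUpto (D + 1) ≤ X := by
  have h1 := Chebyshev.psi_eq_log_lcmUpto (D + 1)
  have h2 := Chebyshev.psi_le_const_mul_self (x := ((D + 1 : ℕ) : ℝ)) (Nat.cast_nonneg _)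
  have hXpos : (0 : ℝ) < X := by exact_mod_cast (by omega : 0 < X)
  have hl4 : Real.log 4 ≤ 2 := by
    have h4 : (4 : ℝ) = 2 * 2 := by norm_num
    rw [h4, Real.log_mul (by norm_num) (by norm_num)]
    have := Real.log_two_lt_d9
    linarith
  have hDr : (1 : ℝ) ≤ D := by exact_mod_cast hD1
  have hL : Real.log (Nat.lcmUpto (D + 1) : ℝ) ≤ Real.log X / 2 := by
    rw [← h1]
    refine h2.trans ?_
    push_cast
    nlinarith
  have hp : (0 : ℝ) < Nat.lcmUpto (D + 1) := by exact_mod_cast Nat.lcmUpto_pos (D + 1)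
  have h3 : Real.log ((Nat.lcmUpto (D + 1) : ℝ) * Nat.lcmUpto (D + 1)) ≤ Real.log X := by
    rw [Real.log_mul hp.ne' hp.ne']
    linarith
  have h4 := (Real.log_le_log_iff (by positivity) hXpos).1 h3
  exact_mod_cast h4

lemma dvd_lcm {w q : ℕ} (h1 : 1 ≤ q) (h2 : q ≤ w) : q ∣ Nat.lcmUpto w := by
  unfold Nat.lcmUpto
  exact Finset.dvd_lcm (f := id) (mem_Icc.2 ⟨h1, h2⟩)

lemma prime_lcm {w p : ℕ} (hp : p.Prime) (h : p ∣ Nat.lcmUpto w) : p ≤ w := by
  have h1 := h.trans (Nat.lcmUpto_dvd_factorial w)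
  exact (hp.dvd_factorial).1 h1

open Classical in
theorem small_loss (g : ℕ) (hg : 1 ≤ g) : ∃ C : ℝ, 1 ≤ C ∧ ∀ X Y D : ℕ, 2 ≤ X → 1 ≤ D →
    (D : ℝ) ≤ Real.log X / 24 → ∀ A : Finset ℕ, A ⊆ Ioc Y (Y + X) →
    (∀ M r₀ : ℕ, (∀ q : ℕ, 1 ≤ q → q ≤ D + 1 → q ∣ M) →
      (∃ N ∈ A, Nat.sqrt X + 5 * D + 2300 ≤ N ∧ N % M = r₀) → ∃ b : Fin g → ℤ,
      (∀ i j, i ≠ j → ∀ p : ℕ, p.Prime → D + 1 < p → ¬ (p : ℤ) ∣ b i - b j) ∧
      ∀ N ∈ A, Nat.sqrt X + 5 * D + 2300 ≤ N → N % M = r₀ → ∀ i, ∀ p : ℕ, p.Prime → p * p ≤ X →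
        ¬ (p : ℤ) ∣ (N : ℤ) + b i) →
    (A.card : ℝ) ≤ C * X * (Real.log (2 * D) / Real.log X) ^ g := by
  obtain ⟨C, hC, X₀, h⟩ := classes g hg
  obtain ⟨X₁, hX₁⟩ := eventually_atTop.1 ((log_pow_le (2 * (g + 1))).and (eventually_ge_atTop 3))
  have hlogt : Tendsto (fun X : ℕ => Real.log (X : ℝ)) atTop atTop :=
    Real.tendsto_log_atTop.comp tendsto_natCast_atTop_atTop
  obtain ⟨X₂, hX₂⟩ := eventually_atTop.1 (hlogt.eventually_ge_atTop 2302)
  obtain ⟨X₃, hX₃⟩ : ∃ X₃ : ℕ, X₃ = max (max X₀ X₁) (max X₂ 3) := ⟨_, rfl⟩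
  have hl2 : 0 < Real.log 2 := Real.log_pos (by norm_num)
  refine ⟨C + 2 * (1 / Real.log 2) ^ g + (Real.log X₃ / Real.log 2) ^ g, ?_, ?_⟩
  · have h1 : 0 ≤ 2 * (1 / Real.log 2) ^ g := by positivity
    have h2 : 0 ≤ (Real.log X₃ / Real.log 2) ^ g := by
      have : 0 ≤ Real.log X₃ := Real.log_natCast_nonneg _
      positivity
    linarith
  intro X Y D hX hD1 hD A hA hcl
  have hXr : (2 : ℝ) ≤ X := by exact_mod_cast hX
  have hlX : 0 < Real.log X := Real.log_pos (by linarith)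
  have hDr : (1 : ℝ) ≤ D := by exact_mod_cast hD1
  have hl2D : Real.log 2 ≤ Real.log (2 * D) := Real.log_le_log (by norm_num) (by linarith)
  have hlD : 0 < Real.log (2 * D) := by linarith
  obtain ⟨ρ, hρ⟩ : ∃ ρ : ℝ, ρ = Real.log (2 * D) / Real.log X := ⟨_, rfl⟩
  have hρ0 : 0 < ρ := by rw [hρ]; positivity
  have hlX3 : 0 ≤ Real.log X₃ := Real.log_natCast_nonneg _
  rw [← hρ]
  have hT1 : 0 ≤ C * X * ρ ^ g := by positivity
  have hT2 : 0 ≤ 2 * (1 / Real.log 2) ^ g * X * ρ ^ g := by positivity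
  have hT3 : 0 ≤ (Real.log X₃ / Real.log 2) ^ g * X * ρ ^ g := by positivity
  have hexp : (C + 2 * (1 / Real.log 2) ^ g + (Real.log X₃ / Real.log 2) ^ g) * X * ρ ^ g =
      C * X * ρ ^ g + 2 * (1 / Real.log 2) ^ g * X * ρ ^ g +
        (Real.log X₃ / Real.log 2) ^ g * X * ρ ^ g := by ring
  rw [hexp]
  rcases lt_or_ge X X₃ with hlt | hge
  · have h1 : (A.card : ℝ) ≤ X := by
      have := card_le_card hA
      rw [Nat.card_Ioc] at this
      have h2 : A.card ≤ X := by omega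
      exact_mod_cast h2
    have h2 : (1 : ℝ) ≤ (Real.log X₃ / Real.log 2) ^ g * ρ ^ g := by
      rw [← mul_pow]
      apply one_le_pow₀
      have h3 : Real.log X ≤ Real.log X₃ := Real.log_le_log (by linarith) (by exact_mod_cast hlt.le)
      rw [hρ, div_mul_div_comm, le_div_iff₀ (by positivity), one_mul, mul_comm (Real.log X₃)]
      exact mul_le_mul hl2D h3 hlX.le hlD.le
    have h4 : (X : ℝ) ≤ (Real.log X₃ / Real.log 2) ^ g * X * ρ ^ g := by
      calc (X : ℝ) = X * 1 := by ring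
        _ ≤ X * ((Real.log X₃ / Real.log 2) ^ g * ρ ^ g) := by gcongr
        _ = _ := by ring
    linarith
  · have g0 : X₀ ≤ X := ((le_max_left _ _).trans (le_max_left _ _)).trans (hX₃ ▸ hge)
    have g1 : X₁ ≤ X := ((le_max_right _ _).trans (le_max_left _ _)).trans (hX₃ ▸ hge)
    have g2 : X₂ ≤ X := ((le_max_left _ _).trans (le_max_right _ _)).trans (hX₃ ▸ hge)
    obtain ⟨hlp, hX3⟩ := hX₁ X g1
    have hlbig := hX₂ X g2
    obtain ⟨M, hMdef⟩ : ∃ M : ℕ, M = Nat.lcmUpto (D + 1) := ⟨_, rfl⟩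
    have hM1 : 1 ≤ M := hMdef ▸ Nat.lcmUpto_pos _
    have hMX : M * M ≤ X := hMdef ▸ lcm_sq hX hD1 hD
    have hMp : ∀ p : ℕ, p.Prime → D + 1 < p → ¬ p ∣ M := by
      intro p hp hw hd
      rw [hMdef] at hd
      have := prime_lcm hp hd
      omega
    obtain ⟨N₁, hN₁⟩ : ∃ N₁ : ℕ, N₁ = Nat.sqrt X + 5 * D + 2300 := ⟨_, rfl⟩
    obtain ⟨A', hA'⟩ : ∃ A' : Finset ℕ, A' = A.filter (fun N => N₁ ≤ N) := ⟨_, rfl⟩
    have hmain := h X M (D + 1) g0 hM1 hMX (by omega) hMp Y A' (by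
      rw [hA']
      exact (filter_subset _ _).trans hA) (by
      intro r₀ _ hex
      obtain ⟨N, hN, hNr⟩ := hex
      rw [hA', mem_filter] at hN
      obtain ⟨b, hb, hb2⟩ := hcl M r₀ (by
        intro q hq1 hq2
        rw [hMdef]
        exact dvd_lcm hq1 hq2) ⟨N, hN.1, hN₁ ▸ hN.2, hNr⟩
      refine ⟨b, hb, ?_⟩
      intro N' hN' hr i p hp _ hpX
      rw [hA', mem_filter] at hN'
      exact hb2 N' hN'.1 (hN₁ ▸ hN'.2) hr i p hp hpX)
    have hlw : Real.log ((D + 1 : ℕ) : ℝ) ≤ Real.log (2 * D) := by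
      apply Real.log_le_log
      · positivity
      · push_cast; linarith
    have hmain' : (A'.card : ℝ) ≤ C * X * ρ ^ g := by
      refine hmain.trans ?_
      have h0 : 0 ≤ Real.log ((D + 1 : ℕ) : ℝ) := Real.log_natCast_nonneg _
      rw [hρ]
      gcongr
    have hsplit : A.card ≤ A'.card + N₁ := by
      have h1 : A ⊆ A' ∪ range N₁ := by
        intro N hN
        rw [mem_union, mem_range, hA', mem_filter]
        by_cases h1 : N₁ ≤ N
        · left; exact ⟨hN, h1⟩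
        · right; omega
      have := (card_le_card h1).trans (card_union_le _ _)
      rwa [card_range] at this
    have hN1le : (N₁ : ℝ) ≤ 2 * (1 / Real.log 2) ^ g * X * ρ ^ g := by
      have h1 : (1 / Real.log X) ^ g ≤ (1 / Real.log 2) ^ g * ρ ^ g := by
        rw [← mul_pow]
        apply pow_le_pow_left₀ (by positivity)
        rw [hρ, div_le_iff₀ hlX]
        have : 1 ≤ 1 / Real.log 2 * Real.log (2 * D) := by
          rw [div_mul_eq_mul_div, one_mul, le_div_iff₀ hl2]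
          linarith
        calc (1 : ℝ) ≤ 1 / Real.log 2 * Real.log (2 * D) := this
          _ = 1 / Real.log 2 * (Real.log (2 * D) / Real.log X) * Real.log X := by field_simp
      have h2 : √(X : ℝ) ≤ X * (1 / Real.log X) ^ (g + 1) := by
        rw [one_div_pow, mul_one_div, Real.sqrt_le_left (by positivity), div_pow, ← pow_mul,
          le_div_iff₀ (by positivity)]
        calc (X : ℝ) * Real.log X ^ ((g + 1) * 2) = (X : ℝ) * Real.log X ^ (2 * (g + 1)) := by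
              rw [mul_comm (g + 1) 2]
          _ ≤ (X : ℝ) * X := mul_le_mul_of_nonneg_left hlp (by positivity)
          _ = (X : ℝ) ^ 2 := by ring
      have h3 : Real.log X * √(X : ℝ) ≤ X * (1 / Real.log X) ^ g := by
        calc Real.log X * √(X : ℝ) ≤ Real.log X * (X * (1 / Real.log X) ^ (g + 1)) := by gcongr
          _ = X * (1 / Real.log X) ^ g := by
            rw [pow_succ]
            field_simp
      have hs1 : 1 ≤ √(X : ℝ) := Real.one_le_sqrt.2 (by linarith)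
      have h4 : (N₁ : ℝ) ≤ 2 * (Real.log X * √(X : ℝ)) := by
        have h5 : (Nat.sqrt X : ℝ) ≤ √(X : ℝ) := Real.nat_sqrt_le_real_sqrt
        rw [hN₁]
        push_cast
        nlinarith
      calc (N₁ : ℝ) ≤ 2 * (Real.log X * √(X : ℝ)) := h4
        _ ≤ 2 * (X * ((1 / Real.log 2) ^ g * ρ ^ g)) := by
          have := h3.trans (mul_le_mul_of_nonneg_left h1 (by positivity : (0 : ℝ) ≤ X))
          linarith
        _ = _ := by ring
    have h6 : (A.card : ℝ) ≤ A'.card + N₁ := by exact_mod_cast hsplit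
    linarith

end Pool.Agent.Q55.GcdSmall
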