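import Pool.Agent.Q34.SP.Main
import Pool.Agent.TH803.CL.NearS
import Pool.Agent.TH803.CL.Full
import Pool.Agent.H382R2.Final0
import Pool.Agent.H370R2.DirGood

/-!
# Lower bounds for most gaps between consecutive ordinates of zeta zeros
-/

set_option autoImplicit false

open Filter Topology SG

namespace Pool.Agent.Q55.GapExp

/-- combinatorial core -/
lemma pigeon (g : ℕ → ℝ) {k : ℕ} (hk : 1 ≤ k) {d : ℝ} (hd : 0 ≤ d) (a : ℕ) (I : Finset ℕ) :
    ∀ b : ℕ, (∀ x ∈ I, a ≤ x ∧ x ≤ b) → (∀ x ∈ I, ∀ y ∈ I, x < y → d < g y - g x) →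
      (k + 1) * I.card ≤
        k * (((Finset.Ico a b).filter (fun i => d < k * (g (i + 1) - g i))).card + 1) + (b + 1 - a) := by
  classical
  induction I using Finset.induction_on_max with
  | empty => intro b _ _; simp
  | insert y I hy ih =>
    intro b hI hs
    have hya := hI y (Finset.mem_insert_self _ _)
    have hyI : y ∉ I := fun h => lt_irrefl _ (hy y h)
    rw [Finset.card_insert_of_notMem hyI]
    rcases I.eq_empty_or_nonempty with rfl | hne
    · simp only [Finset.card_empty]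
      have := hya.1.trans hya.2
      nlinarith [Nat.zero_le (k * ((Finset.Ico a b).filter (fun i => d < k * (g (i + 1) - g i))).card),
        show 1 ≤ b + 1 - a by omega]
    · obtain ⟨x, hxI, hmax⟩ := I.exists_max_image id hne
      simp only [id] at hmax
      have hxa := hI x (Finset.mem_insert_of_mem hxI)
      have hxy := hy x hxI
      have h1 := ih x (fun z hz => ⟨(hI z (Finset.mem_insert_of_mem hz)).1, hmax z hz⟩)
        (fun z hz w hw => hs z (Finset.mem_insert_of_mem hz) w (Finset.mem_insert_of_mem hw))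
      have hgap := hs x (Finset.mem_insert_of_mem hxI) y (Finset.mem_insert_self _ _) hxy
      -- split the range
      have h2 : ((Finset.Ico a x).filter (fun i => d < k * (g (i + 1) - g i))).card +
          ((Finset.Ico x y).filter (fun i => d < k * (g (i + 1) - g i))).card ≤
          ((Finset.Ico a b).filter (fun i => d < k * (g (i + 1) - g i))).card := by
        rw [← Finset.card_union_of_disjoint]
        · refine Finset.card_le_card ?_
          intro i hi
          simp only [Finset.mem_union, Finset.mem_filter, Finset.mem_Ico] at hi ⊢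
          rcases hi with ⟨h, h'⟩ | ⟨h, h'⟩
          · exact ⟨⟨h.1, by omega⟩, h'⟩
          · exact ⟨⟨by omega, by omega⟩, h'⟩
        · rw [Finset.disjoint_left]
          intro i hi hi'
          simp only [Finset.mem_filter, Finset.mem_Ico] at hi hi'
          omega
      have h3 : k + 1 ≤ k * ((Finset.Ico x y).filter (fun i => d < k * (g (i + 1) - g i))).card + (y - x) := by
        rcases ((Finset.Ico x y).filter (fun i => d < k * (g (i + 1) - g i))).eq_empty_or_nonempty with h4 | h4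
        · rw [h4]
          have h5 : ∀ i ∈ Finset.Ico x y, k * (g (i + 1) - g i) ≤ d := by
            intro i hi
            by_contra hcon
            rw [not_le] at hcon
            have : i ∈ (Finset.Ico x y).filter (fun i => d < k * (g (i + 1) - g i)) :=
              Finset.mem_filter.2 ⟨hi, hcon⟩
            rw [h4] at this
            simp at this
          have h6 := Finset.sum_le_sum h5
          rw [← Finset.mul_sum, Finset.sum_Ico_sub g hxy.le, Finset.sum_const, Nat.card_Ico, nsmul_eq_mul] at h6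
          have h7 : (k : ℝ) < ((y - x : ℕ) : ℝ) := by
            by_contra hcon
            rw [not_lt] at hcon
            have h8 : ((y - x : ℕ) : ℝ) * d ≤ k * d := mul_le_mul_of_nonneg_right hcon hd
            have h9 : (0 : ℝ) < k := by exact_mod_cast hk
            nlinarith
          have h8 : k < y - x := by exact_mod_cast h7
          simp only [Finset.card_empty, mul_zero, zero_add]
          omega
        · have h5 := Finset.card_pos.2 h4
          have h6 : 1 ≤ y - x := by omega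
          nlinarith
      have h4 : k * (((Finset.Ico a x).filter (fun i => d < k * (g (i + 1) - g i))).card +
          ((Finset.Ico x y).filter (fun i => d < k * (g (i + 1) - g i))).card) ≤
          k * ((Finset.Ico a b).filter (fun i => d < k * (g (i + 1) - g i))).card :=
        Nat.mul_le_mul_left _ h2
      have h5 : (x + 1 - a) + (y - x) ≤ b + 1 - a := by omega
      nlinarith

/-- the ordinate of a zero is one of the `ord n` -/
lemma ord_NZ {s : ℂ} (h : riemannZeta s = 0) (h1 : 0 < s.re) (h2 : s.re < 1) (h3 : 0 < s.im) :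
    1 ≤ NZ s.im ∧ ord (NZ s.im) = s.im := by
  have hp := zmult_pos h3 h
  have j1 := jump_one h h1 h2 h3
  have h0 := j1 0 h3
  have hN : 1 ≤ NZ s.im := by omega
  refine ⟨hN, le_antisymm ((ord_le_iff hN _).2 le_rfl) ?_⟩
  by_contra hcon
  rw [not_le] at hcon
  have h4 := j1 _ hcon
  have h5 := le_NZ_ord hN
  omega

lemma NZ_lt {s : ℂ} (h : riemannZeta s = 0) (h1 : 0 < s.re) (h2 : s.re < 1) (h3 : 0 < s.im) {t : ℝ}
    (ht : t < s.im) : NZ t < NZ s.im := by
  have hp := zmult_pos h3 h
  have := jump_one h h1 h2 h3 t ht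
  omega

/-- the good indices below `N` -/
noncomputable def G (w : ℝ) (k N : ℕ) : ℕ := by
  classical
  exact ((Finset.Ico 1 N).filter (fun i => w / Real.log (ord i) < k * (ord (i + 1) - ord i))).card

/-- `x` is the ordinate of a nontrivial zero -/
def IsOrd (x : ℝ) : Prop := ∃ s : ℂ, riemannZeta s = 0 ∧ 0 < s.re ∧ s.re < 1 ∧ s.im = x

theorem block {w : ℝ} (hw : 0 < w) {k : ℕ} (hk : 1 ≤ k) {T : ℝ} (hT : 10 ≤ T) {U : ℝ} (A : Finset ℝ)
    (hA : ∀ x ∈ A, T < x ∧ x ≤ U ∧ IsOrd x)
    (hs : ∀ x ∈ A, ∀ y ∈ A, x ≠ y → w / Real.log T < |x - y|) (b : ℕ) (hTU : T < U)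
    (hb : ∀ t < U, NZ t ≤ b) :
    ((k : ℝ) + 1) * (A.card - 1) ≤ k * ((G w k b : ℝ) - G w k (NZ T) + 1) + ((b : ℝ) - NZ T) := by
  classical
  have hL : 0 < Real.log T := Real.log_pos (by linarith)
  set A' := A.filter (fun x => x < U) with hA'
  have hcard : A.card ≤ A'.card + 1 := by
    have h1 : A ⊆ insert U A' := by
      intro x hx
      rcases eq_or_lt_of_le (hA x hx).2.1 with h | h
      · rw [h]; exact Finset.mem_insert_self _ _
      · exact Finset.mem_insert_of_mem (Finset.mem_filter.2 ⟨hx, h⟩)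
    exact (Finset.card_le_card h1).trans (Finset.card_insert_le _ _)
  have hA'm : ∀ x ∈ A', T < x ∧ x < U ∧ IsOrd x := by
    intro x hx
    rw [hA', Finset.mem_filter] at hx
    exact ⟨(hA x hx.1).1, hx.2, (hA x hx.1).2.2⟩
  have hord : ∀ x ∈ A', ord (NZ x) = x := by
    intro x hx
    obtain ⟨h1, h2, s, h3, h4, h5, rfl⟩ := hA'm x hx
    exact (ord_NZ h3 h4 h5 (by linarith)).2
  have hinj : Set.InjOn NZ A' := by
    intro x hx y hy hxy
    rw [← hord x hx, ← hord y hy, hxy]
  set I := A'.image NZ with hI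
  have hIc : I.card = A'.card := Finset.card_image_of_injOn hinj
  have hNb : NZ T ≤ b := hb T hTU
  have h1 := pigeon ord hk (show 0 ≤ w / Real.log T by positivity) (NZ T + 1) I b (by
    intro n hn
    rw [hI, Finset.mem_image] at hn
    obtain ⟨x, hx, rfl⟩ := hn
    refine ⟨?_, hb x (hA'm x hx).2.1⟩
    obtain ⟨h1, h2, s, h3, h4, h5, rfl⟩ := hA'm x hx
    exact NZ_lt h3 h4 h5 (by linarith) h1) (by
    intro n hn m hm hnm
    rw [hI, Finset.mem_image] at hn hm
    obtain ⟨x, hx, rfl⟩ := hn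
    obtain ⟨y, hy, rfl⟩ := hm
    rw [hord x hx, hord y hy]
    have hxy : x < y := by
      by_contra hcon
      rw [not_lt] at hcon
      exact absurd (NZ_mono hcon) (not_le.2 hnm)
    have h2 := hs x (Finset.mem_filter.1 hx).1 y (Finset.mem_filter.1 hy).1 hxy.ne
    rwa [abs_sub_comm, abs_of_pos (by linarith)] at h2)
  have h2 : G w k (NZ T) + ((Finset.Ico (NZ T + 1) b).filter
      (fun i => w / Real.log T < k * (ord (i + 1) - ord i))).card ≤ G w k b := by
    unfold G
    rw [← Finset.card_union_of_disjoint]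
    · refine Finset.card_le_card ?_
      intro i hi
      simp only [Finset.mem_union, Finset.mem_filter, Finset.mem_Ico] at hi ⊢
      rcases hi with ⟨h, h'⟩ | ⟨h, h'⟩
      · exact ⟨⟨h.1, by omega⟩, h'⟩
      · refine ⟨⟨by omega, by omega⟩, lt_of_le_of_lt ?_ h'⟩
        have h3 : T < ord i := by
          by_contra hcon
          rw [not_lt, ord_le_iff (by omega)] at hcon
          omega
        exact div_le_div_of_nonneg_left hw.le hL (Real.log_le_log (by linarith) h3.le)
    · rw [Finset.disjoint_left]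
      intro i hi hi'
      simp only [Finset.mem_filter, Finset.mem_Ico] at hi hi'
      omega
  rw [hIc] at h1
  have h3 : ((k : ℝ) + 1) * (A.card - 1) ≤ (k + 1) * A'.card := by
    have : (A.card : ℝ) ≤ A'.card + 1 := by exact_mod_cast hcard
    exact mul_le_mul_of_nonneg_left (by linarith) (by positivity)
  have h4 : ((k : ℝ) + 1) * A'.card ≤ k * (((Finset.Ico (NZ T + 1) b).filter
      (fun i => w / Real.log T < k * (ord (i + 1) - ord i))).card + 1) + ((b : ℝ) - NZ T) := by
    have h5 : ((b + 1 - (NZ T + 1) : ℕ) : ℝ) = (b : ℝ) - NZ T := by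
      rw [Nat.add_sub_add_right, Nat.cast_sub hNb]
    rw [← h5]
    exact_mod_cast h1
  have h5 : (G w k (NZ T) : ℝ) + ((Finset.Ico (NZ T + 1) b).filter
      (fun i => w / Real.log T < k * (ord (i + 1) - ord i))).card ≤ G w k b := by exact_mod_cast h2
  have h6 : (0 : ℝ) ≤ k := Nat.cast_nonneg k
  nlinarith [mul_le_mul_of_nonneg_left h5 h6]

/-- separated sets of ordinates of proportion `q` in all large dyadic intervals -/
def Sep (w q : ℝ) : Prop := ∀ ε : ℝ, 0 < ε → ∃ T0 : ℝ, ∀ T : ℝ, T0 ≤ T → ∃ A : Finset ℝ,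
  (∀ x ∈ A, T < x ∧ x ≤ 2 * T ∧ IsOrd x) ∧
  (∀ x ∈ A, ∀ y ∈ A, x ≠ y → w / Real.log T < |x - y|) ∧
  (q - ε) * (H370.NN riemannZeta T (2 * T) : ℝ) ≤ A.card

theorem recur {w q ε : ℝ} (hw : 0 < w) {k : ℕ} (hk : 1 ≤ k) (hq : q ≤ 1) (hε : 0 < ε)
    (hq0 : 0 ≤ q - ε) {T0 : ℝ} (hT0 : 10 ≤ T0)
    (h : ∀ T : ℝ, T0 ≤ T → ∃ A : Finset ℝ,
      (∀ x ∈ A, T < x ∧ x ≤ 2 * T ∧ IsOrd x) ∧
      (∀ x ∈ A, ∀ y ∈ A, x ≠ y → w / Real.log T < |x - y|) ∧
      (q - ε) * (H370.NN riemannZeta T (2 * T) : ℝ) ≤ A.card) (J : ℕ) :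
    ∀ U : ℝ, U ≤ 2 ^ J * (2 * T0) → ∀ b : ℕ, b ≤ NZ U → (∀ t < U, NZ t ≤ b) →
      ((k : ℝ) + 1) * (q - ε) * b ≤ k * G w k b + b + (k + 1) * NZ (2 * T0) + (2 * k + 1) * J := by
  have hk0 : (0 : ℝ) ≤ k := Nat.cast_nonneg k
  induction J with
  | zero =>
    intro U hU b hb _
    rw [pow_zero, one_mul] at hU
    have h1 : (b : ℝ) ≤ NZ (2 * T0) := by exact_mod_cast hb.trans (NZ_mono hU)
    have h2 : (0 : ℝ) ≤ G w k b := Nat.cast_nonneg _
    have h3 : (0 : ℝ) ≤ b := Nat.cast_nonneg _
    have h4 : ((k : ℝ) + 1) * (q - ε) * b ≤ (k + 1) * NZ (2 * T0) := by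
      rw [mul_assoc]
      refine mul_le_mul_of_nonneg_left ?_ (by positivity)
      nlinarith
    have h5 : 0 ≤ (k : ℝ) * G w k b := mul_nonneg hk0 h2
    push_cast
    linarith
  | succ J ih =>
    intro U hU b hb hbt
    rcases le_or_gt U (2 ^ J * (2 * T0)) with h1 | h1
    · have h2 := ih U h1 b hb hbt
      push_cast
      nlinarith
    · have hpow : (1 : ℝ) ≤ 2 ^ J := one_le_pow₀ (by norm_num)
      set T := U / 2 with hT
      have hTT : T0 ≤ T := by
        rw [hT]
        nlinarith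
      have h2T : 2 * T = U := by rw [hT]; ring
      obtain ⟨A, hA1, hA2, hA3⟩ := h T hTT
      rw [h2T] at hA1 hA3
      have h3 := block hw hk (by linarith : (10 : ℝ) ≤ T) A hA1 hA2 b (by linarith) hbt
      have h4 := ih T (by rw [pow_succ] at hU; linarith) (NZ T) le_rfl (fun t ht => NZ_mono ht.le)
      have h5 : (b : ℝ) - NZ T ≤ H370.NN riemannZeta T U := by
        have h6 := hb.trans (NZ_le_add T U (by linarith))
        have h7 : (b : ℝ) ≤ NZ T + H370.NN riemannZeta T U := by exact_mod_cast h6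
        linarith
      have h6 : (q - ε) * ((b : ℝ) - NZ T) ≤ A.card := (mul_le_mul_of_nonneg_left h5 hq0).trans hA3
      have h7 := mul_le_mul_of_nonneg_left h6 (show (0 : ℝ) ≤ k + 1 by positivity)
      push_cast
      linarith

/-- `γ_N ≤ 32 N` -/
theorem ord_le : ∃ N0 : ℕ, 1 ≤ N0 ∧ ∀ N : ℕ, N0 ≤ N → ord N ≤ 32 * N := by
  obtain ⟨T0, hT0, h⟩ := TH803CL.NN_dy H370.good_zeta
  obtain ⟨N0, hN0⟩ := eventually_atTop.1 (ord_tendsto.eventually_ge_atTop (4 * T0))
  refine ⟨max N0 1, le_max_right _ _, fun N hN => ?_⟩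
  have h1 := hN0 N ((le_max_left _ _).trans hN)
  have hN1 : 1 ≤ N := (le_max_right _ _).trans hN
  set T := ord N / 4 with hT
  have hTT : T0 ≤ T := by rw [hT]; linarith
  have h2 := h T hTT
  have h3 : NZ (2 * T) < N := by
    by_contra hcon
    rw [not_lt, ← ord_le_iff hN1] at hcon
    have : 0 < ord N := ord_pos hN1
    rw [hT] at hcon
    linarith
  have h4 : H370.NN riemannZeta T (2 * T) ≤ NZ (2 * T) := by
    classical
    have hfin := H370.zset_finite H370.good_zeta T (2 * T) (by linarith)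
    have hNN : H370.NN riemannZeta T (2 * T) = ∑ s ∈ hfin.toFinset, zmult s :=
      finsum_mem_eq_finite_toFinset_sum _ hfin
    have h5 := NZ_add_le T (2 * T) (by linarith) hfin.toFinset (by
      intro s hs
      rw [Set.Finite.mem_toFinset] at hs
      obtain ⟨a1, a2, a3, a4, a5⟩ := hs
      exact ⟨⟨a5, a1, a2, by linarith, a4⟩, a3⟩)
    omega
  have h5 : (H370.NN riemannZeta T (2 * T) : ℝ) ≤ N := by exact_mod_cast h4.trans h3.le
  have h6 : 1 ≤ Real.log T := by
    rw [Real.le_log_iff_exp_le (by linarith)]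
    have := Real.exp_one_lt_d9
    linarith
  have h7 : T ≤ T * Real.log T := le_mul_of_one_le_right (by linarith) h6
  rw [hT] at h7 h2
  linarith

/-- **the proportion of the large gaps** -/
theorem density {w q : ℝ} (hw : 0 < w) (hS : Sep w q) (hq0 : 0 < q) (hq1 : q ≤ 1) {k : ℕ} (hk : 1 ≤ k)
    {η : ℝ} (hη : 0 < η) : ∃ N0 : ℕ, ∀ N : ℕ, N0 ≤ N → (q - (1 - q) / k - η) * N ≤ G w k N := by
  have hk0 : (0 : ℝ) < k := by exact_mod_cast hk
  have hk1 : (1 : ℝ) ≤ k := by exact_mod_cast hk
  set ε := min (q / 2) (η / 4) with hε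
  have hε0 : 0 < ε := lt_min (by positivity) (by positivity)
  have hε1 : ε ≤ η / 4 := min_le_right _ _
  have hε2 : ε ≤ q / 2 := min_le_left _ _
  obtain ⟨T1, h1⟩ := hS ε hε0
  set T0 := max T1 10 with hT0
  have hT10 : (10 : ℝ) ≤ T0 := le_max_right _ _
  have hrec := recur hw hk hq1 hε0 (by linarith) hT10 (fun T hT => h1 T ((le_max_left _ _).trans hT))
  obtain ⟨N1, hN1, hord⟩ := ord_le
  set C : ℝ := (k + 1) * NZ (2 * T0) + (2 * k + 1) * 2 with hC
  -- growth
  have ev : ∀ᶠ N : ℕ in atTop, C + (2 * k + 1) * (2 * Real.log (32 * N)) ≤ k * (η / 2) * N := by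
    have h2 : ∀ᶠ x : ℝ in atTop, C + (2 * k + 1) * (2 * Real.log (32 * x)) ≤ k * (η / 2) * x := by
      have h3 : Tendsto (fun x : ℝ => 32 * x) atTop atTop := tendsto_id.const_mul_atTop (by norm_num)
      have h4 := h3.eventually (Real.isLittleO_log_id_atTop.def
        (show 0 < k * (η / 2) / (4 * 64 * (2 * k + 1)) by positivity))
      filter_upwards [h4, eventually_ge_atTop (1 : ℝ), eventually_ge_atTop (2 * C / (k * (η / 2)))] with x h5 h6 h7
      rw [Real.norm_eq_abs, Real.norm_eq_abs, id, abs_of_nonneg (Real.log_nonneg (by linarith)),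
        abs_of_nonneg (by linarith)] at h5
      rw [div_le_iff₀ (by positivity)] at h7
      have h8 : (2 * k + 1) * (2 * Real.log (32 * x)) ≤ (2 * (k : ℝ) + 1) *
          (2 * (k * (η / 2) / (4 * 64 * (2 * k + 1)) * (32 * x))) := by gcongr
      have h9 : (2 * (k : ℝ) + 1) * (2 * (k * (η / 2) / (4 * 64 * (2 * k + 1)) * (32 * x))) =
          k * (η / 2) * x / 4 := by
        field_simp
        ring
      rw [h9] at h8
      have h10 : 0 ≤ k * (η / 2) * x := by positivity
      linarith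
    exact tendsto_natCast_atTop_atTop.eventually h2
  obtain ⟨N2, hN2⟩ := eventually_atTop.1 ev
  refine ⟨max N1 N2, fun N hN => ?_⟩
  have hNN1 := (le_max_left _ _).trans hN
  have hNpos : 1 ≤ N := hN1.trans hNN1
  have hN0 : (1 : ℝ) ≤ N := by exact_mod_cast hNpos
  have h2 := hord N hNN1
  have h3 := hN2 N ((le_max_right _ _).trans hN)
  set J := ⌈Real.log (32 * N) / Real.log 2⌉₊ with hJ
  have hlog2 : (1 / 2 : ℝ) < Real.log 2 := by have := Real.log_two_gt_d9; linarith
  have hl0 : 0 ≤ Real.log (32 * N) := Real.log_nonneg (by linarith)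
  have hJ1 : (J : ℝ) ≤ 2 * Real.log (32 * N) + 1 := by
    have h4 := (Nat.ceil_lt_add_one (show 0 ≤ Real.log (32 * N) / Real.log 2 by positivity)).le
    have h5 : Real.log (32 * N) / Real.log 2 ≤ 2 * Real.log (32 * N) := by
      rw [div_le_iff₀ (by linarith)]
      nlinarith
    linarith
  have hJ2 : (32 * N : ℝ) ≤ 2 ^ J := by
    have h4 := Nat.le_ceil (Real.log (32 * N) / Real.log 2)
    rw [← hJ, div_le_iff₀ (by linarith)] at h4
    have h5 := Real.exp_le_exp.2 h4
    rw [Real.exp_log (by linarith), Real.exp_nat_mul, Real.exp_log (by norm_num)] at h5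
    exact h5
  have h4 := hrec J (ord N) (h2.trans (hJ2.trans (le_mul_of_one_le_right (by positivity) (by linarith)))) N
    (le_NZ_ord hNpos) (fun t ht => by
      by_contra hcon
      rw [not_le] at hcon
      have := (ord_le_iff hNpos t).2 hcon.le
      linarith)
  have h5 : (2 * (k : ℝ) + 1) * J ≤ (2 * k + 1) * (2 * Real.log (32 * N) + 1) := by gcongr
  have h6 : (k : ℝ) * ((q - (1 - q) / k - η) * N) ≤ k * G w k N := by
    have h7 : (k : ℝ) * ((q - (1 - q) / k - η) * N) = (k + 1) * q * N - N - k * η * N := by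
      field_simp
      ring
    rw [h7]
    have h8 : ((k : ℝ) + 1) * ε * N ≤ k * (η / 2) * N := by
      have : ((k : ℝ) + 1) * ε ≤ k * (η / 2) := by nlinarith
      exact mul_le_mul_of_nonneg_right this (by linarith)
    have h9 : (0 : ℝ) ≤ (2 * k + 1) := by positivity
    nlinarith
  exact le_of_mul_le_mul_left h6 hk0


/-! ### the separated sets -/

lemma sep_block {lam c0 : ℝ} (hlam : 0 < lam) (hlam1 : lam ≤ 1) (hc0 : 0 < c0)
    (hB : Pool.Agent.Q34.SP.BlockGain lam c0) : Sep (lam * (2 * Real.pi)) ((2 - H370.cMTinv) / c0) := by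
  classical
  intro ε hε
  obtain ⟨δ, hδ, T0, hT0, h⟩ := Pool.Agent.Q34.SP.separated H370.good_zeta hlam hlam1 hc0.le hB (c0 * ε)
    (by positivity)
  refine ⟨T0, fun T hT => ?_⟩
  have hT1 : 1 ≤ T := by linarith
  have hL : 0 < Real.log T := Real.log_pos (by linarith)
  obtain ⟨⟨A, hA1, hA2, hA3⟩, -⟩ := h T hT
  refine ⟨A, fun x hx => ?_, fun x hx y hy hxy => lt_of_le_of_lt ?_ (hA2 x hx y hy hxy), ?_⟩
  · have h1 := hA1 hx
    unfold H370.SF at h1
    rw [Finset.mem_image] at h1
    obtain ⟨s, hs, rfl⟩ := h1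
    rw [Finset.mem_filter, H370.mem_Zf H370.good_zeta hT1] at hs
    obtain ⟨⟨a1, a2, a3, a4, a5⟩, -⟩ := hs
    exact ⟨a3, a4, s, a5, a1, a2, rfl⟩
  · have hpi := Real.pi_pos
    have h2 : 0 ≤ δ * (lam * (2 * Real.pi / Real.log T)) := by positivity
    have h3 : lam * (2 * Real.pi) / Real.log T = lam * (2 * Real.pi / Real.log T) := by ring
    rw [h3]
    linarith
  · have e : (2 - H370.cMTinv) / c0 - ε = (2 - H370.cMTinv - c0 * ε) / c0 := by
      field_simp
    rw [e, div_mul_eq_mul_div, div_le_iff₀ hc0, mul_comm (A.card : ℝ)]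
    exact hA3

lemma sep_iso : ∃ κ w : ℝ, 0 < κ ∧ 0 < w ∧ Sep w (2 - H370.cMTinv + κ) := by
  classical
  obtain ⟨κ, h0, hκ, hh0, hh1, h⟩ := TH803CL.isoS_main
  set δ := min (1 / 30) (min 1 κ / 148) with hδ
  have hm : 0 < min 1 κ := lt_min one_pos hκ
  have hδ0 : 0 < δ := lt_min (by norm_num) (by positivity)
  have hδ1 : δ ≤ 1 / 30 := min_le_left _ _
  have hδ2 : δ ≤ min 1 κ / 148 := min_le_right _ _
  have hδ3 : 74 * δ ^ 2 ≤ κ / 2 := by
    have h1 : min 1 κ ≤ κ := min_le_right _ _
    nlinarith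
  obtain ⟨T0, hT0, hmain⟩ := h riemannZeta H370.good_zeta δ hδ0 hδ1
  refine ⟨κ / 2, δ / 2, by positivity, by positivity, fun ε hε => ⟨T0, fun T hT => ?_⟩⟩
  have hT10 : 10 ≤ T := hT0.trans hT
  have hL : 0 < Real.log T := Real.log_pos (by linarith)
  have h1 := hmain T hT T (Real.rpow_le_self_of_one_le (by linarith) hh1.le) le_rfl
  have e2 : T + T = 2 * T := by ring
  rw [e2] at h1
  set S := TH803CL.isoA riemannZeta T (2 * T) (δ / Real.log T) with hS
  have hmem : ∀ s ∈ S, (0 < s.re ∧ s.re < 1 ∧ T < s.im ∧ s.im ≤ 2 * T ∧ riemannZeta s = 0) ∧ s.re = 1 / 2 ∧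
      ∀ s' : ℂ, riemannZeta s' = 0 → 0 < s'.re → s'.re < 1 → s' ≠ s → δ / Real.log T ≤ ‖s - s'‖ := by
    intro s hs
    rw [hS] at hs
    unfold TH803CL.isoA at hs
    rw [Finset.mem_filter, H370.mem_Zf H370.good_zeta (by linarith : 1 ≤ T)] at hs
    obtain ⟨a, b, _, c⟩ := hs
    exact ⟨a, b, c⟩
  have hinj : Set.InjOn Complex.im S := by
    intro a ha b hb hab
    exact Complex.ext ((hmem a ha).2.1.trans (hmem b hb).2.1.symm) hab
  refine ⟨S.image Complex.im, ?_, ?_, ?_⟩
  · intro x hx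
    rw [Finset.mem_image] at hx
    obtain ⟨s, hs, rfl⟩ := hx
    obtain ⟨⟨a1, a2, a3, a4, a5⟩, -⟩ := hmem s hs
    exact ⟨a3, a4, s, a5, a1, a2, rfl⟩
  · intro x hx y hy hxy
    rw [Finset.mem_image] at hx hy
    obtain ⟨s, hs, rfl⟩ := hx
    obtain ⟨s', hs', rfl⟩ := hy
    obtain ⟨-, h2, h3⟩ := hmem s hs
    obtain ⟨⟨a1, a2, a3, a4, a5⟩, h4, -⟩ := hmem s' hs'
    have h5 := h3 s' a5 a1 a2 (fun h => hxy (by rw [h]))
    have h6 : ‖s - s'‖ = |s.im - s'.im| := by
      have : s - s' = ((s.im - s'.im : ℝ) : ℂ) * Complex.I := by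
        apply Complex.ext
        · simp [h2, h4]
        · simp
      rw [this, norm_mul, Complex.norm_I, mul_one, Complex.norm_real, Real.norm_eq_abs]
    rw [h6] at h5
    refine lt_of_lt_of_le ?_ h5
    have : 0 < δ / Real.log T := by positivity
    have e : δ / 2 / Real.log T = δ / Real.log T / 2 := by ring
    rw [e]
    linarith
  · rw [Finset.card_image_of_injOn hinj]
    refine le_trans (mul_le_mul_of_nonneg_right ?_ (Nat.cast_nonneg _)) h1
    have e : H295SI.cc 1 = H370.cMTinv := rfl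
    rw [e]
    linarith

/-! ### the exponents -/

lemma NN_add (a b : ℝ) (ha : 1 ≤ a) (hab : a ≤ b) : NZ a + H370.NN riemannZeta a b ≤ NZ b := by
  classical
  have hfin := H370.zset_finite H370.good_zeta a b ha
  have hNN : H370.NN riemannZeta a b = ∑ s ∈ hfin.toFinset, zmult s :=
    finsum_mem_eq_finite_toFinset_sum _ hfin
  rw [hNN]
  refine NZ_add_le a b hab hfin.toFinset ?_
  intro s hs
  rw [Set.Finite.mem_toFinset] at hs
  obtain ⟨a1, a2, a3, a4, a5⟩ := hs
  exact ⟨⟨a5, a1, a2, by linarith, a4⟩, a3⟩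

/-- all large gaps are `O(log n)` -/
theorem gap_log : ∃ K : ℝ, 0 < K ∧ ∀ᶠ n : ℕ in atTop, ord (n + 1) - ord n ≤ K * Real.log (32 * n) := by
  obtain ⟨C, hC, h⟩ := H965SI.countShort riemannZeta H370.good_zeta
  have hpi := Real.pi_pos
  have hpi3 := Real.pi_gt_three
  set K : ℝ := 2 * Real.pi * (C + 2) with hK
  have hK3 : 3 ≤ K := by rw [hK]; nlinarith
  refine ⟨K, by linarith, ?_⟩
  obtain ⟨N1, hN1, hord⟩ := ord_le
  have hlogT : Tendsto (fun n : ℕ => Real.log (ord n)) atTop atTop := Real.tendsto_log_atTop.comp ord_tendsto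
  have ev1 : ∀ᶠ T : ℝ in atTop, K * Real.log T ≤ T := by
    filter_upwards [Real.isLittleO_log_id_atTop.def (show 0 < 1 / K by positivity),
      eventually_ge_atTop (1 : ℝ)] with T h1 h2
    rw [Real.norm_eq_abs, Real.norm_eq_abs, id, abs_of_nonneg (Real.log_nonneg h2),
      abs_of_nonneg (by linarith), one_div, inv_mul_eq_div, le_div_iff₀ (by linarith)] at h1
    linarith
  filter_upwards [eventually_ge_atTop N1, ord_tendsto.eventually_ge_atTop 10, ord_tendsto.eventually ev1,
    hlogT.eventually_gt_atTop (C * K / 2), hlogT.eventually_ge_atTop 1] with n h1 h2 h3 h4 h5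
  have hn1 : 1 ≤ n := hN1.trans h1
  set T := ord n with hT
  have h6 := (h T h2 (K * Real.log T) (by nlinarith) h3 T (T + K * Real.log T) le_rfl (by linarith)
    (by linarith) le_rfl).1
  rw [abs_le] at h6
  have h7 : K * Real.log T * Real.log T / (2 * Real.pi) = (C + 2) * Real.log T ^ 2 := by
    rw [hK]
    field_simp
  rw [h7] at h6
  have h8 : (0 : ℝ) < H370.NN riemannZeta T (T + K * Real.log T) := by
    have h9 : C * (K * Real.log T + Real.log T ^ 2) < (C + 2) * Real.log T ^ 2 := by nlinarith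
    linarith [h6.1]
  have h9 : 0 < H370.NN riemannZeta T (T + K * Real.log T) := by exact_mod_cast h8
  have h10 := NN_add T (T + K * Real.log T) (by linarith) (by nlinarith)
  have h11 := le_NZ_ord hn1
  rw [← hT] at h11
  have h12 : ord (n + 1) ≤ T + K * Real.log T := (ord_le_iff (by omega) _).2 (by omega)
  have h13 : Real.log T ≤ Real.log (32 * n) := Real.log_le_log (by linarith) (hord n h1)
  nlinarith

/-- the indices `n ≤ N` with `n^{-ε} ≤ γ_{n+1} - γ_n ≤ n^ε` -/
def mid (ε : ℝ) (N : ℕ) : Set ℕ :=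
  {n : ℕ | 1 ≤ n ∧ n ≤ N ∧ (n : ℝ) ^ (-ε) ≤ ord (n + 1) - ord n ∧ ord (n + 1) - ord n ≤ (n : ℝ) ^ ε}

lemma log_small (A : ℝ) {ε : ℝ} (hε : 0 < ε) : ∀ᶠ n : ℕ in atTop, A * Real.log (32 * n) ≤ (n : ℝ) ^ ε := by
  have h1 : ∀ᶠ x : ℝ in atTop, A * Real.log (32 * x) ≤ x ^ ε := by
    have h2 := (isLittleO_log_rpow_atTop hε).def (show 0 < 1 / (2 * (|A| + 1)) by positivity)
    have h3 := (tendsto_rpow_atTop hε).eventually_ge_atTop (2 * (|A| + 1) * Real.log 32)
    filter_upwards [h2, h3, eventually_ge_atTop (1 : ℝ)] with x h4 h5 h6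
    rw [Real.norm_eq_abs, Real.norm_eq_abs, abs_of_nonneg (Real.log_nonneg h6),
      abs_of_nonneg (Real.rpow_nonneg (by linarith) _)] at h4
    rw [Real.log_mul (by norm_num) (by linarith)]
    have h7 : Real.log x * (2 * (|A| + 1)) ≤ x ^ ε := by
      rw [one_div, inv_mul_eq_div, le_div_iff₀ (by positivity)] at h4
      exact h4
    have h8 : 0 ≤ Real.log 32 := Real.log_nonneg (by norm_num)
    have h9 : 0 ≤ Real.log x := Real.log_nonneg h6
    have h10 : A ≤ |A| + 1 := by linarith [le_abs_self A]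
    have h11 : A * (Real.log 32 + Real.log x) ≤ (|A| + 1) * (Real.log 32 + Real.log x) :=
      mul_le_mul_of_nonneg_right h10 (by linarith)
    linarith
  exact tendsto_natCast_atTop_atTop.eventually h1

theorem exponents {w q : ℝ} (hw : 0 < w) (hS : Sep w q) (hq0 : 0 < q) (hq1 : q ≤ 1) {ε η : ℝ} (hε : 0 < ε)
    (hη : 0 < η) : ∀ᶠ N : ℕ in atTop, (q - η) * N ≤ ((mid ε N).ncard : ℝ) := by
  classical
  obtain ⟨k, hk⟩ := exists_nat_ge (3 / η)
  have hk0 : (0 : ℝ) < k := lt_of_lt_of_le (by positivity) hk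
  have hk1 : 1 ≤ k := by exact_mod_cast hk0
  have hkη : (1 - q) / k ≤ η / 3 := by
    rw [div_le_div_iff₀ hk0 (by norm_num)]
    rw [div_le_iff₀ hη] at hk
    nlinarith
  obtain ⟨N0, h0⟩ := density hw hS hq0 hq1 hk1 (show 0 < η / 3 by positivity)
  obtain ⟨K, hK, hgap⟩ := gap_log
  obtain ⟨N1, hN1, hord⟩ := ord_le
  obtain ⟨N2, h2⟩ := eventually_atTop.1 (hgap.and ((log_small K hε).and ((log_small (k / w) hε).and
    (ord_tendsto.eventually_ge_atTop 10))))
  set N3 := max N1 N2 with hN3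
  obtain ⟨N4, h4⟩ := exists_nat_ge (N3 / (η / 3))
  filter_upwards [eventually_ge_atTop N0, eventually_ge_atTop N4] with N g1 g2
  have h5 := h0 N g1
  have hfin : (mid ε N).Finite := (Set.finite_Icc 1 N).subset fun n hn => ⟨hn.1, hn.2.1⟩
  have h6 : G w k N ≤ (mid ε N).ncard + N3 := by
    unfold G
    have h7 : ((Finset.Ico 1 N).filter (fun i => w / Real.log (ord i) < k * (ord (i + 1) - ord i))) ⊆
        hfin.toFinset ∪ Finset.range N3 := by
      intro i hi
      rw [Finset.mem_filter, Finset.mem_Ico] at hi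
      rw [Finset.mem_union, Set.Finite.mem_toFinset, Finset.mem_range]
      by_cases hiN : i < N3
      · exact Or.inr hiN
      · left
        rw [not_lt] at hiN
        obtain ⟨a1, a2, a3, a4⟩ := h2 i ((le_max_right _ _).trans hiN)
        have a5 := hord i ((le_max_left _ _).trans hiN)
        have hi0 : (0 : ℝ) < i := by exact_mod_cast hi.1.1
        have hlog : 0 < Real.log (ord i) := Real.log_pos (by linarith)
        have hlog2 : Real.log (ord i) ≤ Real.log (32 * i) := Real.log_le_log (by linarith) a5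
        refine ⟨hi.1.1, hi.1.2.le, ?_, a1.trans a2⟩
        rw [Real.rpow_neg hi0.le, inv_le_comm₀ (Real.rpow_pos_of_pos hi0 _) ?_]
        · have h8 := hi.2
          rw [div_lt_iff₀ hlog] at h8
          have hg : 0 < ord (i + 1) - ord i := by
            by_contra hcon
            rw [not_lt] at hcon
            have : (k : ℝ) * (ord (i + 1) - ord i) * Real.log (ord i) ≤ 0 :=
              mul_nonpos_of_nonpos_of_nonneg (mul_nonpos_of_nonneg_of_nonpos hk0.le hcon) hlog.le
            linarith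
          refine le_trans ?_ a3
          rw [inv_le_iff_one_le_mul₀ hg]
          have h9 : (k : ℝ) * (ord (i + 1) - ord i) * Real.log (ord i) ≤
              k * (ord (i + 1) - ord i) * Real.log (32 * i) :=
            mul_le_mul_of_nonneg_left hlog2 (by positivity)
          have h10 : w * 1 ≤ w * (k / w * Real.log (32 * i) * (ord (i + 1) - ord i)) := by
            have h11 : w * (k / w * Real.log (32 * i) * (ord (i + 1) - ord i)) =
                k * (ord (i + 1) - ord i) * Real.log (32 * i) := by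
              field_simp
            rw [h11]
            linarith
          exact le_of_mul_le_mul_left h10 hw
        · by_contra hcon
          rw [not_lt] at hcon
          have h8 := hi.2
          have h9 : 0 < w / Real.log (ord i) := by positivity
          have : (k : ℝ) * (ord (i + 1) - ord i) ≤ 0 := mul_nonpos_of_nonneg_of_nonpos hk0.le hcon
          linarith
    refine (Finset.card_le_card h7).trans ((Finset.card_union_le _ _).trans ?_)
    rw [Finset.card_range, Set.ncard_eq_toFinset_card _ hfin]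
  have h7 : (G w k N : ℝ) ≤ (mid ε N).ncard + N3 := by exact_mod_cast h6
  have h8 : (N3 : ℝ) ≤ η / 3 * N := by
    rw [div_le_iff₀ (by positivity)] at h4
    have : (N4 : ℝ) ≤ N := by exact_mod_cast g2
    nlinarith
  have hN : (0 : ℝ) ≤ N := Nat.cast_nonneg N
  nlinarith [mul_le_mul_of_nonneg_right hkη hN]

end Pool.Agent.Q55.GapExp
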