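import Pool.Agent.Q55.GapExponent

/-!
# Most gaps in short intervals
-/

set_option autoImplicit false

open Filter Topology SG

namespace Pool.Agent.Q55.GapExp

/-- the gap after `γ_i` has exponent between `-ε` and `ε` -/
def OK (ε : ℝ) (i : ℕ) : Prop := (i : ℝ) ^ (-ε) ≤ ord (i + 1) - ord i ∧ ord (i + 1) - ord i ≤ (i : ℝ) ^ ε

/-- separated sets of ordinates of proportion `r` in all intervals `(T, T + H]`, `T^h ≤ H ≤ T` -/
def SepS (h w r : ℝ) : Prop := ∃ T0 : ℝ, ∀ T : ℝ, T0 ≤ T → ∀ H : ℝ, T ^ h ≤ H → H ≤ T → ∃ A : Finset ℝ,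
  (∀ x ∈ A, T < x ∧ x ≤ T + H ∧ IsOrd x) ∧
  (∀ x ∈ A, ∀ y ∈ A, x ≠ y → w / Real.log T < |x - y|) ∧
  r * (H370.NN riemannZeta T (T + H) : ℝ) ≤ A.card

lemma isoA_sets {T U δ : ℝ} (hT10 : 10 ≤ T) (hδ0 : 0 < δ) : ∃ A : Finset ℝ,
    (∀ x ∈ A, T < x ∧ x ≤ U ∧ IsOrd x) ∧
    (∀ x ∈ A, ∀ y ∈ A, x ≠ y → δ / 2 / Real.log T < |x - y|) ∧
    (TH803CL.isoA riemannZeta T U (δ / Real.log T)).card = A.card := by
  classical
  have hL : 0 < Real.log T := Real.log_pos (by linarith)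
  set S := TH803CL.isoA riemannZeta T U (δ / Real.log T) with hS
  have hmem : ∀ s ∈ S, (0 < s.re ∧ s.re < 1 ∧ T < s.im ∧ s.im ≤ U ∧ riemannZeta s = 0) ∧ s.re = 1 / 2 ∧
      ∀ s' : ℂ, riemannZeta s' = 0 → 0 < s'.re → s'.re < 1 → s' ≠ s → δ / Real.log T ≤ ‖s - s'‖ := by
    intro s hs
    rw [hS] at hs
    unfold TH803CL.isoA at hs
    rw [Finset.mem_filter, H370.mem_Zf H370.good_zeta (by linarith : 1 ≤ T)] at hs
    obtain ⟨a, b, _, c⟩ := hs
    exact ⟨a, b, c⟩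
  have hinj : Set.InjOn Complex.im S := by
    intro a ha b hb hab
    exact Complex.ext ((hmem a ha).2.1.trans (hmem b hb).2.1.symm) hab
  refine ⟨S.image Complex.im, ?_, ?_, ?_⟩
  · intro x hx
    rw [Finset.mem_image] at hx
    obtain ⟨s, hs, rfl⟩ := hx
    obtain ⟨⟨a1, a2, a3, a4, a5⟩, -⟩ := hmem s hs
    exact ⟨a3, a4, s, a5, a1, a2, rfl⟩
  · intro x hx y hy hxy
    rw [Finset.mem_image] at hx hy
    obtain ⟨s, hs, rfl⟩ := hx
    obtain ⟨s', hs', rfl⟩ := hy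
    obtain ⟨-, h2, h3⟩ := hmem s hs
    obtain ⟨⟨a1, a2, a3, a4, a5⟩, h4, -⟩ := hmem s' hs'
    have h5 := h3 s' a5 a1 a2 (fun h => hxy (by rw [h]))
    have h6 : ‖s - s'‖ = |s.im - s'.im| := by
      have : s - s' = ((s.im - s'.im : ℝ) : ℂ) * Complex.I := by
        apply Complex.ext
        · simp [h2, h4]
        · simp
      rw [this, norm_mul, Complex.norm_I, mul_one, Complex.norm_real, Real.norm_eq_abs]
    rw [h6] at h5
    refine lt_of_lt_of_le ?_ h5
    have : 0 < δ / Real.log T := by positivity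
    have e : δ / 2 / Real.log T = δ / Real.log T / 2 := by ring
    rw [e]
    linarith
  · rw [Finset.card_image_of_injOn hinj]

lemma sepS_iso {h ε : ℝ} (h0 : 0 < h) (h1 : h ≤ 1) (hε : 0 < ε) :
    ∃ w : ℝ, 0 < w ∧ SepS h w (2 - H295SI.cc h - ε) := by
  set δ := min (1 / 10) (min 1 ε / 148) with hδ
  have hm : 0 < min 1 ε := lt_min one_pos hε
  have hδ0 : 0 < δ := lt_min (by norm_num) (by positivity)
  have hδ1 : δ ≤ 1 / 10 := min_le_left _ _
  have hδ2 : δ ≤ min 1 ε / 148 := min_le_right _ _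
  have hδ3 : 74 * δ ^ 2 ≤ ε / 2 := by
    have h1 : min 1 ε ≤ ε := min_le_right _ _
    nlinarith
  obtain ⟨T0, hT0, hmain⟩ := TH803CL.iso_main H370.good_zeta h (ε / 2) δ h0 h1 (by positivity) hδ0 hδ1
  refine ⟨δ / 2, by positivity, T0, fun T hT H hH1 hH2 => ?_⟩
  obtain ⟨A, a1, a2, a3⟩ := isoA_sets (T := T) (U := T + H) (δ := δ) (hT0.trans hT) hδ0
  refine ⟨A, a1, a2, ?_⟩
  rw [← a3]
  refine le_trans (mul_le_mul_of_nonneg_right ?_ (Nat.cast_nonneg _)) (hmain T hT H hH1 hH2)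
  linarith

lemma sepS_beyond : ∃ κ h w : ℝ, 0 < κ ∧ 0 < h ∧ h < 1 ∧ 0 < w ∧ SepS h w (2 - H370.cMTinv + κ) := by
  obtain ⟨κ, h0, hκ, hh0, hh1, h⟩ := TH803CL.isoS_main
  set δ := min (1 / 30) (min 1 κ / 148) with hδ
  have hm : 0 < min 1 κ := lt_min one_pos hκ
  have hδ0 : 0 < δ := lt_min (by norm_num) (by positivity)
  have hδ1 : δ ≤ 1 / 30 := min_le_left _ _
  have hδ2 : δ ≤ min 1 κ / 148 := min_le_right _ _
  have hδ3 : 74 * δ ^ 2 ≤ κ / 2 := by
    have h1 : min 1 κ ≤ κ := min_le_right _ _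
    nlinarith
  obtain ⟨T0, hT0, hmain⟩ := h riemannZeta H370.good_zeta δ hδ0 hδ1
  refine ⟨κ / 2, h0, δ / 2, by positivity, hh0, hh1, by positivity, T0, fun T hT H hH1 hH2 => ?_⟩
  obtain ⟨A, a1, a2, a3⟩ := isoA_sets (T := T) (U := T + H) (δ := δ) (hT0.trans hT) hδ0
  refine ⟨A, a1, a2, ?_⟩
  rw [← a3]
  refine le_trans (mul_le_mul_of_nonneg_right ?_ (Nat.cast_nonneg _)) (hmain T hT H hH1 hH2)
  have e : H295SI.cc 1 = H370.cMTinv := rfl
  rw [e]
  linarith

/-- many zeros -/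
lemma many {h : ℝ} (h0 : 0 < h) (B : ℝ) : ∃ T1 : ℝ, ∀ T : ℝ, T1 ≤ T → ∀ H : ℝ, T ^ h ≤ H → H ≤ T →
    B ≤ (NZ (T + H) : ℝ) - NZ T := by
  obtain ⟨C, hC, hc⟩ := H965SI.countShort riemannZeta H370.good_zeta
  have ev : ∀ᶠ T : ℝ in atTop, 10 ≤ T ∧ 3 ≤ T ^ h ∧ 2 * Real.pi * (C + 1) ≤ Real.log T ∧
      C * Real.log T ^ 2 + B ≤ T ^ h := by
    have h2 := (isLittleO_log_rpow_atTop (show 0 < h / 2 by positivity)).def
      (show 0 < Real.sqrt (1 / (2 * C)) by positivity)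
    filter_upwards [eventually_ge_atTop (10 : ℝ), (tendsto_rpow_atTop h0).eventually_ge_atTop 3,
      Real.tendsto_log_atTop.eventually_ge_atTop (2 * Real.pi * (C + 1)),
      (tendsto_rpow_atTop h0).eventually_ge_atTop (2 * B), h2] with T a1 a2 a3 a4 a5
    refine ⟨a1, a2, a3, ?_⟩
    rw [Real.norm_eq_abs, Real.norm_eq_abs, abs_of_nonneg (Real.log_nonneg (by linarith)),
      abs_of_nonneg (Real.rpow_nonneg (by linarith) _)] at a5
    have h6 : Real.log T ^ 2 ≤ (Real.sqrt (1 / (2 * C)) * T ^ (h / 2)) ^ 2 :=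
      pow_le_pow_left₀ (Real.log_nonneg (by linarith)) a5 2
    rw [mul_pow, Real.sq_sqrt (by positivity), ← Real.rpow_natCast (T ^ (h / 2)), ← Real.rpow_mul (by linarith)] at h6
    have e : h / 2 * ((2 : ℕ) : ℝ) = h := by push_cast; ring
    rw [e] at h6
    have h7 : C * Real.log T ^ 2 ≤ C * (1 / (2 * C) * T ^ h) := mul_le_mul_of_nonneg_left h6 hC.le
    have h8 : C * (1 / (2 * C) * T ^ h) = T ^ h / 2 := by field_simp
    rw [h8] at h7
    linarith
  obtain ⟨T1, hT1⟩ := eventually_atTop.1 ev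
  refine ⟨T1, fun T hT H hH1 hH2 => ?_⟩
  obtain ⟨a1, a2, a3, a4⟩ := hT1 T hT
  have h3 := (hc T a1 H (a2.trans hH1) hH2 T (T + H) le_rfl (by linarith) (by linarith) le_rfl).1
  rw [abs_le] at h3
  have hpi := Real.pi_pos
  have h4 : H * (C + 1) ≤ H * Real.log T / (2 * Real.pi) := by
    rw [le_div_iff₀ (by positivity)]
    have hH0 : 0 ≤ H := by linarith
    nlinarith [mul_le_mul_of_nonneg_left a3 hH0]
  have h5 := NN_add T (T + H) (by linarith) (by linarith)
  have h6 : (NZ T : ℝ) + H370.NN riemannZeta T (T + H) ≤ NZ (T + H) := by exact_mod_cast h5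
  have h7 : C * (H + Real.log T ^ 2) = C * H + C * Real.log T ^ 2 := by ring
  linarith [h3.1]

/-- the large good indices are `OK` -/
lemma good_ok {w : ℝ} (hw : 0 < w) {k : ℕ} (hk : 1 ≤ k) {ε : ℝ} (hε : 0 < ε) : ∃ N0 : ℕ, ∀ i : ℕ, N0 ≤ i →
    w / Real.log (ord i) < k * (ord (i + 1) - ord i) → OK ε i := by
  have hk0 : (0 : ℝ) < k := by exact_mod_cast hk
  obtain ⟨K, hK, hgap⟩ := gap_log
  obtain ⟨N1, hN1, hord⟩ := ord_le
  obtain ⟨N2, h2⟩ := eventually_atTop.1 (hgap.and ((log_small K hε).and ((log_small (k / w) hε).and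
    (ord_tendsto.eventually_ge_atTop 10))))
  refine ⟨max N1 N2, fun i hi hgood => ?_⟩
  obtain ⟨a1, a2, a3, a4⟩ := h2 i ((le_max_right _ _).trans hi)
  have a5 := hord i ((le_max_left _ _).trans hi)
  have hi1 : 1 ≤ i := hN1.trans ((le_max_left _ _).trans hi)
  have hi0 : (0 : ℝ) < i := by exact_mod_cast hi1
  have hlog : 0 < Real.log (ord i) := Real.log_pos (by linarith)
  have hlog2 : Real.log (ord i) ≤ Real.log (32 * i) := Real.log_le_log (by linarith) a5
  have hg : 0 < ord (i + 1) - ord i := by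
    by_contra hcon
    rw [not_lt] at hcon
    have h9 : 0 < w / Real.log (ord i) := by positivity
    have : (k : ℝ) * (ord (i + 1) - ord i) ≤ 0 := mul_nonpos_of_nonneg_of_nonpos hk0.le hcon
    linarith
  refine ⟨?_, a1.trans a2⟩
  rw [Real.rpow_neg hi0.le, inv_le_comm₀ (Real.rpow_pos_of_pos hi0 _) hg]
  rw [div_lt_iff₀ hlog] at hgood
  refine le_trans ?_ a3
  rw [inv_le_iff_one_le_mul₀ hg]
  have h9 : (k : ℝ) * (ord (i + 1) - ord i) * Real.log (ord i) ≤
      k * (ord (i + 1) - ord i) * Real.log (32 * i) :=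
    mul_le_mul_of_nonneg_left hlog2 (by positivity)
  have h10 : w * 1 ≤ w * (k / w * Real.log (32 * i) * (ord (i + 1) - ord i)) := by
    have h11 : w * (k / w * Real.log (32 * i) * (ord (i + 1) - ord i)) =
        k * (ord (i + 1) - ord i) * Real.log (32 * i) := by
      field_simp
    rw [h11]
    linarith
  exact le_of_mul_le_mul_left h10 hw

open Classical in
/-- the indices `i` with `T < γ_i ≤ T + H` and an exceptional gap -/
noncomputable def bad (ε a b : ℝ) : Finset ℕ := (Finset.Ioc (NZ a) (NZ b)).filter (fun i => ¬ OK ε i)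

theorem bad_le {h w r : ℝ} (h0 : 0 < h) (hw : 0 < w) (hr0 : 0 ≤ r) (hS : SepS h w r) {ε η : ℝ}
    (hε : 0 < ε) (hη : 0 < η) : ∃ T1 : ℝ, ∀ T : ℝ, T1 ≤ T → ∀ H : ℝ, T ^ h ≤ H → H ≤ T →
      ((bad ε T (T + H)).card : ℝ) ≤ (1 - r + η) * ((NZ (T + H) : ℝ) - NZ T) := by
  classical
  obtain ⟨k, hk⟩ := exists_nat_ge (2 / η)
  have hk0 : (0 : ℝ) < k := lt_of_lt_of_le (by positivity) hk
  have hk1 : 1 ≤ k := by exact_mod_cast hk0
  have hk2 : (1 : ℝ) ≤ k := by exact_mod_cast hk1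
  have hkη : 2 ≤ η * k := by
    rw [div_le_iff₀ hη] at hk
    linarith
  obtain ⟨N0, hN0⟩ := good_ok hw hk1 hε
  obtain ⟨T0, hS⟩ := hS
  obtain ⟨T2, hT2⟩ := many h0 (8 / η)
  obtain ⟨t, ht⟩ := NZ_unbounded (N0 + 1)
  refine ⟨max (max T0 T2) (max t 10), fun T hT H hH1 hH2 => ?_⟩
  have a1 := ((le_max_left T0 T2).trans (le_max_left _ _)).trans hT
  have a2 := ((le_max_right T0 T2).trans (le_max_left _ _)).trans hT
  have a3 := ((le_max_left t 10).trans (le_max_right _ _)).trans hT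
  have a4 := ((le_max_right t 10).trans (le_max_right _ _)).trans hT
  have hH0 : 0 < H := lt_of_lt_of_le (Real.rpow_pos_of_pos (by linarith) _) hH1
  obtain ⟨A, b1, b2, b3⟩ := hS T a1 H hH1 hH2
  have hB := hT2 T a2 H hH1 hH2
  have hNT : N0 + 1 ≤ NZ T := ht.trans (NZ_mono a3)
  have hab : NZ T ≤ NZ (T + H) := NZ_mono (by linarith)
  have c1 := block hw hk1 a4 A b1 b2 (NZ (T + H)) (by linarith) (fun t ht => NZ_mono ht.le)
  have c2 : (NZ (T + H) : ℝ) - NZ T ≤ H370.NN riemannZeta T (T + H) := by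
    have h6 := NZ_le_add T (T + H) (by linarith)
    have h7 : (NZ (T + H) : ℝ) ≤ NZ T + H370.NN riemannZeta T (T + H) := by exact_mod_cast h6
    linarith
  set B : ℝ := (NZ (T + H) : ℝ) - NZ T with hBdef
  have c3 : r * B ≤ A.card := (mul_le_mul_of_nonneg_left c2 hr0).trans b3
  -- the difference of `G`
  have c4 : G w k (NZ (T + H)) ≤ G w k (NZ T) + 1 + ((Finset.Ioc (NZ T) (NZ (T + H))).filter (fun i => OK ε i)).card := by
    unfold G
    have h7 : ((Finset.Ico 1 (NZ (T + H))).filter (fun i => w / Real.log (ord i) < k * (ord (i + 1) - ord i))) ⊆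
        (((Finset.Ico 1 (NZ T)).filter (fun i => w / Real.log (ord i) < k * (ord (i + 1) - ord i))) ∪ {NZ T}) ∪
          ((Finset.Ioc (NZ T) (NZ (T + H))).filter (fun i => OK ε i)) := by
      intro i hi
      rw [Finset.mem_filter, Finset.mem_Ico] at hi
      simp only [Finset.mem_union, Finset.mem_filter, Finset.mem_Ico, Finset.mem_singleton, Finset.mem_Ioc]
      rcases lt_trichotomy i (NZ T) with h | h | h
      · exact Or.inl (Or.inl ⟨⟨hi.1.1, h⟩, hi.2⟩)
      · exact Or.inl (Or.inr h)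
      · exact Or.inr ⟨⟨h, hi.1.2.le⟩, hN0 i (by omega) hi.2⟩
    refine (Finset.card_le_card h7).trans ((Finset.card_union_le _ _).trans ?_)
    refine Nat.add_le_add_right ((Finset.card_union_le _ _).trans ?_) _
    rw [Finset.card_singleton]
  have c5 : ((Finset.Ioc (NZ T) (NZ (T + H))).filter (fun i => OK ε i)).card + (bad ε T (T + H)).card =
      NZ (T + H) - NZ T := by
    unfold bad
    rw [Finset.card_filter_add_card_filter_not, Nat.card_Ioc]
  have c6 : (((Finset.Ioc (NZ T) (NZ (T + H))).filter (fun i => OK ε i)).card : ℝ) + (bad ε T (T + H)).card = B := by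
    rw [hBdef, ← Nat.cast_sub hab, ← c5]
    push_cast
    ring
  have c7 : (G w k (NZ (T + H)) : ℝ) - G w k (NZ T) ≤
      1 + ((Finset.Ioc (NZ T) (NZ (T + H))).filter (fun i => OK ε i)).card := by
    have : (G w k (NZ (T + H)) : ℝ) ≤ G w k (NZ T) + 1 +
      ((Finset.Ioc (NZ T) (NZ (T + H))).filter (fun i => OK ε i)).card := by exact_mod_cast c4
    linarith
  have hB0 : 0 ≤ B := le_trans (by positivity) hB
  rw [div_le_iff₀ hη] at hB
  -- combine
  have c8 : ((k : ℝ) + 1) * (r * B) ≤ (k + 1) * A.card := mul_le_mul_of_nonneg_left c3 (by positivity)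
  have c9 : (k : ℝ) * ((bad ε T (T + H)).card : ℝ) ≤ k * ((1 - r + η) * B) := by
    have d1 : (k : ℝ) * ((G w k (NZ (T + H)) : ℝ) - G w k (NZ T) + 1) ≤
        k * (2 + (B - (bad ε T (T + H)).card)) := by
      refine mul_le_mul_of_nonneg_left ?_ hk0.le
      linarith
    have d2 : 2 * B ≤ η * k * B := mul_le_mul_of_nonneg_right hkη hB0
    have d3 : (8 : ℝ) * k ≤ k * (B * η) := by nlinarith
    have d4 : 0 ≤ r * B := mul_nonneg hr0 hB0
    nlinarith
  exact le_of_mul_le_mul_left c9 hk0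


/-- the indices `n` with `T < γ_n ≤ T + H` for which `m` consecutive gaps are `OK` -/
def fine (ε : ℝ) (m : ℕ) (T H : ℝ) : Set ℕ :=
  {n : ℕ | 1 ≤ n ∧ T < ord n ∧ ord n ≤ T + H ∧ ∀ j < m, OK ε (n + j)}

lemma fine_finite (ε : ℝ) (m : ℕ) (T H : ℝ) : (fine ε m T H).Finite := by
  refine (Set.finite_Icc 1 (NZ (T + H))).subset fun n hn => ⟨hn.1, (ord_le_iff hn.1 _).1 hn.2.2.1⟩

lemma fine_ge (ε : ℝ) (m : ℕ) {T H : ℝ} (hH : 0 ≤ H) :
    (NZ (T + H) : ℝ) - NZ T ≤ (fine ε m T H).ncard + m * ((bad ε T (T + H)).card + m) := by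
  classical
  have hab : NZ T ≤ NZ (T + H) := NZ_mono (by linarith)
  have h1 : Finset.Ioc (NZ T) (NZ (T + H)) ⊆ (fine_finite ε m T H).toFinset ∪
      (Finset.range m).biUnion (fun j => ((bad ε T (T + H)).image (fun i => i - j)) ∪
        ((Finset.Ioc (NZ (T + H)) (NZ (T + H) + j)).image (fun i => i - j))) := by
    intro n hn
    rw [Finset.mem_Ioc] at hn
    rw [Finset.mem_union, Set.Finite.mem_toFinset]
    by_cases hf : ∀ j < m, OK ε (n + j)
    · left
      have h1n : 1 ≤ n := by omega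
      refine ⟨h1n, ?_, (ord_le_iff h1n _).2 hn.2, hf⟩
      by_contra hcon
      rw [not_lt, ord_le_iff h1n] at hcon
      omega
    · right
      push Not at hf
      obtain ⟨j, hj, hbad⟩ := hf
      rw [Finset.mem_biUnion]
      refine ⟨j, Finset.mem_range.2 hj, ?_⟩
      rw [Finset.mem_union, Finset.mem_image, Finset.mem_image]
      by_cases hle : n + j ≤ NZ (T + H)
      · left
        refine ⟨n + j, ?_, by omega⟩
        unfold bad
        rw [Finset.mem_filter, Finset.mem_Ioc]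
        exact ⟨⟨by omega, hle⟩, hbad⟩
      · right
        refine ⟨n + j, ?_, by omega⟩
        rw [Finset.mem_Ioc]
        omega
  have h2 := Finset.card_le_card h1
  rw [Nat.card_Ioc] at h2
  have h3 : ((Finset.range m).biUnion (fun j => ((bad ε T (T + H)).image (fun i => i - j)) ∪
        ((Finset.Ioc (NZ (T + H)) (NZ (T + H) + j)).image (fun i => i - j)))).card ≤
      m * ((bad ε T (T + H)).card + m) := by
    refine (Finset.card_biUnion_le_card_mul _ _ ((bad ε T (T + H)).card + m) ?_).trans ?_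
    · intro j hj
      rw [Finset.mem_range] at hj
      refine (Finset.card_union_le _ _).trans ?_
      have h4 : ((bad ε T (T + H)).image (fun i => i - j)).card ≤ (bad ε T (T + H)).card := Finset.card_image_le
      have h5 : ((Finset.Ioc (NZ (T + H)) (NZ (T + H) + j)).image (fun i => i - j)).card ≤ j := by
        refine Finset.card_image_le.trans ?_
        rw [Nat.card_Ioc]
        omega
      omega
    · rw [Finset.card_range]
  have h4 := h2.trans ((Finset.card_union_le _ _).trans (Nat.add_le_add_left h3 _))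
  rw [← Set.ncard_eq_toFinset_card _ (fine_finite ε m T H)] at h4
  rw [← Nat.cast_sub hab]
  exact_mod_cast h4

theorem fine_le {h w r : ℝ} (h0 : 0 < h) (hw : 0 < w) (hr0 : 0 ≤ r) (hS : SepS h w r) {ε η : ℝ}
    (hε : 0 < ε) (hη : 0 < η) {m : ℕ} (hm : 1 ≤ m) :
    ∃ T1 : ℝ, ∀ T : ℝ, T1 ≤ T → ∀ H : ℝ, T ^ h ≤ H → H ≤ T →
      (1 - m * (1 - r) - η) * ((NZ (T + H) : ℝ) - NZ T) ≤ ((fine ε m T H).ncard : ℝ) := by
  have hm0 : (0 : ℝ) < m := by exact_mod_cast hm
  obtain ⟨T1, h1⟩ := bad_le h0 hw hr0 hS hε (show 0 < η / (2 * m) by positivity)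
  obtain ⟨T2, h2⟩ := many h0 (2 * m ^ 2 / η)
  refine ⟨max (max T1 T2) 1, fun T hT H hH1 hH2 => ?_⟩
  have a1 := ((le_max_left T1 T2).trans (le_max_left _ _)).trans hT
  have a2 := ((le_max_right T1 T2).trans (le_max_left _ _)).trans hT
  have a3 := (le_max_right (max T1 T2) 1).trans hT
  have hH0 : 0 < H := lt_of_lt_of_le (Real.rpow_pos_of_pos (by linarith) _) hH1
  have b1 := h1 T a1 H hH1 hH2
  have b2 := h2 T a2 H hH1 hH2
  have b3 := fine_ge ε m (T := T) hH0.le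
  set B : ℝ := (NZ (T + H) : ℝ) - NZ T with hB
  rw [div_le_iff₀ hη] at b2
  have b4 : (m : ℝ) * ((bad ε T (T + H)).card : ℝ) ≤ m * ((1 - r + η / (2 * m)) * B) :=
    mul_le_mul_of_nonneg_left b1 hm0.le
  have b5 : (m : ℝ) * ((1 - r + η / (2 * m)) * B) = m * (1 - r) * B + η / 2 * B := by
    field_simp
  rw [b5] at b4
  nlinarith

end Pool.Agent.Q55.GapExp
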