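import Mathlib

set_option autoImplicit false

/-! # Two subtractive gcd recursions with congruent data and small total loss -/

namespace Pool.Agent.Q55.GcdWalk

/-- `a n = a (n-1) - gcd (a (n-1)) (V n)` for `n ≥ 2` -/
def Rec (a V : ℕ → ℤ) : Prop :=
  ∀ n : ℕ, 2 ≤ n → a n = a (n - 1) - ((Int.gcd (a (n - 1)) (V n) : ℕ) : ℤ)

lemma Rec.step {a V : ℕ → ℤ} (h : Rec a V) {k : ℕ} (hk : 1 ≤ k) :
    a (k + 1) = a k - ((Int.gcd (a k) (V (k + 1)) : ℕ) : ℤ) := by
  have := h (k + 1) (by omega)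
  rwa [Nat.add_sub_cancel] at this

lemma Rec.desc {a V : ℕ → ℤ} (h : Rec a V) {T : ℕ} (hpos : ∀ k, 1 ≤ k → k < T → 0 < a k) {k : ℕ}
    (hk : 1 ≤ k) : ∀ m, k ≤ m → m ≤ T → a m ≤ a k - ((m : ℤ) - k) := by
  intro m hm
  induction m, hm using Nat.le_induction with
  | base => intro _; simp
  | succ m hkm ih =>
    intro hmT
    have h1 := ih (by omega)
    have h2 := h.step (k := m) (by omega)
    have h3 : 0 < Int.gcd (a m) (V (m + 1)) := by
      apply Int.gcd_pos_of_ne_zero_left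
      exact (hpos m (by omega) (by omega)).ne'
    push_cast
    omega

/-- a gcd exceeds the total loss by at most one -/
lemma Rec.gcd_le {a V : ℕ → ℤ} (h : Rec a V) {T w : ℕ} (hpos : ∀ k, 1 ≤ k → k < T → 0 < a k)
    (hl : a 1 - ((T : ℤ) - 1) - a T < w) {k : ℕ} (hk : 1 ≤ k) (hkT : k < T) :
    Int.gcd (a k) (V (k + 1)) ≤ w := by
  have h1 := h.desc hpos (k := 1) le_rfl k hk hkT.le
  have h2 := h.desc hpos (k := k + 1) (by omega) T (by omega) le_rfl
  have h3 := h.step hk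
  push_cast at h2 h1
  omega

theorem agree {a a' V V' : ℕ → ℤ} {M w T : ℕ} {Δ : ℤ} (hM : ∀ q : ℕ, 1 ≤ q → q ≤ w → q ∣ M)
    (h : Rec a V) (h' : Rec a' V') (hΔ : a 1 - a' 1 = Δ) (hMΔ : (M : ℤ) ∣ Δ)
    (hV : ∀ n, (M : ℤ) ∣ V n - V' n)
    (hpos : ∀ k, 1 ≤ k → k < T → 0 < a k) (hpos' : ∀ k, 1 ≤ k → k < T → 0 < a' k)
    (hl : a 1 - ((T : ℤ) - 1) - a T < w) (hl' : a' 1 - ((T : ℤ) - 1) - a' T < w) :
    ∀ k, 1 ≤ k → k ≤ T → a k - a' k = Δ := by
  intro k hk
  induction k, hk using Nat.le_induction with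
  | base => intro _; exact hΔ
  | succ k hk ih =>
    intro hkT
    have h1 := ih (by omega)
    have h2 := h.gcd_le hpos hl hk (by omega)
    have h2' := h'.gcd_le hpos' hl' hk (by omega)
    have hg : 0 < Int.gcd (a k) (V (k + 1)) :=
      Int.gcd_pos_of_ne_zero_left _ (hpos k hk (by omega)).ne'
    have hg' : 0 < Int.gcd (a' k) (V' (k + 1)) :=
      Int.gcd_pos_of_ne_zero_left _ (hpos' k hk (by omega)).ne'
    have e1 : a' k = a k - Δ := by linarith
    have key : ∀ q : ℕ, 1 ≤ q → q ≤ w → ((q : ℤ) ∣ a k ↔ (q : ℤ) ∣ a' k) ∧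
        ((q : ℤ) ∣ V (k + 1) ↔ (q : ℤ) ∣ V' (k + 1)) := by
      intro q hq1 hqw
      have hqM : (q : ℤ) ∣ M := Int.natCast_dvd_natCast.2 (hM q hq1 hqw)
      constructor
      · rw [e1]
        exact (dvd_sub_left (hqM.trans hMΔ)).symm
      · have h3 := hqM.trans (hV (k + 1))
        constructor
        · intro h4
          have := dvd_sub h4 h3
          rwa [sub_sub_cancel] at this
        · intro h4
          have := dvd_add h3 h4
          rwa [sub_add_cancel] at this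
    have hd1 : Int.gcd (a k) (V (k + 1)) ∣ Int.gcd (a' k) (V' (k + 1)) := by
      obtain ⟨k1, k2⟩ := key _ hg h2
      have := Int.dvd_coe_gcd (k1.1 (Int.gcd_dvd_left _ _)) (k2.1 (Int.gcd_dvd_right _ _))
      exact_mod_cast this
    have hd2 : Int.gcd (a' k) (V' (k + 1)) ∣ Int.gcd (a k) (V (k + 1)) := by
      obtain ⟨k1, k2⟩ := key _ hg' h2'
      have := Int.dvd_coe_gcd (k1.2 (Int.gcd_dvd_left _ _)) (k2.2 (Int.gcd_dvd_right _ _))
      exact_mod_cast this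
    have he := Nat.dvd_antisymm hd1 hd2
    rw [h.step hk, h'.step hk, he]
    linarith

theorem stay {a V : ℕ → ℤ} {w T T' : ℕ} (h : Rec a V) (hT : 1 ≤ T)
    (hpos : ∀ k, 1 ≤ k → k < T' → 0 < a k) (hl : a 1 - ((T' : ℤ) - 1) - a T' < w)
    (hno : ∀ k, T ≤ k → k < T' → a k = a T - ((k : ℤ) - T) → ∀ p : ℕ, p.Prime → p ≤ w →
      (p : ℤ) ∣ a k → ¬ (p : ℤ) ∣ V (k + 1)) :
    ∀ k, T ≤ k → k ≤ T' → a k = a T - ((k : ℤ) - T) := by
  intro k hk
  induction k, hk using Nat.le_induction with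
  | base => intro _; simp
  | succ k hk ih =>
    intro hkT
    have h1 := ih (by omega)
    have h2 := h.gcd_le hpos hl (k := k) (by omega) (by omega)
    have hg : 0 < Int.gcd (a k) (V (k + 1)) :=
      Int.gcd_pos_of_ne_zero_left _ (hpos k (by omega) (by omega)).ne'
    have hone : Int.gcd (a k) (V (k + 1)) = 1 := by
      by_contra hne
      have hp := Nat.minFac_prime hne
      have hd := Nat.minFac_dvd (Int.gcd (a k) (V (k + 1)))
      have hle := (Nat.minFac_le hg).trans h2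
      have hd' : ((Nat.minFac (Int.gcd (a k) (V (k + 1))) : ℕ) : ℤ) ∣ (Int.gcd (a k) (V (k + 1)) : ℤ) :=
        Int.natCast_dvd_natCast.2 hd
      exact hno k hk (by omega) h1 _ hp hle (hd'.trans (Int.gcd_dvd_left _ _))
        (hd'.trans (Int.gcd_dvd_right _ _))
    rw [h.step (by omega), hone, h1]
    push_cast
    ring

/-- the recursion for Goldbach pairs, with its least zero `g` -/
def W1 (N g : ℕ) : Prop :=
  ∃ a : ℕ → ℤ, a 1 = (N : ℤ) - 2 ∧
    (∀ n : ℕ, 2 ≤ n → a n = a (n - 1) -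
      ((Int.gcd (a (n - 1)) ((N : ℤ) - (-1) ^ n * ((N : ℤ) - n)) : ℕ) : ℤ)) ∧
    IsLeast {n : ℕ | 2 ≤ n ∧ a n = 0} g

/-- positivity before the first zero -/
lemma pos_of {a V : ℕ → ℤ} (h : Rec a V) {f : ℕ} (h1 : 0 < a 1)
    (hne : ∀ k, 1 ≤ k → k < f → a k ≠ 0) : ∀ k, 1 ≤ k → k < f → 0 < a k := by
  intro k hk
  induction k, hk using Nat.le_induction with
  | base => intro _; exact h1
  | succ k hk ih =>
    intro hkf
    have h2 := ih (by omega)
    have h3 := h.step hk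
    have h4 := Int.le_of_dvd h2 (Int.gcd_dvd_left (a k) (V (k + 1)))
    have h5 := hne (k + 1) (by omega) hkf
    omega

lemma W1.pack {N g : ℕ} (hN : 3 ≤ N) (h : W1 N g) : ∃ a : ℕ → ℤ, a 1 = (N : ℤ) - 2 ∧
    Rec a (fun n => (N : ℤ) - (-1) ^ n * ((N : ℤ) - n)) ∧ a g = 0 ∧ 2 ≤ g ∧
    (∀ k, 1 ≤ k → k < g → 0 < a k) ∧ g + 1 ≤ N := by
  obtain ⟨a, ha1, ha, ⟨hg2, hag⟩, hmin⟩ := h
  have hrec : Rec a (fun n => (N : ℤ) - (-1) ^ n * ((N : ℤ) - n)) := ha
  have hpos : ∀ k, 1 ≤ k → k < g → 0 < a k := by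
    apply pos_of hrec (by omega)
    intro k hk1 hk2 hk3
    rcases Nat.lt_or_ge k 2 with h2 | h2
    · have : k = 1 := by omega
      subst this
      omega
    · have := hmin ⟨h2, hk3⟩
      omega
  refine ⟨a, ha1, hrec, hag, hg2, hpos, ?_⟩
  have := hrec.desc hpos (k := 1) le_rfl g (by omega) le_rfl
  push_cast at this
  omega

/-- for `N ≥ 2208` the two numbers are prime if the loss is at most `2N/9` -/
lemma W1.prime_of_dich {N g D : ℕ}
    (hLD : ∀ N : ℕ, 3 ≤ N → ∀ a : ℕ → ℤ, a 1 = (N : ℤ) - 2 →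
      (∀ n : ℕ, 2 ≤ n → a n = a (n - 1) -
        ((Int.gcd (a (n - 1)) ((N : ℤ) - (-1) ^ n * ((N : ℤ) - n)) : ℕ) : ℤ)) →
      ∀ g : ℕ, IsLeast {n : ℕ | 2 ≤ n ∧ a n = 0} g →
        ((Nat.Prime (g + 1) ∧ Nat.Prime (2 * N - g - 1)) ∨
          4 * g + 3 ≤ 3 * N + 2 * Nat.sqrt (2 * N - g - 1)) ∧
        (2208 ≤ N → 7 * N ≤ 9 * g → Nat.Prime (g + 1) ∧ Nat.Prime (2 * N - g - 1)))
    (hN : 2208 ≤ N) (h : W1 N g) (hD : N ≤ g + D) (hDN : 9 * D ≤ 2 * N) :
    Nat.Prime (g + 1) ∧ Nat.Prime (2 * N - g - 1) := by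
  obtain ⟨a, ha1, ha, hg⟩ := h
  exact (hLD N (by omega) a ha1 ha g hg).2 hN (by omega)

lemma V_even (N : ℕ) {n : ℕ} (hn : n % 2 = 0) : (N : ℤ) - (-1) ^ n * ((N : ℤ) - n) = n := by
  have : Even n := Nat.even_iff.mpr hn
  rw [this.neg_one_pow]; ring

lemma V_odd (N : ℕ) {n : ℕ} (hn : n % 2 = 1) : (N : ℤ) - (-1) ^ n * ((N : ℤ) - n) = 2 * N - n := by
  have : Odd n := Nat.odd_iff.mpr hn
  rw [this.neg_one_pow]; ring

/-- the loss of a composite `N` with small loss is determined modulo `M` -/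
lemma same_loss_aux {N g N' g' M w : ℕ} (hM : ∀ q : ℕ, 1 ≤ q → q ≤ w → q ∣ M) (hN : 3 ≤ N)
    (hN' : 3 ≤ N') (h : W1 N g) (h' : W1 N' g') (hmod : N % M = N' % M) (hgg : g ≤ g')
    (hl : N ≤ g + w) (hl' : N' ≤ g' + w)
    (hp1 : (g + 1).Prime) (hp2 : (2 * N - g - 1).Prime) (hw1 : w < g + 1) (hw2 : w < 2 * N - g - 1) :
    N + g' = N' + g := by
  obtain ⟨a, ha1, ha, hag, hg2, hpos, hgN⟩ := h.pack hN
  obtain ⟨a', ha1', ha', hag', hg2', hpos', hgN'⟩ := h'.pack hN'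
  have hMd : (M : ℤ) ∣ (N : ℤ) - N' := (Nat.modEq_iff_dvd.1 (show N' ≡ N [MOD M] from hmod.symm))
  have hmono := ha'.desc hpos' (k := g) (by omega) g' hgg le_rfl
  have hagree := agree (T := g) (w := w) (Δ := (N : ℤ) - N') hM ha ha' (by rw [ha1, ha1']; ring) hMd
    (by
      intro n
      rcases Nat.mod_two_eq_zero_or_one n with h2 | h2
      · rw [V_even N h2, V_even N' h2, sub_self]
        exact dvd_zero _
      · rw [V_odd N h2, V_odd N' h2]
        have e : 2 * (N : ℤ) - n - (2 * (N' : ℤ) - n) = ((N : ℤ) - N') * 2 := by ring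
        rw [e]
        exact Dvd.dvd.mul_right hMd _)
    hpos (fun k h1 h2 => hpos' k h1 (by omega)) (by rw [ha1, hag]; push_cast; omega)
    (by rw [ha1']; push_cast at hmono ⊢; omega)
  have hg := hagree g (by omega) le_rfl
  rw [hag, zero_sub] at hg
  have hstay := stay (T := g) (T' := g') (w := w) ha' (by omega) hpos'
    (by rw [ha1', hag']; push_cast; omega)
    (by
      intro k hk1 hk2 hk3 p hp hpw hpk hpV
      have hpM : (p : ℤ) ∣ (N : ℤ) - N' :=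
        (Int.natCast_dvd_natCast.2 (hM p hp.one_lt.le hpw)).trans hMd
      rw [hk3] at hpk
      have hgk : (p : ℤ) ∣ (g : ℤ) - k := by
        have : (g : ℤ) - k = (a' g - ((k : ℤ) - g)) + ((N : ℤ) - N') := by linarith
        rw [this]
        exact dvd_add hpk hpM
      rcases Nat.mod_two_eq_zero_or_one (k + 1) with h2 | h2
      · rw [V_even N' h2] at hpV
        have h3 : (p : ℤ) ∣ ((g + 1 : ℕ) : ℤ) := by
          have e : ((g + 1 : ℕ) : ℤ) = ((k + 1 : ℕ) : ℤ) + ((g : ℤ) - k) := by push_cast; ring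
          rw [e]
          exact dvd_add hpV hgk
        have h4 : p ∣ g + 1 := by exact_mod_cast h3
        have h5 := (Nat.prime_dvd_prime_iff_eq hp hp1).1 h4
        omega
      · rw [V_odd N' h2] at hpV
        have h3 : (p : ℤ) ∣ ((2 * N - g - 1 : ℕ) : ℤ) := by
          have e : ((2 * N - g - 1 : ℕ) : ℤ) = (2 * (N' : ℤ) - ((k + 1 : ℕ) : ℤ)) - ((g : ℤ) - k) +
              ((N : ℤ) - N') * 2 := by
            have : ((2 * N - g - 1 : ℕ) : ℤ) = 2 * N - g - 1 := by omega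
            rw [this]
            push_cast
            ring
          rw [e]
          exact dvd_add (dvd_sub hpV hgk) (Dvd.dvd.mul_right hpM _)
        have h4 : p ∣ 2 * N - g - 1 := by exact_mod_cast h3
        have h5 := (Nat.prime_dvd_prime_iff_eq hp hp2).1 h4
        omega)
  have h5 := hstay g' hgg le_rfl
  rw [hag'] at h5
  omega

lemma same_loss {N g N' g' M w : ℕ} (hM : ∀ q : ℕ, 1 ≤ q → q ≤ w → q ∣ M) (hN : 3 ≤ N)
    (hN' : 3 ≤ N') (h : W1 N g) (h' : W1 N' g') (hmod : N % M = N' % M)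
    (hl : N ≤ g + w) (hl' : N' ≤ g' + w)
    (hp1 : (g + 1).Prime) (hp2 : (2 * N - g - 1).Prime) (hw1 : w < g + 1) (hw2 : w < 2 * N - g - 1)
    (hp1' : (g' + 1).Prime) (hp2' : (2 * N' - g' - 1).Prime) (hw1' : w < g' + 1)
    (hw2' : w < 2 * N' - g' - 1) :
    N + g' = N' + g := by
  rcases le_total g g' with hgg | hgg
  · exact same_loss_aux hM hN hN' h h' hmod hgg hl hl' hp1 hp2 hw1 hw2
  · exact (same_loss_aux hM hN' hN h' h hmod.symm hgg hl' hl hp1' hp2' hw1' hw2').symm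

end Pool.Agent.Q55.GcdWalk
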