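import Pool.Agent.Q55.GcdSmall
import Pool.Agent.Q55.GcdWalk
import Pool.Agent.Results.MP_b5e119_nt.LongDescent
import Pool.Agent.TH665.GP.T1

set_option autoImplicit false
set_option maxHeartbeats 1000000

/-! # The gcd recursion for Goldbach pairs: how far from maximal the descent is -/

namespace Pool.Agent.Q55.GcdGold

open Finset Filter Pool.Agent.Q55.GcdSieve Pool.Agent.Q55.GcdSmall Pool.Agent.Q55.GcdWalk
open Pool.Agent.H197R2.PG

open Classical in
/-- composite `N` in an interval whose loss `N - g_N` is at most `D` -/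
noncomputable def SS (X Y D : ℕ) : Finset ℕ :=
  (Ioc Y (Y + X)).filter (fun N => 3 ≤ N ∧ ¬ N.Prime ∧ ∃ g, W1 N g ∧ N ≤ g + D)

open Classical in
lemma mem_SS {X Y D N : ℕ} : N ∈ SS X Y D ↔ (Y < N ∧ N ≤ Y + X) ∧ 3 ≤ N ∧ ¬ N.Prime ∧
    ∃ g, W1 N g ∧ N ≤ g + D := by
  unfold SS
  rw [mem_filter, mem_Ioc]

/-- the data of a large member -/
lemma big {X D N : ℕ} (hN3 : 3 ≤ N) (hNp : ¬ N.Prime) {g : ℕ} (hg : W1 N g) (hgD : N ≤ g + D)
    (hN : Nat.sqrt X + 5 * D + 2300 ≤ N) :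
    (g + 1).Prime ∧ (2 * N - g - 1).Prime ∧ D + 1 < g + 1 ∧ D + 1 < 2 * N - g - 1 ∧
      Nat.sqrt X < g + 1 ∧ Nat.sqrt X < 2 * N - g - 1 ∧ g + 2 ≤ N := by
  obtain ⟨h1, h2⟩ := hg.prime_of_dich Pool.Agent.Results.MP_b5e119_nt.LongDescent.result (by omega) hgD
    (by omega)
  obtain ⟨a, -, -, -, -, -, hgN⟩ := hg.pack hN3
  have h3 : g + 1 ≠ N := by
    intro h
    rw [h] at h1
    exact hNp h1
  refine ⟨h1, h2, ?_, ?_, ?_, ?_, ?_⟩ <;> omega

theorem gold_small : ∃ C : ℝ, 1 ≤ C ∧ ∀ X Y D : ℕ, 2 ≤ X → 1 ≤ D → (D : ℝ) ≤ Real.log X / 24 →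
    ((SS X Y D).card : ℝ) ≤ C * X * (Real.log (2 * D) / Real.log X) ^ 2 := by
  classical
  obtain ⟨C, hC, h⟩ := small_loss 2 (by norm_num)
  refine ⟨C, hC, fun X Y D hX hD1 hD => h X Y D hX hD1 hD (SS X Y D) (filter_subset _ _) ?_⟩
  intro M r₀ hM hex
  obtain ⟨N₀, hN₀, hN₀b, hN₀r⟩ := hex
  obtain ⟨-, h3, hnp, g₀, hg₀, hg₀D⟩ := mem_SS.1 hN₀
  obtain ⟨p1, p2, w1, w2, s1, s2, hgN⟩ := big h3 hnp hg₀ hg₀D hN₀b
  obtain ⟨d, hd⟩ : ∃ d : ℕ, N₀ = g₀ + 1 + d := ⟨N₀ - (g₀ + 1), by omega⟩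
  refine ⟨![-(d : ℤ), (d : ℤ)], ?_, ?_⟩
  · have hkey : ∀ p : ℕ, p.Prime → D + 1 < p → ¬ (p : ℤ) ∣ 2 * (d : ℤ) := by
      intro p hp hDp hdvd
      have h1 : p ∣ 2 * d := by exact_mod_cast hdvd
      rcases (hp.dvd_mul).1 h1 with h2 | h2
      · have := Nat.le_of_dvd (by norm_num) h2
        omega
      · have := Nat.le_of_dvd (by omega) h2
        omega
    intro i j hij p hp hDp
    fin_cases i <;> fin_cases j
    · exact absurd rfl hij
    · change ¬ (p : ℤ) ∣ -(d : ℤ) - (d : ℤ)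
      have e : -(d : ℤ) - d = -(2 * (d : ℤ)) := by ring
      rw [e, dvd_neg]
      exact hkey p hp hDp
    · change ¬ (p : ℤ) ∣ (d : ℤ) - -(d : ℤ)
      have e : (d : ℤ) - -(d : ℤ) = (2 * (d : ℤ)) := by ring
      rw [e]
      exact hkey p hp hDp
    · exact absurd rfl hij
  · intro N hN hNb hNr i p hp hpX hdvd
    obtain ⟨-, h3', hnp', g, hg, hgD⟩ := mem_SS.1 hN
    obtain ⟨p1', p2', w1', w2', s1', s2', hgN'⟩ := big h3' hnp' hg hgD hNb
    have hsame := same_loss (M := M) (w := D + 1) hM h3 h3' hg₀ hg (by rw [hN₀r, hNr]) (by omega)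
      (by omega) p1 p2 (by omega) (by omega) p1' p2' (by omega) (by omega)
    have hps : p ≤ Nat.sqrt X := Nat.le_sqrt.2 hpX
    fin_cases i
    · change (p : ℤ) ∣ (N : ℤ) + -(d : ℤ) at hdvd
      have e : (N : ℤ) + -(d : ℤ) = ((g + 1 : ℕ) : ℤ) := by push_cast; omega
      rw [e] at hdvd
      have h4 : p ∣ g + 1 := by exact_mod_cast hdvd
      have := (Nat.prime_dvd_prime_iff_eq hp p1').1 h4
      omega
    · change (p : ℤ) ∣ (N : ℤ) + (d : ℤ) at hdvd
      have e : (N : ℤ) + (d : ℤ) = ((2 * N - g - 1 : ℕ) : ℤ) := by omega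
      rw [e] at hdvd
      have h4 : p ∣ 2 * N - g - 1 := by exact_mod_cast hdvd
      have := (Nat.prime_dvd_prime_iff_eq hp p2').1 h4
      omega

lemma gg_four (d : ℕ) (hd : 0 < d) : gg (2 * (2 * d)) ≤ 9 / 4 * gg d := by
  have h1 := gg_two_mul_le (2 * d) (by omega)
  have h2 := gg_two_mul_le d hd
  linarith

open Classical in
/-- pairs `N - d, N + d` of primes, `1 ≤ d < D` -/
lemma pairs_le : ∃ C : ℝ, 1 ≤ C ∧ ∃ X₀ : ℕ, ∀ X Y D : ℕ, X₀ ≤ X → (4 * (D : ℝ)) ≤ (X : ℝ) ^ (1 / 16 : ℝ) →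
    (((Ioc Y (Y + X)).filter (fun N => ∃ d, 1 ≤ d ∧ d < D ∧ d ≤ N ∧ (N - d).Prime ∧ (N + d).Prime)).card : ℝ) ≤
      C * D * (X / Real.log X ^ 2) := by
  classical
  obtain ⟨C, hC, u0, hps⟩ := pair_sieve_sharp
  obtain ⟨C2, hC2, hsum⟩ := Pool.Agent.TH665.GP.gg_sum
  refine ⟨C * (9 / 4) * C2, by nlinarith, max u0 2, ?_⟩
  intro X Y D hX hD
  have hXu : u0 ≤ X := (le_max_left _ _).trans hX
  have hX2 : 2 ≤ X := (le_max_right _ _).trans hX
  have hXr : (2 : ℝ) ≤ X := by exact_mod_cast hX2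
  have hlX : 0 < Real.log X := Real.log_pos (by linarith)
  have hsub : (Ioc Y (Y + X)).filter (fun N => ∃ d, 1 ≤ d ∧ d < D ∧ d ≤ N ∧ (N - d).Prime ∧ (N + d).Prime) ⊆
      (Icc 1 D).biUnion (fun d => (Ioc Y (Y + X)).filter (fun N => d ≤ N ∧ d < D ∧ (N - d).Prime ∧ (N + d).Prime)) := by
    intro N hN
    rw [mem_filter] at hN
    obtain ⟨h1, d, h2, h3, h4, h5, h6⟩ := hN
    rw [mem_biUnion]
    exact ⟨d, mem_Icc.2 ⟨h2, h3.le⟩, mem_filter.2 ⟨h1, h4, h3, h5, h6⟩⟩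
  have h1 := (card_le_card hsub).trans card_biUnion_le
  have hone : ∀ d ∈ Icc 1 D, (((Ioc Y (Y + X)).filter
      (fun N => d ≤ N ∧ d < D ∧ (N - d).Prime ∧ (N + d).Prime)).card : ℝ) ≤
      C * (9 / 4 * gg d) * X / Real.log X ^ 2 := by
    intro d hd
    rw [mem_Icc] at hd
    have hdD : (d : ℝ) ≤ D := by exact_mod_cast hd.2
    have h2 := hps (2 * d) (Y - d) X (by omega) hXu (by push_cast; linarith)
    have h3 : ((Ioc Y (Y + X)).filter (fun N => d ≤ N ∧ d < D ∧ (N - d).Prime ∧ (N + d).Prime)).card ≤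
        ((Ioc (Y - d) (Y - d + X)).filter (fun n => n.Prime ∧ (n + 2 * d).Prime)).card := by
      apply card_le_card_of_injOn (fun N => N - d)
      · intro N hN
        rw [mem_coe, mem_filter, mem_Ioc] at hN
        obtain ⟨⟨h4, h5⟩, h6, -, h7, h8⟩ := hN
        show N - d ∈ (_ : Set ℕ)
        rw [mem_coe, mem_filter, mem_Ioc]
        have h9 := h7.pos
        refine ⟨⟨by omega, by omega⟩, h7, ?_⟩
        have e : N - d + 2 * d = N + d := by omega
        rw [e]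
        exact h8
      · intro N hN N' hN' h
        rw [mem_coe, mem_filter, mem_Ioc] at hN hN'
        have := hN.2.1
        have := hN'.2.1
        simp only at h
        omega
    have h4 : (((Ioc Y (Y + X)).filter (fun N => d ≤ N ∧ d < D ∧ (N - d).Prime ∧ (N + d).Prime)).card : ℝ) ≤
        (((Ioc (Y - d) (Y - d + X)).filter (fun n => n.Prime ∧ (n + 2 * d).Prime)).card : ℝ) := by
      exact_mod_cast h3
    refine h4.trans (h2.trans ?_)
    have h5 := gg_four d (by omega)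
    gcongr
  have h2 : (((Ioc Y (Y + X)).filter (fun N => ∃ d, 1 ≤ d ∧ d < D ∧ d ≤ N ∧ (N - d).Prime ∧
      (N + d).Prime)).card : ℝ) ≤ ∑ d ∈ Icc 1 D, C * (9 / 4 * gg d) * X / Real.log X ^ 2 := by
    refine le_trans ?_ (Finset.sum_le_sum hone)
    exact_mod_cast h1
  refine h2.trans ?_
  have e : ∑ d ∈ Icc 1 D, C * (9 / 4 * gg d) * X / Real.log X ^ 2 =
      (C * (9 / 4)) * (X / Real.log X ^ 2) * ∑ d ∈ Icc 1 D, gg d := by
    rw [Finset.mul_sum]
    apply Finset.sum_congr rfl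
    intro d _
    ring
  rw [e]
  calc (C * (9 / 4)) * (X / Real.log X ^ 2) * ∑ d ∈ Icc 1 D, gg d ≤
      (C * (9 / 4)) * (X / Real.log X ^ 2) * (C2 * D) := by
        have := hsum D
        gcongr
    _ = _ := by ring

theorem gold_all : ∃ C : ℝ, 1 ≤ C ∧ ∀ X Y D : ℕ, 2 ≤ X → 1 ≤ D →
    ((SS X Y D).card : ℝ) ≤ C * D * (X / Real.log X ^ 2) := by
  classical
  obtain ⟨C, hC, X₀, h⟩ := pairs_le
  have hlogt : Tendsto (fun X : ℕ => Real.log (X : ℝ)) atTop atTop :=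
    Real.tendsto_log_atTop.comp tendsto_natCast_atTop_atTop
  -- for large `X`: `2313 (log X)^4 ≤ X` and `4 (log X)^2 ≤ X^(1/16)`
  have hA : ∀ᶠ X : ℕ in atTop, (4 : ℝ) * Real.log X ^ 2 ≤ (X : ℝ) ^ (1 / 16 : ℝ) := by
    have h := ((isLittleO_log_rpow_rpow_atTop ((2 : ℕ) : ℝ) (by norm_num : (0 : ℝ) < 1 / 16)).comp_tendsto
      tendsto_natCast_atTop_atTop).bound (by norm_num : (0 : ℝ) < 1 / 4)
    filter_upwards [h, eventually_ge_atTop 1] with X hX hX1
    have hX1' : (1 : ℝ) ≤ X := by exact_mod_cast hX1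
    have hl := Real.log_nonneg hX1'
    simp only [Function.comp_def, Real.rpow_natCast] at hX
    rw [Real.norm_of_nonneg (by positivity), Real.norm_of_nonneg (by positivity)] at hX
    linarith
  obtain ⟨X₁, hX₁⟩ := eventually_atTop.1 (hA.and ((log_pow_le 5).and (hlogt.eventually_ge_atTop 2313)))
  obtain ⟨X₂, hX₂⟩ : ∃ X₂ : ℕ, X₂ = max (max X₀ X₁) 3 := ⟨_, rfl⟩
  refine ⟨C + 1 + Real.log X₂ ^ 2, by nlinarith [sq_nonneg (Real.log (X₂ : ℝ))], ?_⟩
  intro X Y D hX hD1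
  have hXr : (2 : ℝ) ≤ X := by exact_mod_cast hX
  have hlX : 0 < Real.log X := Real.log_pos (by linarith)
  have hDr : (1 : ℝ) ≤ D := by exact_mod_cast hD1
  have hcX : ((SS X Y D).card : ℝ) ≤ X := by
    have h1 : (SS X Y D).card ≤ (Ioc Y (Y + X)).card := card_le_card (filter_subset _ _)
    rw [Nat.card_Ioc] at h1
    have h2 : (SS X Y D).card ≤ X := by omega
    exact_mod_cast h2
  obtain ⟨u, hu⟩ : ∃ u : ℝ, u = X / Real.log X ^ 2 := ⟨_, rfl⟩
  have hu0 : 0 < u := by rw [hu]; positivity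
  have hXu : (X : ℝ) = u * Real.log X ^ 2 := by rw [hu]; field_simp
  rw [← hu]
  have hexp : (C + 1 + Real.log X₂ ^ 2) * D * u = C * D * u + D * u + Real.log X₂ ^ 2 * D * u := by ring
  rw [hexp]
  have hT1 : 0 ≤ C * D * u := by positivity
  have hT2 : 0 ≤ D * u := by positivity
  have hT3 : 0 ≤ Real.log X₂ ^ 2 * D * u := by positivity
  rcases lt_or_ge X X₂ with hlt | hge
  · have h3 : Real.log X ≤ Real.log X₂ := Real.log_le_log (by linarith) (by exact_mod_cast hlt.le)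
    have h4 : Real.log X ^ 2 ≤ Real.log X₂ ^ 2 := pow_le_pow_left₀ hlX.le h3 2
    have h5 : (X : ℝ) ≤ Real.log X₂ ^ 2 * D * u := by
      calc (X : ℝ) = Real.log X ^ 2 * 1 * u := by
            rw [mul_one, mul_comm]
            exact hXu
        _ ≤ Real.log X₂ ^ 2 * D * u := by gcongr
    linarith
  · have g0 : X₀ ≤ X := ((le_max_left _ _).trans (le_max_left _ _)).trans (hX₂ ▸ hge)
    have g1 : X₁ ≤ X := ((le_max_right _ _).trans (le_max_left _ _)).trans (hX₂ ▸ hge)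
    obtain ⟨hA1, hA2, hA3⟩ := hX₁ X g1
    by_cases hbig : Real.log X ^ 2 ≤ D
    · have h5 : (X : ℝ) ≤ D * u := by
        calc (X : ℝ) = Real.log X ^ 2 * u := by
              rw [mul_comm]
              exact hXu
          _ ≤ D * u := by gcongr
      linarith
    push Not at hbig
    have hp := h X Y D g0 (by linarith)
    rw [← hu] at hp
    obtain ⟨N₁, hN₁⟩ : ∃ N₁ : ℕ, N₁ = 5 * D + 2300 := ⟨_, rfl⟩
    have hsub : SS X Y D ⊆ (Ioc Y (Y + X)).filter (fun N => ∃ d, 1 ≤ d ∧ d < D ∧ d ≤ N ∧ (N - d).Prime ∧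
        (N + d).Prime) ∪ range N₁ := by
      intro N hN
      obtain ⟨h1, h3, hnp, g, hg, hgD⟩ := mem_SS.1 hN
      rw [mem_union, mem_range, mem_filter, mem_Ioc]
      by_cases hNb : N₁ ≤ N
      · left
        obtain ⟨p1, p2, -, -, -, -, hgN⟩ := big (X := 0) h3 hnp hg hgD (by
          rw [Nat.sqrt_zero]; omega)
        refine ⟨h1, N - (g + 1), by omega, by omega, by omega, ?_, ?_⟩
        · have e : N - (N - (g + 1)) = g + 1 := by omega
          rw [e]; exact p1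
        · have e : N + (N - (g + 1)) = 2 * N - g - 1 := by omega
          rw [e]; exact p2
      · right; omega
    have h2 := (card_le_card hsub).trans (card_union_le _ _)
    rw [card_range] at h2
    have h3 : ((SS X Y D).card : ℝ) ≤ (((Ioc Y (Y + X)).filter (fun N => ∃ d, 1 ≤ d ∧ d < D ∧ d ≤ N ∧
        (N - d).Prime ∧ (N + d).Prime)).card : ℝ) + N₁ := by exact_mod_cast h2
    have h4 : (N₁ : ℝ) ≤ D * u := by
      have h5 : (N₁ : ℝ) ≤ 2305 * D := by
        rw [hN₁]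
        push_cast
        linarith
      have h6 : (2305 : ℝ) ≤ u := by
        rw [hu, le_div_iff₀ (by positivity)]
        have h7 : Real.log X ^ 5 = Real.log X * Real.log X ^ 2 * Real.log X ^ 2 := by ring
        have h8 : (1 : ℝ) ≤ Real.log X ^ 2 := one_le_pow₀ (by linarith)
        have h9 : 2313 * Real.log X ^ 2 ≤ Real.log X * Real.log X ^ 2 := by gcongr
        have h10 : Real.log X * Real.log X ^ 2 * 1 ≤ Real.log X * Real.log X ^ 2 * Real.log X ^ 2 := by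
          gcongr
        nlinarith
      nlinarith
    linarith

/-- the primes of an interval -/
lemma primes_le : ∃ C : ℝ, 1 ≤ C ∧ ∃ X₀ : ℕ, ∀ X Y : ℕ, X₀ ≤ X →
    (((Ioc Y (Y + X)).filter (fun N => N.Prime)).card : ℝ) ≤ C * (X / Real.log X) := by
  classical
  obtain ⟨C, hC, X₀, h⟩ := rough_ap 1 le_rfl
  obtain ⟨X₁, hX₁⟩ := eventually_atTop.1 (log_pow_le 2)
  refine ⟨C + 1, by linarith, max (max X₀ X₁) 3, ?_⟩
  intro X Y hX
  have g0 : X₀ ≤ X := ((le_max_left _ _).trans (le_max_left _ _)).trans hX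
  have g1 : X₁ ≤ X := ((le_max_right _ _).trans (le_max_left _ _)).trans hX
  have g2 : 3 ≤ X := (le_max_right _ _).trans hX
  have hXr : (3 : ℝ) ≤ X := by exact_mod_cast g2
  have hlX : 0 < Real.log X := Real.log_pos (by linarith)
  have h1 := h X 1 2 g0 le_rfl (by omega) le_rfl (by
    intro p hp h2 h3
    have := Nat.le_of_dvd one_pos h3
    omega) (fun _ => 0) (by
    intro i j hij
    exact absurd (Subsingleton.elim i j) hij) Y 0
  have hsub : (Ioc Y (Y + X)).filter (fun N => N.Prime) ⊆ (Ioc Y (Y + X)).filter (fun N : ℕ => N % 1 = 0 ∧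
      ∀ i : Fin 1, ∀ p : ℕ, p.Prime → 2 < p → p * p ≤ X → ¬ (p : ℤ) ∣ (N : ℤ) + (fun _ => (0 : ℤ)) i) ∪
      Icc 1 (Nat.sqrt X) := by
    intro N hN
    rw [mem_filter] at hN
    rw [mem_union, mem_filter, mem_Icc]
    by_cases hb : Nat.sqrt X < N
    · left
      refine ⟨hN.1, Nat.mod_one _, ?_⟩
      intro i p hp _ hpX hd
      rw [add_zero] at hd
      have h4 : p ∣ N := by exact_mod_cast hd
      have := (Nat.prime_dvd_prime_iff_eq hp hN.2).1 h4
      have := Nat.le_sqrt.2 hpX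
      omega
    · right
      exact ⟨hN.2.one_lt.le, by omega⟩
  have h2 := (card_le_card hsub).trans (card_union_le _ _)
  rw [Nat.card_Icc, Nat.add_sub_cancel] at h2
  have h3 : (((Ioc Y (Y + X)).filter (fun N => N.Prime)).card : ℝ) ≤
      (((Ioc Y (Y + X)).filter (fun N : ℕ => N % 1 = 0 ∧ ∀ i : Fin 1, ∀ p : ℕ, p.Prime → 2 < p →
        p * p ≤ X → ¬ (p : ℤ) ∣ (N : ℤ) + (fun _ => (0 : ℤ)) i)).card : ℝ) + (Nat.sqrt X : ℝ) := by
    exact_mod_cast h2
  have h4 : (Nat.sqrt X : ℝ) ≤ X / Real.log X := by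
    have h5 : (Nat.sqrt X : ℝ) ≤ √(X : ℝ) := Real.nat_sqrt_le_real_sqrt
    have h6 : √(X : ℝ) ≤ X / Real.log X := by
      rw [Real.sqrt_le_left (by positivity), div_pow, le_div_iff₀ (by positivity)]
      calc (X : ℝ) * Real.log X ^ 2 ≤ (X : ℝ) * X := mul_le_mul_of_nonneg_left (hX₁ X g1) (by positivity)
        _ = (X : ℝ) ^ 2 := by ring
    linarith
  have h7 : C * ((X : ℝ) / ((1 : ℕ) : ℝ)) * (Real.log ((2 : ℕ) : ℝ) / Real.log X) ^ 1 ≤ C * (X / Real.log X) := by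
    have h8 : Real.log 2 ≤ 1 := by
      have := Real.log_two_lt_d9
      linarith
    rw [pow_one, Nat.cast_one, div_one]
    push_cast
    calc C * X * (Real.log 2 / Real.log X) ≤ C * X * (1 / Real.log X) := by gcongr
      _ = _ := by ring
  linarith

open Classical in
/-- all but `ε X` of the integers of an interval have loss at least `c log² X` -/
theorem gold_typical (ε : ℝ) (hε : 0 < ε) : ∃ c : ℝ, 0 < c ∧ ∃ X₀ : ℕ, ∀ X Y : ℕ, X₀ ≤ X →
    (((Ioc Y (Y + X)).filter (fun N : ℕ => 3 ≤ N ∧ ∃ g : ℕ, W1 N g ∧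
      (N : ℝ) - g ≤ c * Real.log X ^ 2)).card : ℝ) ≤ ε * X := by
  classical
  obtain ⟨C, hC, h⟩ := gold_all
  obtain ⟨C', hC', X₀, h'⟩ := primes_le
  have hlogt : Tendsto (fun X : ℕ => Real.log (X : ℝ)) atTop atTop :=
    Real.tendsto_log_atTop.comp tendsto_natCast_atTop_atTop
  obtain ⟨X₁, hX₁⟩ := eventually_atTop.1 (hlogt.eventually_ge_atTop (max (2 * C' / ε) (4 * C / ε + 1)))
  refine ⟨ε / (4 * C), by positivity, max (max X₀ X₁) 2, ?_⟩
  intro X Y hX
  have g0 : X₀ ≤ X := ((le_max_left _ _).trans (le_max_left _ _)).trans hX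
  have g1 : X₁ ≤ X := ((le_max_right _ _).trans (le_max_left _ _)).trans hX
  have g2 : 2 ≤ X := (le_max_right _ _).trans hX
  have hXr : (2 : ℝ) ≤ X := by exact_mod_cast g2
  have hlX : 0 < Real.log X := Real.log_pos (by linarith)
  have hb := hX₁ X g1
  have hb1 : 2 * C' / ε ≤ Real.log X := (le_max_left _ _).trans hb
  have hb2 : 4 * C / ε + 1 ≤ Real.log X := (le_max_right _ _).trans hb
  obtain ⟨D, hD⟩ : ∃ D : ℕ, D = ⌊ε / (4 * C) * Real.log X ^ 2⌋₊ + 1 := ⟨_, rfl⟩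
  have hDle : (D : ℝ) ≤ ε / (2 * C) * Real.log X ^ 2 := by
    have h1 := Nat.floor_le (show (0 : ℝ) ≤ ε / (4 * C) * Real.log X ^ 2 by positivity)
    have h2 : (1 : ℝ) ≤ ε / (4 * C) * Real.log X ^ 2 := by
      have h3 : 4 * C / ε ≤ Real.log X := by linarith
      have h4 : (1 : ℝ) ≤ Real.log X := by
        have : 0 < 4 * C / ε := by positivity
        linarith
      rw [div_le_iff₀ hε] at h3
      rw [div_mul_eq_mul_div, le_div_iff₀ (by positivity)]
      nlinarith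
    rw [hD]
    push_cast
    have e : ε / (2 * C) * Real.log X ^ 2 = 2 * (ε / (4 * C) * Real.log X ^ 2) := by
      field_simp
      ring
    rw [e]
    linarith
  have hD1 : 1 ≤ D := by omega
  have hsub : (Ioc Y (Y + X)).filter (fun N : ℕ => 3 ≤ N ∧ ∃ g : ℕ, W1 N g ∧
      (N : ℝ) - g ≤ ε / (4 * C) * Real.log X ^ 2) ⊆
      SS X Y D ∪ (Ioc Y (Y + X)).filter (fun N => N.Prime) := by
    intro N hN
    rw [mem_filter] at hN
    obtain ⟨h1, h3, g, hg, hgc⟩ := hN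
    rw [mem_union, mem_filter, mem_SS]
    by_cases hp : N.Prime
    · right; exact ⟨h1, hp⟩
    · left
      refine ⟨mem_Ioc.1 h1, h3, hp, g, hg, ?_⟩
      have h4 := Nat.lt_floor_add_one (ε / (4 * C) * Real.log X ^ 2)
      have h5 : (N : ℝ) < g + D := by
        rw [hD]
        push_cast
        linarith
      have h6 : N < g + D := by exact_mod_cast h5
      omega
  have h2 := (card_le_card hsub).trans (card_union_le _ _)
  have h3 : (((Ioc Y (Y + X)).filter (fun N : ℕ => 3 ≤ N ∧ ∃ g : ℕ, W1 N g ∧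
      (N : ℝ) - g ≤ ε / (4 * C) * Real.log X ^ 2)).card : ℝ) ≤
      ((SS X Y D).card : ℝ) + (((Ioc Y (Y + X)).filter (fun N => N.Prime)).card : ℝ) := by
    exact_mod_cast h2
  have h4 := h X Y D g2 hD1
  have h5 := h' X Y g0
  have h6 : C * D * (X / Real.log X ^ 2) ≤ ε / 2 * X := by
    calc C * D * (X / Real.log X ^ 2) ≤ C * (ε / (2 * C) * Real.log X ^ 2) * (X / Real.log X ^ 2) := by gcongr
      _ = ε / 2 * X := by field_simp
  have h7 : C' * (X / Real.log X) ≤ ε / 2 * X := by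
    rw [← mul_div_assoc, div_le_iff₀ hlX]
    rw [div_le_iff₀ hε] at hb1
    nlinarith
  linarith

end Pool.Agent.Q55.GcdGold
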