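import Pool.Agent.TH685.TI.TwinB

set_option autoImplicit false
set_option maxHeartbeats 1000000

/-! # Sieve bounds for a few linear forms whose differences and common step have only small prime factors -/

namespace Pool.Agent.Q55.GcdSieve

open Finset Filter Pool.Agent.H373R2.T7 Pool.Agent.W123.RP

lemma fac_nonneg {p : ℕ} (hp : p.Prime) : (0 : ℝ) ≤ 1 - 1 / (p : ℝ) := by
  have : (1 : ℝ) ≤ p := by exact_mod_cast hp.one_lt.le
  rw [sub_nonneg, div_le_one (by linarith)]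
  exact this

/-- products over the primes in `(w, y]` -/
lemma prod_ratio (g : ℕ) : ∃ C : ℝ, 1 ≤ C ∧ ∀ (y w : ℕ) (Q : ℕ → ℕ → Prop), 2 ≤ w → w ≤ y →
    (∀ p : ℕ, p.Prime → w < p → g ≤ nuB Q p) →
    ∏ p ∈ pz y, (1 - (nuB Q p : ℝ) / p) ≤ C * (Real.log w / Real.log y) ^ g := by
  obtain ⟨c, C, hc, hC, hV⟩ := Vz_bounds
  refine ⟨(C / c + 1) ^ g, ?_, ?_⟩
  · apply one_le_pow₀
    have : 0 < C / c := by positivity
    linarith
  intro y w Q hw hwy h
  have hlw : 0 < Real.log w := Real.log_pos (by exact_mod_cast (by omega : 1 < w))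
  have hly : 0 < Real.log y := Real.log_pos (by exact_mod_cast (by omega : 1 < y))
  obtain ⟨hw1, -⟩ := hV w hw
  obtain ⟨-, hy2⟩ := hV y (by omega)
  have hVw : 0 < Vz w := lt_of_lt_of_le (by positivity) hw1
  have h1 : ∏ p ∈ pz y, (1 - (nuB Q p : ℝ) / p) ≤
      ∏ p ∈ pz y, (if p ≤ w then 1 else (1 - 1 / (p : ℝ)) ^ g) := by
    apply Finset.prod_le_prod
    · intro p hp
      exact Pool.Agent.W123.RP.one_sub_nonneg Q p (mem_pz.1 hp).2
    · intro p hp
      have hpp := (mem_pz.1 hp).2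
      have hp2 : (2 : ℝ) ≤ p := by exact_mod_cast hpp.two_le
      have hp0 : (0 : ℝ) < p := by linarith
      split_ifs with h1
      · have h3 : 0 ≤ (nuB Q p : ℝ) / p := by positivity
        linarith
      · have h2 := h p hpp (not_le.1 h1)
        have h3 : (g : ℝ) / p ≤ (nuB Q p : ℝ) / p := by
          apply div_le_div_of_nonneg_right _ hp0.le
          exact_mod_cast h2
        have h4 := one_add_mul_le_pow (a := -(1 / (p : ℝ))) (by
          have : 1 / (p : ℝ) ≤ 1 := by rw [div_le_one hp0]; linarith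
          linarith) g
        have h5 : 1 + (g : ℝ) * -(1 / (p : ℝ)) = 1 - g / p := by ring
        rw [h5, ← sub_eq_add_neg] at h4
        linarith
  have h2 : (∏ p ∈ pz y, (if p ≤ w then 1 else (1 - 1 / (p : ℝ)) ^ g)) * Vz w ^ g = Vz y ^ g := by
    have e : Vz w ^ g = ∏ p ∈ pz y, (if p ≤ w then (1 - 1 / (p : ℝ)) ^ g else 1) := by
      unfold Vz
      rw [← Finset.prod_pow, ← Finset.prod_filter]
      apply Finset.prod_congr _ (fun _ _ => rfl)
      ext p
      rw [mem_filter, mem_pz, mem_pz]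
      constructor
      · rintro ⟨h1, h2⟩; exact ⟨⟨by omega, h2⟩, h1⟩
      · rintro ⟨⟨-, h2⟩, h1⟩; exact ⟨h1, h2⟩
    rw [e, ← Finset.prod_mul_distrib]
    unfold Vz
    rw [← Finset.prod_pow]
    apply Finset.prod_congr rfl
    intro p _
    split_ifs <;> simp
  have h3 : ∏ p ∈ pz y, (if p ≤ w then 1 else (1 - 1 / (p : ℝ)) ^ g) = (Vz y / Vz w) ^ g := by
    rw [div_pow, eq_div_iff (by positivity)]
    exact h2
  rw [h3] at h1
  refine h1.trans ?_
  have hVy : 0 ≤ Vz y := by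
    unfold Vz
    exact Finset.prod_nonneg fun p hp => fac_nonneg (mem_pz.1 hp).2
  rw [← mul_pow]
  apply pow_le_pow_left₀ (by positivity)
  calc Vz y / Vz w ≤ (C / Real.log y) / (c / Real.log w) :=
        div_le_div₀ (by positivity) hy2 (by positivity) hw1
    _ = (C / c) * (Real.log w / Real.log y) := by field_simp
    _ ≤ (C / c + 1) * (Real.log w / Real.log y) := by
        have : 0 ≤ Real.log w / Real.log y := by positivity
        nlinarith

lemma log_pow_le (k : ℕ) : ∀ᶠ X : ℕ in atTop, Real.log X ^ k ≤ X := by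
  have h := ((isLittleO_log_rpow_rpow_atTop ((k : ℕ) : ℝ) (by norm_num : (0 : ℝ) < 1)).comp_tendsto
    tendsto_natCast_atTop_atTop).bound (by norm_num : (0 : ℝ) < 1)
  filter_upwards [h, eventually_ge_atTop 1] with X hX hX1
  have hX1' : (1 : ℝ) ≤ X := by exact_mod_cast hX1
  have hl := Real.log_nonneg hX1'
  simp only [Function.comp_def, Real.rpow_natCast, Real.rpow_one, one_mul] at hX
  rw [Real.norm_of_nonneg (by positivity), Real.norm_of_nonneg (by positivity)] at hX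
  exact hX

open Classical in
/-- sieve bound for systems with `g` classes modulo the primes above `w` -/
theorem rough_sys (g : ℕ) (hg : 1 ≤ g) : ∃ r : ℕ, 3 ≤ r ∧ ∃ C : ℝ, 1 ≤ C ∧ ∃ K₀ : ℕ, ∀ K w : ℕ,
    K₀ ≤ K → 2 ≤ w → ∀ Q : ℕ → ℕ → Prop, PerB Q g → (∀ p : ℕ, p.Prime → w < p → g ≤ nuB Q p) →
    (((Icc 1 K).filter (fun k => ∀ p ∈ pz ⌊(K : ℝ) ^ (1 / (r : ℝ))⌋₊, ¬ Q p k)).card : ℝ) ≤
      C * K * (Real.log w / Real.log K) ^ g := by
  obtain ⟨K1, x0, hK1, hfund⟩ := sys_fund g hg 1 one_pos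
  obtain ⟨Cv, hCv, hV⟩ := prod_ratio g
  obtain ⟨r, hr⟩ : ∃ r : ℕ, r = max K1 3 := ⟨_, rfl⟩
  have hr3 : 3 ≤ r := hr ▸ le_max_right _ _
  have hr2 : 2 ≤ r := by omega
  have hrK : K1 ≤ r := hr ▸ le_max_left _ _
  have hrpos : (0 : ℝ) < r := by exact_mod_cast (by omega : 0 < r)
  refine ⟨r, hr3, ?_⟩
  have hXr : Tendsto (fun X : ℕ => (X : ℝ)) atTop atTop := tendsto_natCast_atTop_atTop
  have hlogt : Tendsto (fun X : ℕ => Real.log (X : ℝ)) atTop atTop :=
    Real.tendsto_log_atTop.comp hXr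
  have hpow : Tendsto (fun X : ℕ => (X : ℝ) ^ (1 / (2 * r : ℝ))) atTop atTop :=
    (tendsto_rpow_atTop (by positivity)).comp hXr
  obtain ⟨X₀, hX₀⟩ := eventually_atTop.1 (((hlogt.eventually_ge_atTop 2).and
    (hpow.eventually_ge_atTop ((x0 : ℝ) + 2))).and ((log_pow_le (2 * g)).and (eventually_ge_atTop 3)))
  have hlog2 : 0 < Real.log 2 := Real.log_pos (by norm_num)
  refine ⟨2 * Cv * (2 * r) ^ g + (1 / Real.log 2) ^ g + (2 * r) ^ g, ?_, X₀, ?_⟩
  · have h1 : (1 : ℝ) ≤ (2 * r) ^ g := one_le_pow₀ (by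
      have : (3 : ℝ) ≤ r := by exact_mod_cast hr3
      linarith)
    have h2 : 0 ≤ 2 * Cv * (2 * r) ^ g := by positivity
    have h3 : 0 ≤ (1 / Real.log 2) ^ g := by positivity
    linarith
  intro K w hK hw Q hQ hν
  obtain ⟨⟨hl2, hxp⟩, hl4, hX3⟩ := hX₀ K hK
  have hKr : (3 : ℝ) ≤ K := by exact_mod_cast hX3
  have hK0 : (0 : ℝ) < K := by linarith
  have hL0 : 0 < Real.log K := by linarith
  have hx00 : (0 : ℝ) ≤ x0 := Nat.cast_nonneg _
  obtain ⟨y, hy⟩ : ∃ y : ℕ, y = ⌊(K : ℝ) ^ (1 / (r : ℝ))⌋₊ := ⟨_, rfl⟩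
  obtain ⟨hy1, hy2, -, hy4⟩ := Pool.Agent.W123.RU.level_low r hr2 K (by omega) (by linarith)
  rw [← hy] at hy1 hy2 hy4 ⊢
  have hwr : (2 : ℝ) ≤ w := by exact_mod_cast hw
  have hlw : Real.log 2 ≤ Real.log w := Real.log_le_log (by norm_num) hwr
  have hlwp : 0 < Real.log w := by linarith
  have hcK : (((Icc 1 K).filter (fun k => ∀ p ∈ pz y, ¬ Q p k)).card : ℝ) ≤ K := by
    have := card_filter_le (Icc 1 K) (fun k => ∀ p ∈ pz y, ¬ Q p k)
    rw [Nat.card_Icc, Nat.add_sub_cancel] at this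
    exact_mod_cast this
  obtain ⟨ρ, hρ⟩ : ∃ ρ : ℝ, ρ = Real.log w / Real.log K := ⟨_, rfl⟩
  have hρ0 : 0 < ρ := by rw [hρ]; positivity
  rw [← hρ]
  have hA : 0 ≤ 2 * Cv * (2 * r) ^ g * K * ρ ^ g := by positivity
  have hB : 0 ≤ (1 / Real.log 2) ^ g * K * ρ ^ g := by positivity
  have hC : 0 ≤ (2 * r : ℝ) ^ g * K * ρ ^ g := by positivity
  have hexp : (2 * Cv * (2 * r) ^ g + (1 / Real.log 2) ^ g + (2 * r) ^ g) * K * ρ ^ g =
      2 * Cv * (2 * r) ^ g * K * ρ ^ g + (1 / Real.log 2) ^ g * K * ρ ^ g + (2 * r) ^ g * K * ρ ^ g := by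
    ring
  rw [hexp]
  by_cases hwy : w ≤ y
  · have hyx0 : x0 ≤ y := by
      have : (x0 : ℝ) ≤ y := by linarith
      exact_mod_cast this
    have hyr : (y : ℝ) ^ r ≤ K := by
      have h1 : (y : ℝ) ≤ (K : ℝ) ^ (1 / (r : ℝ)) := by
        rw [hy]
        exact Nat.floor_le (by positivity)
      calc (y : ℝ) ^ r ≤ ((K : ℝ) ^ (1 / (r : ℝ))) ^ r := pow_le_pow_left₀ (Nat.cast_nonneg _) h1 r
        _ = K := by
          rw [← Real.rpow_natCast, ← Real.rpow_mul (by positivity), one_div,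
            inv_mul_cancel₀ hrpos.ne', Real.rpow_one]
    have hyK : y ^ K1 ≤ K := by
      have h1 : y ^ K1 ≤ y ^ r := Nat.pow_le_pow_right (by omega) hrK
      have h2 : y ^ r ≤ K := by exact_mod_cast hyr
      omega
    have hf := (abs_le.1 (hfund K y hyx0 hyK Q hQ K)).2
    have hp := hV y w Q hw hwy hν
    have hly : 0 < Real.log y := by
      have : 0 < Real.log K / (2 * r) := by positivity
      linarith
    have h5 : (Real.log w / Real.log y) ^ g ≤ (2 * r) ^ g * ρ ^ g := by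
      rw [← mul_pow]
      apply pow_le_pow_left₀ (by positivity)
      rw [hρ]
      calc Real.log w / Real.log y ≤ Real.log w / (Real.log K / (2 * r)) := by
            apply div_le_div_of_nonneg_left hlwp.le (by positivity) hy2
        _ = 2 * r * (Real.log w / Real.log K) := by field_simp
    have h6 : √(K : ℝ) ≤ (1 / Real.log 2) ^ g * K * ρ ^ g := by
      have h7 : (1 / Real.log K) ^ g ≤ (1 / Real.log 2) ^ g * ρ ^ g := by
        rw [← mul_pow]
        apply pow_le_pow_left₀ (by positivity)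
        rw [hρ, div_le_iff₀ hL0]
        have : 1 ≤ 1 / Real.log 2 * Real.log w := by
          rw [div_mul_eq_mul_div, one_mul, le_div_iff₀ hlog2]
          linarith
        calc (1 : ℝ) ≤ 1 / Real.log 2 * Real.log w := this
          _ = 1 / Real.log 2 * (Real.log w / Real.log K) * Real.log K := by field_simp
      have h8 : √(K : ℝ) ≤ K * (1 / Real.log K) ^ g := by
        rw [one_div_pow, mul_one_div, Real.sqrt_le_left (by positivity), div_pow, ← pow_mul,
          le_div_iff₀ (by positivity)]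
        calc (K : ℝ) * Real.log K ^ (g * 2) = (K : ℝ) * Real.log K ^ (2 * g) := by rw [mul_comm g 2]
          _ ≤ (K : ℝ) * K := mul_le_mul_of_nonneg_left hl4 (by positivity)
          _ = (K : ℝ) ^ 2 := by ring
      calc √(K : ℝ) ≤ K * (1 / Real.log K) ^ g := h8
        _ ≤ K * ((1 / Real.log 2) ^ g * ρ ^ g) := mul_le_mul_of_nonneg_left h7 hK0.le
        _ = _ := by ring
    have h9 : 2 * ((K : ℝ) * ∏ p ∈ pz y, (1 - (nuB Q p : ℝ) / p)) ≤
        2 * Cv * (2 * r) ^ g * K * ρ ^ g := by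
      calc 2 * ((K : ℝ) * ∏ p ∈ pz y, (1 - (nuB Q p : ℝ) / p)) ≤
          2 * (K * (Cv * ((2 * r) ^ g * ρ ^ g))) := by
            have := hp.trans (mul_le_mul_of_nonneg_left h5 (by linarith : (0 : ℝ) ≤ Cv))
            gcongr
        _ = _ := by ring
    linarith
  · have h1 : (1 : ℝ) ≤ (2 * r) ^ g * ρ ^ g := by
      rw [← mul_pow]
      apply one_le_pow₀
      rw [hρ, ← mul_div_assoc, le_div_iff₀ hL0, one_mul]
      have h2 : Real.log y ≤ Real.log w := by
        apply Real.log_le_log (by exact_mod_cast (by omega : 0 < y))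
        exact_mod_cast (by omega : y ≤ w)
      rw [div_le_iff₀ (by positivity)] at hy2
      nlinarith
    have h2 : (K : ℝ) ≤ (2 * r) ^ g * K * ρ ^ g := by
      calc (K : ℝ) = K * 1 := by ring
        _ ≤ K * ((2 * r) ^ g * ρ ^ g) := mul_le_mul_of_nonneg_left h1 hK0.le
        _ = _ := by ring
    linarith

/-- the condition of `g` linear forms -/
def QL {g : ℕ} (w M : ℕ) (b : Fin g → ℤ) (p k : ℕ) : Prop :=
  w < p ∧ ∃ i, (p : ℤ) ∣ (M : ℤ) * k + b i

lemma QL_per {g : ℕ} (w M : ℕ) (b : Fin g → ℤ) (p k : ℕ) :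
    QL w M b p k ↔ QL w M b p (k % p) := by
  unfold QL
  apply and_congr_right
  intro _
  apply exists_congr
  intro i
  have e : (M : ℤ) * k + b i = ((M : ℤ) * ((k % p : ℕ) : ℤ) + b i) + (p : ℤ) * (M * ((k / p : ℕ) : ℤ)) := by
    have h : ((p * (k / p) + k % p : ℕ) : ℤ) = k := by rw [Nat.div_add_mod]
    push_cast at h ⊢
    linear_combination (-(M : ℤ)) * h
  rw [e]
  exact (dvd_add_left (Dvd.intro _ rfl))

open Classical in
lemma QL_card {g : ℕ} (w M : ℕ) (b : Fin g → ℤ)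
    (hM : ∀ p : ℕ, p.Prime → w < p → ¬ p ∣ M)
    (hb : ∀ i j, i ≠ j → ∀ p : ℕ, p.Prime → w < p → ¬ (p : ℤ) ∣ b i - b j) (p : ℕ) (hp : p.Prime) :
    nuB (QL w M b) p = if w < p then g else 0 := by
  unfold nuB
  split_ifs with h
  · have e : (range p).filter (fun r => QL w M b p r) =
        (univ : Finset (Fin g)).biUnion (fun i => (range p).filter (fun r : ℕ => (p : ℤ) ∣ (M : ℤ) * r + b i)) := by
      ext r
      rw [mem_filter, mem_biUnion]
      unfold QL
      constructor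
      · rintro ⟨h1, -, i, hi⟩
        exact ⟨i, mem_univ _, mem_filter.2 ⟨h1, hi⟩⟩
      · rintro ⟨i, -, hi⟩
        rw [mem_filter] at hi
        exact ⟨hi.1, h, i, hi.2⟩
    rw [e, card_biUnion]
    · rw [Finset.sum_congr rfl (fun i _ => linear_card p hp (M : ℤ) (b i) (by
        intro hd
        exact hM p hp h (by exact_mod_cast hd)))]
      simp
    · intro i _ j _ hij
      rw [Function.onFun, Finset.disjoint_left]
      intro r hr hr'
      rw [mem_filter] at hr hr'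
      apply hb i j hij p hp h
      have := dvd_sub hr.2 hr'.2
      have e2 : (M : ℤ) * r + b i - ((M : ℤ) * r + b j) = b i - b j := by ring
      rwa [e2] at this
  · rw [card_eq_zero, filter_eq_empty_iff]
    intro r _ hr
    exact h hr.1

open Classical in
/-- integers of an interval in a progression modulo `M` -/
theorem rough_ap (g : ℕ) (hg : 1 ≤ g) : ∃ C : ℝ, 1 ≤ C ∧ ∃ X₀ : ℕ, ∀ X M w : ℕ, X₀ ≤ X → 1 ≤ M →
    M * M ≤ X → 2 ≤ w → (∀ p : ℕ, p.Prime → w < p → ¬ p ∣ M) → ∀ b : Fin g → ℤ,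
    (∀ i j, i ≠ j → ∀ p : ℕ, p.Prime → w < p → ¬ (p : ℤ) ∣ b i - b j) → ∀ Y r₀ : ℕ,
    (((Ioc Y (Y + X)).filter (fun N : ℕ => N % M = r₀ ∧ ∀ i, ∀ p : ℕ, p.Prime → w < p → p * p ≤ X →
      ¬ (p : ℤ) ∣ (N : ℤ) + b i)).card : ℝ) ≤ C * (X / M) * (Real.log w / Real.log X) ^ g := by
  obtain ⟨r, hr3, C, hC, K₀, hK₀⟩ := rough_sys g hg
  refine ⟨3 * 2 ^ g * C, ?_, (K₀ + 3) * (K₀ + 3), ?_⟩
  · have : (1 : ℝ) ≤ 2 ^ g := one_le_pow₀ (by norm_num)
    nlinarith
  intro X M w hX hM1 hMX hw hM b hb Y r₀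
  obtain ⟨K, hK⟩ : ∃ K : ℕ, K = X / M + 2 := ⟨_, rfl⟩
  -- size of K
  have hKM : X < K * M := by
    have h1 := Nat.div_add_mod X M
    have h2 := Nat.mod_lt X (by omega : 0 < M)
    rw [hK]
    nlinarith
  have hXK : X < K * K := by
    by_contra hcon
    push Not at hcon
    have h1 : K ≤ M := by
      by_contra h2
      push Not at h2
      nlinarith
    nlinarith [hKM, h1, hMX]
  have hKK₀ : K₀ ≤ K := by
    by_contra hcon
    push Not at hcon
    nlinarith
  have hX9 : 9 ≤ X := by nlinarith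
  have hKX : K ≤ X + 2 := by
    rw [hK]
    exact Nat.add_le_add_right (Nat.div_le_self X M) 2
  have hKle : (K : ℝ) ≤ 3 * (X / M) := by
    have h1 : ((X / M : ℕ) : ℝ) ≤ (X : ℝ) / M := Nat.cast_div_le
    have hMr : (1 : ℝ) ≤ M := by exact_mod_cast hM1
    have h2 : (1 : ℝ) ≤ (X : ℝ) / M := by
      rw [le_div_iff₀ (by linarith), one_mul]
      exact_mod_cast (by nlinarith : M ≤ X)
    rw [hK]
    push_cast
    linarith
  have hXr : (9 : ℝ) ≤ X := by exact_mod_cast hX9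
  have hlX : 0 < Real.log X := Real.log_pos (by linarith)
  have hlK : Real.log X / 2 ≤ Real.log K := by
    have h1 : Real.log X ≤ Real.log ((K : ℝ) * K) := by
      apply Real.log_le_log (by linarith)
      have : X ≤ K * K := hXK.le
      exact_mod_cast this
    have hKpos : (K : ℝ) ≠ 0 := by
      have : 0 < K := by rw [hK]; exact Nat.succ_pos _
      exact_mod_cast this.ne'
    rw [Real.log_mul hKpos hKpos] at h1
    linarith
  have hwr : (2 : ℝ) ≤ w := by exact_mod_cast hw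
  have hlw : 0 < Real.log w := Real.log_pos (by linarith)
  -- shifted forms
  obtain ⟨b', hb'⟩ : ∃ b' : Fin g → ℤ, b' = fun i => (M : ℤ) * ((Y / M : ℕ) : ℤ) - M + r₀ + b i := ⟨_, rfl⟩
  have hbb : ∀ i j, i ≠ j → ∀ p : ℕ, p.Prime → w < p → ¬ (p : ℤ) ∣ b' i - b' j := by
    intro i j hij p hp hwp
    have e : b' i - b' j = b i - b j := by rw [hb']; ring
    rw [e]
    exact hb i j hij p hp hwp
  have hQ : PerB (QL w M b') g := by
    refine ⟨fun p n => QL_per w M b' p n, fun p hp => ?_⟩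
    rw [QL_card w M b' hM hbb p hp]
    split_ifs <;> omega
  have hmain := hK₀ K w hKK₀ hw (QL w M b') hQ (by
    intro p hp hwp
    rw [QL_card w M b' hM hbb p hp, if_pos hwp])
  have hcard : ((Ioc Y (Y + X)).filter (fun N : ℕ => N % M = r₀ ∧ ∀ i, ∀ p : ℕ, p.Prime → w < p →
      p * p ≤ X → ¬ (p : ℤ) ∣ (N : ℤ) + b i)).card ≤
      ((Icc 1 K).filter (fun k => ∀ p ∈ pz ⌊(K : ℝ) ^ (1 / (r : ℝ))⌋₊, ¬ QL w M b' p k)).card := by
    apply card_le_card_of_injOn (fun N => N / M + 1 - Y / M)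
    · intro N hN
      rw [mem_coe, mem_filter, mem_Ioc] at hN
      obtain ⟨⟨hN1, hN2⟩, hN3, hN4⟩ := hN
      have h1 : Y / M ≤ N / M := Nat.div_le_div_right hN1.le
      have h2 : N / M ≤ (Y + X) / M := Nat.div_le_div_right hN2
      have h3 : (Y + X) / M ≤ Y / M + X / M + 1 := by
        have e1 := Nat.div_add_mod Y M
        have e2 := Nat.div_add_mod X M
        have e3 := Nat.mod_lt Y (by omega : 0 < M)
        have e4 := Nat.mod_lt X (by omega : 0 < M)
        rw [← Nat.lt_succ_iff, Nat.div_lt_iff_lt_mul (by omega)]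
        nlinarith
      show N / M + 1 - Y / M ∈ (_ : Set ℕ)
      rw [mem_coe, mem_filter, mem_Icc]
      refine ⟨⟨by omega, by omega⟩, ?_⟩
      intro p hp hq
      obtain ⟨hpy, hpp⟩ := mem_pz.1 hp
      obtain ⟨hwp, i, hi⟩ := hq
      have hp3 : p ^ 3 ≤ K := by
        have hrpos : (0 : ℝ) < r := by exact_mod_cast (by omega : 0 < r)
        have h4 : (p : ℝ) ≤ (K : ℝ) ^ (1 / (r : ℝ)) := by
          have := Nat.floor_le (show (0 : ℝ) ≤ (K : ℝ) ^ (1 / (r : ℝ)) by positivity)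
          have h4 : (p : ℝ) ≤ (⌊(K : ℝ) ^ (1 / (r : ℝ))⌋₊ : ℝ) := by exact_mod_cast hpy
          linarith
        have h5 : (p : ℝ) ^ r ≤ K := by
          calc (p : ℝ) ^ r ≤ ((K : ℝ) ^ (1 / (r : ℝ))) ^ r := pow_le_pow_left₀ (Nat.cast_nonneg _) h4 r
            _ = K := by
              rw [← Real.rpow_natCast, ← Real.rpow_mul (by positivity), one_div,
                inv_mul_cancel₀ hrpos.ne', Real.rpow_one]
        have h6 : p ^ r ≤ K := by exact_mod_cast h5
        exact (Nat.pow_le_pow_right hpp.pos hr3).trans h6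
      have hpX : p * p ≤ X := by
        have h7 := hpp.two_le
        have h8 : 2 * (p * p) ≤ p ^ 3 := by nlinarith
        omega
      apply hN4 i p hpp hwp hpX
      have e : (M : ℤ) * ((N / M + 1 - Y / M : ℕ) : ℤ) + b' i = (N : ℤ) + b i := by
        rw [hb']
        have h9 : ((N / M + 1 - Y / M : ℕ) : ℤ) = ((N / M : ℕ) : ℤ) + 1 - ((Y / M : ℕ) : ℤ) := by
          rw [Nat.cast_sub (by omega)]
          push_cast
          ring
        have h10 : ((M * (N / M) + N % M : ℕ) : ℤ) = N := by rw [Nat.div_add_mod]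
        rw [hN3] at h10
        simp only
        rw [h9]
        push_cast at h10 ⊢
        linear_combination h10
      rw [← e]
      exact hi
    · intro N hN N' hN' h
      rw [mem_coe, mem_filter, mem_Ioc] at hN hN'
      obtain ⟨⟨hN1, hN2⟩, hN3, -⟩ := hN
      obtain ⟨⟨hN1', hN2'⟩, hN3', -⟩ := hN'
      have h1 : Y / M ≤ N / M := Nat.div_le_div_right hN1.le
      have h1' : Y / M ≤ N' / M := Nat.div_le_div_right hN1'.le
      have h2 : N / M = N' / M := by
        simp only at h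
        omega
      rw [← Nat.div_add_mod N M, ← Nat.div_add_mod N' M, h2, hN3, hN3']
  have h1 : (((Ioc Y (Y + X)).filter (fun N : ℕ => N % M = r₀ ∧ ∀ i, ∀ p : ℕ, p.Prime → w < p →
      p * p ≤ X → ¬ (p : ℤ) ∣ (N : ℤ) + b i)).card : ℝ) ≤ C * K * (Real.log w / Real.log K) ^ g :=
    le_trans (by exact_mod_cast hcard) hmain
  refine h1.trans ?_
  have h2 : (Real.log w / Real.log K) ^ g ≤ 2 ^ g * (Real.log w / Real.log X) ^ g := by
    rw [← mul_pow]
    apply pow_le_pow_left₀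
    · have : 0 ≤ Real.log K := by linarith
      positivity
    · calc Real.log w / Real.log K ≤ Real.log w / (Real.log X / 2) := by
            apply div_le_div_of_nonneg_left hlw.le (by positivity) hlK
        _ = 2 * (Real.log w / Real.log X) := by field_simp
  calc C * K * (Real.log w / Real.log K) ^ g ≤
      C * (3 * (X / M)) * (2 ^ g * (Real.log w / Real.log X) ^ g) := by
        have : 0 ≤ Real.log K := by linarith
        gcongr
    _ = _ := by ring

open Classical in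
/-- sets which in every class modulo `M` are rough in the sense of `rough_ap` -/
theorem classes (g : ℕ) (hg : 1 ≤ g) : ∃ C : ℝ, 1 ≤ C ∧ ∃ X₀ : ℕ, ∀ X M w : ℕ, X₀ ≤ X → 1 ≤ M →
    M * M ≤ X → 2 ≤ w → (∀ p : ℕ, p.Prime → w < p → ¬ p ∣ M) → ∀ (Y : ℕ) (A : Finset ℕ),
    A ⊆ Ioc Y (Y + X) → (∀ r₀ < M, (∃ N ∈ A, N % M = r₀) → ∃ b : Fin g → ℤ,
      (∀ i j, i ≠ j → ∀ p : ℕ, p.Prime → w < p → ¬ (p : ℤ) ∣ b i - b j) ∧
      ∀ N ∈ A, N % M = r₀ → ∀ i, ∀ p : ℕ, p.Prime → w < p → p * p ≤ X → ¬ (p : ℤ) ∣ (N : ℤ) + b i) →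
    (A.card : ℝ) ≤ C * X * (Real.log w / Real.log X) ^ g := by
  obtain ⟨C, hC, X₀, h⟩ := rough_ap g hg
  refine ⟨C, hC, max X₀ 2, ?_⟩
  intro X M w hX hM1 hMX hw hM Y A hA hcl
  have hXX₀ : X₀ ≤ X := (le_max_left _ _).trans hX
  have hX2 : 2 ≤ X := (le_max_right _ _).trans hX
  have hMpos : (0 : ℝ) < M := by exact_mod_cast (by omega : 0 < M)
  have hlX : 0 < Real.log X := Real.log_pos (by exact_mod_cast (by omega : 1 < X))
  have hlw : 0 < Real.log w := Real.log_pos (by exact_mod_cast (by omega : 1 < w))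
  have hcard : A.card = ∑ r₀ ∈ range M, (A.filter (fun N => N % M = r₀)).card :=
    Finset.card_eq_sum_card_fiberwise (fun N _ => by
      rw [mem_coe, mem_range]
      exact Nat.mod_lt _ (by omega))
  rw [hcard]
  push_cast
  have hone : ∀ r₀ ∈ range M, ((A.filter (fun N => N % M = r₀)).card : ℝ) ≤
      C * (X / M) * (Real.log w / Real.log X) ^ g := by
    intro r₀ hr₀
    by_cases hne : ∃ N ∈ A, N % M = r₀
    · obtain ⟨b, hb, hrough⟩ := hcl r₀ (mem_range.1 hr₀) hne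
      refine le_trans ?_ (h X M w hXX₀ hM1 hMX hw hM b hb Y r₀)
      have : (A.filter (fun N => N % M = r₀)).card ≤ ((Ioc Y (Y + X)).filter (fun N : ℕ => N % M = r₀ ∧
          ∀ i, ∀ p : ℕ, p.Prime → w < p → p * p ≤ X → ¬ (p : ℤ) ∣ (N : ℤ) + b i)).card := by
        apply card_le_card
        intro N hN
        rw [mem_filter] at hN ⊢
        exact ⟨hA hN.1, hN.2, hrough N hN.1 hN.2⟩
      exact_mod_cast this
    · have : A.filter (fun N => N % M = r₀) = ∅ := by
        rw [filter_eq_empty_iff]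
        intro N hN h1
        exact hne ⟨N, hN, h1⟩
      rw [this]
      simp only [card_empty, Nat.cast_zero]
      positivity
  refine (Finset.sum_le_sum hone).trans (le_of_eq ?_)
  rw [Finset.sum_const, card_range, nsmul_eq_mul]
  field_simp

end Pool.Agent.Q55.GcdSieve
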