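import Pool.Agent.Q55.GcdSmall
import Pool.Agent.Q55.GcdWalk
import Pool.Agent.Results.MP_3f8e47_nt.LongLife

set_option autoImplicit false
set_option maxHeartbeats 1000000

/-! # The gcd recursion for prime triples: how far from maximal the descent is -/

namespace Pool.Agent.Q55.GcdTriple

open Finset Filter Pool.Agent.Q55.GcdSieve Pool.Agent.Q55.GcdSmall Pool.Agent.Q55.GcdWalk
open Pool.Agent.Results.MP_3f8e47_nt.LongLife (b b_even)

/-- the recursion for prime triples, with its least zero `f` -/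
def W3 (N f : ℕ) : Prop :=
  ∃ a : ℕ → ℤ, a 1 = (N : ℤ) - 6 ∧
    (∀ n : ℕ, 2 ≤ n → a n = a (n - 1) - ((Int.gcd (a (n - 1)) ((n + b n : ℕ) : ℤ) : ℕ) : ℤ)) ∧
    IsLeast {n : ℕ | 1 ≤ n ∧ a n = 0} f

lemma W3.pack {N f : ℕ} (hN : 7 ≤ N) (h : W3 N f) : ∃ a : ℕ → ℤ, a 1 = (N : ℤ) - 6 ∧
    Rec a (fun n => ((n + b n : ℕ) : ℤ)) ∧ a f = 0 ∧ 1 ≤ f ∧
    (∀ k, 1 ≤ k → k < f → 0 < a k) ∧ f + 5 ≤ N := by
  obtain ⟨a, ha1, ha, ⟨hf1, haf⟩, hmin⟩ := h
  have hrec : Rec a (fun n => ((n + b n : ℕ) : ℤ)) := ha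
  have hpos : ∀ k, 1 ≤ k → k < f → 0 < a k := by
    apply pos_of hrec (by omega)
    intro k hk1 hk2 hk3
    have := hmin ⟨hk1, hk3⟩
    omega
  refine ⟨a, ha1, hrec, haf, hf1, hpos, ?_⟩
  have := hrec.desc hpos (k := 1) le_rfl f hf1 le_rfl
  push_cast at this
  omega

/-- the data of a large member -/
lemma big {X D N : ℕ} {f : ℕ} (hf : W3 N f) (hfD : N ≤ f + D)
    (hN : Nat.sqrt X + 5 * D + 2300 ≤ N) :
    (f + 1).Prime ∧ (f + 3).Prime ∧ (f + 7).Prime ∧ D + 1 < f + 1 ∧ Nat.sqrt X < f + 1 ∧ f + 5 ≤ N := by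
  obtain ⟨a, ha1, ha, hfl⟩ := id hf
  obtain ⟨h1, h2, h3⟩ := (Pool.Agent.Results.MP_3f8e47_nt.LongLife.result N (by omega) a ha1 ha f hfl).2
    (by omega) (by omega)
  obtain ⟨-, -, -, -, -, -, hgN⟩ := hf.pack (by omega)
  refine ⟨h1, h2, h3, ?_, ?_, hgN⟩ <;> omega

/-- a prime dividing `f + 1 + b` -/
lemma prime_of_b {f k p : ℕ} (hp : p.Prime) (h1 : (f + 1).Prime) (h2 : (f + 3).Prime)
    (h3 : (f + 7).Prime) (h : p ∣ f + 1 + b k) : f + 1 ≤ p := by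
  have h4 : b k = if k % 3 = 1 then 2 else if k % 3 = 2 then 6 else 0 := rfl
  rw [h4] at h
  split_ifs at h
  · have := (Nat.prime_dvd_prime_iff_eq hp h2).1 h
    omega
  · have := (Nat.prime_dvd_prime_iff_eq hp h3).1 h
    omega
  · have := (Nat.prime_dvd_prime_iff_eq hp h1).1 h
    omega

lemma same_loss_aux {N f N' f' M w : ℕ} (hM : ∀ q : ℕ, 1 ≤ q → q ≤ w → q ∣ M) (hN : 7 ≤ N)
    (hN' : 7 ≤ N') (h : W3 N f) (h' : W3 N' f') (hmod : N % M = N' % M) (hgg : f ≤ f')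
    (hl : N ≤ f + w) (hl' : N' ≤ f' + w)
    (hp1 : (f + 1).Prime) (hp2 : (f + 3).Prime) (hp3 : (f + 7).Prime) (hw1 : w < f + 1) :
    N + f' = N' + f := by
  obtain ⟨a, ha1, ha, hag, hg2, hpos, hgN⟩ := h.pack hN
  obtain ⟨a', ha1', ha', hag', hg2', hpos', hgN'⟩ := h'.pack hN'
  have hMd : (M : ℤ) ∣ (N : ℤ) - N' := (Nat.modEq_iff_dvd.1 (show N' ≡ N [MOD M] from hmod.symm))
  have hmono := ha'.desc hpos' (k := f) (by omega) f' hgg le_rfl
  have hagree := agree (T := f) (w := w) (Δ := (N : ℤ) - N') hM ha ha' (by rw [ha1, ha1']; ring) hMd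
    (by
      intro n
      rw [sub_self]
      exact dvd_zero _)
    hpos (fun k h1 h2 => hpos' k h1 (by omega)) (by rw [ha1, hag]; omega)
    (by rw [ha1']; omega)
  have hg := hagree f (by omega) le_rfl
  rw [hag, zero_sub] at hg
  have hstay := stay (T := f) (T' := f') (w := w) ha' (by omega) hpos'
    (by rw [ha1', hag']; omega)
    (by
      intro k hk1 hk2 hk3 p hp hpw hpk hpV
      have hpM : (p : ℤ) ∣ (N : ℤ) - N' :=
        (Int.natCast_dvd_natCast.2 (hM p hp.one_lt.le hpw)).trans hMd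
      rw [hk3] at hpk
      have hgk : (p : ℤ) ∣ (f : ℤ) - k := by
        have : (f : ℤ) - k = (a' f - ((k : ℤ) - f)) + ((N : ℤ) - N') := by linarith
        rw [this]
        exact dvd_add hpk hpM
      have h3 : (p : ℤ) ∣ ((f + 1 + b (k + 1) : ℕ) : ℤ) := by
        have e : ((f + 1 + b (k + 1) : ℕ) : ℤ) = ((k + 1 + b (k + 1) : ℕ) : ℤ) + ((f : ℤ) - k) := by
          push_cast; ring
        rw [e]
        exact dvd_add hpV hgk
      have h4 : p ∣ f + 1 + b (k + 1) := by exact_mod_cast h3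
      have h5 := prime_of_b hp hp1 hp2 hp3 h4
      omega)
  have h5 := hstay f' hgg le_rfl
  rw [hag'] at h5
  omega

lemma same_loss {N f N' f' M w : ℕ} (hM : ∀ q : ℕ, 1 ≤ q → q ≤ w → q ∣ M) (hN : 7 ≤ N)
    (hN' : 7 ≤ N') (h : W3 N f) (h' : W3 N' f') (hmod : N % M = N' % M)
    (hl : N ≤ f + w) (hl' : N' ≤ f' + w)
    (hp1 : (f + 1).Prime) (hp2 : (f + 3).Prime) (hp3 : (f + 7).Prime) (hw1 : w < f + 1)
    (hp1' : (f' + 1).Prime) (hp2' : (f' + 3).Prime) (hp3' : (f' + 7).Prime) (hw1' : w < f' + 1) :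
    N + f' = N' + f := by
  rcases le_total f f' with hgg | hgg
  · exact same_loss_aux hM hN hN' h h' hmod hgg hl hl' hp1 hp2 hp3 hw1
  · exact (same_loss_aux hM hN' hN h' h hmod.symm hgg hl' hl hp1' hp2' hp3' hw1').symm

open Classical in
/-- the `N` of an interval whose loss is at most `D` -/
noncomputable def SS (X Y D : ℕ) : Finset ℕ :=
  (Ioc Y (Y + X)).filter (fun N => 6 ≤ N ∧ ∃ f, W3 N f ∧ N ≤ f + D)

open Classical in
lemma mem_SS {X Y D N : ℕ} : N ∈ SS X Y D ↔ (Y < N ∧ N ≤ Y + X) ∧ 6 ≤ N ∧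
    ∃ f, W3 N f ∧ N ≤ f + D := by
  unfold SS
  rw [mem_filter, mem_Ioc]

/-- the three shifts -/
def sh (j : ℤ) : Fin 3 → ℤ := ![-j, 2 - j, 6 - j]

lemma sh_diff (j : ℤ) (i i' : Fin 3) (h : i ≠ i') (p : ℕ) (hp : p.Prime) (h3 : 3 < p) :
    ¬ (p : ℤ) ∣ sh j i - sh j i' := by
  have key : ∀ m : ℕ, m = 2 ∨ m = 4 ∨ m = 6 → ¬ (p : ℤ) ∣ (m : ℤ) := by
    intro m hm hd
    have h1 : p ∣ m := by exact_mod_cast hd
    have hp2 : p ∣ 2 ∨ p ∣ 3 := by
      rcases hm with rfl | rfl | rfl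
      · left; exact h1
      · left
        have : p ∣ 2 * 2 := h1
        rcases (hp.dvd_mul).1 this with h | h <;> exact h
      · have : p ∣ 2 * 3 := h1
        exact (hp.dvd_mul).1 this
    rcases hp2 with h | h
    · have := Nat.le_of_dvd (by norm_num) h; omega
    · have := Nat.le_of_dvd (by norm_num) h; omega
  have k2 := key 2 (by norm_num)
  have k4 := key 4 (by norm_num)
  have k6 := key 6 (by norm_num)
  push_cast at k2 k4 k6
  have hs : ∀ i i' : Fin 3, i ≠ i' → sh j i - sh j i' = 2 ∨ sh j i - sh j i' = -2 ∨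
      sh j i - sh j i' = 4 ∨ sh j i - sh j i' = -4 ∨ sh j i - sh j i' = 6 ∨ sh j i - sh j i' = -6 := by
    intro i i' h
    have e0 : sh j 0 = -j := rfl
    have e1 : sh j 1 = 2 - j := rfl
    have e2 : sh j 2 = 6 - j := rfl
    fin_cases i <;> fin_cases i'
    · exact absurd rfl h
    · change sh j 0 - sh j 1 = 2 ∨ sh j 0 - sh j 1 = -2 ∨ sh j 0 - sh j 1 = 4 ∨
        sh j 0 - sh j 1 = -4 ∨ sh j 0 - sh j 1 = 6 ∨ sh j 0 - sh j 1 = -6
      rw [e0, e1]; omega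
    · change sh j 0 - sh j 2 = 2 ∨ sh j 0 - sh j 2 = -2 ∨ sh j 0 - sh j 2 = 4 ∨
        sh j 0 - sh j 2 = -4 ∨ sh j 0 - sh j 2 = 6 ∨ sh j 0 - sh j 2 = -6
      rw [e0, e2]; omega
    · change sh j 1 - sh j 0 = 2 ∨ sh j 1 - sh j 0 = -2 ∨ sh j 1 - sh j 0 = 4 ∨
        sh j 1 - sh j 0 = -4 ∨ sh j 1 - sh j 0 = 6 ∨ sh j 1 - sh j 0 = -6
      rw [e0, e1]; omega
    · exact absurd rfl h
    · change sh j 1 - sh j 2 = 2 ∨ sh j 1 - sh j 2 = -2 ∨ sh j 1 - sh j 2 = 4 ∨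
        sh j 1 - sh j 2 = -4 ∨ sh j 1 - sh j 2 = 6 ∨ sh j 1 - sh j 2 = -6
      rw [e1, e2]; omega
    · change sh j 2 - sh j 0 = 2 ∨ sh j 2 - sh j 0 = -2 ∨ sh j 2 - sh j 0 = 4 ∨
        sh j 2 - sh j 0 = -4 ∨ sh j 2 - sh j 0 = 6 ∨ sh j 2 - sh j 0 = -6
      rw [e0, e2]; omega
    · change sh j 2 - sh j 1 = 2 ∨ sh j 2 - sh j 1 = -2 ∨ sh j 2 - sh j 1 = 4 ∨
        sh j 2 - sh j 1 = -4 ∨ sh j 2 - sh j 1 = 6 ∨ sh j 2 - sh j 1 = -6
      rw [e1, e2]; omega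
    · exact absurd rfl h
  rcases hs i i' h with h | h | h | h | h | h
  · rw [h]; exact k2
  · rw [h, dvd_neg]; exact k2
  · rw [h]; exact k4
  · rw [h, dvd_neg]; exact k4
  · rw [h]; exact k6
  · rw [h, dvd_neg]; exact k6

/-- the triple of `N` is free of small primes -/
lemma rough_of {X N f j : ℕ} (hj : N = f + 1 + j) (p1 : (f + 1).Prime) (p2 : (f + 3).Prime)
    (p3 : (f + 7).Prime) (hs : Nat.sqrt X < f + 1) (i : Fin 3) (p : ℕ) (hp : p.Prime) (hpX : p * p ≤ X) :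
    ¬ (p : ℤ) ∣ (N : ℤ) + sh j i := by
  intro hdvd
  have hps : p ≤ Nat.sqrt X := Nat.le_sqrt.2 hpX
  fin_cases i
  · change (p : ℤ) ∣ (N : ℤ) + -(j : ℤ) at hdvd
    have e : (N : ℤ) + -(j : ℤ) = ((f + 1 : ℕ) : ℤ) := by rw [hj]; push_cast; ring
    rw [e] at hdvd
    have h4 : p ∣ f + 1 := by exact_mod_cast hdvd
    have := (Nat.prime_dvd_prime_iff_eq hp p1).1 h4
    omega
  · change (p : ℤ) ∣ (N : ℤ) + (2 - (j : ℤ)) at hdvd
    have e : (N : ℤ) + (2 - (j : ℤ)) = ((f + 3 : ℕ) : ℤ) := by rw [hj]; push_cast; ring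
    rw [e] at hdvd
    have h4 : p ∣ f + 3 := by exact_mod_cast hdvd
    have := (Nat.prime_dvd_prime_iff_eq hp p2).1 h4
    omega
  · change (p : ℤ) ∣ (N : ℤ) + (6 - (j : ℤ)) at hdvd
    have e : (N : ℤ) + (6 - (j : ℤ)) = ((f + 7 : ℕ) : ℤ) := by rw [hj]; push_cast; ring
    rw [e] at hdvd
    have h4 : p ∣ f + 7 := by exact_mod_cast hdvd
    have := (Nat.prime_dvd_prime_iff_eq hp p3).1 h4
    omega

theorem triple_small : ∃ C : ℝ, 1 ≤ C ∧ ∀ X Y D : ℕ, 2 ≤ X → 2 ≤ D → (D : ℝ) ≤ Real.log X / 24 →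
    ((SS X Y D).card : ℝ) ≤ C * X * (Real.log (2 * D) / Real.log X) ^ 3 := by
  classical
  obtain ⟨C, hC, h⟩ := small_loss 3 (by norm_num)
  refine ⟨C, hC, fun X Y D hX hD1 hD => h X Y D hX (by omega) hD (SS X Y D) (filter_subset _ _) ?_⟩
  intro M r₀ hM hex
  obtain ⟨N₀, hN₀, hN₀b, hN₀r⟩ := hex
  obtain ⟨-, h3, g₀, hg₀, hg₀D⟩ := mem_SS.1 hN₀
  obtain ⟨p1, p2, p3, w1, s1, hgN⟩ := big hg₀ hg₀D hN₀b
  obtain ⟨j, hj⟩ : ∃ j : ℕ, N₀ = g₀ + 1 + j := ⟨N₀ - (g₀ + 1), by omega⟩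
  refine ⟨sh j, fun i i' hii p hp hDp => sh_diff j i i' hii p hp (by omega), ?_⟩
  intro N hN hNb hNr i p hp hpX
  obtain ⟨-, h3', g, hg, hgD⟩ := mem_SS.1 hN
  obtain ⟨p1', p2', p3', w1', s1', hgN'⟩ := big hg hgD hNb
  have hsame := same_loss (M := M) (w := D + 1) hM (by omega) (by omega) hg₀ hg (by rw [hN₀r, hNr])
    (by omega) (by omega) p1 p2 p3 (by omega) p1' p2' p3' (by omega)
  exact rough_of (by omega) p1' p2' p3' s1' i p hp hpX

theorem triple_all : ∃ C : ℝ, 1 ≤ C ∧ ∀ X Y D : ℕ, 2 ≤ X → 1 ≤ D →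
    ((SS X Y D).card : ℝ) ≤ C * D * (X / Real.log X ^ 3) := by
  classical
  obtain ⟨C, hC, X₀, h⟩ := rough_ap 3 (by norm_num)
  have hlogt : Tendsto (fun X : ℕ => Real.log (X : ℝ)) atTop atTop :=
    Real.tendsto_log_atTop.comp tendsto_natCast_atTop_atTop
  obtain ⟨X₁, hX₁⟩ := eventually_atTop.1 ((log_pow_le 8).and (hlogt.eventually_ge_atTop 2313))
  obtain ⟨X₂, hX₂⟩ : ∃ X₂ : ℕ, X₂ = max (max X₀ X₁) 3 := ⟨_, rfl⟩
  refine ⟨2 ^ 3 * C + 2 + Real.log X₂ ^ 3, ?_, ?_⟩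
  · have : 0 ≤ Real.log X₂ ^ 3 := pow_nonneg (Real.log_natCast_nonneg _) 3
    linarith
  intro X Y D hX hD1
  have hXr : (2 : ℝ) ≤ X := by exact_mod_cast hX
  have hlX : 0 < Real.log X := Real.log_pos (by linarith)
  have hDr : (1 : ℝ) ≤ D := by exact_mod_cast hD1
  have hcX : ((SS X Y D).card : ℝ) ≤ X := by
    have h1 : (SS X Y D).card ≤ (Ioc Y (Y + X)).card := card_le_card (filter_subset _ _)
    rw [Nat.card_Ioc] at h1
    have h2 : (SS X Y D).card ≤ X := by omega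
    exact_mod_cast h2
  obtain ⟨u, hu⟩ : ∃ u : ℝ, u = X / Real.log X ^ 3 := ⟨_, rfl⟩
  have hu0 : 0 < u := by rw [hu]; positivity
  have hXu : (X : ℝ) = u * Real.log X ^ 3 := by rw [hu]; field_simp
  rw [← hu]
  have hl3 : 0 ≤ Real.log X₂ ^ 3 := pow_nonneg (Real.log_natCast_nonneg _) 3
  have hexp : (2 ^ 3 * C + 2 + Real.log X₂ ^ 3) * D * u =
      2 ^ 3 * C * D * u + 2 * (D * u) + Real.log X₂ ^ 3 * D * u := by ring
  rw [hexp]
  have hT1 : 0 ≤ 2 ^ 3 * C * D * u := by positivity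
  have hT2 : 0 ≤ D * u := by positivity
  have hT3 : 0 ≤ Real.log X₂ ^ 3 * D * u := by positivity
  rcases lt_or_ge X X₂ with hlt | hge
  · have h3 : Real.log X ≤ Real.log X₂ := Real.log_le_log (by linarith) (by exact_mod_cast hlt.le)
    have h4 : Real.log X ^ 3 ≤ Real.log X₂ ^ 3 := pow_le_pow_left₀ hlX.le h3 3
    have h5 : (X : ℝ) ≤ Real.log X₂ ^ 3 * D * u := by
      calc (X : ℝ) = Real.log X ^ 3 * 1 * u := by
            rw [mul_one, mul_comm]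
            exact hXu
        _ ≤ Real.log X₂ ^ 3 * D * u := by gcongr
    linarith
  · have g0 : X₀ ≤ X := ((le_max_left _ _).trans (le_max_left _ _)).trans (hX₂ ▸ hge)
    have g1 : X₁ ≤ X := ((le_max_right _ _).trans (le_max_left _ _)).trans (hX₂ ▸ hge)
    obtain ⟨hA2, hA3⟩ := hX₁ X g1
    obtain ⟨N₁, hN₁⟩ : ∃ N₁ : ℕ, N₁ = Nat.sqrt X + 5 * D + 2300 := ⟨_, rfl⟩
    have hsub : SS X Y D ⊆ (range D).biUnion (fun j => (Ioc Y (Y + X)).filter (fun N : ℕ => N % 1 = 0 ∧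
        ∀ i, ∀ p : ℕ, p.Prime → 3 < p → p * p ≤ X → ¬ (p : ℤ) ∣ (N : ℤ) + sh j i)) ∪ range N₁ := by
      intro N hN
      obtain ⟨h1, h3, f, hf, hfD⟩ := mem_SS.1 hN
      rw [mem_union, mem_range, mem_biUnion]
      by_cases hNb : N₁ ≤ N
      · left
        obtain ⟨p1, p2, p3, w1, s1, hgN⟩ := big hf hfD (hN₁ ▸ hNb)
        refine ⟨N - (f + 1), mem_range.2 (by omega), mem_filter.2 ⟨mem_Ioc.2 h1, Nat.mod_one _, ?_⟩⟩
        intro i p hp _ hpX
        exact rough_of (by omega) p1 p2 p3 s1 i p hp hpX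
      · right; omega
    have h2 := (card_le_card hsub).trans ((card_union_le _ _).trans (Nat.add_le_add_right card_biUnion_le _))
    rw [card_range] at h2
    have hone : ∀ j ∈ range D, (((Ioc Y (Y + X)).filter (fun N : ℕ => N % 1 = 0 ∧
        ∀ i, ∀ p : ℕ, p.Prime → 3 < p → p * p ≤ X → ¬ (p : ℤ) ∣ (N : ℤ) + sh j i)).card : ℝ) ≤
        2 ^ 3 * C * u := by
      intro j _
      have h5 := h X 1 3 g0 le_rfl (by omega) (by norm_num) (by
        intro p hp h2 h3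
        have := Nat.le_of_dvd one_pos h3
        omega) (sh j) (fun i i' hii p hp h3 => sh_diff j i i' hii p hp h3) Y 0
      refine h5.trans ?_
      have h6 : Real.log ((3 : ℕ) : ℝ) ≤ 2 := by
        push_cast
        have := Real.log_le_sub_one_of_pos (show (0 : ℝ) < 3 by norm_num)
        linarith
      have h60 : 0 ≤ Real.log ((3 : ℕ) : ℝ) := Real.log_natCast_nonneg _
      rw [Nat.cast_one, div_one]
      calc C * X * (Real.log ((3 : ℕ) : ℝ) / Real.log X) ^ 3 ≤ C * X * (2 / Real.log X) ^ 3 := by gcongr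
        _ = 2 ^ 3 * C * u := by rw [hu, div_pow]; ring
    have h3 : ((SS X Y D).card : ℝ) ≤ ∑ j ∈ range D, (((Ioc Y (Y + X)).filter (fun N : ℕ => N % 1 = 0 ∧
        ∀ i, ∀ p : ℕ, p.Prime → 3 < p → p * p ≤ X → ¬ (p : ℤ) ∣ (N : ℤ) + sh j i)).card : ℝ) + N₁ := by
      exact_mod_cast h2
    have h4 := Finset.sum_le_sum hone
    rw [Finset.sum_const, card_range, nsmul_eq_mul] at h4
    have hlog1 : (1 : ℝ) ≤ Real.log X := by linarith
    have h5 : (N₁ : ℝ) ≤ 2 * (D * u) := by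
      have h6 : √(X : ℝ) ≤ u := by
        rw [hu, Real.sqrt_le_left (by positivity), div_pow, ← pow_mul, le_div_iff₀ (by positivity)]
        have h8 : Real.log X ^ (3 * 2) ≤ Real.log X ^ 8 := pow_le_pow_right₀ hlog1 (by norm_num)
        calc (X : ℝ) * Real.log X ^ (3 * 2) ≤ (X : ℝ) * X :=
              mul_le_mul_of_nonneg_left (h8.trans hA2) (by positivity)
          _ = (X : ℝ) ^ 2 := by ring
      have h7 : (2305 : ℝ) ≤ u := by
        rw [hu, le_div_iff₀ (by positivity)]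
        have h8 : Real.log X * Real.log X ^ 3 = Real.log X ^ 4 := by ring
        have h9 : Real.log X ^ 4 ≤ Real.log X ^ 8 := pow_le_pow_right₀ hlog1 (by norm_num)
        have h10 : 2313 * Real.log X ^ 3 ≤ Real.log X * Real.log X ^ 3 := by gcongr
        have h11 : 0 ≤ Real.log X ^ 3 := by positivity
        linarith
      have h8 : (Nat.sqrt X : ℝ) ≤ √(X : ℝ) := Real.nat_sqrt_le_real_sqrt
      rw [hN₁]
      push_cast
      nlinarith
    linarith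

open Classical in
/-- all but `ε X` of the integers of an interval have loss at least `c log³ X` -/
theorem triple_typical (ε : ℝ) (hε : 0 < ε) : ∃ c : ℝ, 0 < c ∧ ∃ X₀ : ℕ, ∀ X Y : ℕ, X₀ ≤ X →
    (((Ioc Y (Y + X)).filter (fun N : ℕ => 6 ≤ N ∧ ∃ f : ℕ, W3 N f ∧
      (N : ℝ) - f ≤ c * Real.log X ^ 3)).card : ℝ) ≤ ε * X := by
  classical
  obtain ⟨C, hC, h⟩ := triple_all
  have hlogt : Tendsto (fun X : ℕ => Real.log (X : ℝ)) atTop atTop :=
    Real.tendsto_log_atTop.comp tendsto_natCast_atTop_atTop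
  obtain ⟨X₁, hX₁⟩ := eventually_atTop.1 (hlogt.eventually_ge_atTop (2 * C / ε + 1))
  refine ⟨ε / (2 * C), by positivity, max X₁ 2, ?_⟩
  intro X Y hX
  have g1 : X₁ ≤ X := (le_max_left _ _).trans hX
  have g2 : 2 ≤ X := (le_max_right _ _).trans hX
  have hXr : (2 : ℝ) ≤ X := by exact_mod_cast g2
  have hlX : 0 < Real.log X := Real.log_pos (by linarith)
  have hb2 := hX₁ X g1
  obtain ⟨D, hD⟩ : ∃ D : ℕ, D = ⌊ε / (2 * C) * Real.log X ^ 3⌋₊ + 1 := ⟨_, rfl⟩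
  have hDle : (D : ℝ) ≤ ε / C * Real.log X ^ 3 := by
    have h1 := Nat.floor_le (show (0 : ℝ) ≤ ε / (2 * C) * Real.log X ^ 3 by positivity)
    have h2 : (1 : ℝ) ≤ ε / (2 * C) * Real.log X ^ 3 := by
      have h3 : 2 * C / ε ≤ Real.log X := by linarith
      have h4 : (1 : ℝ) ≤ Real.log X := by
        have : 0 < 2 * C / ε := by positivity
        linarith
      rw [div_le_iff₀ hε] at h3
      rw [div_mul_eq_mul_div, le_div_iff₀ (by positivity), one_mul]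
      have h5 : Real.log X ≤ Real.log X ^ 3 := by
        calc Real.log X = Real.log X ^ 1 := (pow_one _).symm
          _ ≤ Real.log X ^ 3 := pow_le_pow_right₀ h4 (by norm_num)
      nlinarith
    rw [hD]
    push_cast
    have e : ε / C * Real.log X ^ 3 = 2 * (ε / (2 * C) * Real.log X ^ 3) := by
      field_simp
    rw [e]
    linarith
  have hD1 : 1 ≤ D := by omega
  have hsub : (Ioc Y (Y + X)).filter (fun N : ℕ => 6 ≤ N ∧ ∃ f : ℕ, W3 N f ∧
      (N : ℝ) - f ≤ ε / (2 * C) * Real.log X ^ 3) ⊆ SS X Y D := by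
    intro N hN
    rw [mem_filter] at hN
    obtain ⟨h1, h3, f, hf, hfc⟩ := hN
    rw [mem_SS]
    refine ⟨mem_Ioc.1 h1, h3, f, hf, ?_⟩
    have h4 := Nat.lt_floor_add_one (ε / (2 * C) * Real.log X ^ 3)
    have h5 : (N : ℝ) < f + D := by
      rw [hD]
      push_cast
      linarith
    have h6 : N < f + D := by exact_mod_cast h5
    omega
  have h2 := card_le_card hsub
  have h3 : (((Ioc Y (Y + X)).filter (fun N : ℕ => 6 ≤ N ∧ ∃ f : ℕ, W3 N f ∧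
      (N : ℝ) - f ≤ ε / (2 * C) * Real.log X ^ 3)).card : ℝ) ≤ ((SS X Y D).card : ℝ) := by
    exact_mod_cast h2
  have h4 := h X Y D g2 hD1
  have h6 : C * D * (X / Real.log X ^ 3) ≤ ε * X := by
    calc C * D * (X / Real.log X ^ 3) ≤ C * (ε / C * Real.log X ^ 3) * (X / Real.log X ^ 3) := by gcongr
      _ = ε * X := by field_simp
  linarith

end Pool.Agent.Q55.GcdTriple
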