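import Pool.Agent.TH685.TI.Gen

/-!
# The least `k` for which `k ^ e * n` lies in a set of density `O(1 / log)`

Let `T` be a set of natural numbers with `O(t / log t)` elements up to `t`. Then for all `n ≤ X` with at most `ε X`
exceptions every `k ≥ 1` with `k ^ e * n ∈ T` satisfies `k ^ e > (log X) ^ (1 - η)`. Proof: a number `a = k ^ e * n`
with `k ≤ K`, where `n` has at most `B log K` divisors `≤ K`, has at most `d(k ^ e) B log K` divisors `≤ K`; hence each
element of `T` is hit by few pairs `(k, n)`.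
-/

set_option autoImplicit false

open Finset Filter

namespace Pool.Agent.Q55.IdxMult

/-- the divisor bound -/
lemma divisor_bound (δ : ℝ) (hδ : 0 < δ) :
    ∃ C : ℝ, 0 < C ∧ ∀ n : ℕ, n ≠ 0 → ((n.divisors.card : ℕ) : ℝ) ≤ C * (n : ℝ) ^ δ := by
  have hlog : 0 < Real.log 2 := Real.log_pos (by norm_num)
  have hδl : 0 < δ * Real.log 2 := mul_pos hδ hlog
  set M : ℝ := max 1 (1 / (δ * Real.log 2)) with hM
  have hM1 : 1 ≤ M := le_max_left _ _
  have hM2 : 1 ≤ M * (δ * Real.log 2) := by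
    have : 1 / (δ * Real.log 2) ≤ M := le_max_right _ _
    calc (1 : ℝ) = 1 / (δ * Real.log 2) * (δ * Real.log 2) := by
          field_simp
      _ ≤ M * (δ * Real.log 2) := mul_le_mul_of_nonneg_right this hδl.le
  set K : ℕ := ⌈(2 : ℝ) ^ (1 / δ)⌉₊ with hK
  have hKle : (2 : ℝ) ^ (1 / δ) ≤ (K : ℝ) := Nat.le_ceil _
  refine ⟨M ^ K, by positivity, ?_⟩
  intro n hn
  have hbase : ∀ p ∈ n.primeFactors, (((n.factorization p + 1 : ℕ)) : ℝ) ≤
      (if p < K then M else 1) * (((p : ℝ) ^ (n.factorization p)) ^ δ) := by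
    intro p hp
    have hpp : p.Prime := Nat.prime_of_mem_primeFactors hp
    set a := n.factorization p with ha
    have hp2 : (2 : ℝ) ≤ (p : ℝ) := by exact_mod_cast hpp.two_le
    have hp0 : (0 : ℝ) ≤ (p : ℝ) := by positivity
    have hpow : (((p : ℝ) ^ a) ^ δ) = ((p : ℝ) ^ δ) ^ a := by
      rw [← Real.rpow_natCast (p : ℝ) a, ← Real.rpow_mul hp0, ← Real.rpow_natCast ((p : ℝ) ^ δ) a,
        ← Real.rpow_mul hp0, mul_comm]
    rw [hpow]
    split_ifs with hlt
    · have h1 : (2 : ℝ) ^ δ ≤ (p : ℝ) ^ δ := Real.rpow_le_rpow (by norm_num) hp2 hδ.le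
      have h2 : ((2 : ℝ) ^ δ) ^ a ≤ ((p : ℝ) ^ δ) ^ a :=
        pow_le_pow_left₀ (by positivity) h1 a
      have h3 : 1 + (a : ℝ) * (δ * Real.log 2) ≤ ((2 : ℝ) ^ δ) ^ a := by
        have : ((2 : ℝ) ^ δ) ^ a = Real.exp ((a : ℝ) * (δ * Real.log 2)) := by
          rw [← Real.rpow_natCast, ← Real.rpow_mul (by norm_num), Real.rpow_def_of_pos (by norm_num)]
          congr 1; ring
        rw [this]
        have := Real.add_one_le_exp ((a : ℝ) * (δ * Real.log 2))
        linarith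
      have h4 : (((a + 1 : ℕ)) : ℝ) ≤ M * (1 + (a : ℝ) * (δ * Real.log 2)) := by
        push_cast
        have ha0 : (0 : ℝ) ≤ (a : ℝ) := by positivity
        nlinarith [mul_le_mul_of_nonneg_left hM2 ha0]
      calc (((a + 1 : ℕ)) : ℝ) ≤ M * (1 + (a : ℝ) * (δ * Real.log 2)) := h4
        _ ≤ M * (((p : ℝ) ^ δ) ^ a) :=
          mul_le_mul_of_nonneg_left (h3.trans h2) (by linarith)
    · have hKp : (K : ℝ) ≤ (p : ℝ) := by exact_mod_cast not_lt.mp hlt
      have h1 : (2 : ℝ) ≤ (p : ℝ) ^ δ := by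
        have h5 : ((2 : ℝ) ^ (1 / δ)) ^ δ ≤ (p : ℝ) ^ δ :=
          Real.rpow_le_rpow (by positivity) (hKle.trans hKp) hδ.le
        have h6 : ((2 : ℝ) ^ (1 / δ)) ^ δ = 2 := by
          rw [← Real.rpow_mul (by norm_num)]
          rw [one_div, inv_mul_cancel₀ hδ.ne', Real.rpow_one]
        rwa [h6] at h5
      have h2 : (2 : ℝ) ^ a ≤ ((p : ℝ) ^ δ) ^ a := pow_le_pow_left₀ (by norm_num) h1 a
      have h3 : (((a + 1 : ℕ)) : ℝ) ≤ (2 : ℝ) ^ a := by
        have : a + 1 ≤ 2 ^ a := Nat.lt_two_pow_self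
        exact_mod_cast this
      rw [one_mul]
      exact h3.trans h2
  have hn' : (n : ℝ) ^ δ = ∏ p ∈ n.primeFactors, (((p : ℝ) ^ (n.factorization p)) ^ δ) := by
    rw [Real.finsetProd_rpow _ _ (fun i _ => by positivity)]
    congr 1
    have := Nat.prod_factorization_pow_eq_self hn
    conv_lhs => rw [← this]
    rw [Finsupp.prod]
    push_cast
    rfl
  rw [Nat.card_divisors hn, hn']
  push_cast
  calc (∏ p ∈ n.primeFactors, ((n.factorization p : ℝ) + 1))
      ≤ ∏ p ∈ n.primeFactors, ((if p < K then M else 1) * (((p : ℝ) ^ (n.factorization p)) ^ δ)) := by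
        refine Finset.prod_le_prod (fun i _ => by positivity) (fun i hi => ?_)
        have := hbase i hi
        push_cast at this
        exact this
    _ = (∏ p ∈ n.primeFactors, (if p < K then M else 1)) *
          ∏ p ∈ n.primeFactors, (((p : ℝ) ^ (n.factorization p)) ^ δ) := Finset.prod_mul_distrib
    _ ≤ M ^ K * ∏ p ∈ n.primeFactors, (((p : ℝ) ^ (n.factorization p)) ^ δ) := by
        refine mul_le_mul_of_nonneg_right ?_ (Finset.prod_nonneg (fun i _ => by positivity))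
        rw [Finset.prod_ite]
        simp only [Finset.prod_const, one_pow, mul_one]
        apply pow_le_pow_right₀ hM1
        calc (n.primeFactors.filter (fun p => p < K)).card ≤ (Finset.range K).card :=
              Finset.card_le_card (fun p hp => by
                rw [Finset.mem_filter] at hp; exact Finset.mem_range.2 hp.2)
          _ = K := Finset.card_range K

/-- the divisors of `a` among `1, ..., K` -/
def dv (K a : ℕ) : Finset ℕ := (Icc 1 K).filter (fun k => k ∣ a)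

/-- small divisors of a product -/
lemma dv_mul (K m n : ℕ) (hm : m ≠ 0) : (dv K (m * n)).card ≤ m.divisors.card * (dv K n).card := by
  classical
  rw [← card_product]
  refine card_le_card_of_injOn (fun k => (k / Nat.gcd k n, Nat.gcd k n)) ?_ ?_
  · intro k hk
    have hk := mem_filter.1 (mem_coe.1 hk)
    obtain ⟨h1, h2⟩ := mem_Icc.1 hk.1
    have hg : 0 < Nat.gcd k n := Nat.gcd_pos_of_pos_left _ (by omega)
    rw [mem_coe, mem_product]
    refine ⟨Nat.mem_divisors.2 ⟨?_, hm⟩, mem_filter.2 ⟨mem_Icc.2 ⟨hg, ?_⟩, Nat.gcd_dvd_right _ _⟩⟩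
    · have hc : Nat.Coprime (k / Nat.gcd k n) (n / Nat.gcd k n) := Nat.coprime_div_gcd_div_gcd hg
      have h3 : k / Nat.gcd k n ∣ m * (n / Nat.gcd k n) := by
        have h4 : k / Nat.gcd k n * Nat.gcd k n ∣ m * (n / Nat.gcd k n) * Nat.gcd k n := by
          rw [Nat.div_mul_cancel (Nat.gcd_dvd_left _ _), mul_assoc, Nat.div_mul_cancel (Nat.gcd_dvd_right _ _)]
          exact hk.2
        exact Nat.dvd_of_mul_dvd_mul_right hg h4
      exact hc.dvd_of_dvd_mul_right h3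
    · exact (Nat.le_of_dvd (by omega) (Nat.gcd_dvd_left _ _)).trans h2
  · intro k hk k' hk' h
    simp only [Prod.mk.injEq] at h
    rw [← Nat.div_mul_cancel (Nat.gcd_dvd_left k n), ← Nat.div_mul_cancel (Nat.gcd_dvd_left k' n), h.1, h.2]

/-- few numbers have many small divisors -/
lemma atyp (X K : ℕ) (D : ℝ) (hD : 0 < D) :
    ((((Icc 1 X).filter (fun n => D < (dv K n).card)).card : ℕ) : ℝ) * D ≤ X * (1 + Real.log K) := by
  classical
  have h1 : ((((Icc 1 X).filter (fun n => D < (dv K n).card)).card : ℕ) : ℝ) * D ≤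
      ∑ n ∈ Icc 1 X, ((dv K n).card : ℝ) := by
    rw [← nsmul_eq_mul]
    calc ((Icc 1 X).filter (fun n => D < (dv K n).card)).card • D
        ≤ ∑ n ∈ (Icc 1 X).filter (fun n => D < (dv K n).card), ((dv K n).card : ℝ) :=
          card_nsmul_le_sum _ _ _ (fun n hn => (mem_filter.1 hn).2.le)
      _ ≤ _ := sum_le_sum_of_subset_of_nonneg (filter_subset _ _) (fun _ _ _ => by positivity)
  refine h1.trans ?_
  have h2 : ∑ n ∈ Icc 1 X, ((dv K n).card : ℝ) = ∑ k ∈ Icc 1 K, (((Icc 1 X).filter (fun n => k ∣ n)).card : ℝ) := by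
    unfold dv
    simp only [card_filter, Nat.cast_sum]
    rw [sum_comm]
  rw [h2]
  have h3 : ∀ k ∈ Icc 1 K, (((Icc 1 X).filter (fun n => k ∣ n)).card : ℝ) ≤ X * (k : ℝ)⁻¹ := by
    intro k hk
    have hk1 := (mem_Icc.1 hk).1
    have h4 : ((Icc 1 X).filter (fun n => k ∣ n)).card = X / k := by
      rw [show Icc 1 X = Ioc 0 X from rfl]
      exact Nat.Ioc_filter_dvd_card_eq_div X k
    rw [h4]
    calc ((X / k : ℕ) : ℝ) ≤ (X : ℝ) / k := Nat.cast_div_le
      _ = X * (k : ℝ)⁻¹ := by rw [div_eq_mul_inv]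
  refine (sum_le_sum h3).trans ?_
  rw [← mul_sum]
  apply mul_le_mul_of_nonneg_left _ (by positivity)
  have h5 := harmonic_le_one_add_log K
  rw [harmonic_eq_sum_Icc] at h5
  push_cast at h5
  exact h5

open Classical in
/-- the count of the `n` hit by a pair -/
lemma hit (T : ℕ → Prop) (e X K : ℕ) (D M : ℝ) (hM0 : 0 ≤ M) (hD0 : 0 ≤ D)
    (hM : ∀ k : ℕ, 1 ≤ k → k ≤ K → (((k ^ e).divisors.card : ℕ) : ℝ) ≤ M) :
    ((((Icc 1 X).filter (fun n => ((dv K n).card : ℝ) ≤ D ∧ ∃ k, 1 ≤ k ∧ k ≤ K ∧ T (k ^ e * n))).card : ℕ) : ℝ) ≤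
      (Pool.Agent.TH685.Gen.cn T (K ^ e * X + 1) : ℝ) * (M * D) := by
  set S := (Icc 1 X).filter (fun n => ((dv K n).card : ℝ) ≤ D ∧ ∃ k, 1 ≤ k ∧ k ≤ K ∧ T (k ^ e * n)) with hS
  set A := (Icc 1 (K ^ e * X)).filter (fun a => T a) with hA
  have hAc : A.card ≤ Pool.Agent.TH685.Gen.cn T (K ^ e * X + 1) := by
    unfold Pool.Agent.TH685.Gen.cn
    rw [← Set.ncard_coe_finset]
    apply Set.ncard_le_ncard _ (Pool.Agent.TH685.Gen.fin_lt T _)
    intro a ha
    have ha := mem_filter.1 (mem_coe.1 ha)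
    have h := mem_Icc.1 ha.1
    exact ⟨h.1, by omega, ha.2⟩
  -- the chosen `k`
  let κ : ℕ → ℕ := fun n => if h : ∃ k, 1 ≤ k ∧ k ≤ K ∧ T (k ^ e * n) then h.choose else 1
  have hκ : ∀ n ∈ S, 1 ≤ κ n ∧ κ n ≤ K ∧ T ((κ n) ^ e * n) := by
    intro n hn
    have h := (mem_filter.1 hn).2.2
    simp only [κ, dif_pos h]
    exact h.choose_spec
  have hmaps : ∀ n ∈ S, (κ n) ^ e * n ∈ A := by
    intro n hn
    obtain ⟨h1, h2, h3⟩ := hκ n hn
    have h4 := mem_Icc.1 (mem_filter.1 hn).1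
    refine mem_filter.2 ⟨mem_Icc.2 ⟨?_, ?_⟩, h3⟩
    · have : 0 < (κ n) ^ e := by positivity
      nlinarith [h4.1]
    · exact Nat.mul_le_mul (Nat.pow_le_pow_left h2 _) h4.2
  have hfib : ∀ a ∈ A, (((S.filter (fun n => (κ n) ^ e * n = a)).card : ℕ) : ℝ) ≤ M * D := by
    intro a ha
    by_cases hne : (S.filter (fun n => (κ n) ^ e * n = a)).Nonempty
    · obtain ⟨n₀, hn₀⟩ := hne
      obtain ⟨hn₀S, hn₀a⟩ := mem_filter.1 hn₀
      obtain ⟨h1, h2, h3⟩ := hκ n₀ hn₀S
      by_cases he : e = 0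
      · -- the fibre has one element
        have h5 : (S.filter (fun n => (κ n) ^ e * n = a)).card ≤ 1 := by
          rw [card_le_one]
          intro x hx y hy
          have hx := (mem_filter.1 hx).2
          have hy := (mem_filter.1 hy).2
          rw [he, pow_zero, one_mul] at hx hy
          omega
        have h6 : (1 : ℝ) ≤ M := by
          refine le_trans ?_ (hM 1 le_rfl (h1.trans h2))
          simp
        have h7 : (1 : ℝ) ≤ D := by
          refine le_trans ?_ (mem_filter.1 hn₀S).2.1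
          have h8 : 1 ∈ dv K n₀ := mem_filter.2 ⟨mem_Icc.2 ⟨le_rfl, h1.trans h2⟩, one_dvd _⟩
          have : 1 ≤ (dv K n₀).card := card_pos.2 ⟨1, h8⟩
          exact_mod_cast this
        calc (((S.filter (fun n => (κ n) ^ e * n = a)).card : ℕ) : ℝ) ≤ 1 := by exact_mod_cast h5
          _ ≤ M * D := by nlinarith
      have h5 : (S.filter (fun n => (κ n) ^ e * n = a)).card ≤ (dv K a).card := by
        refine card_le_card_of_injOn κ ?_ ?_
        · intro n hn
          obtain ⟨hnS, hna⟩ := mem_filter.1 (mem_coe.1 hn)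
          obtain ⟨g1, g2, g3⟩ := hκ n hnS
          refine mem_coe.2 (mem_filter.2 ⟨mem_Icc.2 ⟨g1, g2⟩, ?_⟩)
          rw [← hna]
          exact (dvd_pow_self _ he).trans (Dvd.intro _ rfl)
        · intro n hn n' hn' h
          obtain ⟨hnS, hna⟩ := mem_filter.1 (mem_coe.1 hn)
          obtain ⟨hnS', hna'⟩ := mem_filter.1 (mem_coe.1 hn')
          obtain ⟨g1, g2, g3⟩ := hκ n hnS
          have h : κ n = κ n' := h
          rw [← h, ← hna] at hna'
          exact (Nat.eq_of_mul_eq_mul_left (by positivity) hna').symm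
      have h6 : (dv K a).card ≤ ((κ n₀) ^ e).divisors.card * (dv K n₀).card := by
        rw [← hn₀a]
        exact dv_mul K _ n₀ (by positivity)
      calc (((S.filter (fun n => (κ n) ^ e * n = a)).card : ℕ) : ℝ)
          ≤ ((((κ n₀) ^ e).divisors.card * (dv K n₀).card : ℕ) : ℝ) := by exact_mod_cast h5.trans h6
        _ = ((((κ n₀) ^ e).divisors.card : ℕ) : ℝ) * ((dv K n₀).card : ℝ) := by push_cast; ring
        _ ≤ M * D := mul_le_mul (hM _ h1 h2) (mem_filter.1 hn₀S).2.1 (by positivity) hM0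
    · rw [not_nonempty_iff_eq_empty] at hne
      rw [hne, card_empty]
      push_cast
      positivity
  have h1 : S.card = ∑ a ∈ A, (S.filter (fun n => (κ n) ^ e * n = a)).card :=
    card_eq_sum_card_fiberwise (fun n hn => hmaps n hn)
  rw [h1]
  push_cast
  calc ∑ a ∈ A, (((S.filter (fun n => (κ n) ^ e * n = a)).card : ℕ) : ℝ) ≤ ∑ _a ∈ A, M * D := sum_le_sum hfib
    _ = (A.card : ℝ) * (M * D) := by rw [sum_const, nsmul_eq_mul]
    _ ≤ _ := by
      apply mul_le_mul_of_nonneg_right _ (by positivity)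
      exact_mod_cast hAc

/-- **Main lemma.** Let `T` have `O(t / log t)` elements up to `t`, `e ≥ 1`, `0 < η < 1`. For all `n ≤ X` but `ε X` of
them every `k ≥ 1` with `k ^ e * n ∈ T` satisfies `k ^ e > (log X) ^ (1 - η)`. -/
theorem main (T : ℕ → Prop) (hT : Pool.Agent.TH685.Gen.Few T) (e : ℕ) (he : 1 ≤ e) (η : ℝ) (hη : 0 < η) (hη1 : η < 1)
    (ε : ℝ) (hε : 0 < ε) : ∀ᶠ X : ℕ in atTop,
      (Set.ncard {n : ℕ | 1 ≤ n ∧ n ≤ X ∧ ∃ k : ℕ, 1 ≤ k ∧ (k : ℝ) ^ e ≤ Real.log X ^ (1 - η) ∧ T (k ^ e * n)} : ℝ) ≤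
        ε * X := by
  classical
  obtain ⟨C, hC, X₀, hX₀, hcn⟩ := hT
  obtain ⟨C₂, hC₂, hdiv⟩ := divisor_bound η hη
  -- the final comparison
  have hev : ∀ᶠ L : ℝ in atTop, C * C₂ * (2 / ε) * (1 + Real.log L) * L ^ (-(η ^ 2)) ≤ ε / 2 ∧ 1 ≤ L := by
    have h1 := (isLittleO_log_rpow_atTop (show (0 : ℝ) < η ^ 2 by positivity))
    have h2 : Tendsto (fun L : ℝ => (1 + Real.log L) * L ^ (-(η ^ 2))) atTop (nhds 0) := by
      have h3 : Tendsto (fun L : ℝ => L ^ (-(η ^ 2))) atTop (nhds 0) := tendsto_rpow_neg_atTop (by positivity)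
      have h4 : Tendsto (fun L : ℝ => Real.log L * L ^ (-(η ^ 2))) atTop (nhds 0) := by
        have h5 := h1.tendsto_div_nhds_zero
        refine h5.congr' ?_
        filter_upwards [eventually_gt_atTop 0] with L hL
        rw [Real.rpow_neg hL.le, div_eq_mul_inv]
      have h6 := h3.add h4
      rw [add_zero] at h6
      refine h6.congr (fun L => by ring)
    have h7 := h2.const_mul (C * C₂ * (2 / ε))
    rw [mul_zero] at h7
    filter_upwards [h7.eventually (ge_mem_nhds (show (0 : ℝ) < ε / 2 by positivity)), eventually_ge_atTop 1]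
      with L hL hL1
    refine ⟨?_, hL1⟩
    calc C * C₂ * (2 / ε) * (1 + Real.log L) * L ^ (-(η ^ 2)) =
        C * C₂ * (2 / ε) * ((1 + Real.log L) * L ^ (-(η ^ 2))) := by ring
      _ ≤ ε / 2 := hL
  have hlogt : Tendsto (fun X : ℕ => Real.log (X : ℝ)) atTop atTop :=
    Real.tendsto_log_atTop.comp tendsto_natCast_atTop_atTop
  filter_upwards [hlogt.eventually hev, eventually_ge_atTop X₀] with X hXL hXX
  obtain ⟨hfin, hL1⟩ := hXL
  have hX3 : 3 ≤ X := hX₀.trans hXX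
  have hXr : (3 : ℝ) ≤ X := by exact_mod_cast hX3
  set L : ℝ := Real.log X with hL
  have hL0 : 0 < L := by linarith
  set R : ℝ := L ^ (1 - η) with hR
  have hR1 : 1 ≤ R := Real.one_le_rpow hL1 (by linarith)
  -- the largest admissible `k`
  obtain ⟨K, hK⟩ : ∃ K : ℕ, K = ⌊R ^ (1 / (e : ℝ))⌋₊ := ⟨_, rfl⟩
  have he0 : (0 : ℝ) < e := by exact_mod_cast he
  have hR1e : 1 ≤ R ^ (1 / (e : ℝ)) := Real.one_le_rpow hR1 (by positivity)
  have hK1 : 1 ≤ K := by
    rw [hK]
    exact Nat.le_floor (by exact_mod_cast hR1e)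
  have hKr : (K : ℝ) ^ e ≤ R := by
    have h1 : (K : ℝ) ≤ R ^ (1 / (e : ℝ)) := by rw [hK]; exact Nat.floor_le (by positivity)
    calc (K : ℝ) ^ e ≤ (R ^ (1 / (e : ℝ))) ^ e := by gcongr
      _ = R := by
        rw [← Real.rpow_natCast, ← Real.rpow_mul (by positivity), one_div, inv_mul_cancel₀ he0.ne', Real.rpow_one]
  have hKmax : ∀ k : ℕ, (k : ℝ) ^ e ≤ R → k ≤ K := by
    intro k hk
    rw [hK]
    apply Nat.le_floor
    calc (k : ℝ) = ((k : ℝ) ^ e) ^ (1 / (e : ℝ)) := by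
          rw [← Real.rpow_natCast, ← Real.rpow_mul (by positivity), one_div, mul_inv_cancel₀ he0.ne', Real.rpow_one]
      _ ≤ _ := by gcongr
  have hK1r : (1 : ℝ) ≤ K := by exact_mod_cast hK1
  have hKe1 : (1 : ℝ) ≤ (K : ℝ) ^ e := one_le_pow₀ hK1r
  have hKL : (K : ℝ) ≤ L := by
    calc (K : ℝ) ≤ (K : ℝ) ^ e := le_self_pow₀ hK1r (by omega)
      _ ≤ R := hKr
      _ ≤ L ^ (1 : ℝ) := Real.rpow_le_rpow_of_exponent_le hL1 (by linarith)
      _ = L := Real.rpow_one _
  have hlK : Real.log K ≤ Real.log L := Real.log_le_log (by linarith) hKL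
  have hlK0 : 0 ≤ Real.log K := Real.log_nonneg hK1r
  obtain ⟨D, hD⟩ : ∃ D : ℝ, D = 2 / ε * (1 + Real.log L) := ⟨_, rfl⟩
  have hD0 : 0 < D := by rw [hD]; have := Real.log_nonneg hL1; positivity
  obtain ⟨M, hM⟩ : ∃ M : ℝ, M = C₂ * R ^ η := ⟨_, rfl⟩
  have hM0 : 0 ≤ M := by rw [hM]; positivity
  have hdivM : ∀ k : ℕ, 1 ≤ k → k ≤ K → (((k ^ e).divisors.card : ℕ) : ℝ) ≤ M := by
    intro k hk hkK
    have h1 := hdiv (k ^ e) (by positivity)
    refine h1.trans ?_
    rw [hM]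
    apply mul_le_mul_of_nonneg_left _ hC₂.le
    apply Real.rpow_le_rpow (by positivity) _ hη.le
    push_cast
    have hkK' : (k : ℝ) ≤ K := by exact_mod_cast hkK
    calc (k : ℝ) ^ e ≤ (K : ℝ) ^ e := by gcongr
      _ ≤ R := hKr
  have h1 := atyp X K D hD0
  have h2 := hit T e X K D M hM0 hD0.le hdivM
  -- the count of `T`
  have hY : X ≤ K ^ e * X := Nat.le_mul_of_pos_left _ (by positivity)
  have h3 := hcn (K ^ e * X) (hXX.trans hY)
  have h4 : (Pool.Agent.TH685.Gen.cn T (K ^ e * X + 1) : ℝ) ≤ C * (R * X / L) := by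
    refine h3.trans ?_
    apply mul_le_mul_of_nonneg_left _ hC.le
    push_cast
    have h5 : L ≤ Real.log ((K : ℝ) ^ e * X) := by
      rw [hL]
      apply Real.log_le_log (by linarith)
      nlinarith
    gcongr
  -- the exceptional set
  set E := (Icc 1 X).filter (fun n => D < (dv K n).card) with hE
  set S := (Icc 1 X).filter (fun n => ((dv K n).card : ℝ) ≤ D ∧ ∃ k, 1 ≤ k ∧ k ≤ K ∧ T (k ^ e * n)) with hS
  have hsub : {n : ℕ | 1 ≤ n ∧ n ≤ X ∧ ∃ k : ℕ, 1 ≤ k ∧ (k : ℝ) ^ e ≤ L ^ (1 - η) ∧ T (k ^ e * n)} ⊆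
      ((E ∪ S : Finset ℕ) : Set ℕ) := by
    rintro n ⟨hn1, hnX, k, hk1, hkR, hkT⟩
    rw [mem_coe, mem_union]
    by_cases hd : D < (dv K n).card
    · exact Or.inl (mem_filter.2 ⟨mem_Icc.2 ⟨hn1, hnX⟩, hd⟩)
    · exact Or.inr (mem_filter.2 ⟨mem_Icc.2 ⟨hn1, hnX⟩, not_lt.1 hd, k, hk1, hKmax k hkR, hkT⟩)
  have h6 := Set.ncard_le_ncard hsub (finite_toSet _)
  rw [Set.ncard_coe_finset] at h6
  have h7 : (Set.ncard {n : ℕ | 1 ≤ n ∧ n ≤ X ∧ ∃ k : ℕ, 1 ≤ k ∧ (k : ℝ) ^ e ≤ L ^ (1 - η) ∧ T (k ^ e * n)} : ℝ) ≤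
      E.card + S.card := by exact_mod_cast h6.trans (card_union_le _ _)
  refine h7.trans ?_
  have hE2 : (E.card : ℝ) ≤ ε / 2 * X := by
    have h8 : (E.card : ℝ) * D ≤ X * (1 + Real.log L) := h1.trans (by gcongr)
    rw [hD] at h8
    have h9 : 0 < 1 + Real.log L := by have := Real.log_nonneg hL1; linarith
    have h10 : (E.card : ℝ) * (2 / ε) * (1 + Real.log L) ≤ X * (1 + Real.log L) := by linarith
    have h11 : (E.card : ℝ) * (2 / ε) ≤ X := le_of_mul_le_mul_right h10 h9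
    have h12 : (E.card : ℝ) = (E.card : ℝ) * (2 / ε) * (ε / 2) := by field_simp
    rw [h12]
    calc (E.card : ℝ) * (2 / ε) * (ε / 2) ≤ X * (ε / 2) := by gcongr
      _ = ε / 2 * X := by ring
  have hS2 : (S.card : ℝ) ≤ ε / 2 * X := by
    have h8 : (S.card : ℝ) ≤ C * (R * X / L) * (M * D) := by
      refine h2.trans ?_
      gcongr
    refine h8.trans ?_
    have h9 : R * R ^ η / L ≤ L ^ (-(η ^ 2)) := by
      have h10 : R * R ^ η = L ^ ((1 - η) * (1 + η)) := by
        rw [hR, ← Real.rpow_mul hL0.le, ← Real.rpow_add hL0]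
        congr 1
        ring
      rw [h10, div_eq_mul_inv, ← Real.rpow_neg_one L, ← Real.rpow_add hL0]
      apply le_of_eq
      congr 1
      ring
    have h11 : C * (R * X / L) * (M * D) = C * C₂ * (2 / ε) * (1 + Real.log L) * (R * R ^ η / L) * X := by
      rw [hM, hD]; ring
    rw [h11]
    have h12 : 0 ≤ C * C₂ * (2 / ε) * (1 + Real.log L) := by
      have := Real.log_nonneg hL1
      positivity
    have h13 : C * C₂ * (2 / ε) * (1 + Real.log L) * (R * R ^ η / L) ≤ ε / 2 :=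
      (mul_le_mul_of_nonneg_left h9 h12).trans hfin
    exact mul_le_mul_of_nonneg_right h13 (by positivity)
  linarith

end Pool.Agent.Q55.IdxMult
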