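import Pool.Agent.Q55.GcdGold

set_option autoImplicit false
set_option maxHeartbeats 1000000

/-! # Iterated prime-indexed primes in intervals: upper bounds, and small summands -/

namespace Pool.Agent.Q55.IterP

open Finset Filter Pool.Agent.Q55.GcdSieve Pool.Agent.Q55.GcdGold

/-- the `x`-th prime -/
noncomputable def pr (x : ℕ) : ℕ := Nat.nth Nat.Prime (x - 1)

lemma inf : (Set.ofPred Nat.Prime).Infinite := Nat.infinite_setOfPred_prime

lemma pr_prime (x : ℕ) : (pr x).Prime := Nat.prime_nth_prime _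

lemma pr_lt {x y : ℕ} (hx : 0 < x) (h : x < y) : pr x < pr y :=
  Nat.nth_strictMono inf (by omega)

lemma it_pos (k : ℕ) {x : ℕ} (hx : 0 < x) : 0 < pr^[k] x := by
  induction k with
  | zero => exact hx
  | succ k _ =>
    rw [Function.iterate_succ_apply']
    exact (pr_prime _).pos

lemma it_lt (k : ℕ) {x y : ℕ} (hx : 0 < x) (h : x < y) : pr^[k] x < pr^[k] y := by
  induction k with
  | zero => exact h
  | succ k ih =>
    rw [Function.iterate_succ_apply', Function.iterate_succ_apply']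
    exact pr_lt (it_pos k hx) ih

lemma it_inj (k : ℕ) {x y : ℕ} (hx : 0 < x) (hy : 0 < y) (h : pr^[k] x = pr^[k] y) : x = y := by
  rcases lt_trichotomy x y with h1 | h1 | h1
  · exact absurd h (it_lt k hx h1).ne
  · exact h1
  · exact absurd h (it_lt k hy h1).ne'

lemma pr_le_iff {m Z : ℕ} (hm : 0 < m) : pr m ≤ Z ↔ m ≤ Nat.primeCounting Z := by
  unfold pr Nat.primeCounting Nat.primeCounting'
  have h := Nat.lt_nth_iff_count_lt inf (a := m - 1) (b := Z + 1)
  rw [Nat.lt_succ_iff] at h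
  rw [← h]
  omega

open Classical in
/-- the number of the `a`-primes in `(Y, Y + X]` -/
noncomputable def cnt (a Y X : ℕ) : ℕ :=
  ((Ioc Y (Y + X)).filter (fun q => ∃ x, 0 < x ∧ pr^[a + 1] x = q)).card

open Classical in
lemma cnt_le (a Y X : ℕ) : cnt a Y X ≤ X := by
  unfold cnt
  refine (card_filter_le _ _).trans ?_
  rw [Nat.card_Ioc]
  omega

open Classical in
lemma cnt_mono (a Y : ℕ) {X X' : ℕ} (h : X ≤ X') : cnt a Y X ≤ cnt a Y X' := by
  unfold cnt
  apply card_le_card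
  apply filter_subset_filter
  intro q hq
  rw [mem_Ioc] at hq ⊢
  omega

lemma pi_add (Y X : ℕ) : Nat.primeCounting (Y + X) ≤
    Nat.primeCounting Y + ((Ioc Y (Y + X)).filter (fun N => N.Prime)).card := by
  rw [← Nat.primesLE_card_eq_primeCounting, ← Nat.primesLE_card_eq_primeCounting]
  refine le_trans (card_le_card ?_) (card_union_le _ _)
  intro p hp
  rw [Nat.mem_primesLE] at hp
  rw [mem_union, Nat.mem_primesLE, mem_filter, mem_Ioc]
  by_cases h : p ≤ Y
  · left; exact ⟨h, hp.2⟩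
  · right; exact ⟨⟨by omega, hp.1⟩, hp.2⟩

/-- from the `a`-primes to the `(a+1)`-primes -/
lemma cnt_succ (a Y X : ℕ) : cnt (a + 1) Y X ≤
    cnt a (Nat.primeCounting Y) ((Ioc Y (Y + X)).filter (fun N => N.Prime)).card := by
  classical
  unfold cnt
  apply card_le_card_of_injOn Nat.primeCounting
  · intro q hq
    rw [mem_coe, mem_filter, mem_Ioc] at hq
    obtain ⟨⟨h1, h2⟩, x, hx, hxq⟩ := hq
    show Nat.primeCounting q ∈ (_ : Set ℕ)
    rw [mem_coe, mem_filter, mem_Ioc]
    rw [Function.iterate_succ_apply'] at hxq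
    obtain ⟨m, hm⟩ : ∃ m, m = pr^[a + 1] x := ⟨_, rfl⟩
    have hm0 : 0 < m := hm ▸ it_pos _ hx
    rw [← hm] at hxq
    have e : Nat.primeCounting q = m := by
      apply le_antisymm
      · by_contra hcon
        push Not at hcon
        have h3 := (pr_le_iff (m := m + 1) (Z := q) (by omega)).2 (by omega)
        have h4 : pr m < pr (m + 1) := pr_lt hm0 (Nat.lt_succ_self m)
        omega
      · exact (pr_le_iff hm0).1 hxq.le
    rw [e]
    refine ⟨⟨?_, ?_⟩, x, hx, hm.symm⟩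
    · by_contra hcon
      push Not at hcon
      have := (pr_le_iff hm0).2 hcon
      omega
    · exact ((pr_le_iff hm0).1 (hxq.le.trans h2)).trans (pi_add Y X)
  · intro q hq q' hq' h
    rw [mem_coe, mem_filter, mem_Ioc] at hq hq'
    obtain ⟨-, x, hx, hxq⟩ := hq
    obtain ⟨-, x', hx', hxq'⟩ := hq'
    rw [Function.iterate_succ_apply'] at hxq hxq'
    have hp : q.Prime := hxq ▸ pr_prime _
    have hp' : q'.Prime := hxq' ▸ pr_prime _
    have hm0 := it_pos (a + 1) hx
    have hm0' := it_pos (a + 1) hx'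
    have k1 := (pr_le_iff hm0 (Z := q)).1 hxq.le
    have k2 := (pr_le_iff hm0' (Z := q')).1 hxq'.le
    have k3 : pr (pr^[a + 1] x) ≤ q' := (pr_le_iff hm0).2 (by omega)
    have k4 : pr (pr^[a + 1] x') ≤ q := (pr_le_iff hm0').2 (by omega)
    omega

/-- iterated Brun-Titchmarsh -/
theorem cnt_bound (a : ℕ) : ∃ C : ℝ, 1 ≤ C ∧ ∀ X Y : ℕ, 2 ≤ X →
    (cnt a Y X : ℝ) ≤ C * (X / Real.log X ^ (a + 1)) := by
  classical
  obtain ⟨C₀, hC₀, X₀, h₀⟩ := primes_le
  induction a with
  | zero =>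
    refine ⟨C₀ + Real.log (max X₀ 3 : ℕ), by
      have := Real.log_natCast_nonneg (max X₀ 3)
      linarith, ?_⟩
    intro X Y hX
    have hXr : (2 : ℝ) ≤ X := by exact_mod_cast hX
    have hlX : 0 < Real.log X := Real.log_pos (by linarith)
    have hl3 := Real.log_natCast_nonneg (max X₀ 3)
    rw [zero_add, pow_one]
    have hu : 0 ≤ (X : ℝ) / Real.log X := by positivity
    rcases lt_or_ge X (max X₀ 3) with h | h
    · have h1 : (cnt 0 Y X : ℝ) ≤ X := by exact_mod_cast cnt_le 0 Y X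
      have h2 : Real.log X ≤ Real.log (max X₀ 3 : ℕ) :=
        Real.log_le_log (by linarith) (by exact_mod_cast h.le)
      have h3 : (X : ℝ) ≤ Real.log (max X₀ 3 : ℕ) * (X / Real.log X) := by
        calc (X : ℝ) = Real.log X * (X / Real.log X) := by field_simp
          _ ≤ _ := by gcongr
      nlinarith
    · have h1 := h₀ X Y ((le_max_left _ _).trans h)
      have h2 : cnt 0 Y X ≤ ((Ioc Y (Y + X)).filter (fun N => N.Prime)).card := by
        unfold cnt
        apply card_le_card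
        intro q hq
        rw [mem_filter] at hq ⊢
        obtain ⟨h3, x, hx, hxq⟩ := hq
        refine ⟨h3, ?_⟩
        rw [← hxq, Function.iterate_succ_apply']
        exact pr_prime _
      have h3 : (cnt 0 Y X : ℝ) ≤ (((Ioc Y (Y + X)).filter (fun N => N.Prime)).card : ℝ) := by
        exact_mod_cast h2
      have h4 : 0 ≤ Real.log (max X₀ 3 : ℕ) * (X / Real.log X) := by positivity
      linarith
  | succ a ih =>
    obtain ⟨C₁, hC₁, h₁⟩ := ih
    obtain ⟨X₁, hX₁⟩ := eventually_atTop.1 ((log_pow_le 2).and (eventually_ge_atTop 16))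
    obtain ⟨X₂, hX₂⟩ : ∃ X₂ : ℕ, X₂ = max X₀ X₁ := ⟨_, rfl⟩
    have hl2 : 0 ≤ Real.log X₂ := Real.log_natCast_nonneg _
    refine ⟨C₁ * 2 ^ (a + 1) * (2 * C₀) + Real.log X₂ ^ (a + 2), ?_, ?_⟩
    · have h1 : (1 : ℝ) ≤ 2 ^ (a + 1) := one_le_pow₀ (by norm_num)
      have h2 : (1 : ℝ) ≤ C₁ * 2 ^ (a + 1) := one_le_mul_of_one_le_of_one_le hC₁ h1
      have h3 : (0 : ℝ) ≤ Real.log X₂ ^ (a + 2) := by positivity
      nlinarith
    intro X Y hX
    have hXr : (2 : ℝ) ≤ X := by exact_mod_cast hX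
    have hlX : 0 < Real.log X := Real.log_pos (by linarith)
    have e2 : a + 1 + 1 = a + 2 := rfl
    rw [e2, add_mul]
    have hT1 : 0 ≤ C₁ * 2 ^ (a + 1) * (2 * C₀) * (X / Real.log X ^ (a + 2)) := by positivity
    have hT2 : 0 ≤ Real.log X₂ ^ (a + 2) * (X / Real.log X ^ (a + 2)) := by positivity
    rcases lt_or_ge X X₂ with h | h
    · have h1 : (cnt (a + 1) Y X : ℝ) ≤ X := by exact_mod_cast cnt_le (a + 1) Y X
      have h2 : Real.log X ≤ Real.log X₂ := Real.log_le_log (by linarith) (by exact_mod_cast h.le)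
      have h3 : (X : ℝ) ≤ Real.log X₂ ^ (a + 2) * (X / Real.log X ^ (a + 2)) := by
        calc (X : ℝ) = Real.log X ^ (a + 2) * (X / Real.log X ^ (a + 2)) := by field_simp
          _ ≤ _ := by gcongr
      linarith
    · have hXX₀ : X₀ ≤ X := (le_max_left _ _).trans (hX₂ ▸ h)
      have hXX₁ : X₁ ≤ X := (le_max_right _ _).trans (hX₂ ▸ h)
      obtain ⟨hlp, hX16⟩ := hX₁ X hXX₁
      have hX16r : (16 : ℝ) ≤ X := by exact_mod_cast hX16
      obtain ⟨K, hK⟩ : ∃ K : ℕ, K = ⌈C₀ * (X / Real.log X)⌉₊ := ⟨_, rfl⟩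
      have hKlow : C₀ * (X / Real.log X) ≤ K := hK ▸ Nat.le_ceil _
      have hlog1 : 1 ≤ Real.log X := by
        rw [Real.le_log_iff_exp_le (by linarith)]
        have := Real.exp_one_lt_d9
        linarith
      have hXlog : 1 ≤ (X : ℝ) / Real.log X := by
        rw [le_div_iff₀ hlX, one_mul]
        have := Real.log_le_sub_one_of_pos (show (0 : ℝ) < X by linarith)
        linarith
      have hKup : (K : ℝ) ≤ 2 * C₀ * (X / Real.log X) := by
        have h1 := Nat.ceil_lt_add_one (show 0 ≤ C₀ * ((X : ℝ) / Real.log X) by positivity)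
        rw [← hK] at h1
        nlinarith
      have hsq : √(X : ℝ) ≤ K := by
        have h1 : √(X : ℝ) ≤ X / Real.log X := by
          rw [Real.sqrt_le_left (by positivity), div_pow, le_div_iff₀ (by positivity)]
          calc (X : ℝ) * Real.log X ^ 2 ≤ (X : ℝ) * X := mul_le_mul_of_nonneg_left hlp (by positivity)
            _ = (X : ℝ) ^ 2 := by ring
        nlinarith
      have hK2 : 2 ≤ K := by
        have h1 : (4 : ℝ) ≤ √(X : ℝ) := by
          rw [Real.le_sqrt (by norm_num) (by linarith)]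
          linarith
        have : (2 : ℝ) ≤ K := by linarith
        exact_mod_cast this
      have hlK : Real.log X / 2 ≤ Real.log K := by
        have h1 : Real.log (√(X : ℝ)) ≤ Real.log K :=
          Real.log_le_log (Real.sqrt_pos.2 (by linarith)) hsq
        rwa [Real.log_sqrt (by linarith)] at h1
      have hprim : ((Ioc Y (Y + X)).filter (fun N => N.Prime)).card ≤ K := by
        have h1 := (h₀ X Y hXX₀).trans hKlow
        exact_mod_cast h1
      have h1 : cnt (a + 1) Y X ≤ cnt a (Nat.primeCounting Y) K :=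
        (cnt_succ a Y X).trans (cnt_mono a _ hprim)
      have h2 := h₁ K (Nat.primeCounting Y) hK2
      have h3 : (cnt (a + 1) Y X : ℝ) ≤ (cnt a (Nat.primeCounting Y) K : ℝ) := by exact_mod_cast h1
      have h4 : C₁ * (K / Real.log K ^ (a + 1)) ≤
          C₁ * ((2 * C₀ * (X / Real.log X)) / (Real.log X / 2) ^ (a + 1)) := by
        gcongr
      have h5 : C₁ * ((2 * C₀ * (X / Real.log X)) / (Real.log X / 2) ^ (a + 1)) =
          C₁ * 2 ^ (a + 1) * (2 * C₀) * (X / Real.log X ^ (a + 2)) := by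
        rw [div_pow, pow_succ (Real.log X) (a + 1)]
        field_simp
      linarith

open Classical in
/-- few `n` have a representation with a small index -/
theorem few (a b : ℕ) : ∃ C : ℝ, 1 ≤ C ∧ ∀ X Y r : ℕ, 2 ≤ X →
    (((Ioc Y (Y + X)).filter (fun n => ∃ u v : ℕ, 0 < u ∧ 0 < v ∧ v ≤ r ∧
      pr^[a + 1] u + pr^[b + 1] v = 2 * n)).card : ℝ) ≤ C * r * (X / Real.log X ^ (a + 1)) := by
  obtain ⟨C, hC, h⟩ := cnt_bound a
  refine ⟨2 * C, by linarith, ?_⟩
  intro X Y r hX
  have hXr : (2 : ℝ) ≤ X := by exact_mod_cast hX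
  have hlX : 0 < Real.log X := Real.log_pos (by linarith)
  have hsub : (Ioc Y (Y + X)).filter (fun n => ∃ u v : ℕ, 0 < u ∧ 0 < v ∧ v ≤ r ∧
      pr^[a + 1] u + pr^[b + 1] v = 2 * n) ⊆ (Icc 1 r).biUnion (fun v =>
      (Ioc Y (Y + X)).filter (fun n => ∃ u : ℕ, 0 < u ∧ pr^[a + 1] u + pr^[b + 1] v = 2 * n)) := by
    intro n hn
    rw [mem_filter] at hn
    obtain ⟨h1, u, v, hu, hv, hvr, huv⟩ := hn
    rw [mem_biUnion]
    exact ⟨v, mem_Icc.2 ⟨hv, hvr⟩, mem_filter.2 ⟨h1, u, hu, huv⟩⟩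
  have h1 := (card_le_card hsub).trans card_biUnion_le
  have hone : ∀ v ∈ Icc 1 r, (((Ioc Y (Y + X)).filter (fun n => ∃ u : ℕ, 0 < u ∧
      pr^[a + 1] u + pr^[b + 1] v = 2 * n)).card : ℝ) ≤ 2 * C * (X / Real.log X ^ (a + 1)) := by
    intro v _
    obtain ⟨q, hq⟩ : ∃ q : ℕ, q = pr^[b + 1] v := ⟨_, rfl⟩
    rw [← hq]
    have h2 : ((Ioc Y (Y + X)).filter (fun n => ∃ u : ℕ, 0 < u ∧ pr^[a + 1] u + q = 2 * n)).card ≤
        cnt a (2 * Y - q) (2 * X) := by
      unfold cnt
      apply card_le_card_of_injOn (fun n => 2 * n - q)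
      · intro n hn
        rw [mem_coe, mem_filter, mem_Ioc] at hn
        obtain ⟨⟨h3, h4⟩, u, hu, huq⟩ := hn
        show 2 * n - q ∈ (_ : Set ℕ)
        rw [mem_coe, mem_filter, mem_Ioc]
        have h5 := it_pos (a + 1) hu
        refine ⟨⟨by omega, by omega⟩, u, hu, by omega⟩
      · intro n hn n' hn' hh
        rw [mem_coe, mem_filter, mem_Ioc] at hn hn'
        obtain ⟨-, u, hu, huq⟩ := hn
        obtain ⟨-, u', hu', huq'⟩ := hn'
        have h5 := it_pos (a + 1) hu
        have h5' := it_pos (a + 1) hu'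
        simp only at hh
        omega
    have h3 := h (2 * X) (2 * Y - q) (by omega)
    have h4 : (((Ioc Y (Y + X)).filter (fun n => ∃ u : ℕ, 0 < u ∧ pr^[a + 1] u + q = 2 * n)).card : ℝ) ≤
        (cnt a (2 * Y - q) (2 * X) : ℝ) := by exact_mod_cast h2
    refine h4.trans (h3.trans ?_)
    have h5 : Real.log X ≤ Real.log ((2 * X : ℕ) : ℝ) := by
      apply Real.log_le_log (by linarith)
      push_cast
      linarith
    calc C * (((2 * X : ℕ) : ℝ) / Real.log ((2 * X : ℕ) : ℝ) ^ (a + 1)) ≤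
        C * (((2 * X : ℕ) : ℝ) / Real.log X ^ (a + 1)) := by gcongr
      _ = 2 * C * (X / Real.log X ^ (a + 1)) := by push_cast; ring
  have h2 : (((Ioc Y (Y + X)).filter (fun n => ∃ u v : ℕ, 0 < u ∧ 0 < v ∧ v ≤ r ∧
      pr^[a + 1] u + pr^[b + 1] v = 2 * n)).card : ℝ) ≤ ∑ v ∈ Icc 1 r, (((Ioc Y (Y + X)).filter
      (fun n => ∃ u : ℕ, 0 < u ∧ pr^[a + 1] u + pr^[b + 1] v = 2 * n)).card : ℝ) := by
    exact_mod_cast h1
  refine (h2.trans (Finset.sum_le_sum hone)).trans (le_of_eq ?_)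
  rw [Finset.sum_const, Nat.card_Icc, Nat.add_sub_cancel, nsmul_eq_mul]
  ring

/-- lower bound for the `v`-th `b`-prime -/
theorem size (b : ℕ) : ∃ c : ℝ, 0 < c ∧ ∀ v : ℕ, 2 ≤ v →
    c * (v * Real.log v ^ (b + 1)) ≤ (pr^[b + 1] v : ℕ) := by
  classical
  obtain ⟨C, hC, h⟩ := cnt_bound b
  refine ⟨1 / C, by positivity, ?_⟩
  intro v hv
  obtain ⟨q, hq⟩ : ∃ q : ℕ, q = pr^[b + 1] v := ⟨_, rfl⟩
  rw [← hq]
  have hvr : (2 : ℝ) ≤ v := by exact_mod_cast hv
  have h1 : v ≤ cnt b 0 q := by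
    have h2 : ((Icc 1 v).image (fun x => pr^[b + 1] x)).card = v := by
      rw [card_image_of_injOn, Nat.card_Icc, Nat.add_sub_cancel]
      intro x hx y hy hxy
      rw [mem_coe, mem_Icc] at hx hy
      exact it_inj (b + 1) (by omega) (by omega) hxy
    unfold cnt
    calc v = ((Icc 1 v).image (fun x => pr^[b + 1] x)).card := h2.symm
      _ ≤ _ := by
        apply card_le_card
        intro z hz
        rw [mem_image] at hz
        obtain ⟨x, hx, hxz⟩ := hz
        rw [mem_Icc] at hx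
        rw [mem_filter, mem_Ioc]
        refine ⟨⟨?_, ?_⟩, x, by omega, hxz⟩
        · rw [← hxz]; exact it_pos _ (by omega)
        · rw [← hxz, hq, zero_add]
          rcases Nat.lt_or_ge x v with h3 | h3
          · exact (it_lt _ (by omega) h3).le
          · have : x = v := by omega
            rw [this]
  have hvq : v ≤ q := h1.trans (cnt_le b 0 q)
  have hqr : (2 : ℝ) ≤ q := by exact_mod_cast hv.trans hvq
  have hlq : 0 < Real.log q := Real.log_pos (by linarith)
  have hlv : 0 < Real.log v := Real.log_pos (by linarith)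
  have hlvq : Real.log v ≤ Real.log q := Real.log_le_log (by linarith) (by exact_mod_cast hvq)
  have h2 := h q 0 (hv.trans hvq)
  have h3 : (v : ℝ) ≤ C * (q / Real.log q ^ (b + 1)) := le_trans (by exact_mod_cast h1) h2
  have h4 : C * (q / Real.log q ^ (b + 1)) ≤ C * (q / Real.log v ^ (b + 1)) := by gcongr
  have h5 := h3.trans h4
  rw [← mul_div_assoc, le_div_iff₀ (by positivity)] at h5
  rw [one_div, inv_mul_le_iff₀ (by linarith)]
  exact h5

end Pool.Agent.Q55.IterP
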