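import Pool.Agent.H313R3.TK.J

/-!
# One-sided `L¹` bounds for the Mertens function

From the kernel estimates of `H313R3.TK`: sums over the windows `[j, j + log j]`.
-/

open Complex MeasureTheory Filter Topology Set Metric

set_option autoImplicit false

namespace Pool.Agent.Q55.MertensL1

open H313.TK

/-- the positive part of `s M(e^u)` -/
noncomputable def F (s u : ℝ) : ℝ := max (s * mm u) 0

lemma F_nonneg (s u : ℝ) : 0 ≤ F s u := le_max_right _ _

lemma F_le {s : ℝ} (hs : s = 1 ∨ s = -1) (u : ℝ) : F s u ≤ Real.exp u :=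
  (le_abs_self _).trans ((part_le s hs _).trans (abs_mm_le u))

lemma F_meas (s : ℝ) : Measurable (F s) := by
  have := mm_meas
  unfold F
  fun_prop

/-- the kernel -/
noncomputable def ka (v : ℝ) : ℝ := kp v * Real.exp (-(v / 2))

lemma ka_nonneg (v : ℝ) : 0 ≤ ka v := mul_nonneg (kp_nonneg v) (Real.exp_pos _).le

lemma ka_le (v : ℝ) : ka v ≤ 4 * C0 * Real.exp (-|v|) := by
  have h1 := W_decay v
  have hC0 := C0_nonneg
  have h2 : W v * Real.exp (-(v / 2)) ≤ 4 * Real.exp (-|v|) := by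
    have h3 : Real.exp (-(v / 2)) ≤ Real.exp (2 * |v|) := by
      refine Real.exp_le_exp.2 ?_
      have := neg_abs_le v
      have := abs_nonneg v
      linarith
    exact (mul_le_mul_of_nonneg_left h3 (W_pos v).le).trans h1
  calc ka v ≤ (C0 * W v) * Real.exp (-(v / 2)) :=
        mul_le_mul_of_nonneg_right (kp_bounds v).2 (Real.exp_pos _).le
    _ = C0 * (W v * Real.exp (-(v / 2))) := by ring
    _ ≤ C0 * (4 * Real.exp (-|v|)) := mul_le_mul_of_nonneg_left h2 hC0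
    _ = _ := by ring

/-- sums over separated points -/
lemma sep_half (S : Finset ℕ) (q : ℕ → ℝ) (hq : ∀ j ∈ S, 0 ≤ q j)
    (h : ∀ i ∈ S, ∀ j ∈ S, i ≤ j → ((j : ℝ) - i) ≤ q j - q i) : ∑ j ∈ S, Real.exp (-(q j)) ≤ 2 := by
  classical
  rcases S.eq_empty_or_nonempty with hS | hS
  · rw [hS]; simp
  set j0 := S.min' hS with hj0
  have hj0S : j0 ∈ S := S.min'_mem hS
  have h1 : ∀ j ∈ S, Real.exp (-(q j)) ≤ (1 / 2 : ℝ) ^ (j - j0) := by
    intro j hj
    have h2 : j0 ≤ j := S.min'_le j hj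
    have h3 := h j0 hj0S j hj h2
    have h4 := hq j0 hj0S
    have h5 : ((j - j0 : ℕ) : ℝ) ≤ q j := by
      rw [Nat.cast_sub h2]
      linarith
    have h6 : Real.exp (-1 : ℝ) ≤ 1 / 2 := by
      rw [Real.exp_neg, one_div]
      refine inv_anti₀ (by norm_num) ?_
      have := Real.add_one_le_exp (1 : ℝ)
      linarith
    calc Real.exp (-(q j)) ≤ Real.exp (-((j - j0 : ℕ) : ℝ)) := Real.exp_le_exp.2 (by linarith)
      _ = (Real.exp (-1 : ℝ)) ^ (j - j0) := by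
          rw [← Real.exp_nat_mul]
          congr 1
          ring
      _ ≤ (1 / 2 : ℝ) ^ (j - j0) := pow_le_pow_left₀ (Real.exp_pos _).le h6 _
  have h2 : ∑ j ∈ S, (1 / 2 : ℝ) ^ (j - j0) = ∑ i ∈ S.image (fun j => j - j0), (1 / 2 : ℝ) ^ i := by
    rw [Finset.sum_image]
    intro a ha b hb hab
    have e1 : j0 ≤ a := S.min'_le a ha
    have e2 : j0 ≤ b := S.min'_le b hb
    simp only at hab
    omega
  refine (Finset.sum_le_sum h1).trans ?_
  rw [h2]
  have hs := summable_geometric_two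
  refine (Summable.sum_le_tsum _ (fun i _ => by positivity) hs).trans ?_
  rw [tsum_geometric_two]

lemma sep_sum (S : Finset ℕ) (p : ℕ → ℝ) (u : ℝ)
    (h : ∀ i ∈ S, ∀ j ∈ S, i ≤ j → ((j : ℝ) - i) ≤ p j - p i) : ∑ j ∈ S, Real.exp (-|p j - u|) ≤ 4 := by
  classical
  rw [← Finset.sum_filter_add_sum_filter_not S (fun j => u ≤ p j)]
  have h1 : ∑ j ∈ S.filter (fun j => u ≤ p j), Real.exp (-|p j - u|) ≤ 2 := by
    have h2 : ∀ j ∈ S.filter (fun j => u ≤ p j), Real.exp (-|p j - u|) = Real.exp (-(p j - u)) := by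
      intro j hj
      rw [abs_of_nonneg (by linarith [(Finset.mem_filter.1 hj).2])]
    rw [Finset.sum_congr rfl h2]
    refine sep_half _ (fun j => p j - u) (fun j hj => by linarith [(Finset.mem_filter.1 hj).2]) ?_
    intro i hi j hj hij
    have := h i (Finset.mem_filter.1 hi).1 j (Finset.mem_filter.1 hj).1 hij
    linarith
  have h3 : ∑ j ∈ S.filter (fun j => ¬ u ≤ p j), Real.exp (-|p j - u|) ≤ 2 := by
    set S' := S.filter (fun j => ¬ u ≤ p j) with hS'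
    rcases S'.eq_empty_or_nonempty with hSe | hSe
    · rw [hSe]; simp
    set m := S'.max' hSe with hm
    have h4 : ∀ j ∈ S', Real.exp (-|p j - u|) = Real.exp (-(u - p j)) := by
      intro j hj
      have h5 := (Finset.mem_filter.1 hj).2
      push Not at h5
      rw [abs_of_nonpos (by linarith)]
      congr 1
      ring
    rw [Finset.sum_congr rfl h4]
    have h5 : ∑ j ∈ S', Real.exp (-(u - p j)) =
        ∑ i ∈ S'.image (fun j => m - j), Real.exp (-((fun i => u - p (m - i)) i)) := by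
      rw [Finset.sum_image]
      · refine Finset.sum_congr rfl fun j hj => ?_
        have e1 : j ≤ m := S'.le_max' j hj
        have e2 : m - (m - j) = j := by omega
        simp only [e2]
      · intro a ha b hb hab
        have e1 : a ≤ m := S'.le_max' a ha
        have e2 : b ≤ m := S'.le_max' b hb
        simp only at hab
        omega
    rw [h5]
    refine sep_half _ (fun i => u - p (m - i)) ?_ ?_
    · intro i hi
      obtain ⟨j, hj, rfl⟩ := Finset.mem_image.1 hi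
      have e1 : j ≤ m := S'.le_max' j hj
      have e2 : m - (m - j) = j := by omega
      simp only [e2]
      have h6 := (Finset.mem_filter.1 hj).2
      push Not at h6
      linarith
    · intro i hi i' hi' hii
      obtain ⟨j, hj, rfl⟩ := Finset.mem_image.1 hi
      obtain ⟨j', hj', rfl⟩ := Finset.mem_image.1 hi'
      have e1 : j ≤ m := S'.le_max' j hj
      have e2 : m - (m - j) = j := by omega
      have e3 : j' ≤ m := S'.le_max' j' hj'
      have e4 : m - (m - j') = j' := by omega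
      simp only [e2, e4]
      have h7 : j' ≤ j := by omega
      have h8 := h j' (Finset.mem_filter.1 hj').1 j (Finset.mem_filter.1 hj).1 h7
      rw [Nat.cast_sub e1, Nat.cast_sub e3]
      linarith
  linarith

lemma ct_sep {i j : ℕ} (hi : 1 ≤ i) (hij : i ≤ j) : ((j : ℝ) - i) ≤ ct j - ct i := by
  unfold ct
  have h1 : (0 : ℝ) < i := by exact_mod_cast hi
  have h2 : (i : ℝ) ≤ j := by exact_mod_cast hij
  have h3 := Real.log_le_log h1 h2
  linarith

/-- the weighted positive part -/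
noncomputable def Fe (s u : ℝ) : ℝ := F s u * Real.exp (-(u / 2))

lemma Fe_nonneg (s u : ℝ) : 0 ≤ Fe s u := mul_nonneg (F_nonneg s u) (Real.exp_pos _).le

lemma Fe_meas (s : ℝ) : Measurable (Fe s) := by
  have := F_meas s
  unfold Fe
  fun_prop

lemma Fe_int {s : ℝ} (hs : s = 1 ∨ s = -1) (a b : ℝ) : IntegrableOn (Fe s) (Icc a b) := by
  refine Integrable.mono' (g := fun u => Real.exp (u / 2)) ?_ ?_ ?_
  · exact (by fun_prop : Continuous fun u : ℝ => Real.exp (u / 2)).continuousOn.integrableOn_compact isCompact_Icc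
  · exact (Fe_meas s).aestronglyMeasurable
  · refine ae_of_all _ fun u => ?_
    rw [Real.norm_eq_abs, abs_of_nonneg (Fe_nonneg s u)]
    calc Fe s u ≤ Real.exp u * Real.exp (-(u / 2)) := mul_le_mul_of_nonneg_right (F_le hs u) (Real.exp_pos _).le
      _ = Real.exp (u / 2) := by rw [← Real.exp_add]; congr 1; ring

lemma ka_cont : Continuous ka := by
  have := kp_cont
  unfold ka
  fun_prop

lemma ka_bd (v : ℝ) : ka v ≤ 4 * C0 := by
  have hC0 := C0_nonneg
  refine (ka_le v).trans ?_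
  have h1 : Real.exp (-|v|) ≤ 1 := Real.exp_le_one_iff.2 (by linarith [abs_nonneg v])
  nlinarith

lemma Feka_int {s : ℝ} (hs : s = 1 ∨ s = -1) (t a b : ℝ) :
    IntegrableOn (fun u => Fe s u * ka (t - u)) (Icc a b) := by
  refine Integrable.mono' (g := fun u => 4 * C0 * Fe s u) ((Fe_int hs a b).const_mul _) ?_ ?_
  · have h1 := Fe_meas s
    have h2 := ka_cont
    exact (by fun_prop : Measurable fun u => Fe s u * ka (t - u)).aestronglyMeasurable
  · refine ae_of_all _ fun u => ?_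
    rw [Real.norm_eq_abs, abs_of_nonneg (mul_nonneg (Fe_nonneg s u) (ka_nonneg _)), mul_comm]
    exact mul_le_mul_of_nonneg_right (ka_bd _) (Fe_nonneg s u)

lemma window {s : ℝ} (t a : ℝ) :
    (∫ v in Icc (-a) a, max (s * mm (t - v)) 0 * kp v) * Real.exp (-(t / 2)) =
      ∫ u in Icc (t - a) (t + a), Fe s u * ka (t - u) := by
  rw [← refl_Icc (fun u => Fe s u * ka (t - u)) t a, ← integral_mul_const]
  refine integral_congr_ae (ae_of_all _ fun v => ?_)
  simp only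
  unfold Fe F ka
  rw [sub_sub_cancel]
  have h1 : Real.exp (-(t / 2)) = Real.exp (-((t - v) / 2)) * Real.exp (-(v / 2)) := by
    rw [← Real.exp_add]
    congr 1
    ring
  rw [h1]
  ring

theorem sum_windows {s : ℝ} (hs : s = 1 ∨ s = -1) {A B : ℕ} (hA : 1 ≤ A) :
    ∑ j ∈ Finset.Icc A B, (∫ v in Icc (-(Real.log j / 2)) (Real.log j / 2),
        max (s * mm (ct j - v)) 0 * kp v) * Real.exp (-(ct j / 2)) ≤
      16 * C0 * ∫ u in Icc (A : ℝ) (B + Real.log B), Fe s u := by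
  have h1 : ∀ j ∈ Finset.Icc A B, (∫ v in Icc (-(Real.log j / 2)) (Real.log j / 2),
        max (s * mm (ct j - v)) 0 * kp v) * Real.exp (-(ct j / 2)) ≤
      ∫ u in Icc (A : ℝ) (B + Real.log B), Fe s u * ka (ct j - u) := by
    intro j hj
    rw [Finset.mem_Icc] at hj
    rw [window]
    have hjA : (A : ℝ) ≤ j := by exact_mod_cast hj.1
    have hjB : (j : ℝ) ≤ B := by exact_mod_cast hj.2
    have hj0 : (0 : ℝ) < j := by
      have : 0 < j := by omega
      exact_mod_cast this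
    have hl := Real.log_le_log hj0 hjB
    refine setIntegral_mono_set (Feka_int hs _ _ _) ?_ ?_
    · exact ae_of_all _ fun u => mul_nonneg (Fe_nonneg s u) (ka_nonneg _)
    · refine LE.le.eventuallyLE ?_
      intro u hu
      unfold ct at hu
      constructor
      · linarith [hu.1]
      · linarith [hu.2]
  refine (Finset.sum_le_sum h1).trans ?_
  rw [← integral_finsetSum _ (fun j _ => Feka_int hs _ _ _), ← integral_const_mul]
  refine setIntegral_mono_on ?_ ((Fe_int hs _ _).const_mul _) measurableSet_Icc fun u hu => ?_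
  · exact integrable_finsetSum _ fun j _ => Feka_int hs _ _ _
  · rw [← Finset.mul_sum, mul_comm]
    refine mul_le_mul_of_nonneg_right ?_ (Fe_nonneg s u)
    have hC0 := C0_nonneg
    calc ∑ j ∈ Finset.Icc A B, ka (ct j - u) ≤ ∑ j ∈ Finset.Icc A B, 4 * C0 * Real.exp (-|ct j - u|) :=
          Finset.sum_le_sum fun j _ => ka_le _
      _ = 4 * C0 * ∑ j ∈ Finset.Icc A B, Real.exp (-|ct j - u|) := by rw [← Finset.mul_sum]
      _ ≤ 4 * C0 * 4 := by
          refine mul_le_mul_of_nonneg_left ?_ (by positivity)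
          refine sep_sum _ (fun j => ct j) u ?_
          intro i hi j hj hij
          rw [Finset.mem_Icc] at hi
          exact ct_sep (by omega) hij
      _ = 16 * C0 := by ring

/-- **Lower bound.** -/
theorem lower (β : ℝ) (hβ : 1 / 2 ≤ β) (Lf : ℝ → ℝ) (hL : ∀ᶠ t in atTop, 1 ≤ Lf t)
    (hcore : ∃ c : ℝ, 0 < c ∧ ∀ᶠ t : ℝ in atTop, ∀ s : ℝ, s = 1 ∨ s = -1 →
      c * (Lf t * Real.exp (β * t)) ≤ ∫ v : ℝ, max (s * mm (t - v)) 0 * kp v) :
    ∃ c : ℝ, 0 < c ∧ ∃ A₀ : ℕ, ∀ A B : ℕ, A₀ ≤ A → ∀ s : ℝ, s = 1 ∨ s = -1 →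
      c * ∑ j ∈ Finset.Icc A B, Lf (ct j) * Real.exp ((β - 1 / 2) * ct j) ≤
        ∫ u in Icc (A : ℝ) (B + Real.log B), Fe s u := by
  obtain ⟨c, hc, hev⟩ := win β hβ Lf hL hcore
  have hC0 := C0_nonneg
  have h1 := tendsto_natCast_atTop_atTop (R := ℝ) |>.eventually hev
  obtain ⟨A₀, hA₀⟩ := eventually_atTop.1 h1
  refine ⟨c / (16 * C0 + 1), by positivity, A₀ + 1, fun A B hA s hs => ?_⟩
  have h2 := sum_windows (B := B) hs (show 1 ≤ A by omega)
  have h3 : c * ∑ j ∈ Finset.Icc A B, Lf (ct j) * Real.exp ((β - 1 / 2) * ct j) ≤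
      ∑ j ∈ Finset.Icc A B, (∫ v in Icc (-(Real.log j / 2)) (Real.log j / 2),
        max (s * mm (ct j - v)) 0 * kp v) * Real.exp (-(ct j / 2)) := by
    rw [Finset.mul_sum]
    refine Finset.sum_le_sum fun j hj => ?_
    rw [Finset.mem_Icc] at hj
    have h4 := hA₀ j (by omega) s hs
    have h5 := mul_le_mul_of_nonneg_right h4 (Real.exp_pos (-(ct j / 2))).le
    refine le_trans (le_of_eq ?_) h5
    have h6 : Real.exp ((β - 1 / 2) * ct j) = Real.exp (β * ct j) * Real.exp (-(ct j / 2)) := by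
      rw [← Real.exp_add]
      congr 1
      ring
    rw [h6]
    ring
  have hI : 0 ≤ ∫ u in Icc (A : ℝ) (B + Real.log B), Fe s u := integral_nonneg fun u => Fe_nonneg s u
  rw [div_mul_eq_mul_div, div_le_iff₀ (by positivity)]
  nlinarith

/-- the range of the summation -/
lemma range_ok {δ : ℝ} (hδ : 0 < δ) (hδ2 : δ ≤ 1 / 2) (A₀ : ℕ) : ∀ᶠ V : ℝ in atTop,
    A₀ ≤ ⌈(1 - δ) * V⌉₊ ∧ V / 2 ≤ (⌈(1 - δ) * V⌉₊ : ℝ) ∧ V / 2 ≤ (⌊V - Real.log V⌋₊ : ℝ) ∧
    (⌊V - Real.log V⌋₊ : ℝ) + Real.log (⌊V - Real.log V⌋₊ : ℝ) ≤ V ∧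
    δ / 2 * V ≤ ((Finset.Icc ⌈(1 - δ) * V⌉₊ ⌊V - Real.log V⌋₊).card : ℝ) ∧
    ⌊V - Real.log V⌋₊ ∈ Finset.Icc ⌈(1 - δ) * V⌉₊ ⌊V - Real.log V⌋₊ := by
  have h1 : ∀ᶠ V : ℝ in atTop, Real.log V ≤ δ / 4 * V := by
    have h2 := Real.isLittleO_log_id_atTop.def (show 0 < δ / 4 by positivity)
    filter_upwards [h2, eventually_ge_atTop (1 : ℝ)] with V hV hV1
    rw [Real.norm_eq_abs, Real.norm_eq_abs, id, abs_of_nonneg (Real.log_nonneg hV1),
      abs_of_nonneg (by linarith)] at hV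
    exact hV
  filter_upwards [h1, eventually_ge_atTop (2 * (A₀ : ℝ)), eventually_ge_atTop (16 / δ),
    eventually_ge_atTop (16 : ℝ)] with V h1 h2 h3 h4
  have hV0 : 0 < V := by linarith
  have hδV : 16 ≤ δ * V := by
    rw [div_le_iff₀ hδ] at h3
    linarith
  have hlog : 0 ≤ Real.log V := Real.log_nonneg (by linarith)
  have h5 : (1 - δ) * V ≤ (⌈(1 - δ) * V⌉₊ : ℝ) := Nat.le_ceil _
  have h6 : (⌈(1 - δ) * V⌉₊ : ℝ) < (1 - δ) * V + 1 := Nat.ceil_lt_add_one (by nlinarith)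
  have h7 : 0 ≤ V - Real.log V := by nlinarith
  have h8 : (⌊V - Real.log V⌋₊ : ℝ) ≤ V - Real.log V := Nat.floor_le h7
  have h9 : V - Real.log V - 1 < (⌊V - Real.log V⌋₊ : ℝ) := Nat.sub_one_lt_floor _
  have hA : V / 2 ≤ (⌈(1 - δ) * V⌉₊ : ℝ) := by nlinarith
  have hAB : (⌈(1 - δ) * V⌉₊ : ℝ) ≤ (⌊V - Real.log V⌋₊ : ℝ) := by nlinarith
  have hAB' : ⌈(1 - δ) * V⌉₊ ≤ ⌊V - Real.log V⌋₊ := by exact_mod_cast hAB
  refine ⟨?_, hA, hA.trans hAB, ?_, ?_, ?_⟩
  · have : (A₀ : ℝ) ≤ (⌈(1 - δ) * V⌉₊ : ℝ) := by linarith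
    exact_mod_cast this
  · have h10 : (0 : ℝ) < (⌊V - Real.log V⌋₊ : ℝ) := by linarith
    have h11 := Real.log_le_log h10 (h8.trans (by linarith : V - Real.log V ≤ V))
    linarith
  · rw [Nat.card_Icc, Nat.cast_sub (by omega)]
    push_cast
    nlinarith
  · rw [Finset.mem_Icc]
    exact ⟨hAB', le_rfl⟩

theorem lower_win (β : ℝ) (hβ : 1 / 2 ≤ β) (Lf : ℝ → ℝ) (hL : ∀ᶠ t in atTop, 1 ≤ Lf t)
    (hcore : ∃ c : ℝ, 0 < c ∧ ∀ᶠ t : ℝ in atTop, ∀ s : ℝ, s = 1 ∨ s = -1 →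
      c * (Lf t * Real.exp (β * t)) ≤ ∫ v : ℝ, max (s * mm (t - v)) 0 * kp v)
    {δ : ℝ} (hδ : 0 < δ) (hδ2 : δ ≤ 1 / 2) :
    ∃ c : ℝ, 0 < c ∧ ∀ᶠ V : ℝ in atTop, ∀ s : ℝ, s = 1 ∨ s = -1 →
      c * ∑ j ∈ Finset.Icc ⌈(1 - δ) * V⌉₊ ⌊V - Real.log V⌋₊, Lf (ct j) * Real.exp ((β - 1 / 2) * ct j) ≤
        ∫ u in Icc ((1 - δ) * V) V, Fe s u := by
  obtain ⟨c, hc, A₀, h⟩ := lower β hβ Lf hL hcore
  refine ⟨c, hc, ?_⟩
  filter_upwards [range_ok hδ hδ2 A₀] with V hV s hs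
  obtain ⟨h1, h2, h3, h4, h5, h6⟩ := hV
  refine (h _ _ h1 s hs).trans ?_
  refine setIntegral_mono_set (Fe_int hs _ _) ?_ ?_
  · exact ae_of_all _ fun u => Fe_nonneg s u
  · refine LE.le.eventuallyLE ?_
    intro u hu
    exact ⟨(Nat.le_ceil _).trans hu.1, hu.2.trans h4⟩

lemma ct_nonneg {j : ℕ} (hj : 1 ≤ j) : (j : ℝ) ≤ ct j := by
  unfold ct
  have h1 : (1 : ℝ) ≤ j := by exact_mod_cast hj
  have := Real.log_nonneg h1
  linarith

/-- (a) in the logarithmic variable -/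
theorem partA {δ : ℝ} (hδ : 0 < δ) (hδ2 : δ ≤ 1 / 2) :
    ∃ c : ℝ, 0 < c ∧ ∀ᶠ V : ℝ in atTop, ∀ s : ℝ, s = 1 ∨ s = -1 →
      c * V ≤ ∫ u in Icc ((1 - δ) * V) V, Fe s u := by
  obtain ⟨ρ, hz, h0, h1⟩ := exists_zero
  obtain ⟨c, hc, h⟩ := lower_win ρ.re h0 (fun _ => 1) (Eventually.of_forall fun _ => le_rfl)
    (core1' ρ hz (by linarith) h1) hδ hδ2
  refine ⟨c * (δ / 2), by positivity, ?_⟩
  filter_upwards [h, range_ok hδ hδ2 1] with V hV hr s hs
  obtain ⟨h1, h2, h3, h4, h5, h6⟩ := hr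
  refine le_trans ?_ (hV s hs)
  rw [mul_assoc]
  refine mul_le_mul_of_nonneg_left (h5.trans ?_) hc.le
  rw [Finset.card_eq_sum_ones, Nat.cast_sum]
  refine Finset.sum_le_sum fun j hj => ?_
  rw [Finset.mem_Icc] at hj
  have h7 := ct_nonneg (show 1 ≤ j by omega)
  have h8 : (0 : ℝ) ≤ j := Nat.cast_nonneg j
  rw [one_mul, Nat.cast_one]
  exact Real.one_le_exp (mul_nonneg (by linarith) (by linarith))

/-- (b) in the logarithmic variable -/
theorem partB {δ : ℝ} (hδ : 0 < δ) (hδ2 : δ ≤ 1 / 2) (s : ℝ) (hs : s = 1 ∨ s = -1)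
    (hfr : ∀ ε : ℝ, 0 < ε → ∃ᶠ V : ℝ in atTop, ∫ u in Icc ((1 - δ) * V) V, Fe s u ≤ ε * V ^ 2)
    (ρ : ℂ) (hz : riemannZeta ρ = 0) (h0 : 0 < ρ.re) (h1 : ρ.re < 1) :
    ρ.re = 1 / 2 ∧ deriv riemannZeta ρ ≠ 0 := by
  have key : ∀ ρ : ℂ, riemannZeta ρ = 0 → ρ.re < 1 → ρ.re ≤ 1 / 2 := by
    intro ρ hz h1
    by_contra hcon
    push Not at hcon
    obtain ⟨c, hc, h⟩ := lower_win ρ.re hcon.le (fun _ => 1) (Eventually.of_forall fun _ => le_rfl)
      (core1' ρ hz (by linarith) h1) hδ hδ2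
    have hgrow : ∀ᶠ V : ℝ in atTop, 1 * V ^ 2 < c * Real.exp ((ρ.re - 1 / 2) / 2 * V) := by
      have hb : 0 < (ρ.re - 1 / 2) / 2 := by linarith
      have h3 : Tendsto (fun V : ℝ => Real.exp ((ρ.re - 1 / 2) / 2 * V) / V ^ (2 : ℝ)) atTop atTop := by
        have := tendsto_exp_mul_div_rpow_atTop (2 : ℝ) ((ρ.re - 1 / 2) / 2) hb
        exact this
      have h4 := h3.eventually_gt_atTop (1 / c)
      filter_upwards [h4, eventually_gt_atTop (0 : ℝ)] with V hV hV0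
      rw [show V ^ (2 : ℝ) = V ^ 2 from Real.rpow_natCast V 2, div_lt_div_iff₀ hc (by positivity)] at hV
      linarith
    obtain ⟨V, h5, h6, h7, h8⟩ := ((hfr 1 one_pos).and_eventually (h.and (hgrow.and (range_ok hδ hδ2 1)))).exists
    obtain ⟨g1, g2, g3, g4, g5, g6⟩ := h8
    have h9 := h6 s hs
    have h10 : Real.exp ((ρ.re - 1 / 2) / 2 * V) ≤
        ∑ j ∈ Finset.Icc ⌈(1 - δ) * V⌉₊ ⌊V - Real.log V⌋₊, 1 * Real.exp ((ρ.re - 1 / 2) * ct j) := by
      refine le_trans ?_ (Finset.single_le_sum (f := fun j : ℕ => 1 * Real.exp ((ρ.re - 1 / 2) * ct j))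
        (fun j _ => by positivity) g6)
      rw [one_mul]
      refine Real.exp_le_exp.2 ?_
      have h11 : 1 ≤ ⌊V - Real.log V⌋₊ := by
        rw [Finset.mem_Icc] at g6
        omega
      have h12 := ct_nonneg h11
      have h13 : V / 2 ≤ ct (⌊V - Real.log V⌋₊ : ℕ) := g3.trans h12
      nlinarith
    have h14 := mul_le_mul_of_nonneg_left h10 hc.le
    linarith
  have hle := key ρ hz h1
  have hge : 1 / 2 ≤ ρ.re := by
    have h3 := key (1 - ρ) (refl_zero ρ hz h0 h1) (by simp; linarith)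
    simp at h3
    linarith
  refine ⟨le_antisymm hle hge, fun hz' => ?_⟩
  obtain ⟨c, hc, h⟩ := lower_win ρ.re hge (fun t => t) (eventually_ge_atTop 1)
    (core2 ρ hz hz' h0 h1) hδ hδ2
  obtain ⟨V, h5, h6, h7, h9⟩ := ((hfr (c * δ / 8) (by positivity)).and_eventually
    (h.and ((range_ok hδ hδ2 1).and (eventually_gt_atTop (0 : ℝ))))).exists
  obtain ⟨g1, g2, g3, g4, g5, g6⟩ := h7
  have h10 := h6 s hs
  have h11 : δ / 2 * V * (V / 2) ≤
      ∑ j ∈ Finset.Icc ⌈(1 - δ) * V⌉₊ ⌊V - Real.log V⌋₊, ct j * Real.exp ((ρ.re - 1 / 2) * ct j) := by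
    have h12 : ∀ j ∈ Finset.Icc ⌈(1 - δ) * V⌉₊ ⌊V - Real.log V⌋₊,
        V / 2 ≤ ct j * Real.exp ((ρ.re - 1 / 2) * ct j) := by
      intro j hj
      rw [Finset.mem_Icc] at hj
      have h13 := ct_nonneg (show 1 ≤ j by omega)
      have h14 : (⌈(1 - δ) * V⌉₊ : ℝ) ≤ j := by exact_mod_cast hj.1
      have h15 : V / 2 ≤ ct j := by linarith
      have h16 : 1 ≤ Real.exp ((ρ.re - 1 / 2) * ct j) :=
        Real.one_le_exp (mul_nonneg (by linarith) (by linarith))
      nlinarith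
    have h17 := Finset.sum_le_sum h12
    rw [Finset.sum_const, nsmul_eq_mul] at h17
    refine le_trans ?_ h17
    exact mul_le_mul_of_nonneg_right g5 (by linarith)
  have h12 := mul_le_mul_of_nonneg_left h11 hc.le
  have h13 : 0 < c * δ * V ^ 2 := by positivity
  nlinarith

/-- the mean of the positive or negative part of `M(u)/√u` with respect to `du/u` on `[x^{1-δ}, x]` -/
noncomputable def oneMean (δ s x : ℝ) : ℝ :=
  ∫ u in (x ^ (1 - δ))..x, max (s * MM u) 0 / u ^ (3 / 2 : ℝ)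

lemma subst (δ s x : ℝ) (hδ : 0 ≤ δ) (hx : 1 ≤ x) :
    oneMean δ s x = ∫ u in Icc ((1 - δ) * Real.log x) (Real.log x), Fe s u := by
  have hx0 : 0 < x := by linarith
  have hl := Real.log_nonneg hx
  have himg : Real.exp '' Icc ((1 - δ) * Real.log x) (Real.log x) = Icc (x ^ (1 - δ)) x := by
    ext y
    constructor
    · rintro ⟨u, hu, rfl⟩
      refine ⟨?_, ?_⟩
      · rw [Real.rpow_def_of_pos hx0]
        exact Real.exp_le_exp.2 (by linarith [hu.1])
      · exact (Real.exp_le_exp.2 hu.2).trans (Real.exp_log hx0).le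
    · intro hy
      have hy0 : 0 < y := (Real.rpow_pos_of_pos hx0 _).trans_le hy.1
      refine ⟨Real.log y, ⟨?_, ?_⟩, Real.exp_log hy0⟩
      · have := Real.log_le_log (Real.rpow_pos_of_pos hx0 _) hy.1
        rwa [Real.log_rpow hx0] at this
      · exact Real.log_le_log hy0 hy.2
  have key := integral_image_eq_integral_abs_deriv_smul (s := Icc ((1 - δ) * Real.log x) (Real.log x))
    measurableSet_Icc (f := Real.exp) (f' := Real.exp)
    (fun x _ => (Real.hasDerivAt_exp x).hasDerivWithinAt)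
    Real.exp_injective.injOn (fun y => max (s * MM y) 0 / y ^ (3 / 2 : ℝ))
  rw [himg] at key
  have hle : x ^ (1 - δ) ≤ x := by
    conv_rhs => rw [← Real.rpow_one x]
    exact Real.rpow_le_rpow_of_exponent_le hx (by linarith)
  unfold oneMean
  rw [intervalIntegral.integral_of_le hle, ← integral_Icc_eq_integral_Ioc, key]
  refine setIntegral_congr_fun measurableSet_Icc fun u _ => ?_
  simp only [smul_eq_mul, abs_of_pos (Real.exp_pos u)]
  unfold Fe F
  have e1 : mm u = MM (Real.exp u) := rfl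
  rw [e1, ← Real.exp_mul, div_eq_mul_inv, ← Real.exp_neg]
  have e2 : Real.exp (-(u / 2)) = Real.exp u * Real.exp (-(u * (3 / 2))) := by
    rw [← Real.exp_add]
    congr 1
    ring
  rw [e2]
  ring

lemma oneMean_mono {δ δ' s x : ℝ} (hs : s = 1 ∨ s = -1) (hδ : 0 ≤ δ) (hδδ' : δ ≤ δ') (hx : 1 ≤ x) :
    oneMean δ s x ≤ oneMean δ' s x := by
  rw [subst δ s x hδ hx, subst δ' s x (hδ.trans hδδ') hx]
  refine setIntegral_mono_set (Fe_int hs _ _) (ae_of_all _ fun u => Fe_nonneg s u) ?_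
  refine LE.le.eventuallyLE ?_
  intro u hu
  have := Real.log_nonneg hx
  exact ⟨le_trans (by nlinarith) hu.1, hu.2⟩

theorem finalA {δ : ℝ} (hδ : 0 < δ) :
    ∃ c : ℝ, 0 < c ∧ ∀ᶠ x : ℝ in atTop, ∀ s : ℝ, s = 1 ∨ s = -1 → c * Real.log x ≤ oneMean δ s x := by
  have h0 : 0 < min δ (1 / 2) := lt_min hδ (by norm_num)
  obtain ⟨c, hc, h⟩ := partA h0 (min_le_right _ _)
  refine ⟨c, hc, ?_⟩
  filter_upwards [Real.tendsto_log_atTop.eventually h, eventually_ge_atTop (1 : ℝ)] with x h1 h2 s hs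
  have h3 := h1 s hs
  rw [← subst _ s x h0.le h2] at h3
  exact h3.trans (oneMean_mono hs h0.le (min_le_left _ _) h2)

theorem finalB {δ : ℝ} (hδ : 0 < δ) (s : ℝ) (hs : s = 1 ∨ s = -1)
    (hfr : ∀ ε : ℝ, 0 < ε → ∃ᶠ x : ℝ in atTop, oneMean δ s x ≤ ε * Real.log x ^ 2)
    (ρ : ℂ) (hz : riemannZeta ρ = 0) (h0 : 0 < ρ.re) (h1 : ρ.re < 1) :
    ρ.re = 1 / 2 ∧ deriv riemannZeta ρ ≠ 0 := by
  have h2 : 0 < min δ (1 / 2) := lt_min hδ (by norm_num)
  refine partB h2 (min_le_right _ _) s hs (fun ε hε => ?_) ρ hz h0 h1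
  have h3 := (hfr ε hε).and_eventually (eventually_ge_atTop (1 : ℝ))
  refine Real.tendsto_log_atTop.frequently (h3.mono fun x hx => ?_)
  rw [← subst _ s x h2.le hx.2]
  exact (oneMean_mono hs h2.le (min_le_left _ _) hx.2).trans hx.1

end Pool.Agent.Q55.MertensL1
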