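import Pool.Agent.W120.WM.Lim
import Pool.Agent.H409R2.MZ.PNT

/-!
# The mean square of `m(n) = ∑_{k ≤ n} μ(k)/k`
-/

set_option autoImplicit false

open MeasureTheory Filter Topology Set

namespace Pool.Agent.Q55.MeanM

open Pool.Agent.W120.WM
open Pool.Agent.H295R2 (JW JW_mono JW_nonneg JW_integrable IW_exp)

/-- the Mertens function at integers -/
noncomputable def M (n : ℕ) : ℝ := ∑ k ∈ Finset.Icc 1 n, ((ArithmeticFunction.moebius k : ℤ) : ℝ)

/-- `∑_{k ≤ n} μ(k)/k` -/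
noncomputable def m (n : ℕ) : ℝ := ∑ k ∈ Finset.Icc 1 n, ((ArithmeticFunction.moebius k : ℤ) : ℝ) / k

/-- `∑_{1 ≤ n < N} m(n)` -/
noncomputable def H (N : ℕ) : ℝ := ∑ n ∈ Finset.Ico 1 N, m n

/-- `∑_{1 ≤ n < N} M(n)/(n(n+1))` -/
noncomputable def T (N : ℕ) : ℝ := ∑ n ∈ Finset.Ico 1 N, M n / (n * (n + 1))

lemma M_succ (n : ℕ) : M (n + 1) = M n + ((ArithmeticFunction.moebius (n + 1) : ℤ) : ℝ) := by
  unfold M
  rw [Finset.sum_Icc_succ_top (by omega)]

lemma m_succ (n : ℕ) : m (n + 1) = m n + ((ArithmeticFunction.moebius (n + 1) : ℤ) : ℝ) / (n + 1 : ℕ) := by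
  unfold m
  rw [Finset.sum_Icc_succ_top (by omega)]

lemma H_succ {N : ℕ} (hN : 1 ≤ N) : H (N + 1) = H N + m N := by
  unfold H
  rw [Finset.sum_Ico_succ_top hN]

lemma T_succ {N : ℕ} (hN : 1 ≤ N) : T (N + 1) = T N + M N / (N * (N + 1)) := by
  unfold T
  rw [Finset.sum_Ico_succ_top hN]

lemma M_eq {N : ℕ} (hN : 1 ≤ N) : M N = N * m N - H N := by
  induction N, hN using Nat.le_induction with
  | base => simp [M, m, H]
  | succ n hn ih =>
    rw [M_succ, m_succ, H_succ hn, ih]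
    have h0 : ((n : ℝ) + 1) ≠ 0 := by positivity
    push_cast
    field_simp
    ring

lemma H_eq {N : ℕ} (hN : 1 ≤ N) : H N = N * T N := by
  induction N, hN using Nat.le_induction with
  | base => simp [H, T]
  | succ n hn ih =>
    have h1 := M_eq hn
    have hn0 : (n : ℝ) ≠ 0 := by positivity
    have h0 : ((n : ℝ) + 1) ≠ 0 := by positivity
    have h2 : m n = (M n + H n) / n := by
      field_simp
      linarith
    rw [H_succ hn, T_succ hn, h2, ih]
    push_cast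
    field_simp
    ring

/-- `∑_{n<N} m(n)² = ∑_{n<N} M(n)²/(n(n+1)) + N T(N)²` -/
theorem identity {N : ℕ} (hN : 1 ≤ N) :
    ∑ n ∈ Finset.Ico 1 N, m n ^ 2 = (∑ n ∈ Finset.Ico 1 N, M n ^ 2 / (n * (n + 1))) + N * T N ^ 2 := by
  have key : ∑ n ∈ Finset.Ico 1 N, m n ^ 2 =
      (∑ n ∈ Finset.Ico 1 N, M n ^ 2 / (n * (n + 1))) + H N ^ 2 / N := by
    induction N, hN using Nat.le_induction with
    | base => simp [H]
    | succ n hn ih =>
      rw [Finset.sum_Ico_succ_top hn, Finset.sum_Ico_succ_top hn, ih, H_succ hn, M_eq hn]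
      have hn0 : (n : ℝ) ≠ 0 := by positivity
      have h0 : ((n : ℝ) + 1) ≠ 0 := by positivity
      push_cast
      field_simp
      ring
  rw [key, H_eq hN]
  have hn0 : (N : ℝ) ≠ 0 := by positivity
  field_simp

lemma floor_int (g : ℕ → ℝ) {n : ℕ} (hn : 1 ≤ n) :
    IntervalIntegrable (fun u : ℝ => g ⌊u⌋₊ / u ^ 2) volume n (n + 1 : ℕ) ∧
    ∫ u in (n : ℝ)..(n + 1 : ℕ), g ⌊u⌋₊ / u ^ 2 = g n / (n * (n + 1)) := by
  have hn0 : (0 : ℝ) < n := by exact_mod_cast hn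
  have hle : (n : ℝ) ≤ (n + 1 : ℕ) := by push_cast; linarith
  have hae : ∀ᵐ u : ℝ ∂volume, u ∈ Set.uIoc (n : ℝ) (n + 1 : ℕ) → g n * (u ^ 2)⁻¹ = g ⌊u⌋₊ / u ^ 2 := by
    have h1 : ∀ᵐ u : ℝ ∂volume, u ≠ ((n + 1 : ℕ) : ℝ) := by
      rw [ae_iff]
      simp
    filter_upwards [h1] with u hu1 hu2
    rw [uIoc_of_le hle] at hu2
    have h3 : u < n + 1 := by
      have := lt_of_le_of_ne hu2.2 hu1
      push_cast at this
      exact this
    have h4 : ⌊u⌋₊ = n := by
      rw [Nat.floor_eq_iff (hn0.trans hu2.1).le]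
      exact ⟨hu2.1.le, h3⟩
    rw [h4, div_eq_mul_inv]
  have hpos : ∀ u ∈ Set.uIcc (n : ℝ) (n + 1 : ℕ), 0 < u := by
    intro u hu
    rw [uIcc_of_le hle] at hu
    exact hn0.trans_le hu.1
  have hcont : ContinuousOn (fun u : ℝ => g n * (u ^ 2)⁻¹) (Set.uIcc (n : ℝ) (n + 1 : ℕ)) := by
    refine ContinuousOn.mul continuousOn_const (ContinuousOn.inv₀ (by fun_prop) ?_)
    intro u hu
    have := hpos u hu
    positivity
  have hint := hcont.intervalIntegrable (μ := volume)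
  refine ⟨?_, ?_⟩
  · rw [intervalIntegrable_iff] at hint ⊢
    refine hint.congr ?_
    rw [Filter.EventuallyEq, ae_restrict_iff' measurableSet_uIoc]
    exact hae
  · rw [← intervalIntegral.integral_congr_ae hae]
    have hd : ∀ u ∈ Set.uIcc (n : ℝ) (n + 1 : ℕ), HasDerivAt (fun u : ℝ => -(g n * u⁻¹)) (g n * (u ^ 2)⁻¹) u := by
      intro u hu
      have h0 := (hpos u hu).ne'
      have h1 := ((hasDerivAt_inv h0).const_mul (g n)).neg
      have h2 : -(g n * -(u ^ 2)⁻¹) = g n * (u ^ 2)⁻¹ := by ring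
      rw [h2] at h1
      exact h1
    rw [intervalIntegral.integral_eq_sub_of_hasDerivAt hd hint]
    push_cast
    have h0 : ((n : ℝ) + 1) ≠ 0 := by positivity
    field_simp
    ring

lemma int_floor (g : ℕ → ℝ) {N : ℕ} (hN : 1 ≤ N) :
    IntervalIntegrable (fun u : ℝ => g ⌊u⌋₊ / u ^ 2) volume 1 N ∧
    ∫ u in (1 : ℝ)..N, g ⌊u⌋₊ / u ^ 2 = ∑ n ∈ Finset.Ico 1 N, g n / (n * (n + 1)) := by
  induction N, hN using Nat.le_induction with
  | base => simp
  | succ n hn ih =>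
    obtain ⟨h1, h2⟩ := floor_int g hn
    refine ⟨ih.1.trans h1, ?_⟩
    rw [← intervalIntegral.integral_add_adjacent_intervals ih.1 h1, ih.2, h2,
      Finset.sum_Ico_succ_top hn]

lemma msq_nat {N : ℕ} (hN : 1 ≤ N) : msq 1 N = ∑ n ∈ Finset.Ico 1 N, M n ^ 2 / (n * (n + 1)) := by
  rw [← (int_floor (fun n => M n ^ 2) hN).2]
  unfold msq
  refine intervalIntegral.integral_congr fun u _ => ?_
  simp only [div_pow]
  rfl

/-- `M(e^v) e^{-v}` -/
noncomputable def g (v : ℝ) : ℝ := Mx (Real.exp v) * Real.exp (-v)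

lemma Mx_meas : Measurable Mx := by
  have : Mx = (fun n : ℕ => ∑ k ∈ Finset.Icc 1 n, ((ArithmeticFunction.moebius k : ℤ) : ℝ)) ∘
      (fun u : ℝ => ⌊u⌋₊) := rfl
  rw [this]
  exact (measurable_from_nat).comp Nat.measurable_floor

lemma g_meas : Measurable g := (Mx_meas.comp Real.measurable_exp).mul (by fun_prop)

lemma g_mm {v : ℝ} (hv : 0 < v) : g v = H409R2.MZ.PNT.mm v := by
  unfold g H409R2.MZ.PNT.mm H409R2.MZ.PNT.MM Mx
  rw [if_pos hv]
  ring

lemma T_int {N : ℕ} (hN : 1 ≤ N) : T N = ∫ v in Ioc 0 (Real.log N), g v := by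
  have hN0 : (0 : ℝ) < N := by exact_mod_cast hN
  have hN1 : (1 : ℝ) ≤ N := by exact_mod_cast hN
  have hl := Real.log_nonneg hN1
  unfold T
  rw [← (int_floor M hN).2, intervalIntegral.integral_of_le hN1]
  have himg : Real.exp '' Ioc 0 (Real.log N) = Ioc 1 (N : ℝ) := by
    ext y
    constructor
    · rintro ⟨u, hu, rfl⟩
      exact ⟨Real.one_lt_exp_iff.2 hu.1, (Real.exp_le_exp.2 hu.2).trans (Real.exp_log hN0).le⟩
    · intro hy
      have hy0 : 0 < y := one_pos.trans hy.1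
      exact ⟨Real.log y, ⟨Real.log_pos hy.1, Real.log_le_log hy0 hy.2⟩, Real.exp_log hy0⟩
  rw [← himg, integral_image_eq_integral_abs_deriv_smul measurableSet_Ioc
    (fun x _ => (Real.hasDerivAt_exp x).hasDerivWithinAt) (Real.exp_injective.injOn)]
  refine setIntegral_congr_fun measurableSet_Ioc fun u _ => ?_
  simp only [smul_eq_mul, abs_of_pos (Real.exp_pos u)]
  unfold g
  rw [Real.exp_neg]
  have h0 := (Real.exp_pos u).ne'
  have e : Mx (Real.exp u) = M ⌊Real.exp u⌋₊ := rfl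
  rw [e]
  field_simp

lemma g_sq (v : ℝ) : g v ^ 2 = ff v * Real.exp (-v) := by
  unfold g ff
  rw [mul_pow, sq (Real.exp (-v))]
  ring

lemma abs_g_le {v a l : ℝ} (hl : 0 < l) (hv : a ≤ v) :
    |g v| ≤ Real.exp (-(a / 2)) * (ff v / (2 * l) + l / 2) := by
  have hf := ff_nonneg v
  have h1 : |g v| = Real.sqrt (ff v) * Real.exp (-(v / 2)) := by
    rw [← Real.sqrt_sq_eq_abs, g_sq, Real.sqrt_mul hf]
    congr 1
    rw [show Real.exp (-v) = Real.exp (-(v / 2)) ^ 2 by rw [← Real.exp_nat_mul]; congr 1; push_cast; ring,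
      Real.sqrt_sq (Real.exp_pos _).le]
  rw [h1, mul_comm]
  refine mul_le_mul (Real.exp_le_exp.2 (by linarith)) ?_ (Real.sqrt_nonneg _) (Real.exp_pos _).le
  have h2 := Real.sq_sqrt hf
  have h3 : 0 ≤ (Real.sqrt (ff v) - l) ^ 2 := sq_nonneg _
  rw [div_add_div _ _ (by positivity) (by norm_num), le_div_iff₀ (by positivity)]
  nlinarith

/-- the constant -/
noncomputable def K : ℝ := ∑' j : ℕ, ((j : ℝ) + 1) * Real.exp (-((j : ℝ) / 2))

lemma K_summable : Summable (fun j : ℕ => ((j : ℝ) + 1) * Real.exp (-((j : ℝ) / 2))) := by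
  have h1 := Real.summable_pow_mul_exp_neg_nat_mul 1 (show (0 : ℝ) < 1 / 2 by norm_num)
  have h2 := Real.summable_pow_mul_exp_neg_nat_mul 0 (show (0 : ℝ) < 1 / 2 by norm_num)
  refine (h1.add h2).congr fun j => ?_
  rw [pow_one, pow_zero, one_mul, show -(1 / 2 : ℝ) * j = -((j : ℝ) / 2) by ring]
  ring

lemma K_nonneg : 0 ≤ K := tsum_nonneg fun j => by positivity

lemma unit_bound {a l : ℝ} (ha : 0 ≤ a) (hl : 0 < l) {B : ℝ} (h : JW a (a + 1) ≤ B) :
    ∫⁻ v in Ioc a (a + 1), ENNReal.ofReal |g v| ≤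
      ENNReal.ofReal (Real.exp (-(a / 2)) * (B / (2 * l) + l / 2)) := by
  have hi : IntegrableOn ff (Ioc a (a + 1)) := JW_integrable ha
  have hc : IntegrableOn (fun _ : ℝ => l / 2) (Ioc a (a + 1)) := by
    rw [integrableOn_const_iff]
    right
    simp
  have hi2 : IntegrableOn (fun v => Real.exp (-(a / 2)) * (ff v / (2 * l) + l / 2)) (Ioc a (a + 1)) :=
    ((hi.div_const _).add hc).const_mul _
  calc ∫⁻ v in Ioc a (a + 1), ENNReal.ofReal |g v|
      ≤ ∫⁻ v in Ioc a (a + 1), ENNReal.ofReal (Real.exp (-(a / 2)) * (ff v / (2 * l) + l / 2)) := by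
        refine setLIntegral_mono' measurableSet_Ioc fun v hv => ?_
        exact ENNReal.ofReal_le_ofReal (abs_g_le hl hv.1.le)
    _ = ENNReal.ofReal (∫ v in Ioc a (a + 1), Real.exp (-(a / 2)) * (ff v / (2 * l) + l / 2)) := by
        rw [ofReal_integral_eq_lintegral_ofReal hi2]
        refine ae_of_all _ fun v => ?_
        have := ff_nonneg v
        simp only [Pi.zero_apply]
        positivity
    _ ≤ _ := by
        refine ENNReal.ofReal_le_ofReal ?_
        rw [integral_const_mul]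
        refine mul_le_mul_of_nonneg_left ?_ (Real.exp_pos _).le
        rw [integral_add (hi.div_const _) hc, integral_div]
        have h1 : ∫ v in Ioc a (a + 1), ff v = JW a (a + 1) := rfl
        rw [h1]
        simp only [integral_const, MeasurableSet.univ, measureReal_restrict_apply, univ_inter,
          Real.volume_real_Ioc, smul_eq_mul]
        rw [show a + 1 - a = 1 by ring, max_eq_left (by norm_num), one_mul]
        gcongr

theorem tail {ε V : ℝ} (hε : 0 < ε) (hV : 0 ≤ V) (h : ∀ W : ℝ, V ≤ W → JW W (W + 1) ≤ ε * (W + 1)) :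
    ∫⁻ v in Ioi V, ENNReal.ofReal |g v| ≤
      ENNReal.ofReal (Real.sqrt (ε * (V + 1)) * Real.exp (-(V / 2)) * K) := by
  set l := Real.sqrt (ε * (V + 1)) with hl
  have hl0 : 0 < l := Real.sqrt_pos.2 (by positivity)
  have hl2 : l ^ 2 = ε * (V + 1) := Real.sq_sqrt (by positivity)
  have hcov : Ioi V ⊆ ⋃ j : ℕ, Ioc (V + j) (V + j + 1) := by
    intro v hv
    have hv0 : V < v := hv
    have hpos : 0 < v - V := by linarith
    obtain ⟨n, hn⟩ : ∃ n : ℕ, n = ⌈v - V⌉₊ - 1 := ⟨_, rfl⟩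
    have hc : 0 < ⌈v - V⌉₊ := Nat.ceil_pos.2 hpos
    have hn1 : ((n : ℝ) + 1) = ⌈v - V⌉₊ := by
      have : n + 1 = ⌈v - V⌉₊ := by omega
      exact_mod_cast this
    refine mem_iUnion.2 ⟨n, ?_, ?_⟩
    · have h1 := Nat.ceil_lt_add_one hpos.le
      linarith
    · have h1 := Nat.le_ceil (v - V)
      linarith
  calc ∫⁻ v in Ioi V, ENNReal.ofReal |g v|
      ≤ ∫⁻ v in ⋃ j : ℕ, Ioc (V + j) (V + j + 1), ENNReal.ofReal |g v| := lintegral_mono_set hcov
    _ ≤ ∑' j : ℕ, ∫⁻ v in Ioc (V + j) (V + j + 1), ENNReal.ofReal |g v| := lintegral_iUnion_le _ _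
    _ ≤ ∑' j : ℕ, ENNReal.ofReal (l * Real.exp (-(V / 2)) * (((j : ℝ) + 1) * Real.exp (-((j : ℝ) / 2)))) := by
        refine ENNReal.tsum_le_tsum fun j => ?_
        have hj : (0 : ℝ) ≤ j := j.cast_nonneg
        refine (unit_bound (by linarith) hl0 (h (V + j) (by linarith))).trans ?_
        refine ENNReal.ofReal_le_ofReal ?_
        have h1 : ε * (V + j + 1) / (2 * l) + l / 2 ≤ l * (j + 1) := by
          rw [div_add_div _ _ (by positivity) (by norm_num), div_le_iff₀ (by positivity)]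
          have h2 : ε * (V + j + 1) ≤ l ^ 2 * (j + 1) := by
            rw [hl2]
            have : 0 ≤ ε * V * j := by positivity
            nlinarith
          nlinarith [mul_nonneg (sq_nonneg l) hj]
        have h3 : Real.exp (-((V + j) / 2)) = Real.exp (-(V / 2)) * Real.exp (-((j : ℝ) / 2)) := by
          rw [← Real.exp_add]
          congr 1
          ring
        rw [h3]
        have h4 := mul_le_mul_of_nonneg_left h1
          (show 0 ≤ Real.exp (-(V / 2)) * Real.exp (-((j : ℝ) / 2)) by positivity)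
        linarith
    _ = _ := by
        rw [← ENNReal.ofReal_tsum_of_nonneg (fun j => by positivity) (K_summable.mul_left _), tsum_mul_left]
        rfl

lemma incr (hZ : ZC) {ε : ℝ} (hε : 0 < ε) : ∃ V₀ : ℝ, 0 ≤ V₀ ∧ ∀ W : ℝ, V₀ ≤ W → JW W (W + 1) ≤ ε * (W + 1) := by
  have h := limit hZ
  obtain ⟨S, hS⟩ : ∃ S : ℝ, S = ∑' ρ : NT, 1 / ‖(ρ : ℂ) * deriv riemannZeta ρ‖ ^ 2 := ⟨_, rfl⟩
  rw [← hS] at h
  have h1 : Tendsto (fun W : ℝ => JW 0 (W + 1) / (W + 1)) atTop (𝓝 S) :=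
    h.comp (tendsto_atTop_add_const_right _ _ tendsto_id)
  have h2 : Tendsto (fun W : ℝ => W / (W + 1)) atTop (𝓝 1) := by
    have h3 : Tendsto (fun W : ℝ => 1 - 1 / (W + 1)) atTop (𝓝 (1 - 0)) := by
      refine tendsto_const_nhds.sub ?_
      exact tendsto_const_nhds.div_atTop (tendsto_atTop_add_const_right _ _ tendsto_id)
    rw [sub_zero] at h3
    refine h3.congr' ?_
    filter_upwards [eventually_gt_atTop (0 : ℝ)] with W hW
    field_simp
    ring
  have h4 : Tendsto (fun W : ℝ => JW 0 (W + 1) / (W + 1) - JW 0 W / W * (W / (W + 1))) atTop (𝓝 (S - S * 1)) :=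
    h1.sub (h.mul h2)
  rw [mul_one, sub_self] at h4
  have h5 := h4.eventually (gt_mem_nhds hε)
  obtain ⟨V₀, hV⟩ := eventually_atTop.1 (h5.and (eventually_gt_atTop (0 : ℝ)))
  refine ⟨max V₀ 0, le_max_right _ _, fun W hW => ?_⟩
  obtain ⟨h6, h7⟩ := hV W ((le_max_left _ _).trans hW)
  have h8 : JW 0 (W + 1) = JW 0 W + JW W (W + 1) := JW_add le_rfl h7.le (by linarith)
  have h9 : JW 0 (W + 1) / (W + 1) - JW 0 W / W * (W / (W + 1)) = JW W (W + 1) / (W + 1) := by
    rw [h8]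
    field_simp
    ring
  rw [h9, div_lt_iff₀ (by linarith)] at h6
  exact h6.le

lemma g_integrable (hZ : ZC) : IntegrableOn g (Ioi 0) := by
  obtain ⟨V₀, h0, h⟩ := incr hZ one_pos
  have h1 := tail one_pos h0 h
  have h2 : IntegrableOn g (Ioi V₀) := by
    refine ⟨g_meas.aestronglyMeasurable, ?_⟩
    rw [hasFiniteIntegral_iff_norm]
    exact lt_of_le_of_lt h1 ENNReal.ofReal_lt_top
  have h3 : IntegrableOn g (Ioc 0 V₀) := by
    have hi : IntegrableOn ff (Ioc 0 V₀) := JW_integrable le_rfl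
    have hc : IntegrableOn (fun _ : ℝ => (1 : ℝ) / 2) (Ioc 0 V₀) := by
      rw [integrableOn_const_iff]
      right
      simp
    have hi2 : IntegrableOn (fun v => Real.exp (-((0 : ℝ) / 2)) * (ff v / (2 * 1) + 1 / 2)) (Ioc 0 V₀) :=
      ((hi.div_const _).add hc).const_mul _
    refine Integrable.mono' hi2 g_meas.aestronglyMeasurable ?_
    rw [ae_restrict_iff' measurableSet_Ioc]
    exact ae_of_all _ fun v hv => abs_g_le one_pos hv.1.le
  have h4 := h3.union h2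
  rwa [Ioc_union_Ioi_eq_Ioi h0] at h4

/-- `∫_0^∞ M(e^v) e^{-v} dv = 0` -/
lemma total (hZ : ZC) : ∫ v in Ioi 0, g v = 0 := by
  have hi := g_integrable hZ
  have h1 : Tendsto (fun σ : ℝ => ∫ u in Ioi (0 : ℝ), (H409R2.MZ.PNT.mm u : ℂ) * Complex.exp (-(σ : ℂ) * u))
      (𝓝[>] 0) (𝓝 (∫ u in Ioi (0 : ℝ), (g u : ℂ))) := by
    refine tendsto_integral_filter_of_dominated_convergence (fun u => |g u|) ?_ ?_ ?_ ?_
    · refine Eventually.of_forall fun σ => ?_
      refine Measurable.aestronglyMeasurable ?_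
      exact (Complex.measurable_ofReal.comp H409R2.MZ.PNT.measurable_mm).mul (by fun_prop)
    · filter_upwards [self_mem_nhdsWithin] with σ hσ
      have hσ0 : (0 : ℝ) < σ := hσ
      rw [ae_restrict_iff' measurableSet_Ioi]
      refine ae_of_all _ fun u hu => ?_
      have hu0 : (0 : ℝ) < u := hu
      rw [norm_mul, Complex.norm_real, ← g_mm hu0, Real.norm_eq_abs, Complex.norm_exp]
      have : (-(σ : ℂ) * u).re = -(σ * u) := by simp
      rw [this]
      have h3 : Real.exp (-(σ * u)) ≤ 1 := Real.exp_le_one_iff.2 (by nlinarith)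
      exact mul_le_of_le_one_right (abs_nonneg _) h3
    · exact hi.abs
    · rw [ae_restrict_iff' measurableSet_Ioi]
      refine ae_of_all _ fun u hu => ?_
      have hu0 : (0 : ℝ) < u := hu
      rw [← g_mm hu0]
      have h4 : Tendsto (fun σ : ℝ => (g u : ℂ) * Complex.exp (-(σ : ℂ) * u)) (𝓝 0)
          (𝓝 ((g u : ℂ) * Complex.exp (-((0 : ℝ) : ℂ) * u))) := by
        have : Continuous (fun σ : ℝ => (g u : ℂ) * Complex.exp (-(σ : ℂ) * u)) := by fun_prop
        exact this.tendsto 0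
      simp only [Complex.ofReal_zero, neg_zero, zero_mul, Complex.exp_zero, mul_one] at h4
      exact h4.mono_left nhdsWithin_le_nhds
  have h2 : Tendsto (fun σ : ℝ => ∫ u in Ioi (0 : ℝ), (H409R2.MZ.PNT.mm u : ℂ) * Complex.exp (-(σ : ℂ) * u))
      (𝓝[>] 0) (𝓝 0) := by
    have h3 := H409R2.MZ.PNT.continuousWithinAt_GG 0 (by simp)
    have h4 : Tendsto (fun σ : ℝ => (σ : ℂ)) (𝓝[>] 0) (𝓝 0) := by
      have : Tendsto (fun σ : ℝ => (σ : ℂ)) (𝓝 0) (𝓝 ((0 : ℝ) : ℂ)) := Complex.continuous_ofReal.tendsto 0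
      rw [Complex.ofReal_zero] at this
      exact this.mono_left nhdsWithin_le_nhds
    have h5 := h3.tendsto.comp h4
    have h6 : H409R2.MZ.PNT.GG 0 = 0 := by simp [H409R2.MZ.PNT.GG]
    rw [h6] at h5
    refine h5.congr' ?_
    filter_upwards [self_mem_nhdsWithin] with σ hσ
    have hσ0 : (0 : ℝ) < σ := hσ
    rw [H409R2.MZ.PNT.laplace_mm (σ : ℂ) (by simpa using hσ0)]
    simp only [Function.comp]
    unfold H409R2.MZ.PNT.GG
    rw [if_neg (by exact_mod_cast hσ0.ne')]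
  have h3 := tendsto_nhds_unique h1 h2
  rw [integral_complex_ofReal] at h3
  exact_mod_cast h3

lemma T_small (hZ : ZC) {ε : ℝ} (hε : 0 < ε) : ∃ N₀ : ℕ, ∀ N : ℕ, N₀ ≤ N →
    N * T N ^ 2 ≤ ε * (Real.log N + 1) * K ^ 2 := by
  obtain ⟨V₀, h0, h⟩ := incr hZ hε
  obtain ⟨N₀, hN₀⟩ := exists_nat_ge (Real.exp V₀)
  refine ⟨max N₀ 1, fun N hN => ?_⟩
  have hN1 : 1 ≤ N := (le_max_right _ _).trans hN
  have hNN : N₀ ≤ N := (le_max_left _ _).trans hN
  have hN0 : (0 : ℝ) < N := by exact_mod_cast hN1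
  have hl0 : 0 ≤ Real.log N := Real.log_nonneg (by exact_mod_cast hN1)
  have hlV : V₀ ≤ Real.log N := by
    rw [Real.le_log_iff_exp_le hN0]
    exact hN₀.trans (by exact_mod_cast hNN)
  have h1 := tail hε hl0 (fun W hW => h W (hlV.trans hW))
  have hi := g_integrable hZ
  have h2 : T N = -∫ v in Ioi (Real.log N), g v := by
    have h4 := setIntegral_union
      (Set.disjoint_left.2 fun x (hx : x ∈ Ioc 0 (Real.log N)) hx' => by exact absurd hx.2 (not_le.2 hx'))
      measurableSet_Ioi (hi.mono_set Ioc_subset_Ioi_self) (hi.mono_set (Ioi_subset_Ioi hl0))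
    rw [Ioc_union_Ioi_eq_Ioi hl0, total hZ] at h4
    rw [T_int hN1]
    linarith
  have h3 : |T N| ≤ Real.sqrt (ε * (Real.log N + 1)) * Real.exp (-(Real.log N / 2)) * K := by
    rw [h2, abs_neg]
    have h4 := norm_integral_le_lintegral_norm (μ := volume.restrict (Ioi (Real.log N))) g
    refine h4.trans ?_
    exact ENNReal.toReal_le_of_le_ofReal
      (mul_nonneg (by positivity) K_nonneg) h1
  have h4 : T N ^ 2 ≤ (Real.sqrt (ε * (Real.log N + 1)) * Real.exp (-(Real.log N / 2)) * K) ^ 2 := by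
    rw [← sq_abs]
    exact pow_le_pow_left₀ (abs_nonneg _) h3 2
  have h5 : (Real.sqrt (ε * (Real.log N + 1)) * Real.exp (-(Real.log N / 2)) * K) ^ 2 =
      ε * (Real.log N + 1) * K ^ 2 / N := by
    rw [mul_pow, mul_pow, Real.sq_sqrt (by positivity), ← Real.exp_nat_mul,
      show ((2 : ℕ) : ℝ) * -(Real.log N / 2) = -Real.log N by push_cast; ring, Real.exp_neg, Real.exp_log hN0]
    ring
  rw [h5] at h4
  calc N * T N ^ 2 ≤ N * (ε * (Real.log N + 1) * K ^ 2 / N) := mul_le_mul_of_nonneg_left h4 hN0.le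
    _ = _ := by field_simp


/-- `∑_{1 ≤ n < N} m(n)²` -/
noncomputable def Q (N : ℕ) : ℝ := ∑ n ∈ Finset.Ico 1 N, m n ^ 2

lemma Q_eq {N : ℕ} (hN : 1 ≤ N) : Q N = msq 1 N + N * T N ^ 2 := by
  unfold Q
  rw [identity hN, msq_nat hN]

lemma Q_ge {N : ℕ} (hN : 1 ≤ N) : msq 1 N ≤ Q N := by
  rw [Q_eq hN]
  have : 0 ≤ (N : ℝ) * T N ^ 2 := by positivity
  linarith

lemma log_cast_tendsto : Tendsto (fun N : ℕ => Real.log N) atTop atTop :=
  Real.tendsto_log_atTop.comp tendsto_natCast_atTop_atTop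

lemma msq_lim (hZ : ZC) : Tendsto (fun N : ℕ => msq 1 N / Real.log N) atTop
    (𝓝 (∑' ρ : NT, 1 / ‖(ρ : ℂ) * deriv riemannZeta ρ‖ ^ 2)) := by
  have h := ((final3 1 one_pos le_rfl).1 hZ).comp tendsto_natCast_atTop_atTop
  rw [one_mul] at h
  refine h.congr fun N => ?_
  simp [Function.comp]

lemma msq_top (hZ : ¬ ZC) : Tendsto (fun N : ℕ => msq 1 N / Real.log N) atTop atTop := by
  have h := ((final3 1 one_pos le_rfl).2 hZ).comp tendsto_natCast_atTop_atTop
  refine h.congr fun N => ?_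
  simp [Function.comp]

theorem Q_lim (hZ : ZC) : Tendsto (fun N : ℕ => Q N / Real.log N) atTop
    (𝓝 (∑' ρ : NT, 1 / ‖(ρ : ℂ) * deriv riemannZeta ρ‖ ^ 2)) := by
  have h1 := msq_lim hZ
  have h2 : Tendsto (fun N : ℕ => N * T N ^ 2 / Real.log N) atTop (𝓝 0) := by
    rw [Metric.tendsto_atTop]
    intro η hη
    have hK := K_nonneg
    obtain ⟨N₀, h⟩ := T_small hZ (ε := η / (4 * (K ^ 2 + 1))) (by positivity)
    obtain ⟨N₁, h3⟩ := eventually_atTop.1 (log_cast_tendsto.eventually_ge_atTop 1)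
    refine ⟨max N₀ N₁, fun N hN => ?_⟩
    have h4 := h N ((le_max_left _ _).trans hN)
    have h5 : 1 ≤ Real.log N := h3 N ((le_max_right _ _).trans hN)
    have h6 : 0 ≤ (N : ℝ) * T N ^ 2 / Real.log N := by positivity
    rw [Real.dist_eq, sub_zero, abs_of_nonneg h6, div_lt_iff₀ (by linarith)]
    refine h4.trans_lt ?_
    have h7 : η / (4 * (K ^ 2 + 1)) * K ^ 2 ≤ η / 4 := by
      rw [div_mul_eq_mul_div, div_le_div_iff₀ (by positivity) (by norm_num)]
      nlinarith [sq_nonneg K]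
    calc η / (4 * (K ^ 2 + 1)) * (Real.log N + 1) * K ^ 2
        = η / (4 * (K ^ 2 + 1)) * K ^ 2 * (Real.log N + 1) := by ring
      _ ≤ η / 4 * (Real.log N + 1) := mul_le_mul_of_nonneg_right h7 (by linarith)
      _ < η * Real.log N := by nlinarith
  have h3 := h1.add h2
  rw [add_zero] at h3
  refine h3.congr' ?_
  filter_upwards [eventually_ge_atTop 1] with N hN
  rw [Q_eq hN, add_div]

theorem Q_top (hZ : ¬ ZC) : Tendsto (fun N : ℕ => Q N / Real.log N) atTop atTop := by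
  refine tendsto_atTop_mono' _ ?_ (msq_top hZ)
  filter_upwards [eventually_ge_atTop 2] with N hN
  have : 0 < Real.log N := Real.log_pos (by exact_mod_cast (show 1 < N by omega))
  exact div_le_div_of_nonneg_right (Q_ge (by omega)) this.le

theorem Q_iff : (∃ C : ℝ, ∀ x : ℝ, 2 ≤ x → msq 1 x ≤ C * Real.log x) ↔
    (∃ C : ℝ, ∀ N : ℕ, 2 ≤ N → Q N ≤ C * Real.log N) := by
  obtain ⟨_, -, -, h⟩ := final2 sharpT
  have h0 : (∃ C : ℝ, ∀ x : ℝ, 2 ≤ x → msq 1 x ≤ C * Real.log x) ↔ ZC := h.out 0 2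
  rw [h0]
  constructor
  · intro hZ
    obtain ⟨C, hC⟩ := (Q_lim hZ).bddAbove_range
    refine ⟨C, fun N hN => ?_⟩
    have hl : 0 < Real.log N := Real.log_pos (by exact_mod_cast (show 1 < N by omega))
    have := hC (mem_range_self N)
    rwa [div_le_iff₀ hl] at this
  · rintro ⟨C, hC⟩
    by_contra hZ
    obtain ⟨N, h1, h2⟩ := (((Q_top hZ).eventually_gt_atTop C).and (eventually_ge_atTop 2)).exists
    have hl : 0 < Real.log N := Real.log_pos (by exact_mod_cast (show 1 < N by omega))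
    rw [lt_div_iff₀ hl] at h1
    exact absurd (hC N h2) (not_le.2 h1)

end Pool.Agent.Q55.MeanM
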