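import Mathlib

namespace Pool.Agent.Q55.PrimePowSum

open Finset

/-- `Rep L n`: `n` is a sum of positive powers of the first `L` primes. -/
def Rep : ℕ → ℕ → Prop
| 0, n => n = 0
| L+1, n => ∃ m a, Rep L m ∧ 1 ≤ a ∧ n = m + (Nat.nth Nat.Prime L)^a

theorem rep_iff (L n : ℕ) : Rep L n ↔ ∃ α : ℕ → ℕ, (∀ j, 1 ≤ α j) ∧
    n = ∑ j ∈ range L, (Nat.nth Nat.Prime j) ^ α j := by
  induction L generalizing n with
  | zero =>
    constructor
    · intro h
      exact ⟨fun _ => 1, fun _ => le_rfl, by simpa [Rep] using h⟩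
    · rintro ⟨α, _, h⟩
      simpa [Rep] using h
  | succ L ih =>
    constructor
    · rintro ⟨m, a, hm, ha, hn⟩
      obtain ⟨α, hα, hs⟩ := (ih m).1 hm
      refine ⟨fun j => if j = L then a else α j, ?_, ?_⟩
      · intro j
        by_cases h : j = L
        · simp [h, ha]
        · simp [h, hα j]
      · rw [sum_range_succ, hn, hs]
        congr 1
        · apply sum_congr rfl
          intro j hj
          have : j ≠ L := by
            have := mem_range.1 hj
            omega
          simp [this]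
        · simp
    · rintro ⟨α, hα, hs⟩
      rw [sum_range_succ] at hs
      exact ⟨_, α L, (ih _).2 ⟨α, hα, rfl⟩, hα L, hs⟩

/-- or of shifts -/
def stp (B p : ℕ) : ℕ → ℕ
| 0 => 0
| k+1 => stp B p k ||| (B <<< (p^(k+1)))

theorem stp_testBit (B p k n : ℕ) :
    (stp B p k).testBit n = true ↔ ∃ m a, B.testBit m = true ∧ 1 ≤ a ∧ a ≤ k ∧ n = m + p^a := by
  induction k with
  | zero =>
    simp only [stp, Nat.zero_testBit]
    constructor
    · intro h; cases h
    · rintro ⟨m, a, _, h1, h2, _⟩; omega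
  | succ k ih =>
    rw [stp, Nat.testBit_or, Bool.or_eq_true, ih, Nat.testBit_shiftLeft]
    simp only [ge_iff_le, Bool.and_eq_true, decide_eq_true_eq]
    constructor
    · rintro (⟨m, a, h1, h2, h3, h4⟩ | ⟨h1, h2⟩)
      · exact ⟨m, a, h1, h2, by omega, h4⟩
      · exact ⟨n - p^(k+1), k+1, h2, by omega, le_rfl, by omega⟩
    · rintro ⟨m, a, h1, h2, h3, h4⟩
      by_cases h : a = k+1
      · right
        subst h
        refine ⟨by omega, ?_⟩
        have : n - p^(k+1) = m := by omega
        rw [this]; exact h1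
      · left
        exact ⟨m, a, h1, h2, by omega, h4⟩

def pr : ℕ → ℕ
| 0 => 2 | 1 => 3 | 2 => 5 | 3 => 7 | 4 => 11 | 5 => 13 | 6 => 17 | 7 => 19 | 8 => 23 | 9 => 29 | _ => 31

def ex : ℕ → ℕ
| 0 => 9 | 1 => 6 | 2 => 5 | 3 => 5 | _ => 2

def bits : ℕ → ℕ
| 0 => 1
| L+1 => stp (bits L) (pr L) (ex L)

theorem nth_pr (j : ℕ) (hj : j ≤ 10) : Nat.nth Nat.Prime j = pr j := by
  have h : ∀ j < 11, Nat.Prime (pr j) ∧ Nat.count Nat.Prime (pr j) = j := by
    decide +kernel
  obtain ⟨h1, h2⟩ := h j (by omega)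
  rw [← h2, Nat.nth_count h1, h2]

theorem rep_of_bits (L : ℕ) (hL : L ≤ 11) (n : ℕ) (h : (bits L).testBit n = true) : Rep L n := by
  induction L generalizing n with
  | zero =>
    simp only [bits] at h
    have : n = 0 := by
      by_contra h0
      obtain ⟨k, rfl⟩ : ∃ k, n = k + 1 := ⟨n-1, by omega⟩
      simp [Nat.testBit_succ] at h
    simpa [Rep] using this
  | succ L ih =>
    rw [bits, stp_testBit] at h
    obtain ⟨m, a, h1, h2, h3, h4⟩ := h
    refine ⟨m, a, ih (by omega) m h1, h2, ?_⟩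
    rw [nth_pr L (by omega)]; exact h4

theorem base9 : ∀ i < 443, (bits 9).testBit (216 + 2 * i) = true := by
  decide +kernel

theorem small : ∀ n < 246, 34 ≤ n → ∃ L < 10, (bits (L+1)).testBit n = true := by
  decide +kernel

theorem count_large (N : ℕ) (hN : 4096 ≤ N) :
    17 ≤ ((Ioc (N / 4) N).filter Nat.Prime).card := by
  by_contra hcon
  push Not at hcon
  have hc : ((Ioc (N / 4) N).filter Nat.Prime).card ≤ 16 := by omega
  obtain ⟨C, hC⟩ : ∃ C, C = ((Ioc (N / 4) N).filter Nat.Prime).card := ⟨_, rfl⟩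
  rw [← hC] at hc
  have hθ : Chebyshev.theta (N : ℝ) = Chebyshev.theta ((N / 4 : ℕ) : ℝ) +
      ∑ p ∈ (Ioc (N / 4) N).filter Nat.Prime, Real.log p := by
    unfold Chebyshev.theta
    rw [Nat.floor_natCast, Nat.floor_natCast]
    rw [← Finset.sum_union]
    · congr 1
      ext p
      simp only [mem_union, mem_filter, mem_Ioc]
      constructor
      · rintro ⟨⟨h1, h2⟩, h3⟩
        by_cases h : p ≤ N / 4
        · left; exact ⟨⟨h1, h⟩, h3⟩
        · right; exact ⟨⟨by omega, h2⟩, h3⟩
      · rintro (⟨⟨h1, h2⟩, h3⟩ | ⟨⟨h1, h2⟩, h3⟩)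
        · exact ⟨⟨h1, by omega⟩, h3⟩
        · exact ⟨⟨by omega, h2⟩, h3⟩
    · rw [Finset.disjoint_left]
      intro p hp hq
      simp only [mem_filter, mem_Ioc] at hp hq
      omega
  have hsum : ∑ p ∈ (Ioc (N / 4) N).filter Nat.Prime, Real.log p ≤ 16 * Real.log N := by
    have : ∑ p ∈ (Ioc (N / 4) N).filter Nat.Prime, Real.log p ≤
        ∑ p ∈ (Ioc (N / 4) N).filter Nat.Prime, Real.log N := by
      apply Finset.sum_le_sum
      intro p hp
      simp only [mem_filter, mem_Ioc] at hp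
      apply Real.log_le_log
      · exact_mod_cast hp.2.pos
      · exact_mod_cast hp.1.2
    refine this.trans ?_
    rw [Finset.sum_const, nsmul_eq_mul, ← hC]
    apply mul_le_mul_of_nonneg_right
    · exact_mod_cast hc
    · apply Real.log_nonneg
      exact_mod_cast (by omega : 1 ≤ N)
  have h1 := Chebyshev.theta_ge N
  have h2 := Chebyshev.theta_le_log4_mul_x (x := ((N / 4 : ℕ) : ℝ)) (by positivity)
  have hlog4 : Real.log 4 = 2 * Real.log 2 := by
    rw [show (4 : ℝ) = 2 ^ 2 by norm_num, Real.log_pow]; norm_num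
  have h3 : ((N / 4 : ℕ) : ℝ) ≤ N / 4 := by
    have := @Nat.cast_div_le ℝ _ _ _ N 4
    exact_mod_cast this
  have hl2a := Real.log_two_gt_d9
  have hl2b := Real.log_two_lt_d9
  have hNR : (4096 : ℝ) ≤ N := by exact_mod_cast hN
  obtain ⟨s, hs⟩ : ∃ s, s = √(N : ℝ) := ⟨_, rfl⟩
  have hs2 : s ^ 2 = N := by rw [hs]; exact Real.sq_sqrt (by positivity)
  have hs0 : 0 ≤ s := by rw [hs]; positivity
  have hs64 : 64 ≤ s := by
    by_contra h
    push Not at h
    nlinarith
  have hlogN : Real.log N ≤ 2 * (6 * Real.log 2 - 1 + s / 64) := by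
    rw [← hs2, Real.log_pow]
    have : Real.log s ≤ 6 * Real.log 2 - 1 + s / 64 := by
      have e1 : Real.log s = Real.log (s / 64) + Real.log 64 := by
        rw [← Real.log_mul (by positivity) (by norm_num)]
        congr 1; ring
      have e2 : Real.log 64 = 6 * Real.log 2 := by
        rw [show (64 : ℝ) = 2 ^ 6 by norm_num, Real.log_pow]; norm_num
      have e3 : Real.log (s / 64) ≤ s / 64 - 1 := Real.log_le_sub_one_of_pos (by positivity)
      linarith
    push_cast
    linarith
  have hlogN1 : Real.log (N + 1) ≤ Real.log 2 + Real.log N := by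
    rw [← Real.log_mul (by norm_num) (by positivity)]
    apply Real.log_le_log (by positivity)
    linarith
  have hlog0 : 0 ≤ Real.log N := Real.log_nonneg (by linarith)
  rw [← hs] at h1
  have key : (N : ℝ) * Real.log 2 - Real.log (N + 1) - 2 * s * Real.log N ≤
      Real.log 4 * (N / 4) + 16 * Real.log N := by
    have h4 : Real.log 4 * ((N / 4 : ℕ) : ℝ) ≤ Real.log 4 * (N / 4) := by
      apply mul_le_mul_of_nonneg_left h3
      rw [hlog4]; linarith
    linarith
  rw [hlog4, ← hs2] at key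
  rw [← hs2] at hlogN1 hlogN hlog0
  obtain ⟨l, hl⟩ : ∃ l, l = Real.log (s ^ 2) := ⟨_, rfl⟩
  rw [← hl] at key hlogN hlogN1 hlog0
  have key2 : s ^ 2 * Real.log 2 / 2 ≤ (17 + 2 * s) * l + Real.log 2 := by
    linarith
  have hl' : l ≤ 6.3184 + s / 32 := by linarith
  have key3 : s ^ 2 * 0.34655 ≤ (17 + 2 * s) * (6.3184 + s / 32) + 0.6932 := by
    have : (17 + 2 * s) * l ≤ (17 + 2 * s) * (6.3184 + s / 32) :=
      mul_le_mul_of_nonneg_left hl' (by linarith)
    nlinarith
  nlinarith


/-- sum of `p^2-p` over primes `23<p<x` -/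
def G (x : ℕ) : ℕ := ∑ p ∈ (range x).filter (fun p => p.Prime ∧ 23 < p), (p^2 - p)

theorem G_mono {x y : ℕ} (h : x ≤ y) : G x ≤ G y := by
  unfold G
  apply sum_le_sum_of_subset
  intro p hp
  simp only [mem_filter, mem_range] at hp ⊢
  exact ⟨by omega, hp.2⟩

theorem G_small : ∀ x < 101, 29 ≤ x → x^2 + 114 ≤ x + (1000 + G x) := by
  decide +kernel

theorem G_250 : 900 ^ 2 + 114 ≤ 1000 + G 250 := by
  decide +kernel

theorem G_100 : 250 ^ 2 + 114 ≤ 1000 + G 100 := by
  decide +kernel

/-- some primes below `900` -/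
def S900 : Finset ℕ := {727, 733, 739, 743, 751, 757, 761, 769, 773, 787, 797, 809, 811, 821, 823, 827, 829, 839, 853, 857, 859, 863, 877, 881, 883, 887}

theorem S900_prime : ∀ p ∈ S900, p.Prime ∧ 23 < p ∧ p < 900 := by
  decide +kernel

theorem S900_sum : 4100 ^ 2 + 114 ≤ 1000 + ∑ p ∈ S900, (p^2 - p) := by
  decide +kernel

theorem G_900 : 4100 ^ 2 + 114 ≤ 1000 + G 900 := by
  refine S900_sum.trans (Nat.add_le_add_left ?_ _)
  unfold G
  apply sum_le_sum_of_subset
  intro p hp
  obtain ⟨h1, h2, h3⟩ := S900_prime p hp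
  simp only [mem_filter, mem_range]
  exact ⟨h3, h1, h2⟩

theorem G_bound (x : ℕ) (hx : 29 ≤ x) : x^2 + 114 ≤ x + (1000 + G x) := by
  by_cases h1 : x < 101
  · exact G_small x h1 hx
  · by_cases h2 : x ≤ 250
    · have := G_mono (show 100 ≤ x by omega)
      have := G_100
      have : x ^ 2 ≤ 250 ^ 2 := Nat.pow_le_pow_left h2 2
      omega
    · by_cases h3 : x ≤ 900
      · have := G_mono (show 250 ≤ x by omega)
        have := G_250
        have : x ^ 2 ≤ 900 ^ 2 := Nat.pow_le_pow_left h3 2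
        omega
      · by_cases h4 : x ≤ 4100
        · have := G_mono (show 900 ≤ x by omega)
          have := G_900
          have : x ^ 2 ≤ 4100 ^ 2 := Nat.pow_le_pow_left h4 2
          omega
        · obtain ⟨N, rfl⟩ : ∃ N, x = N + 1 := ⟨x - 1, by omega⟩
          have hc := count_large N (by omega)
          have hsub : ∑ p ∈ (Ioc (N / 4) N).filter Nat.Prime, (p^2 - p) ≤ G (N+1) := by
            unfold G
            apply sum_le_sum_of_subset
            intro p hp
            simp only [mem_filter, mem_range, mem_Ioc] at hp ⊢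
            exact ⟨by omega, hp.2, by omega⟩
          have hlow : ((Ioc (N / 4) N).filter Nat.Prime).card * ((N+1) * (N-3)) ≤
              16 * ∑ p ∈ (Ioc (N / 4) N).filter Nat.Prime, (p^2 - p) := by
            rw [mul_sum, ← smul_eq_mul]
            apply card_nsmul_le_sum
            intro p hp
            simp only [mem_filter, mem_Ioc] at hp
            have h5 : N + 1 ≤ 4 * p := by omega
            have h6 : p ^ 2 - p = p * (p - 1) := by
              rw [Nat.mul_sub, pow_two, mul_one]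
            rw [h6]
            calc (N+1) * (N-3) ≤ (4*p) * (4 * (p-1)) := by
                  apply Nat.mul_le_mul h5
                  omega
              _ = 16 * (p * (p-1)) := by ring
          have h7 : 17 * ((N+1) * (N-3)) ≤ 16 * G (N+1) := by
            calc 17 * ((N+1) * (N-3)) ≤ ((Ioc (N / 4) N).filter Nat.Prime).card * ((N+1) * (N-3)) :=
                  Nat.mul_le_mul_right _ hc
              _ ≤ _ := hlow
              _ ≤ _ := Nat.mul_le_mul_left _ hsub
          obtain ⟨M, rfl⟩ : ∃ M, N = M + 3 := ⟨N - 3, by omega⟩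
          have h8 : M + 3 - 3 = M := by omega
          rw [h8] at h7
          have hM : 4000 ≤ M := by omega
          nlinarith

/-- partial sums of primes -/
noncomputable def ms (L : ℕ) : ℕ := ∑ j ∈ range L, Nat.nth Nat.Prime j

/-- length of the full interval -/
noncomputable def Tf (L : ℕ) : ℕ :=
  1000 + ∑ j ∈ Ico 9 L, ((Nat.nth Nat.Prime j)^2 - Nat.nth Nat.Prime j)

theorem G_le (L : ℕ) :
    G (Nat.nth Nat.Prime L) ≤ ∑ j ∈ Ico 9 L, ((Nat.nth Nat.Prime j)^2 - Nat.nth Nat.Prime j) := by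
  unfold G
  have hinj : Set.InjOn (Nat.nth Nat.Prime) (Ico 9 L : Finset ℕ) :=
    (Nat.nth_injective Nat.infinite_setOfPred_prime).injOn
  rw [← sum_image (f := fun p => p^2 - p) hinj]
  apply sum_le_sum_of_subset
  intro p hp
  simp only [mem_filter, mem_range] at hp
  simp only [mem_image, mem_Ico]
  refine ⟨Nat.count Nat.Prime p, ⟨?_, ?_⟩, Nat.nth_count hp.2.1⟩
  · have h23 : Nat.nth Nat.Prime 8 = 23 := nth_pr 8 (by omega)
    have : Nat.nth Nat.Prime 8 < p := by rw [h23]; exact hp.2.2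
    have h2 : Nat.nth Nat.Prime 8 < Nat.nth Nat.Prime (Nat.count Nat.Prime p) := by
      rw [Nat.nth_count hp.2.1]; exact this
    have := (Nat.nth_lt_nth Nat.infinite_setOfPred_prime).1 h2
    omega
  · have h2 : Nat.nth Nat.Prime (Nat.count Nat.Prime p) < Nat.nth Nat.Prime L := by
      rw [Nat.nth_count hp.2.1]; exact hp.1
    exact (Nat.nth_lt_nth Nat.infinite_setOfPred_prime).1 h2

theorem nth_ge (L : ℕ) (hL : 9 ≤ L) : 29 ≤ Nat.nth Nat.Prime L := by
  have h : Nat.nth Nat.Prime 9 = 29 := nth_pr 9 (by omega)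
  rw [← h]
  exact (Nat.nth_monotone Nat.infinite_setOfPred_prime) hL

theorem key (L : ℕ) (hL : 9 ≤ L) :
    (Nat.nth Nat.Prime L)^2 + 114 ≤ Nat.nth Nat.Prime L + Tf L := by
  have h1 := G_bound _ (nth_ge L hL)
  have h2 := G_le L
  unfold Tf
  omega

theorem Tf_succ (L : ℕ) (hL : 9 ≤ L) :
    Tf (L+1) = Tf L + ((Nat.nth Nat.Prime L)^2 - Nat.nth Nat.Prime L) := by
  unfold Tf
  rw [sum_Ico_succ_top hL]
  ring

theorem odd_nth (L : ℕ) (hL : 1 ≤ L) : Nat.nth Nat.Prime L % 2 = 1 := by
  have hp : (Nat.nth Nat.Prime L).Prime := Nat.prime_nth_prime L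
  have h0 : Nat.nth Nat.Prime 0 = 2 := nth_pr 0 (by omega)
  have h1 : Nat.nth Nat.Prime 0 < Nat.nth Nat.Prime L :=
    (Nat.nth_lt_nth Nat.infinite_setOfPred_prime).2 (by omega)
  rcases hp.eq_two_or_odd with h | h
  · omega
  · exact h

theorem sq_sub_even (q : ℕ) : ∃ t, q ^ 2 - q = 2 * t := by
  have h : q ^ 2 - q = q * (q - 1) := by rw [Nat.mul_sub, pow_two, mul_one]
  rw [h]
  exact (Nat.even_mul_pred_self q).two_dvd

theorem interval (L : ℕ) (hL : 9 ≤ L) : (∃ t, Tf L = 2 * t) ∧
    ∀ k, 58 ≤ k → 2 * k ≤ Tf L → Rep L (ms L + 2 * k) := by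
  induction L, hL using Nat.le_induction with
  | base =>
    have hT : Tf 9 = 1000 := by simp [Tf]
    refine ⟨⟨500, by rw [hT]⟩, ?_⟩
    intro k hk1 hk2
    rw [hT] at hk2
    have hm : ms 9 = 100 := by
      unfold ms
      have : ∀ j ∈ range 9, Nat.nth Nat.Prime j = pr j := by
        intro j hj
        exact nth_pr j (by have := mem_range.1 hj; omega)
      rw [sum_congr rfl this]
      decide
    rw [hm]
    have := base9 (k - 58) (by omega)
    apply rep_of_bits 9 (by omega)
    rwa [show 216 + 2 * (k - 58) = 100 + 2 * k by omega] at this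
  | succ L hL ih =>
    obtain ⟨⟨t, ht⟩, ih⟩ := ih
    obtain ⟨u, hu⟩ := sq_sub_even (Nat.nth Nat.Prime L)
    have hT := Tf_succ L hL
    have hkey := key L hL
    have hms : ms (L+1) = ms L + Nat.nth Nat.Prime L := by
      unfold ms; rw [sum_range_succ]
    have hq : Nat.nth Nat.Prime L ≤ (Nat.nth Nat.Prime L)^2 :=
      Nat.le_self_pow (by norm_num) _
    refine ⟨⟨t + u, by omega⟩, ?_⟩
    intro k hk1 hk2
    by_cases h : 2 * k ≤ Tf L
    · refine ⟨ms L + 2 * k, 1, ih k hk1 h, le_rfl, ?_⟩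
      rw [hms]; ring
    · refine ⟨ms L + 2 * (k - u), 2, ih (k - u) (by omega) (by omega), by norm_num, ?_⟩
      rw [hms]
      omega

theorem parity (L : ℕ) (hL : 1 ≤ L) : (ms L + L) % 2 = 1 := by
  induction L, hL using Nat.le_induction with
  | base =>
    have : ms 1 = 2 := by
      unfold ms; simp [nth_pr 0 (by omega), pr]
    rw [this]
  | succ L hL ih =>
    have hms : ms (L+1) = ms L + Nat.nth Nat.Prime L := by
      unfold ms; rw [sum_range_succ]
    have := odd_nth L hL
    omega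

theorem ms_ge (L : ℕ) : L ≤ ms L := by
  induction L with
  | zero => simp
  | succ L ih =>
    have hms : ms (L+1) = ms L + Nat.nth Nat.Prime L := by
      unfold ms; rw [sum_range_succ]
    have := (Nat.prime_nth_prime L).one_lt
    omega

theorem nth_succ_le (L : ℕ) : Nat.nth Nat.Prime (L + 1) ≤ 2 * Nat.nth Nat.Prime L := by
  have hp := Nat.prime_nth_prime L
  obtain ⟨p, h1, h2, h3⟩ := Nat.exists_prime_lt_and_le_two_mul (Nat.nth Nat.Prime L) hp.ne_zero
  refine le_trans ?_ h3
  have h4 : Nat.nth Nat.Prime L < Nat.nth Nat.Prime (Nat.count Nat.Prime p) := by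
    rw [Nat.nth_count h1]; exact h2
  have h5 := (Nat.nth_lt_nth Nat.infinite_setOfPred_prime).1 h4
  calc Nat.nth Nat.Prime (L + 1) ≤ Nat.nth Nat.Prime (Nat.count Nat.Prime p) :=
        (Nat.nth_monotone Nat.infinite_setOfPred_prime) (by omega)
    _ = p := Nat.nth_count h1

theorem large (n : ℕ) (hn : 245 ≤ n) : ∃ L, 1 ≤ L ∧ Rep L n := by
  have hms10 : ms 10 = 129 := by
    unfold ms
    have : ∀ j ∈ range 10, Nat.nth Nat.Prime j = pr j := by
      intro j hj
      exact nth_pr j (by have := mem_range.1 hj; omega)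
    rw [sum_congr rfl this]
    decide
  have hex : ∃ K, n < ms K + 116 := ⟨n, by have := ms_ge n; omega⟩
  classical
  obtain ⟨K, hK, hmin⟩ : ∃ K, n < ms K + 116 ∧ ∀ m < K, ¬ (n < ms m + 116) :=
    ⟨Nat.find hex, Nat.find_spec hex, fun m hm => Nat.find_min hex hm⟩
  have hmono : ∀ a b, a ≤ b → ms a ≤ ms b := by
    intro a b hab
    unfold ms
    exact sum_le_sum_of_subset (range_subset_range.2 hab)
  have hK10 : 11 ≤ K := by
    by_contra h
    have := hmono K 10 (by omega)
    omega
  obtain ⟨J, rfl⟩ : ∃ J, K = J + 2 := ⟨K - 2, by omega⟩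
  have e1 : ms (J+2) = ms (J+1) + Nat.nth Nat.Prime (J+1) := by
    unfold ms; rw [sum_range_succ]
  have e2 : ms (J+1) = ms J + Nat.nth Nat.Prime J := by
    unfold ms; rw [sum_range_succ]
  have p1 := parity (J+1) (by omega)
  have p2 := parity J (by omega)
  have c1 := hmin (J+1) (by omega)
  have c2 := hmin J (by omega)
  by_cases hp : n % 2 = ms (J+1) % 2
  · refine ⟨J+1, by omega, ?_⟩
    have hkJ := key (J+1) (by omega)
    have hge := nth_ge (J+1) (by omega)
    have hq : 29 * Nat.nth Nat.Prime (J+1) ≤ (Nat.nth Nat.Prime (J+1))^2 := by nlinarith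
    have hi := (interval (J+1) (by omega)).2 ((n - ms (J+1)) / 2) (by omega) (by omega)
    rwa [show ms (J+1) + 2 * ((n - ms (J+1)) / 2) = n by omega] at hi
  · refine ⟨J, by omega, ?_⟩
    have hkJ := key J (by omega)
    have hge := nth_ge J (by omega)
    have hs := nth_succ_le J
    have hq : 29 * Nat.nth Nat.Prime J ≤ (Nat.nth Nat.Prime J)^2 := by nlinarith
    have hi := (interval J (by omega)).2 ((n - ms J) / 2) (by omega) (by omega)
    rwa [show ms J + 2 * ((n - ms J) / 2) = n by omega] at hi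

theorem all (n : ℕ) (hn : 34 ≤ n) : ∃ L, 1 ≤ L ∧ Rep L n := by
  by_cases h : 245 ≤ n
  · exact large n h
  · obtain ⟨L, hL, hb⟩ := small n (by omega) hn
    exact ⟨L+1, by omega, rep_of_bits (L+1) (by omega) n hb⟩

/-- same with five exponents for every prime -/
def bits' : ℕ → ℕ
| 0 => 1
| L+1 => stp (bits' L) (pr L) 5

theorem bits_of_rep (L : ℕ) (hL : L ≤ 6) (n : ℕ) (hn : n ≤ 33) (h : Rep L n) :
    (bits' L).testBit n = true := by
  induction L generalizing n with
  | zero =>
    have : n = 0 := h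
    subst this
    simp [bits']
  | succ L ih =>
    obtain ⟨m, a, h1, h2, h3⟩ := h
    rw [nth_pr L (by omega)] at h3
    have hpr : 2 ≤ pr L := by
      rw [← nth_pr L (by omega)]
      exact (Nat.prime_nth_prime L).two_le
    rw [bits', stp_testBit]
    refine ⟨m, a, ih (by omega) m (by omega) h1, h2, ?_, h3⟩
    by_contra h6
    have h7 : 2 ^ 6 ≤ pr L ^ a := by
      calc 2 ^ 6 ≤ 2 ^ a := Nat.pow_le_pow_right (by norm_num) (by omega)
        _ ≤ pr L ^ a := Nat.pow_le_pow_left hpr a
    omega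

theorem ms_le_of_rep (L n : ℕ) (h : Rep L n) : ms L ≤ n := by
  induction L generalizing n with
  | zero => simp [ms]
  | succ L ih =>
    obtain ⟨m, a, h1, h2, h3⟩ := h
    have hms : ms (L+1) = ms L + Nat.nth Nat.Prime L := by
      unfold ms; rw [sum_range_succ]
    have h4 := ih m h1
    have h5 : Nat.nth Nat.Prime L ≤ (Nat.nth Nat.Prime L) ^ a :=
      Nat.le_self_pow (by omega) _
    omega

theorem not_rep_33 (L : ℕ) : ¬ Rep L 33 := by
  intro h
  by_cases hL : L ≤ 5
  · have h1 := bits_of_rep L (by omega) 33 le_rfl h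
    have h2 : ∀ L ≤ 5, (bits' L).testBit 33 = false := by decide +kernel
    rw [h2 L hL] at h1
    cases h1
  · have h1 := ms_le_of_rep L 33 h
    have h2 : ms 6 ≤ ms L := by
      unfold ms
      exact sum_le_sum_of_subset (range_subset_range.2 (by omega))
    have h3 : ms 6 = 41 := by
      unfold ms
      have : ∀ j ∈ range 6, Nat.nth Nat.Prime j = pr j := by
        intro j hj
        exact nth_pr j (by have := mem_range.1 hj; omega)
      rw [sum_congr rfl this]
      decide
    omega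

end Pool.Agent.Q55.PrimePowSum
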