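import Pool.Agent.Q55.Rom
import Pool.Agent.TH685.TI.FSmall
import Pool.Agent.TH685.TI.BtU

set_option autoImplicit false

/-! # Sums of the elements of two arbitrary sets of primes, one of them consisting of very small primes -/

namespace Pool.Agent.Q55.Rom

open Finset Filter Pool.Agent.H197R2.PG
open Pool.Agent.TH685.FAvg (ev_L ev_x avg_diff)

/-- the singular factor over the differences of primes -/
theorem avg_primes : ∃ C : ℝ, 1 ≤ C ∧ ∀ (M : ℕ) (S : Finset ℕ), 2 ≤ M → (∀ p ∈ S, p.Prime ∧ p ≤ M) →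
    ∑ z ∈ S.offDiag, gg (2 * Nat.dist z.1 z.2) ≤ C * (M / Real.log M) ^ 2 := by
  obtain ⟨C, hC, h⟩ := avg_diff
  refine ⟨3 / 2 * C, by linarith, fun M S hM hS => ?_⟩
  have h1 := h M S hM hS
  have h2 : ∀ z ∈ S.offDiag, gg (2 * Nat.dist z.1 z.2) ≤ 3 / 2 * gg (Nat.dist z.1 z.2) ^ 2 := by
    intro z hz
    rw [mem_offDiag] at hz
    have hd : 0 < Nat.dist z.1 z.2 := Nat.dist_pos_of_ne hz.2.2
    have h3 := gg_two_mul_le _ hd
    have h4 := one_le_gg (Nat.dist z.1 z.2)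
    nlinarith
  refine (Finset.sum_le_sum h2).trans ?_
  rw [← Finset.mul_sum, mul_assoc]
  linarith

/-- primes of an arbitrary set `S ⊆ [1, M]` plus primes of an arbitrary set `P` -/
theorem two_primes : ∃ C : ℝ, 1 ≤ C ∧ ∃ X₀ : ℕ, ∀ (x M : ℕ) (S P : Finset ℕ), X₀ ≤ x → 2 ≤ M →
    2 * (M : ℝ) ≤ (x : ℝ) ^ (1 / 16 : ℝ) → (∀ p ∈ S, p.Prime ∧ 3 ≤ p ∧ p ≤ M) → P ⊆ QQ x →
    ((#S : ℝ) * #P) ^ 2 ≤ #(RP S P x) *
      ((#S : ℝ) * #P + C * (M / Real.log M) ^ 2 * x / Real.log x ^ 2) := by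
  classical
  obtain ⟨C1, hC1, hsq⟩ := avg_primes
  obtain ⟨C2, hC2, u0, hsm⟩ := second_moment
  refine ⟨C2 * C1, by nlinarith, u0, fun x M S P hx hM2 hM hS hP => ?_⟩
  have hmain := hsm x M S P hx hM (fun p hp => by
      obtain ⟨h1, h2, h3⟩ := hS p hp
      exact mem_Icc.2 ⟨by omega, h3⟩) (fun p hp => by
      obtain ⟨h1, h2, h3⟩ := hS p hp
      refine ⟨h2, ?_⟩
      rcases h1.eq_two_or_odd with h | h
      · omega
      · exact h) hP
  have havg := hsq M S hM2 (fun p hp => ⟨(hS p hp).1, (hS p hp).2.2⟩)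
  refine hmain.trans ?_
  apply mul_le_mul_of_nonneg_left _ (Nat.cast_nonneg _)
  have h1 : C2 * (∑ z ∈ S.offDiag, gg (2 * Nat.dist z.1 z.2)) * x / Real.log x ^ 2 ≤
      C2 * C1 * (M / Real.log M) ^ 2 * x / Real.log x ^ 2 := by
    have h2 : C2 * (∑ z ∈ S.offDiag, gg (2 * Nat.dist z.1 z.2)) ≤ C2 * C1 * (M / Real.log M) ^ 2 := by
      calc C2 * (∑ z ∈ S.offDiag, gg (2 * Nat.dist z.1 z.2)) ≤ C2 * (C1 * (M / Real.log M) ^ 2) :=
            mul_le_mul_of_nonneg_left havg (by linarith)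
        _ = _ := by ring
    gcongr
  linarith

/-- **A positive proportion** of the even numbers are sums of a prime of a given dense set and a very small
prime of a given set. -/
theorem primes_small (α β δ : ℝ) (hα : 0 < α) (hβ : 0 < β) (hδ : 0 < δ) : ∃ c : ℝ, 0 < c ∧
    ∀ᶠ x : ℕ in atTop, ∀ Q : Finset ℕ,
      (∀ q ∈ Q, q.Prime ∧ (q : ℝ) ≤ δ * (Real.log x * Real.log (Real.log x))) →
      β * Real.log x ≤ #Q → ∀ P : Finset ℕ, (∀ p ∈ P, p.Prime ∧ p ≤ x) → α * (x / Real.log x) ≤ #P →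
        c * x ≤ #(RP Q P x) := by
  classical
  obtain ⟨C, hC, X₀, h⟩ := two_primes
  obtain ⟨a, ha⟩ : ∃ a : ℝ, a = α * β / 4 := ⟨_, rfl⟩
  have ha0 : 0 < a := by rw [ha]; positivity
  have hlogt : Tendsto (fun x : ℕ => Real.log (x : ℝ)) atTop atTop :=
    Real.tendsto_log_atTop.comp tendsto_natCast_atTop_atTop
  have hxl : ∀ᶠ x : ℕ in atTop, 2 / α * Real.log x ≤ (x : ℝ) := by
    have h1 := Real.isLittleO_log_id_atTop.bound (show (0 : ℝ) < 1 / (2 / α) by positivity)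
    have h2 := (tendsto_natCast_atTop_atTop (R := ℝ)).eventually h1
    filter_upwards [h2, eventually_ge_atTop 1] with x hx hx1
    have hx1r : (1 : ℝ) ≤ x := by exact_mod_cast hx1
    simp only [id] at hx
    rw [Real.norm_of_nonneg (Real.log_nonneg hx1r), Real.norm_of_nonneg (by linarith), one_div,
      inv_mul_eq_div, le_div_iff₀ (by positivity)] at hx
    linarith
  refine ⟨a / (1 + C * (2 * δ) ^ 2 / a), by positivity, ?_⟩
  filter_upwards [hlogt.eventually (ev_L δ 2 hδ), hlogt.eventually (ev_x 1),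
    hlogt.eventually_ge_atTop (max 1 (2 / β)), hxl, eventually_ge_atTop X₀, eventually_ge_atTop 3] with
    x hL5 hx16 hL hxl hxX hx3 Q hQ hQc P hP hPc
  obtain ⟨-, hL16, hL2', hLsq, hLs, -⟩ := hL5
  have hx0 : (0 : ℝ) < x := by exact_mod_cast (by omega : 0 < x)
  have hexpL : Real.exp (Real.log (x : ℝ) / 16) = (x : ℝ) ^ (1 / 16 : ℝ) := by
    rw [Real.rpow_def_of_pos hx0]
    congr 1
    ring
  rw [hexpL] at hx16
  obtain ⟨L, hLd⟩ : ∃ L : ℝ, L = Real.log x := ⟨_, rfl⟩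
  rw [← hLd] at hL hxl hQc hPc hL16 hL2' hLsq hLs hx16
  have hL1 : 1 ≤ L := (le_max_left _ _).trans hL
  have hL2 : 2 / β ≤ L := (le_max_right _ _).trans hL
  rw [div_le_iff₀ hβ] at hL2
  have hl1 : 1 ≤ Real.log L := by
    rw [Real.le_log_iff_exp_le (by linarith)]
    have := Real.exp_one_lt_d9
    linarith
  obtain ⟨W, hW⟩ : ∃ W : ℝ, W = δ * (L * Real.log L) := ⟨_, rfl⟩
  rw [← hW] at hL2' hLsq hLs
  obtain ⟨M, hM⟩ : ∃ M : ℕ, M = ⌊W⌋₊ := ⟨_, rfl⟩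
  have hMle : (M : ℝ) ≤ W := by rw [hM]; exact Nat.floor_le (by linarith)
  have hM2 : 2 ≤ M := by rw [hM]; exact Nat.le_floor (by exact_mod_cast hL2')
  have hMr : (2 : ℝ) ≤ M := by exact_mod_cast hM2
  have hMge : W - 1 ≤ M := by
    have := Nat.lt_floor_add_one W
    rw [← hM] at this
    linarith
  have hMhalf : W / 2 ≤ M := by linarith
  have hlM2 : Real.log L / 2 ≤ Real.log M := by
    rw [← Real.log_sqrt (by linarith)]
    exact Real.log_le_log (Real.sqrt_pos.2 (by linarith)) (hLs.trans hMhalf)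
  have hlMpos : 0 < Real.log M := by linarith
  have hML2 : M / Real.log M ≤ 2 * δ * L := by
    rw [div_le_iff₀ hlMpos]
    calc (M : ℝ) ≤ W := hMle
      _ = 2 * δ * L * (Real.log L / 2) := by rw [hW]; ring
      _ ≤ 2 * δ * L * Real.log M := by gcongr
  have hM16 : 2 * (M : ℝ) ≤ (x : ℝ) ^ (1 / 16 : ℝ) := by
    refine le_trans ?_ hx16
    have h1 : (M : ℝ) ≤ L ^ 2 := hMle.trans hLsq
    have h2 : (1 : ℝ) ≤ L ^ 2 + 1 := by nlinarith
    push_cast
    nlinarith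
  have h1 := h x M (Q.erase 2) (P.erase 2) hxX hM2 hM16 (fun q hq => by
    rw [mem_erase] at hq
    obtain ⟨h2, h3⟩ := hQ q hq.2
    have h4 := h2.two_le
    refine ⟨h2, by omega, ?_⟩
    rw [hM]
    apply Nat.le_floor
    rw [hW, hLd]
    exact h3) (fun p hp => by
    rw [mem_erase] at hp
    obtain ⟨h2, h3⟩ := hP p hp.2
    unfold QQ
    rw [mem_filter, mem_Ioc]
    have := h2.two_le
    exact ⟨by omega, h2⟩)
  have hsub : (#(RP (Q.erase 2) (P.erase 2) x) : ℝ) ≤ #(RP Q P x) := by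
    apply Nat.cast_le.2
    apply card_le_card
    intro n hn
    unfold RP at hn ⊢
    rw [mem_filter] at hn ⊢
    obtain ⟨h2, p, hp, m, hm, h3⟩ := hn
    exact ⟨h2, p, mem_of_mem_erase hp, m, mem_of_mem_erase hm, h3⟩
  have hcS : β * L / 2 ≤ (#(Q.erase 2) : ℝ) := by
    have h2 := Finset.pred_card_le_card_erase (s := Q) (a := 2)
    have h3 : (#Q : ℝ) ≤ #(Q.erase 2) + 1 := by
      have : #Q ≤ #(Q.erase 2) + 1 := by omega
      exact_mod_cast this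
    nlinarith
  have hcP : α * (x / L) / 2 ≤ (#(P.erase 2) : ℝ) := by
    have h2 := Finset.pred_card_le_card_erase (s := P) (a := 2)
    have h3 : (#P : ℝ) ≤ #(P.erase 2) + 1 := by
      have : #P ≤ #(P.erase 2) + 1 := by omega
      exact_mod_cast this
    have h4 : 1 ≤ α * (x / L) / 2 := by
      rw [le_div_iff₀ (by norm_num), ← mul_div_assoc, le_div_iff₀ (by linarith)]
      have h5 : 2 / α * L * α ≤ x * α := mul_le_mul_of_nonneg_right hxl hα.le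
      have h6 : 2 / α * L * α = 2 * L := by field_simp
      linarith
    linarith
  obtain ⟨T, hT⟩ : ∃ T : ℝ, T = (#(Q.erase 2) : ℝ) * #(P.erase 2) := ⟨_, rfl⟩
  rw [← hT, ← hLd] at h1
  have hTa : a * x ≤ T := by
    rw [hT, ha]
    calc α * β / 4 * x = (β * L / 2) * (α * (x / L) / 2) := by
          field_simp
          norm_num
      _ ≤ _ := mul_le_mul hcS hcP (by positivity) (Nat.cast_nonneg _)
  have hT0 : 0 < T := lt_of_lt_of_le (by positivity) hTa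
  have h2 : C * (M / Real.log M) ^ 2 * x / L ^ 2 ≤ T * (C * (2 * δ) ^ 2 / a) := by
    have h3 : ((M : ℝ) / Real.log M) ^ 2 ≤ (2 * δ * L) ^ 2 := pow_le_pow_left₀ (by positivity) hML2 2
    calc C * (M / Real.log M) ^ 2 * x / L ^ 2 ≤ C * (2 * δ * L) ^ 2 * x / L ^ 2 := by gcongr
      _ = C * (2 * δ) ^ 2 * x := by field_simp
      _ = (a * x) * (C * (2 * δ) ^ 2 / a) := by field_simp
      _ ≤ T * (C * (2 * δ) ^ 2 / a) := mul_le_mul_of_nonneg_right hTa (by positivity)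
  have h3 : T * T ≤ T * (#(RP (Q.erase 2) (P.erase 2) x) * (1 + C * (2 * δ) ^ 2 / a)) := by
    calc T * T = T ^ 2 := by ring
      _ ≤ _ := h1
      _ ≤ #(RP (Q.erase 2) (P.erase 2) x) * (T + T * (C * (2 * δ) ^ 2 / a)) := by gcongr
      _ = _ := by ring
  have h4 := le_of_mul_le_mul_left h3 hT0
  have h5 : 0 < 1 + C * (2 * δ) ^ 2 / a := by positivity
  rw [div_mul_eq_mul_div, div_le_iff₀ h5]
  calc a * x ≤ T := hTa
    _ ≤ _ := h4
    _ ≤ #(RP Q P x) * (1 + C * (2 * δ) ^ 2 / a) := mul_le_mul_of_nonneg_right hsub h5.le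

/-- **Few even numbers in any interval have a Goldbach representation with a very small prime.** -/
theorem few_small (ε : ℝ) (hε : 0 < ε) : ∃ c : ℝ, 0 < c ∧ ∀ᶠ X : ℕ in atTop, ∀ Y : ℕ,
    (Set.ncard {n : ℕ | Y < n ∧ n ≤ Y + X ∧ ∃ p q : ℕ, p.Prime ∧ q.Prime ∧ q + p = 2 * n ∧
      (p : ℝ) ≤ c * (Real.log X * Real.log (Real.log X))} : ℝ) ≤ ε * X := by
  classical
  obtain ⟨C, hC, hcov⟩ := Pool.Agent.TH685.Gen.cover_bt
  obtain ⟨R, hRd⟩ : ∃ R : ℝ, R = ε / (2 * C) := ⟨_, rfl⟩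
  have hR : 0 < R := by rw [hRd]; positivity
  obtain ⟨c₁, hc₁, X₁, hbig⟩ := Pool.Agent.TH685.Gen.prime_big R hR
  have hlogt : Tendsto (fun x : ℕ => Real.log (x : ℝ)) atTop atTop :=
    Real.tendsto_log_atTop.comp tendsto_natCast_atTop_atTop
  refine ⟨c₁, hc₁, ?_⟩
  filter_upwards [hlogt.eventually_ge_atTop (1 / R), eventually_ge_atTop 3, eventually_ge_atTop X₁] with
    X h1 hX3 hXX Y
  have hb := hbig X hXX
  obtain ⟨L, hL⟩ : ∃ L : ℝ, L = Real.log X := ⟨_, rfl⟩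
  rw [← hL] at h1 hb ⊢
  have hXr : (3 : ℝ) ≤ X := by exact_mod_cast hX3
  have hLpos : 0 < L := by rw [hL]; exact Real.log_pos (by linarith)
  rw [div_le_iff₀ hR] at h1
  obtain ⟨N, hN⟩ : ∃ N : ℕ, N = ⌊c₁ * (L * Real.log L)⌋₊ + 1 := ⟨_, rfl⟩
  obtain ⟨S, hSc, hS⟩ := Pool.Agent.TH685.Gen.first_card (fun j => j.Prime) (R * L) (by positivity) N
  obtain ⟨B, hBc, hB⟩ := hcov X hX3 Y S
  rw [← hL] at hBc
  have hsub : {n : ℕ | Y < n ∧ n ≤ Y + X ∧ ∃ p q : ℕ, p.Prime ∧ q.Prime ∧ q + p = 2 * n ∧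
      (p : ℝ) ≤ c₁ * (L * Real.log L)} ⊆ (B : Set ℕ) := by
    rintro n ⟨hn1, hn2, p, q, hp, hq, hpq, hpL⟩
    by_contra hnB
    have h3 : p < N := by
      rw [hN]
      have := Nat.le_floor hpL
      omega
    have hpS : p ∉ S := hB n hn1 hn2 hnB p q hq hpq
    have h4 := hb p (hS p h3 hp.one_lt.le hp hpS)
    linarith
  have h5 := Set.ncard_le_ncard hsub (Finset.finite_toSet B)
  rw [Set.ncard_coe_finset] at h5
  have h6 : (S.card : ℝ) ≤ 2 * (R * L) := by linarith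
  calc (Set.ncard {n : ℕ | Y < n ∧ n ≤ Y + X ∧ ∃ p q : ℕ, p.Prime ∧ q.Prime ∧ q + p = 2 * n ∧
      (p : ℝ) ≤ c₁ * (L * Real.log L)} : ℝ) ≤ B.card := by exact_mod_cast h5
    _ ≤ C * (S.card * (X / L)) := hBc
    _ ≤ C * (2 * (R * L) * (X / L)) := by gcongr
    _ = (2 * C * R) * X := by field_simp
    _ = ε * X := by rw [hRd]; field_simp

end Pool.Agent.Q55.Rom
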