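import Pool.Agent.Q55.Rom

set_option autoImplicit false

/-! # Odd numbers `p + f m` with `m` small, `f m = 2 m ^ 2` or `f m = m (m + 1)`, from arbitrary dense sets -/

namespace Pool.Agent.Q55.RomOdd

open Finset Filter Pool.Agent.H197R2.PG

/-- the `n` in `[1, x]` such that `2 n = p + F m` for some `p` in `P` and some `m` in `S` -/
noncomputable def sm (F : ℕ → ℕ) (P S : Finset ℕ) (x : ℕ) : Finset ℕ := by
  classical
  exact (Icc 1 x).filter (fun n => ∃ p ∈ P, ∃ m ∈ S, 2 * n = p + F m)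

lemma gg_two (k d : ℕ) (hd : 0 < d) : gg (2 ^ k * (2 * d)) = gg (2 * d) := by
  unfold gg
  congr 1
  rw [Nat.primeFactors_mul (by positivity) (by positivity),
    Nat.primeFactors_mul (by norm_num) (by positivity)]
  rcases Nat.eq_zero_or_pos k with rfl | hk
  · simp
  · rw [Nat.primeFactors_prime_pow hk.ne' Nat.prime_two, Nat.prime_two.primeFactors]
    ext p
    simp only [mem_union]
    tauto

/-- transfer of the average over differences -/
lemma avg (F h : ℕ → ℕ) (k j : ℕ) (C1 : ℝ) (M M' : ℕ) (S : Finset ℕ)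
    (hF : Set.InjOn F S) (hh : Set.InjOn h S)
    (hFh : ∀ m ∈ S, ∀ m' ∈ S, m ≠ m' → 2 ^ k * Nat.dist (F m) (F m') = 2 ^ j * Nat.dist (h m ^ 2) (h m' ^ 2))
    (hM : ∀ m ∈ S, h m ∈ Icc 1 M')
    (hsq : ∀ S : Finset ℕ, S ⊆ Icc 1 M' →
      ∑ z ∈ (S.image (fun m => m ^ 2)).offDiag, gg (2 * Nat.dist z.1 z.2) ≤ C1 * (M' : ℝ) ^ 2) :
    ∑ z ∈ (S.image F).offDiag, gg (2 * Nat.dist z.1 z.2) ≤ C1 * (M' : ℝ) ^ 2 := by
  classical
  have key : ∀ G : ℕ → ℕ, Set.InjOn G S →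
      ∑ z ∈ (S.image G).offDiag, gg (2 * Nat.dist z.1 z.2) =
        ∑ z ∈ S.offDiag, gg (2 * Nat.dist (G z.1) (G z.2)) := by
    intro G hG
    symm
    refine Finset.sum_bij (fun z _ => (G z.1, G z.2)) ?_ ?_ ?_ ?_
    · intro z hz
      rw [mem_offDiag] at hz ⊢
      exact ⟨mem_image_of_mem _ hz.1, mem_image_of_mem _ hz.2.1,
        fun e => hz.2.2 (hG hz.1 hz.2.1 e)⟩
    · intro z hz w hw e
      rw [mem_offDiag] at hz hw
      have e1 := congrArg Prod.fst e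
      have e2 := congrArg Prod.snd e
      exact Prod.ext (hG hz.1 hw.1 e1) (hG hz.2.1 hw.2.1 e2)
    · intro z hz
      rw [mem_offDiag] at hz
      obtain ⟨a, ha, ha'⟩ := mem_image.1 hz.1
      obtain ⟨b, hb, hb'⟩ := mem_image.1 hz.2.1
      refine ⟨(a, b), ?_, ?_⟩
      · rw [mem_offDiag]
        refine ⟨ha, hb, ?_⟩
        intro e
        have e' : a = b := e
        exact hz.2.2 (ha'.symm.trans ((congrArg G e').trans hb'))
      · exact Prod.ext ha' hb'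
    · intro z _
      rfl
  have h2 : Set.InjOn (fun m => h m ^ 2) S := by
    intro a ha b hb hab
    exact hh ha hb (Nat.pow_left_injective (n := 2) (by norm_num) hab)
  have h3 := hsq (S.image h) (by
    intro a ha
    obtain ⟨m, hm, rfl⟩ := mem_image.1 ha
    exact hM m hm)
  rw [image_image] at h3
  have h4 : S.image ((fun m => m ^ 2) ∘ h) = S.image (fun m => h m ^ 2) := rfl
  rw [h4, key _ h2] at h3
  rw [key F hF]
  refine le_trans (le_of_eq ?_) h3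
  apply Finset.sum_congr rfl
  intro z hz
  rw [mem_offDiag] at hz
  have e := hFh z.1 hz.1 z.2 hz.2.1 hz.2.2
  have p1 : 0 < Nat.dist (F z.1) (F z.2) :=
    Nat.dist_pos_of_ne (fun e => hz.2.2 (hF hz.1 hz.2.1 e))
  have p2 : 0 < Nat.dist (h z.1 ^ 2) (h z.2 ^ 2) :=
    Nat.dist_pos_of_ne (fun e => hz.2.2 (h2 hz.1 hz.2.1 e))
  rw [← gg_two k _ p1, ← gg_two j _ p2]
  congr 1
  calc 2 ^ k * (2 * Nat.dist (F z.1) (F z.2)) = 2 * (2 ^ k * Nat.dist (F z.1) (F z.2)) := by ring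
    _ = 2 * (2 ^ j * Nat.dist (h z.1 ^ 2) (h z.2 ^ 2)) := by rw [e]
    _ = _ := by ring

lemma ev_pow : ∀ᶠ x : ℕ in atTop, ∀ M : ℕ, (M : ℝ) ≤ (x : ℝ) ^ (1 / 40 : ℝ) →
    8 * (M : ℝ) ^ 2 ≤ (x : ℝ) ^ (1 / 16 : ℝ) := by
  have h1 : Tendsto (fun x : ℕ => (x : ℝ) ^ (1 / 80 : ℝ)) atTop atTop :=
    (tendsto_rpow_atTop (by norm_num)).comp tendsto_natCast_atTop_atTop
  filter_upwards [h1.eventually_ge_atTop 8, eventually_ge_atTop 1] with x hx hx1 M hM
  have hx0 : (0 : ℝ) < x := by exact_mod_cast (by omega : 0 < x)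
  have h2 : (M : ℝ) ^ 2 ≤ ((x : ℝ) ^ (1 / 40 : ℝ)) ^ 2 := pow_le_pow_left₀ (Nat.cast_nonneg _) hM 2
  have h3 : ((x : ℝ) ^ (1 / 40 : ℝ)) ^ 2 = (x : ℝ) ^ (1 / 20 : ℝ) := by
    rw [← Real.rpow_natCast, ← Real.rpow_mul hx0.le]
    norm_num
  have h4 : (x : ℝ) ^ (1 / 16 : ℝ) = (x : ℝ) ^ (1 / 80 : ℝ) * (x : ℝ) ^ (1 / 20 : ℝ) := by
    rw [← Real.rpow_add hx0]
    norm_num
  rw [h3] at h2
  rw [h4]
  exact mul_le_mul hx h2 (sq_nonneg _) (by positivity)

lemma ev_log (δ : ℝ) : ∀ᶠ x : ℕ in atTop, δ * Real.log x ≤ (x : ℝ) ^ (1 / 40 : ℝ) := by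
  have h1 := (isLittleO_log_rpow_atTop (r := 1 / 40) (by norm_num)).bound
    (show (0 : ℝ) < 1 / (|δ| + 1) by positivity)
  have h2 := (tendsto_natCast_atTop_atTop (R := ℝ)).eventually h1
  filter_upwards [h2, eventually_ge_atTop 1] with x hx hx1
  have hx1r : (1 : ℝ) ≤ x := by exact_mod_cast hx1
  have hl := Real.log_nonneg hx1r
  rw [Real.norm_of_nonneg hl, Real.norm_of_nonneg (by positivity), one_div, inv_mul_eq_div,
    le_div_iff₀ (by positivity)] at hx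
  have h3 : δ * Real.log x ≤ (|δ| + 1) * Real.log x := by
    apply mul_le_mul_of_nonneg_right _ hl
    have := le_abs_self δ
    linarith
  linarith

theorem gen (F h : ℕ → ℕ) (k j : ℕ) (hF : Function.Injective F) (hh : Function.Injective h)
    (hFh : ∀ m m' : ℕ, 2 ^ k * Nat.dist (F m) (F m') = 2 ^ j * Nat.dist (h m ^ 2) (h m' ^ 2))
    (hh1 : ∀ m, 1 ≤ m → 1 ≤ h m ∧ h m ≤ 3 * m)
    (hodd : ∀ m, 1 ≤ m → 3 ≤ F m ∧ F m % 2 = 1 ∧ F m ≤ 4 * m ^ 2) :
    (∃ C : ℝ, 0 < C ∧ ∀ᶠ x : ℕ in atTop, ∀ M : ℕ, (M : ℝ) ≤ (x : ℝ) ^ (1 / 40 : ℝ) →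
      ∀ S ⊆ Icc 1 M, ∀ P ⊆ Icc 3 x, (∀ p ∈ P, p.Prime) →
        ((P.card : ℝ) * S.card) ^ 2 ≤
          (sm F P S x).card * ((P.card : ℝ) * S.card + C * ((M : ℝ) ^ 2 * x / Real.log x ^ 2))) ∧
    ∀ α β δ : ℝ, 0 < α → 0 < β → 0 < δ → ∃ c : ℝ, 0 < c ∧ ∀ᶠ x : ℕ in atTop,
      ∀ S : Finset ℕ, (∀ m ∈ S, 1 ≤ m ∧ (m : ℝ) ≤ δ * Real.log x) → β * Real.log x ≤ S.card →
      ∀ P : Finset ℕ, (∀ p ∈ P, p.Prime ∧ p ≤ x) → α * (x / Real.log x) ≤ P.card →
        c * x ≤ (sm F P S x).card := by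
  classical
  obtain ⟨C1, hC1, hsq⟩ := Pool.Agent.TH685.Sq.sq_avg
  obtain ⟨C2, hC2, X₀, hsm⟩ := Pool.Agent.Q55.Rom.second_moment
  obtain ⟨C, hCd⟩ : ∃ C : ℝ, C = C2 * C1 * 9 := ⟨_, rfl⟩
  have hC : 0 < C := by rw [hCd]; positivity
  have key : ∀ᶠ x : ℕ in atTop, ∀ M : ℕ, (M : ℝ) ≤ (x : ℝ) ^ (1 / 40 : ℝ) →
      ∀ S ⊆ Icc 1 M, ∀ P ⊆ Icc 3 x, (∀ p ∈ P, p.Prime) →
        ((P.card : ℝ) * S.card) ^ 2 ≤
          (sm F P S x).card * ((P.card : ℝ) * S.card + C * ((M : ℝ) ^ 2 * x / Real.log x ^ 2)) := by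
    filter_upwards [ev_pow, eventually_ge_atTop X₀] with x hx hxX M hM S hS P hP hPp
    have hcard : (S.image F).card = S.card := card_image_of_injective _ hF
    have h1 := hsm x (4 * M ^ 2) (S.image F) P hxX (by push_cast; linarith [hx M hM])
      (by
        intro a ha
        obtain ⟨m, hm, rfl⟩ := mem_image.1 ha
        have hm' := mem_Icc.1 (hS hm)
        obtain ⟨o1, o2, o3⟩ := hodd m hm'.1
        rw [mem_Icc]
        refine ⟨by omega, o3.trans ?_⟩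
        have := Nat.pow_le_pow_left hm'.2 2
        omega)
      (by
        intro a ha
        obtain ⟨m, hm, rfl⟩ := mem_image.1 ha
        have hm' := mem_Icc.1 (hS hm)
        obtain ⟨o1, o2, o3⟩ := hodd m hm'.1
        exact ⟨o1, o2⟩)
      (fun p hp => by
        have := mem_Icc.1 (hP hp)
        unfold Pool.Agent.H197R2.PG.QQ
        rw [mem_filter, mem_Ioc]
        exact ⟨⟨by omega, this.2⟩, hPp p hp⟩)
    have h2 : (Pool.Agent.Q55.Rom.RP (S.image F) P x).card ≤ (sm F P S x).card := by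
      apply card_le_card
      intro n hn
      unfold Pool.Agent.Q55.Rom.RP at hn
      unfold sm
      rw [mem_filter] at hn ⊢
      obtain ⟨h3, a, ha, q, hq, haq⟩ := hn
      obtain ⟨m, hm, rfl⟩ := mem_image.1 ha
      exact ⟨h3, q, hq, m, hm, by omega⟩
    have h3 : ((Pool.Agent.Q55.Rom.RP (S.image F) P x).card : ℝ) ≤ (sm F P S x).card := by
      exact_mod_cast h2
    have h4 := avg F h k j C1 M (3 * M) S hF.injOn hh.injOn (fun m _ m' _ _ => hFh m m')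
      (by
        intro m hm
        have hm' := mem_Icc.1 (hS hm)
        have := hh1 m hm'.1
        rw [mem_Icc]
        omega) (hsq (3 * M))
    rw [hcard] at h1
    have h5 : C2 * (∑ z ∈ (S.image F).offDiag, gg (2 * Nat.dist z.1 z.2)) * x / Real.log x ^ 2 ≤
        C * ((M : ℝ) ^ 2 * x / Real.log x ^ 2) := by
      have h6 : C2 * (∑ z ∈ (S.image F).offDiag, gg (2 * Nat.dist z.1 z.2)) ≤ C * (M : ℝ) ^ 2 := by
        calc C2 * (∑ z ∈ (S.image F).offDiag, gg (2 * Nat.dist z.1 z.2)) ≤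
              C2 * (C1 * ((3 * M : ℕ) : ℝ) ^ 2) := mul_le_mul_of_nonneg_left h4 (by linarith)
          _ = _ := by rw [hCd]; push_cast; ring
      calc _ ≤ C * (M : ℝ) ^ 2 * x / Real.log x ^ 2 := by gcongr
        _ = _ := by ring
    calc ((P.card : ℝ) * S.card) ^ 2 = ((S.card : ℝ) * P.card) ^ 2 := by ring
      _ ≤ _ := h1
      _ ≤ (sm F P S x).card * ((S.card : ℝ) * P.card + C * ((M : ℝ) ^ 2 * x / Real.log x ^ 2)) := by
        apply mul_le_mul h3 _ _ (Nat.cast_nonneg _)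
        · linarith
        · have : 0 ≤ ∑ z ∈ (S.image F).offDiag, gg (2 * Nat.dist z.1 z.2) :=
            Finset.sum_nonneg fun z _ => by
              have := one_le_gg (2 * Nat.dist z.1 z.2)
              linarith
          have hC20 : 0 ≤ C2 := by linarith
          positivity
      _ = _ := by ring
  refine ⟨⟨C, hC, key⟩, fun α β δ hα hβ hδ => ?_⟩
  obtain ⟨a, ha⟩ : ∃ a : ℝ, a = α * β / 2 := ⟨_, rfl⟩
  have ha0 : 0 < a := by rw [ha]; positivity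
  have hlogt : Tendsto (fun x : ℕ => Real.log (x : ℝ)) atTop atTop :=
    Real.tendsto_log_atTop.comp tendsto_natCast_atTop_atTop
  have hxl : ∀ᶠ x : ℕ in atTop, 2 / α * Real.log x ≤ (x : ℝ) := by
    filter_upwards [ev_log (2 / α), eventually_ge_atTop 1] with x hx hx1
    refine hx.trans ?_
    have hx1r : (1 : ℝ) ≤ x := by exact_mod_cast hx1
    calc (x : ℝ) ^ (1 / 40 : ℝ) ≤ (x : ℝ) ^ (1 : ℝ) := Real.rpow_le_rpow_of_exponent_le hx1r (by norm_num)
      _ = x := Real.rpow_one _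
  refine ⟨a / (1 + C * δ ^ 2 / a), by positivity, ?_⟩
  filter_upwards [key, ev_log δ, hlogt.eventually_ge_atTop 1, hxl, eventually_ge_atTop 3] with
    x hkey hlog hL hxl hx3 S hS hSc P hP hPc
  obtain ⟨L, hLd⟩ : ∃ L : ℝ, L = Real.log x := ⟨_, rfl⟩
  rw [← hLd] at hlog hL hxl hSc hPc
  have hL1 : 1 ≤ L := hL
  have hx0 : (0 : ℝ) < x := by exact_mod_cast (by omega : 0 < x)
  obtain ⟨M, hM⟩ : ∃ M : ℕ, M = ⌊δ * L⌋₊ := ⟨_, rfl⟩
  have hMle : (M : ℝ) ≤ δ * L := by rw [hM]; exact Nat.floor_le (by positivity)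
  have h1 := hkey M (hMle.trans hlog) S (fun m hm => by
    have h2 := hS m hm
    rw [mem_Icc]
    refine ⟨h2.1, ?_⟩
    rw [hM]
    exact Nat.le_floor (by rw [hLd]; exact h2.2))
    (P.erase 2) (fun p hp => by
      rw [mem_erase] at hp
      obtain ⟨h2, h3⟩ := hP p hp.2
      rw [mem_Icc]
      have := h2.two_le
      exact ⟨by omega, h3⟩) (fun p hp => (hP p (mem_of_mem_erase hp)).1)
  have hsub : ((sm F (P.erase 2) S x).card : ℝ) ≤ (sm F P S x).card := by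
    apply Nat.cast_le.2
    apply card_le_card
    intro n hn
    unfold sm at hn ⊢
    rw [mem_filter] at hn ⊢
    obtain ⟨h2, p, hp, m, hm, h3⟩ := hn
    exact ⟨h2, p, mem_of_mem_erase hp, m, hm, h3⟩
  have hcP : α * (x / L) / 2 ≤ ((P.erase 2).card : ℝ) := by
    have h2 := Finset.pred_card_le_card_erase (s := P) (a := 2)
    have h3 : (P.card : ℝ) ≤ (P.erase 2).card + 1 := by
      have : P.card ≤ (P.erase 2).card + 1 := by omega
      exact_mod_cast this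
    have h4 : 1 ≤ α * (x / L) / 2 := by
      rw [le_div_iff₀ (by norm_num), ← mul_div_assoc, le_div_iff₀ (by linarith)]
      have h5 : 2 / α * L * α ≤ x * α := mul_le_mul_of_nonneg_right hxl hα.le
      have h6 : 2 / α * L * α = 2 * L := by field_simp
      linarith
    linarith
  obtain ⟨T, hT⟩ : ∃ T : ℝ, T = ((P.erase 2).card : ℝ) * S.card := ⟨_, rfl⟩
  rw [← hT, ← hLd] at h1
  have hTa : a * x ≤ T := by
    rw [hT, ha]
    calc α * β / 2 * x = (α * (x / L) / 2) * (β * L) := by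
          field_simp
      _ ≤ _ := mul_le_mul hcP hSc (by positivity) (Nat.cast_nonneg _)
  have hT0 : 0 < T := lt_of_lt_of_le (by positivity) hTa
  have h2 : C * ((M : ℝ) ^ 2 * x / L ^ 2) ≤ T * (C * δ ^ 2 / a) := by
    have h3 : (M : ℝ) ^ 2 ≤ (δ * L) ^ 2 := pow_le_pow_left₀ (Nat.cast_nonneg M) hMle 2
    calc C * ((M : ℝ) ^ 2 * x / L ^ 2) ≤ C * ((δ * L) ^ 2 * x / L ^ 2) := by gcongr
      _ = C * δ ^ 2 * x := by field_simp
      _ = (a * x) * (C * δ ^ 2 / a) := by field_simp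
      _ ≤ T * (C * δ ^ 2 / a) := mul_le_mul_of_nonneg_right hTa (by positivity)
  have h3 : T * T ≤ T * ((sm F (P.erase 2) S x).card * (1 + C * δ ^ 2 / a)) := by
    calc T * T = T ^ 2 := by ring
      _ ≤ _ := h1
      _ ≤ (sm F (P.erase 2) S x).card * (T + T * (C * δ ^ 2 / a)) := by gcongr
      _ = _ := by ring
  have h4 := le_of_mul_le_mul_left h3 hT0
  have h5 : 0 < 1 + C * δ ^ 2 / a := by positivity
  rw [div_mul_eq_mul_div, div_le_iff₀ h5]
  calc a * x ≤ T := hTa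
    _ ≤ _ := h4
    _ ≤ (sm F P S x).card * (1 + C * δ ^ 2 / a) := mul_le_mul_of_nonneg_right hsub h5.le

end Pool.Agent.Q55.RomOdd
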