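import Pool.Agent.TH685.TI.SqTwo
import Pool.Agent.TH685.TI.Gen

set_option autoImplicit false
set_option maxHeartbeats 1000000

/-! # Indices of the primes `p` for which `p² - 2` has no small prime factor -/

namespace Pool.Agent.Q55.SqRough

open Finset Polynomial
open Pool.Agent.H410R2.ED Pool.Agent.H474R2.PG Pool.Agent.TH506.APD Pool.Agent.TH685.SqTwo

open Classical in
/-- numbers `t ≤ x` such that no prime `l` with `3 ≤ l ≤ Y` divides `t` or `t² - 2` -/
theorem count : ∃ (K : ℝ) (Y0 : ℕ), 0 < K ∧ ∀ x Y : ℕ, Y0 ≤ Y → 1 ≤ x →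
    (((range (x + 1)).filter (fun t : ℕ => ∀ l : ℕ, l.Prime → 3 ≤ l → l ≤ Y →
      ¬ l ∣ t ∧ ¬ (l : ℤ) ∣ (t : ℤ) ^ 2 - 2)).card : ℝ) ≤ K * x / Real.log Y ^ 2 + Y := by
  obtain ⟨c, hc, hsv⟩ := sieve_exp
  obtain ⟨C1, hC1, h1⟩ := mert (Polynomial.X : ℤ[X]) Polynomial.irreducible_X
    (by rw [natDegree_X]; norm_num)
  obtain ⟨C2, hC2, h2⟩ := mert F2 F2_irr F2_deg
  have hlog2 : 0 < Real.log 2 := Real.log_pos (by norm_num)
  have hc0 : (0 : ℝ) < c := by exact_mod_cast hc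
  refine ⟨4 * Real.exp (C1 + C2) * (8 * c * Real.log 2) ^ 2, 2 ^ (16 * c), by positivity,
    fun x Y hY0 hx => ?_⟩
  obtain ⟨J, hJ, hJ2, hJ3, hJ4⟩ := exists_level3 hc hY0
  have hY2 : 2 ^ 1 ≤ Y := le_trans (Nat.pow_le_pow_right (by norm_num) (by omega)) hY0
  have hlogY : 0 < Real.log Y := Real.log_pos (by exact_mod_cast (by omega : 1 < Y))
  obtain ⟨P, hP⟩ : ∃ P : ℕ → ℕ → Prop, ∀ l n, P l n ↔
      (l ∣ n ∨ (3 ≤ l ∧ (l : ℤ) ∣ (n : ℤ) ^ 2 - 2)) := ⟨_, fun _ _ => Iff.rfl⟩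
  have hper : ∀ l n, P l (n + l) ↔ P l n := by
    intro l n
    rw [hP, hP]
    have e : ((n + l : ℕ) : ℤ) ^ 2 - 2 = ((n : ℤ) ^ 2 - 2) + (l : ℤ) * (2 * n + l) := by
      push_cast; ring
    rw [e, Nat.dvd_add_self_right, dvd_add_left (Dvd.intro _ rfl)]
  have hcard : ∀ l : ℕ, l.Prime → #((range l).filter (P l)) =
      rho (Polynomial.X : ℤ[X]) l + (if 3 ≤ l then rho F2 l else 0) := by
    intro l hl
    have h3 : (range l).filter (P l) = (range l).filter (fun n => l ∣ n) ∪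
        (range l).filter (fun n => 3 ≤ l ∧ (l : ℤ) ∣ (n : ℤ) ^ 2 - 2) := by
      rw [← Finset.filter_or]
      apply Finset.filter_congr
      intro n _
      rw [hP]
    rw [h3, card_union_of_disjoint]
    · congr 1
      · unfold rho
        congr 1
        apply Finset.filter_congr
        intro a _
        rw [eval_X, Int.natCast_dvd_natCast]
      · split_ifs with h4
        · unfold rho F2
          congr 1
          apply Finset.filter_congr
          intro a _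
          simp [h4]
        · rw [card_eq_zero, Finset.filter_eq_empty_iff]
          intro a _ h5
          exact h4 h5.1
    · rw [Finset.disjoint_filter]
      intro a _ h4 h5
      have h6 : (l : ℤ) ∣ (a : ℤ) ^ 2 := dvd_pow (Int.natCast_dvd_natCast.2 h4) (by norm_num)
      have h7 : (l : ℤ) ∣ 2 := by
        have := dvd_sub h6 h5.2
        rwa [sub_sub_cancel] at this
      have h8 : l ∣ 2 := by exact_mod_cast h7
      have := Nat.le_of_dvd (by norm_num) h8
      omega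
  have hcard3 : ∀ l : ℕ, l.Prime → #((range l).filter (P l)) ≤ 3 := by
    intro l hl
    rw [hcard l hl, Pool.Agent.H951R4.OD.b6_rho_X l hl]
    have := rho_F2_le hl
    split_ifs <;> omega
  have hS : 2 * (J * Real.log 2) - (C1 + C2) ≤
      ∑ l ∈ Pr 3 J, (#((range l).filter (P l)) : ℝ) / l := by
    have e1 := (abs_le.1 (h1 J hJ)).1
    have e2 := (abs_le.1 (h2 J hJ)).1
    have e4 : ∑ l ∈ Pr 3 J, (#((range l).filter (P l)) : ℝ) / l =
        ∑ l ∈ Pr 3 J, (rho (Polynomial.X : ℤ[X]) l : ℝ) / l +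
        ∑ l ∈ Pr 3 J, (rho F2 l : ℝ) / l := by
      rw [← Finset.sum_add_distrib]
      apply Finset.sum_congr rfl
      intro l hl
      have h3 := (mem_filter.1 hl).2
      rw [hcard l h3.1, if_pos (by omega)]
      push_cast
      ring
    rw [e4]
    linarith
  have hmain := hsv P (x + 1) J _ hper hcard3 hS
  have hexp : Real.exp (-(2 * (J * Real.log 2) - (C1 + C2))) =
      Real.exp (C1 + C2) * (1 / 2 ^ J) ^ 2 := by
    have e1 : -(2 * (J * Real.log 2) - (C1 + C2)) =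
        (C1 + C2) - Real.log (2 ^ J) - Real.log (2 ^ J) := by
      rw [Real.log_pow]; ring
    rw [e1, Real.exp_sub, Real.exp_sub, Real.exp_log (by positivity)]
    field_simp
  have h7 : (((range (x + 1)).filter (fun t => ∀ l ∈ Pr 3 J, ¬ P l t)).card : ℝ) ≤
      4 * Real.exp (C1 + C2) * (8 * c * Real.log 2) ^ 2 * x / Real.log Y ^ 2 + Y := by
    calc (((range (x + 1)).filter (fun t => ∀ l ∈ Pr 3 J, ¬ P l t)).card : ℝ) ≤ _ := hmain
      _ ≤ 2 * ((x + 1 : ℕ) : ℝ) * (Real.exp (C1 + C2) * (8 * c * Real.log 2 / Real.log Y) ^ 2) + Y := by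
          rw [hexp]
          gcongr
      _ ≤ 2 * (2 * (x : ℝ)) * (Real.exp (C1 + C2) * (8 * c * Real.log 2 / Real.log Y) ^ 2) + Y := by
          have : ((x + 1 : ℕ) : ℝ) ≤ 2 * x := by
            have : (1 : ℝ) ≤ x := by exact_mod_cast hx
            push_cast; linarith
          gcongr
      _ = _ := by field_simp; ring
  refine le_trans ?_ h7
  apply Nat.cast_le.2
  apply card_le_card
  intro t ht
  rw [mem_filter] at ht ⊢
  refine ⟨ht.1, fun l hl hPl => ?_⟩
  have hlp : l.Prime := (mem_filter.1 hl).2.1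
  have hl3 : 3 ≤ l := by
    have := (mem_filter.1 hl).2.2
    omega
  have hlt : l < 2 ^ 2 ^ J := mem_range.1 (mem_filter.1 hl).1
  obtain ⟨h8, h9⟩ := ht.2 l hlp hl3 (by omega)
  rcases (hP l t).1 hPl with h6 | ⟨h6, h10⟩
  · exact h8 h6
  · exact h9 h10

/-- every prime factor `l` of `p² - 2` satisfies `p < l ^ s` -/
def Rough (s p : ℕ) : Prop := ∀ l : ℕ, l.Prime → l ∣ p ^ 2 - 2 → p < l ^ s

/-- there are few primes `p` such that all prime factors of `p² - 2` are `> p ^ (1 / s)` -/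
theorem thin (s : ℕ) (hs : 1 ≤ s) : Pool.Agent.TH685.Gen.Thin (Rough s) := by
  classical
  obtain ⟨K, Y0, hK, h⟩ := count
  -- Y = x ^ (1 / (2 s)), rounded down
  have hs0 : (0 : ℝ) < s := by exact_mod_cast hs
  obtain ⟨e, he⟩ : ∃ e : ℝ, e = 1 / (2 * s) := ⟨_, rfl⟩
  have he0 : 0 < e := by rw [he]; positivity
  have he2 : e ≤ 1 / 2 := by
    rw [he]
    apply one_div_le_one_div_of_le (by norm_num)
    have : (1 : ℝ) ≤ s := by exact_mod_cast hs
    linarith
  -- large x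
  obtain ⟨x₀, hx₀⟩ : ∃ x₀ : ℕ, ∀ x : ℕ, x₀ ≤ x → (Y0 : ℝ) + 1 ≤ (x : ℝ) ^ e ∧ 4 ≤ (x : ℝ) ^ e ∧ 3 ≤ x := by
    have h1 : Filter.Tendsto (fun x : ℕ => (x : ℝ) ^ e) Filter.atTop Filter.atTop :=
      (tendsto_rpow_atTop he0).comp tendsto_natCast_atTop_atTop
    exact Filter.eventually_atTop.1 ((h1.eventually_ge_atTop _).and
      ((h1.eventually_ge_atTop _).and (Filter.eventually_ge_atTop 3)))
  -- sqrt x log^2 x <= C x
  have hsq : ∀ x : ℝ, 1 ≤ x → Real.log x ^ 2 ≤ 16 * √x := by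
    intro x hx
    have h1 : Real.log x = 4 * Real.log (x ^ (1 / 4 : ℝ)) := by
      rw [Real.log_rpow (by linarith)]; ring
    have h2 : Real.log (x ^ (1 / 4 : ℝ)) ≤ x ^ (1 / 4 : ℝ) := by
      have := Real.log_le_sub_one_of_pos (show (0 : ℝ) < x ^ (1 / 4 : ℝ) by positivity)
      linarith
    have h3 : 0 ≤ Real.log (x ^ (1 / 4 : ℝ)) := Real.log_nonneg (Real.one_le_rpow hx (by norm_num))
    have h4 : (x ^ (1 / 4 : ℝ)) ^ 2 = √x := by
      rw [← Real.rpow_natCast, ← Real.rpow_mul (by linarith), Real.sqrt_eq_rpow]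
      norm_num
    rw [h1, mul_pow, ← h4]
    have := pow_le_pow_left₀ h3 h2 2
    linarith
  refine ⟨16 * K * s ^ 2 + 48 + (x₀ : ℝ) ^ 2 + 16 * x₀, by positivity, fun x hx => ?_⟩
  have hxr : (2 : ℝ) ≤ x := by exact_mod_cast hx
  have hlx : 0 < Real.log x := Real.log_pos (by linarith)
  have hfin : ({p : ℕ | p ≤ x ∧ p.Prime ∧ Rough s p}).Finite := (Set.finite_Iic x).subset (fun p hp => hp.1)
  rcases lt_or_ge x x₀ with hlt | hge
  · have h1 : Set.ncard {p : ℕ | p ≤ x ∧ p.Prime ∧ Rough s p} ≤ x := by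
      have h8 : {p : ℕ | p ≤ x ∧ p.Prime ∧ Rough s p} ⊆ ((Icc 1 x : Finset ℕ) : Set ℕ) := by
        rintro p ⟨hp1, hp2, -⟩
        rw [mem_coe, mem_Icc]
        exact ⟨hp2.one_lt.le, hp1⟩
      have := Set.ncard_le_ncard h8 (finite_toSet _)
      rwa [Set.ncard_coe_finset, Nat.card_Icc, Nat.add_sub_cancel] at this
    have h2 : (Set.ncard {p : ℕ | p ≤ x ∧ p.Prime ∧ Rough s p} : ℝ) ≤ x := by exact_mod_cast h1
    refine h2.trans ?_
    have h3 : Real.log x ^ 2 ≤ 16 * √(x : ℝ) := hsq x (by linarith)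
    have h4 : √(x : ℝ) ≤ x := by
      rw [Real.sqrt_le_left (by linarith)]
      nlinarith
    have h5 : Real.log x ^ 2 ≤ 16 * x₀ := by
      have : (x : ℝ) ≤ x₀ := by exact_mod_cast hlt.le
      linarith
    rw [← mul_div_assoc, le_div_iff₀ (by positivity)]
    have h6 : (0 : ℝ) ≤ 16 * K * s ^ 2 + 48 + (x₀ : ℝ) ^ 2 := by positivity
    nlinarith
  · obtain ⟨h3, h4, h5⟩ := hx₀ x hge
    obtain ⟨Y, hY⟩ : ∃ Y : ℕ, Y = ⌊(x : ℝ) ^ e⌋₊ := ⟨_, rfl⟩
    have hYle : (Y : ℝ) ≤ (x : ℝ) ^ e := by rw [hY]; exact Nat.floor_le (by positivity)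
    have hYge : (x : ℝ) ^ e / 2 ≤ Y := by
      have := Nat.lt_floor_add_one ((x : ℝ) ^ e)
      rw [← hY] at this
      linarith
    have hYY : Y0 ≤ Y := by
      rw [hY]
      exact Nat.le_floor (by linarith)
    have hxs : (x : ℝ) ^ e ≤ √(x : ℝ) := by
      rw [Real.sqrt_eq_rpow]
      exact Real.rpow_le_rpow_of_exponent_le (by linarith) he2
    -- log Y >= (e / 2) log x
    have hlY : e / 2 * Real.log x ≤ Real.log Y := by
      have h6 : ((x : ℝ) ^ (e / 2)) ≤ Y := by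
        have h7 : ((x : ℝ) ^ (e / 2)) ^ 2 = (x : ℝ) ^ e := by
          rw [← Real.rpow_natCast, ← Real.rpow_mul (by linarith)]
          congr 1
          push_cast
          ring
        have h8 : 0 < (x : ℝ) ^ (e / 2) := by positivity
        have h9 : 2 ≤ (x : ℝ) ^ (e / 2) := by nlinarith
        nlinarith
      have h7 := Real.log_le_log (by positivity) h6
      rwa [Real.log_rpow (by linarith)] at h7
    have hlY0 : 0 < e / 2 * Real.log x := by positivity
    have hmain := h x Y hYY (by omega)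
    have hsub : {p : ℕ | p ≤ x ∧ p.Prime ∧ Rough s p} ⊆
        (((range (x + 1)).filter (fun t : ℕ => ∀ l : ℕ, l.Prime → 3 ≤ l → l ≤ Y →
          ¬ l ∣ t ∧ ¬ (l : ℤ) ∣ (t : ℤ) ^ 2 - 2) ∪ range (⌊√(x : ℝ)⌋₊ + 1) : Finset ℕ) : Set ℕ) := by
      rintro p ⟨hp1, hp2, hp3⟩
      rw [mem_coe, mem_union, mem_range]
      by_cases hps : p < ⌊√(x : ℝ)⌋₊ + 1
      · exact Or.inr hps
      left
      rw [mem_filter, mem_range]
      refine ⟨by omega, fun l hl hl3 hlY' => ?_⟩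
      have hpr : √(x : ℝ) < p := by
        have h6 := Nat.lt_floor_add_one (√(x : ℝ))
        have h7 : ((⌊√(x : ℝ)⌋₊ + 1 : ℕ) : ℝ) ≤ p := by exact_mod_cast not_lt.1 hps
        push_cast at h7
        linarith
      have hlr : (l : ℝ) ≤ (x : ℝ) ^ e := by
        have : (l : ℝ) ≤ Y := by exact_mod_cast hlY'
        linarith
      refine ⟨fun hd => ?_, fun hd => ?_⟩
      · have h6 := (Nat.prime_dvd_prime_iff_eq hl hp2).1 hd
        rw [h6] at hlr
        linarith
      · have h8 : l ∣ p ^ 2 - 2 := by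
          have h9 : 2 ≤ p ^ 2 := by nlinarith [hp2.two_le]
          have e1 : ((p ^ 2 - 2 : ℕ) : ℤ) = (p : ℤ) ^ 2 - 2 := by
            rw [Nat.cast_sub h9]; push_cast; rfl
          rw [← e1] at hd
          exact_mod_cast hd
        have h9 := hp3 l hl h8
        have h10 : (p : ℝ) < (l : ℝ) ^ s := by exact_mod_cast h9
        have h11 : (l : ℝ) ^ s ≤ √(x : ℝ) := by
          calc (l : ℝ) ^ s ≤ ((x : ℝ) ^ e) ^ s := pow_le_pow_left₀ (Nat.cast_nonneg _) hlr s
            _ = (x : ℝ) ^ (1 / 2 : ℝ) := by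
              rw [← Real.rpow_natCast, ← Real.rpow_mul (by linarith), he]
              congr 1
              field_simp
            _ = √(x : ℝ) := (Real.sqrt_eq_rpow _).symm
        linarith
    have h6 := (Set.ncard_le_ncard hsub (finite_toSet _))
    rw [Set.ncard_coe_finset] at h6
    have h7 := h6.trans (card_union_le _ _)
    rw [card_range] at h7
    have h8 : (Set.ncard {p : ℕ | p ≤ x ∧ p.Prime ∧ Rough s p} : ℝ) ≤
        (K * x / Real.log Y ^ 2 + Y) + (√(x : ℝ) + 1) := by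
      have h9 : (Set.ncard {p : ℕ | p ≤ x ∧ p.Prime ∧ Rough s p} : ℝ) ≤
        (((range (x + 1)).filter (fun t : ℕ => ∀ l : ℕ, l.Prime → 3 ≤ l → l ≤ Y →
          ¬ l ∣ t ∧ ¬ (l : ℤ) ∣ (t : ℤ) ^ 2 - 2)).card : ℝ) + ((⌊√(x : ℝ)⌋₊ : ℝ) + 1) := by
        exact_mod_cast h7
      have h10 := Nat.floor_le (Real.sqrt_nonneg (x : ℝ))
      linarith
    have h9 : K * x / Real.log Y ^ 2 ≤ 16 * K * s ^ 2 * (x / Real.log x ^ 2) := by
      calc K * x / Real.log Y ^ 2 ≤ K * x / (e / 2 * Real.log x) ^ 2 := by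
            apply div_le_div_of_nonneg_left (by positivity) (by positivity)
            exact pow_le_pow_left₀ hlY0.le hlY 2
        _ = _ := by
            rw [he]
            field_simp
            norm_num
    have hs1 : 1 ≤ √(x : ℝ) := by
      rw [Real.one_le_sqrt]
      linarith
    have h10 : √(x : ℝ) ≤ 16 * (x / Real.log x ^ 2) := by
      rw [← mul_div_assoc, le_div_iff₀ (by positivity)]
      have h11 := hsq x (by linarith)
      calc √(x : ℝ) * Real.log x ^ 2 ≤ √(x : ℝ) * (16 * √(x : ℝ)) := by gcongr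
        _ = 16 * (√(x : ℝ) * √(x : ℝ)) := by ring
        _ = 16 * x := by rw [Real.mul_self_sqrt (by linarith)]
    have h12 : 0 ≤ (x : ℝ) / Real.log x ^ 2 := by positivity
    have h13 : (16 * K * s ^ 2 + 48 + (x₀ : ℝ) ^ 2 + 16 * x₀) * (x / Real.log x ^ 2) =
        16 * K * s ^ 2 * (x / Real.log x ^ 2) + 48 * (x / Real.log x ^ 2) +
        ((x₀ : ℝ) ^ 2 + 16 * x₀) * (x / Real.log x ^ 2) := by ring
    have h14 : 0 ≤ ((x₀ : ℝ) ^ 2 + 16 * x₀) * (x / Real.log x ^ 2) := by positivity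
    rw [h13]
    linarith

end Pool.Agent.Q55.SqRough
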