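import Pool.Agent.TH685.TI.TwinB
import Pool.Agent.TH685.TI.Gen
import Pool.Agent.TH685.TI.BtU

set_option autoImplicit false
set_option maxHeartbeats 1000000

/-! # Twin primes without small factors: indices and sums -/

namespace Pool.Agent.Q55.TwinIdx

open Finset Filter Pool.Agent.H373R2.T7 Pool.Agent.W123.RP

/-- all prime factors `l` of `(6 k - 1)(6 k + 1)` satisfy `k < l ^ s` -/
def TI (s k : ℕ) : Prop := ∀ l : ℕ, l.Prime → l ∣ (6 * k - 1) * (6 * k + 1) → k < l ^ s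

/-- all prime factors `l` of `q + 2` satisfy `q < l ^ s` -/
def G (s q : ℕ) : Prop := ∀ l : ℕ, l.Prime → l ∣ q + 2 → q < l ^ s

lemma not_Q {s r X k l : ℕ} (hs : 1 ≤ s) (hsr : 2 * s ≤ r) (hX : 1 ≤ X) (hk1 : 1 ≤ k) (hk : X < k ^ 2) (h : TI s k)
    (hl : l ∈ pz ⌊(X : ℝ) ^ (1 / (r : ℝ))⌋₊) : ¬ Twin.Q l k := by
  intro hq
  obtain ⟨hlX, hlp⟩ := mem_pz.1 hl
  have hrpos : (0 : ℝ) < r := by exact_mod_cast (by omega : 0 < r)
  have h1 : l ∣ (6 * k - 1) * (6 * k + 1) := by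
    unfold Twin.Q at hq
    have e : (((6 * k - 1) * (6 * k + 1) : ℕ) : ℤ) = (6 * (k : ℤ) - 1) * (6 * k + 1) := by
      rw [Nat.cast_mul, Nat.cast_sub (by omega)]
      push_cast
      ring
    rw [← e] at hq
    exact_mod_cast hq
  have h2 := h l hlp h1
  have h3 : (l : ℝ) ≤ (X : ℝ) ^ (1 / (r : ℝ)) := by
    have := Nat.floor_le (show (0 : ℝ) ≤ (X : ℝ) ^ (1 / (r : ℝ)) by positivity)
    have h4 : (l : ℝ) ≤ (⌊(X : ℝ) ^ (1 / (r : ℝ))⌋₊ : ℝ) := by exact_mod_cast hlX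
    linarith
  have h4 : (l : ℝ) ^ r ≤ X := by
    calc (l : ℝ) ^ r ≤ ((X : ℝ) ^ (1 / (r : ℝ))) ^ r := pow_le_pow_left₀ (Nat.cast_nonneg _) h3 r
      _ = X := by
        rw [← Real.rpow_natCast, ← Real.rpow_mul (by positivity), one_div,
          inv_mul_cancel₀ hrpos.ne', Real.rpow_one]
  have h5 : l ^ r ≤ X := by exact_mod_cast h4
  have h6 : k ^ 2 < (l ^ s) ^ 2 := Nat.pow_lt_pow_left h2 (by norm_num)
  have h7 : (l ^ s) ^ 2 ≤ l ^ r := by
    rw [← pow_mul]
    exact Nat.pow_le_pow_right hlp.pos (by omega)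
  omega

open Classical in
/-- rough twins in all intervals -/
theorem rough_short (s : ℕ) (hs : 1 ≤ s) : ∃ C : ℝ, 1 ≤ C ∧ ∀ᶠ X : ℕ in atTop, ∀ a : ℕ,
    (((Ioc a (a + X)).filter (fun k => TI s k)).card : ℝ) ≤ C * (X / Real.log X ^ 2) := by
  obtain ⟨r0, hr0, h⟩ := Pool.Agent.TH685.TI.rough_interval
  obtain ⟨C, hC, X₀, hX₀⟩ := h (max r0 (2 * s)) (le_max_left _ _)
  have hlp : ∀ᶠ X : ℕ in atTop, Real.log X ^ 4 ≤ X := by
    have h := ((isLittleO_log_rpow_rpow_atTop ((4 : ℕ) : ℝ) (by norm_num : (0 : ℝ) < 1)).comp_tendsto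
      tendsto_natCast_atTop_atTop).bound (by norm_num : (0 : ℝ) < 1)
    filter_upwards [h, eventually_ge_atTop 1] with X hX hX1
    have hX1' : (1 : ℝ) ≤ X := by exact_mod_cast hX1
    have hl := Real.log_nonneg hX1'
    simp only [Function.comp_def, Real.rpow_natCast, Real.rpow_one, one_mul] at hX
    rw [Real.norm_of_nonneg (by positivity), Real.norm_of_nonneg (by positivity)] at hX
    exact hX
  refine ⟨C + 1, by linarith, ?_⟩
  filter_upwards [eventually_ge_atTop X₀, hlp, eventually_ge_atTop 3] with X hX hl4 hX3 a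
  have hXr : (3 : ℝ) ≤ X := by exact_mod_cast hX3
  have hlpos : 0 < Real.log X := Real.log_pos (by linarith)
  have h1 := hX₀ X hX a
  have hsub : (Ioc a (a + X)).filter (fun k => TI s k) ⊆
      (Ioc a (a + X)).filter (fun k => ∀ p ∈ pz ⌊(X : ℝ) ^ (1 / ((max r0 (2 * s) : ℕ) : ℝ))⌋₊, ¬ Twin.Q p k) ∪
        Icc 1 (Nat.sqrt X) := by
    intro k hk
    rw [mem_filter, mem_Ioc] at hk
    rw [mem_union, mem_filter, mem_Ioc, mem_Icc]
    by_cases hkX : X < k ^ 2
    · left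
      refine ⟨hk.1, fun l hl => not_Q hs (le_max_right _ _) (by omega) (by omega) hkX hk.2 hl⟩
    · right
      refine ⟨by omega, ?_⟩
      rw [Nat.le_sqrt']
      exact not_lt.1 hkX
  have h2 := (card_le_card hsub).trans (card_union_le _ _)
  rw [Nat.card_Icc, Nat.add_sub_cancel] at h2
  have h3 : (((Ioc a (a + X)).filter (fun k => TI s k)).card : ℝ) ≤
      (((Ioc a (a + X)).filter (fun k => ∀ p ∈ pz ⌊(X : ℝ) ^ (1 / ((max r0 (2 * s) : ℕ) : ℝ))⌋₊, ¬ Twin.Q p k)).card : ℝ)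
        + (Nat.sqrt X : ℝ) := by exact_mod_cast h2
  have h4 : (Nat.sqrt X : ℝ) ≤ X / Real.log X ^ 2 := by
    have h5 : (Nat.sqrt X : ℝ) ≤ √(X : ℝ) := Real.nat_sqrt_le_real_sqrt
    have h6 : √(X : ℝ) ≤ X / Real.log X ^ 2 := by
      rw [Real.sqrt_le_left (by positivity), div_pow, ← pow_mul, le_div_iff₀ (by positivity)]
      calc (X : ℝ) * Real.log X ^ (2 * 2) = (X : ℝ) * Real.log X ^ 4 := by norm_num
        _ ≤ (X : ℝ) * X := mul_le_mul_of_nonneg_left hl4 (by positivity)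
        _ = (X : ℝ) ^ 2 := by ring
    linarith
  linarith

/-- there are few primes `q` with `q + 2` rough -/
theorem thin (s : ℕ) (hs : 1 ≤ s) : Pool.Agent.TH685.Gen.Thin (G s) := by
  classical
  obtain ⟨C, hC, hev⟩ := rough_short s hs
  obtain ⟨X₀, hX₀⟩ := eventually_atTop.1 hev
  have hlp : ∀ᶠ X : ℕ in atTop, Real.log X ^ 2 ≤ X := by
    have h := ((isLittleO_log_rpow_rpow_atTop ((2 : ℕ) : ℝ) (by norm_num : (0 : ℝ) < 1)).comp_tendsto
      tendsto_natCast_atTop_atTop).bound (by norm_num : (0 : ℝ) < 1)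
    filter_upwards [h, eventually_ge_atTop 1] with X hX hX1
    have hX1' : (1 : ℝ) ≤ X := by exact_mod_cast hX1
    have hl := Real.log_nonneg hX1'
    simp only [Function.comp_def, Real.rpow_natCast, Real.rpow_one, one_mul] at hX
    rw [Real.norm_of_nonneg (by positivity), Real.norm_of_nonneg (by positivity)] at hX
    exact hX
  obtain ⟨X₁, hX₁⟩ := eventually_atTop.1 hlp
  obtain ⟨X₂, hX₂⟩ : ∃ X₂ : ℕ, X₂ = max X₀ (max X₁ 3) := ⟨_, rfl⟩
  refine ⟨C + (3 ^ s + 4) + X₂ * X₂, by positivity, fun x hx => ?_⟩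
  have hxr : (2 : ℝ) ≤ x := by exact_mod_cast hx
  have hlx : 0 < Real.log x := Real.log_pos (by linarith)
  rcases lt_or_ge x X₂ with hlt | hge
  · have h1 : Set.ncard {p : ℕ | p ≤ x ∧ p.Prime ∧ G s p} ≤ x := by
      have h8 : {p : ℕ | p ≤ x ∧ p.Prime ∧ G s p} ⊆ ((Icc 1 x : Finset ℕ) : Set ℕ) := by
        rintro p ⟨hp1, hp2, -⟩
        rw [mem_coe, mem_Icc]
        exact ⟨hp2.one_lt.le, hp1⟩
      have := Set.ncard_le_ncard h8 (finite_toSet _)
      rwa [Set.ncard_coe_finset, Nat.card_Icc, Nat.add_sub_cancel] at this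
    have h2 : (Set.ncard {p : ℕ | p ≤ x ∧ p.Prime ∧ G s p} : ℝ) ≤ x := by exact_mod_cast h1
    refine h2.trans ?_
    have h4 : Real.log x ≤ x := by
      have := Real.log_le_sub_one_of_pos (show (0 : ℝ) < x by linarith)
      linarith
    have h5 : Real.log x ^ 2 ≤ X₂ * X₂ := by
      have h6 : (x : ℝ) ≤ X₂ := by exact_mod_cast hlt.le
      nlinarith
    rw [← mul_div_assoc, le_div_iff₀ (by positivity)]
    have h6 : (0 : ℝ) ≤ C + (3 ^ s + 4) := by positivity
    nlinarith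
  · have g1 : X₀ ≤ x := (le_max_left _ _).trans (hX₂ ▸ hge)
    have g2 : X₁ ≤ x := ((le_max_left _ _).trans (le_max_right _ _)).trans (hX₂ ▸ hge)
    have h1 := hX₀ x g1 0
    rw [zero_add] at h1
    have h2 := hX₁ x g2
    have hsub : {p : ℕ | p ≤ x ∧ p.Prime ∧ G s p} ⊆
        ((((Ioc 0 x).filter (fun k => TI s k)).image (fun k => 6 * k - 1) ∪ range (3 ^ s + 4) : Finset ℕ) : Set ℕ) := by
      rintro p ⟨hp1, hp2, hp3⟩
      rw [mem_coe, mem_union, mem_range, mem_image]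
      by_cases hps : p < 3 ^ s + 4
      · exact Or.inr hps
      left
      have hpos : 1 ≤ 3 ^ s := Nat.one_le_pow _ _ (by norm_num)
      obtain ⟨S3, hS3⟩ : ∃ S3 : ℕ, S3 = 3 ^ s := ⟨_, rfl⟩
      rw [← hS3] at hps hpos
      have h2' : p % 2 = 1 := by
        rcases hp2.eq_two_or_odd with h | h
        · omega
        · exact h
      have h3' : p % 3 ≠ 0 := by
        intro h
        have h4 := (Nat.prime_dvd_prime_iff_eq Nat.prime_three hp2).1 (Nat.dvd_of_mod_eq_zero h)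
        omega
      have h4' : p % 3 ≠ 1 := by
        intro h
        have h5 := hp3 3 Nat.prime_three (by omega)
        omega
      refine ⟨(p + 1) / 6, ?_, by omega⟩
      rw [mem_filter, mem_Ioc]
      obtain ⟨k, hk⟩ : ∃ k, k = (p + 1) / 6 := ⟨_, rfl⟩
      rw [← hk]
      have e1 : 6 * k - 1 = p := by omega
      have e2 : 6 * k + 1 = p + 2 := by omega
      refine ⟨by omega, fun l hl hd => ?_⟩
      rw [e1, e2] at hd
      rcases (Nat.Prime.dvd_mul hl).1 hd with h | h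
      · have h5 := (Nat.prime_dvd_prime_iff_eq hl hp2).1 h
        rw [h5]
        calc k < p := by omega
          _ ≤ p ^ s := Nat.le_self_pow (by omega) p
      · have := hp3 l hl h
        omega
    have h3 := Set.ncard_le_ncard hsub (finite_toSet _)
    rw [Set.ncard_coe_finset] at h3
    have h4 := h3.trans ((card_union_le _ _).trans (Nat.add_le_add_right card_image_le _))
    rw [card_range] at h4
    have h5 : (Set.ncard {p : ℕ | p ≤ x ∧ p.Prime ∧ G s p} : ℝ) ≤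
        (((Ioc 0 x).filter (fun k => TI s k)).card : ℝ) + (3 ^ s + 4) := by exact_mod_cast h4
    have h6 : (1 : ℝ) ≤ x / Real.log x ^ 2 := by
      rw [le_div_iff₀ (by positivity), one_mul]
      exact h2
    have h7 : (0 : ℝ) ≤ X₂ * X₂ * (x / Real.log x ^ 2) := by positivity
    have h8 : (3 ^ s + 4 : ℝ) ≤ (3 ^ s + 4) * (x / Real.log x ^ 2) := by
      have : (0 : ℝ) ≤ 3 ^ s + 4 := by positivity
      nlinarith
    nlinarith

open Classical in
/-- the sums of a rough twin index and of an element of `S`, in all intervals -/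
theorem cover (s : ℕ) (hs : 1 ≤ s) : ∃ C : ℝ, 1 ≤ C ∧ ∀ᶠ X : ℕ in atTop, ∀ (Y : ℕ) (S : Finset ℕ),
    (((Ioc Y (Y + X)).filter (fun n => ∃ k m : ℕ, 1 ≤ k ∧ m ∈ S ∧ k + m = n ∧ TI s k)).card : ℝ) ≤
      S.card * (C * (X / Real.log X ^ 2)) := by
  obtain ⟨C, hC, hev⟩ := rough_short s hs
  refine ⟨C, hC, ?_⟩
  filter_upwards [hev] with X hX Y S
  have hsub : (Ioc Y (Y + X)).filter (fun n => ∃ k m : ℕ, 1 ≤ k ∧ m ∈ S ∧ k + m = n ∧ TI s k) ⊆
      S.biUnion (fun m => ((Ioc (Y - m) (Y - m + X)).filter (fun k => TI s k)).image (fun k => k + m)) := by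
    intro n hn
    rw [mem_filter, mem_Ioc] at hn
    obtain ⟨hn1, k, m, hk, hm, hkm, hT⟩ := hn
    rw [mem_biUnion]
    refine ⟨m, hm, ?_⟩
    rw [mem_image]
    refine ⟨k, ?_, hkm⟩
    rw [mem_filter, mem_Ioc]
    exact ⟨⟨by omega, by omega⟩, hT⟩
  have h1 : ((S.biUnion (fun m => ((Ioc (Y - m) (Y - m + X)).filter (fun k => TI s k)).image
      (fun k => k + m))).card : ℝ) ≤ ∑ m ∈ S, (((Ioc (Y - m) (Y - m + X)).filter (fun k => TI s k)).card : ℝ) := by
    have h2 : (S.biUnion (fun m => ((Ioc (Y - m) (Y - m + X)).filter (fun k => TI s k)).image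
      (fun k => k + m))).card ≤ ∑ m ∈ S, ((Ioc (Y - m) (Y - m + X)).filter (fun k => TI s k)).card :=
      card_biUnion_le.trans (sum_le_sum fun m _ => card_image_le)
    exact_mod_cast h2
  calc (((Ioc Y (Y + X)).filter (fun n => ∃ k m : ℕ, 1 ≤ k ∧ m ∈ S ∧ k + m = n ∧ TI s k)).card : ℝ)
      ≤ _ := by exact_mod_cast card_le_card hsub
    _ ≤ _ := h1
    _ ≤ ∑ _m ∈ S, C * (X / Real.log X ^ 2) := sum_le_sum fun m _ => hX (Y - m)
    _ = _ := by rw [sum_const, nsmul_eq_mul]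

/-- many rough twin indices below `k`: then `k` is large -/
theorem big (s : ℕ) (hs : 1 ≤ s) (c₀ : ℝ) (hc₀ : 0 < c₀) : ∃ c : ℝ, 0 < c ∧ ∀ᶠ X : ℕ in atTop, ∀ k : ℕ,
    c₀ * Real.log X < Pool.Agent.TH685.Gen.cn (TI s) k →
      c * (Real.log X * Real.log (Real.log X) ^ 2) < k := by
  classical
  obtain ⟨C, hC, hev⟩ := rough_short s hs
  obtain ⟨X₀, hX₀⟩ := eventually_atTop.1 hev
  have hlogt : Tendsto (fun X : ℕ => Real.log (X : ℝ)) atTop atTop :=
    Real.tendsto_log_atTop.comp tendsto_natCast_atTop_atTop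
  refine ⟨c₀ / (4 * C), by positivity, ?_⟩
  filter_upwards [hlogt.eventually_ge_atTop (max (max 3 ((X₀ + 3) / c₀)) ((1 / c₀) ^ 2))] with X hL k h4
  obtain ⟨L, hLd⟩ : ∃ L : ℝ, L = Real.log X := ⟨_, rfl⟩
  rw [← hLd] at hL h4 ⊢
  have hL3 : 3 ≤ L := (le_max_left _ _).trans ((le_max_left _ _).trans hL)
  have hLc : X₀ + 3 ≤ c₀ * L := by
    have h1 : (X₀ + 3) / c₀ ≤ L := (le_max_right _ _).trans ((le_max_left _ _).trans hL)
    rw [div_le_iff₀ hc₀] at h1
    linarith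
  have hLq : 1 ≤ c₀ ^ 2 * L := by
    have h1 : (1 / c₀) ^ 2 ≤ L := (le_max_right _ _).trans hL
    rw [div_pow, one_pow, div_le_iff₀ (by positivity)] at h1
    linarith
  have hl : 1 ≤ Real.log L := by
    rw [Real.le_log_iff_exp_le (by linarith)]
    have := Real.exp_one_lt_d9
    linarith
  have hlB : Real.log L / 2 ≤ Real.log (c₀ * L) := by
    have h1 : L ≤ (c₀ * L) ^ 2 := by
      have : L * 1 ≤ L * (c₀ ^ 2 * L) := mul_le_mul_of_nonneg_left hLq (by linarith)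
      nlinarith
    have h2 := Real.log_le_log (by linarith) h1
    rw [Real.log_pow] at h2
    push_cast at h2
    linarith
  have hcn : (Pool.Agent.TH685.Gen.cn (TI s) k : ℝ) ≤ (((Ioc 0 (0 + k)).filter (fun k => TI s k)).card : ℝ) := by
    unfold Pool.Agent.TH685.Gen.cn
    have h1 : {j : ℕ | 1 ≤ j ∧ j < k ∧ TI s j} ⊆ (((Ioc 0 (0 + k)).filter (fun k => TI s k) : Finset ℕ) : Set ℕ) := by
      rintro j ⟨h1, h2, h3⟩
      rw [mem_coe, mem_filter, mem_Ioc]
      exact ⟨⟨by omega, by omega⟩, h3⟩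
    have h2 := Set.ncard_le_ncard h1 (finite_toSet _)
    rw [Set.ncard_coe_finset] at h2
    exact_mod_cast h2
  have hk1 : ((((Ioc 0 (0 + k)).filter (fun k => TI s k)).card : ℕ) : ℝ) ≤ k := by
    have : ((Ioc 0 (0 + k)).filter (fun k => TI s k)).card ≤ k := by
      refine (card_filter_le _ _).trans ?_
      rw [Nat.card_Ioc]
      omega
    exact_mod_cast this
  have hX0 : (0 : ℝ) ≤ X₀ := Nat.cast_nonneg _
  have hkX : (X₀ : ℝ) + 3 < k := by linarith
  have hkX2 : X₀ ≤ k := by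
    have : (X₀ : ℝ) ≤ k := by linarith
    exact_mod_cast this
  have h5 := hX₀ k hkX2 0
  have hlk : Real.log L / 2 ≤ Real.log k := by
    refine hlB.trans (Real.log_le_log (by positivity) ?_)
    linarith
  have hlk0 : 0 < Real.log L / 2 := by linarith
  have h6 : c₀ * L < C * (k / (Real.log L / 2) ^ 2) := by
    refine lt_of_lt_of_le (lt_of_lt_of_le h4 (hcn.trans h5)) ?_
    apply mul_le_mul_of_nonneg_left _ (by linarith)
    apply div_le_div_of_nonneg_left (Nat.cast_nonneg _) (by positivity)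
    exact pow_le_pow_left₀ hlk0.le hlk 2
  rw [← mul_div_assoc, lt_div_iff₀ (by positivity)] at h6
  calc c₀ / (4 * C) * (L * Real.log L ^ 2) = (c₀ * L * (Real.log L / 2) ^ 2) / C := by
        field_simp
        ring
    _ < (C * k) / C := by
        apply div_lt_div_of_pos_right h6 (by linarith)
    _ = k := by field_simp

end Pool.Agent.Q55.TwinIdx
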