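import Mathlib

set_option autoImplicit false

/-!
# Typical tuples: the product is divisible by large powers of all small primes
-/

open Finset

namespace Pool.Agent.Q55.TypDeg

/-- the number of the multiples of `p` in `(Y, Y + X]` is at least `⌊X / p⌋` -/
lemma mult_count {p X Y : ℕ} (hp : 0 < p) :
    X / p ≤ ((Ioc Y (Y + X)).filter (fun x => p ∣ x)).card := by
  have h : ((Icc 1 (X / p)).image (fun t => p * (Y / p + t))) ⊆
      (Ioc Y (Y + X)).filter (fun x => p ∣ x) := by
    intro x hx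
    rw [mem_image] at hx
    obtain ⟨t, ht, rfl⟩ := hx
    rw [mem_Icc] at ht
    rw [mem_filter, mem_Ioc]
    have h1 := Nat.lt_mul_div_succ Y hp
    have h2 := Nat.mul_div_le Y p
    have h3 := Nat.mul_div_le X p
    refine ⟨⟨?_, ?_⟩, Dvd.intro _ rfl⟩
    · calc Y < p * (Y / p + 1) := h1
        _ ≤ p * (Y / p + t) := Nat.mul_le_mul_left _ (by omega)
    · calc p * (Y / p + t) ≤ p * (Y / p + X / p) := Nat.mul_le_mul_left _ (by omega)
        _ = p * (Y / p) + p * (X / p) := by ring
        _ ≤ Y + X := by omega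
  have h2 := card_le_card h
  rw [card_image_of_injective, Nat.card_Icc] at h2
  · simpa using h2
  · intro a b hab
    simp only at hab
    have := Nat.eq_of_mul_eq_mul_left hp hab
    omega

/-- weights -/
noncomputable def wt (p x : ℕ) : ℝ := if p ∣ x then 1 / 2 else 1

lemma sum_wt {p X Y : ℕ} (hp : 0 < p) (hX : p ≤ X) :
    ∑ x ∈ Ioc Y (Y + X), wt p x ≤ X * (1 - 1 / (4 * (p : ℝ))) := by
  have h1 : ∑ x ∈ Ioc Y (Y + X), wt p x =
      (X : ℝ) - (((Ioc Y (Y + X)).filter (fun x => p ∣ x)).card : ℝ) / 2 := by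
    have h2 : ∀ x ∈ Ioc Y (Y + X), wt p x = 1 - (if p ∣ x then (1 / 2 : ℝ) else 0) := by
      intro x _
      unfold wt
      split_ifs <;> norm_num
    rw [sum_congr rfl h2, sum_sub_distrib, ← sum_filter, sum_const, sum_const, Nat.card_Ioc]
    simp only [add_tsub_cancel_left, nsmul_eq_mul, mul_one]
    ring
  rw [h1]
  have h2 : ((X / p : ℕ) : ℝ) ≤ (((Ioc Y (Y + X)).filter (fun x => p ∣ x)).card : ℝ) := by
    exact_mod_cast mult_count hp
  have h3 : (X : ℝ) / (2 * p) ≤ ((X / p : ℕ) : ℝ) := by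
    have h4 : X ≤ 2 * p * (X / p) := by
      have h5 := Nat.lt_mul_div_succ X hp
      have h6 : 1 ≤ X / p := (Nat.one_le_div_iff hp).2 hX
      nlinarith
    have hp' : (0 : ℝ) < 2 * p := by positivity
    rw [div_le_iff₀ hp']
    have : (X : ℝ) ≤ 2 * p * (X / p : ℕ) := by exact_mod_cast h4
    linarith
  have hp' : (0 : ℝ) < p := by exact_mod_cast hp
  have h4 : (X : ℝ) * (1 - 1 / (4 * (p : ℝ))) = X - (X : ℝ) / (2 * p) / 2 := by
    field_simp
    ring
  rw [h4]
  linarith

/-- few tuples have less than `K` entries divisible by `p` -/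
lemma few {r p X K : ℕ} (hp : 0 < p) (hX : p ≤ X) (Y : Fin r → ℕ) :
    (((Fintype.piFinset (fun i => Ioc (Y i) (Y i + X))).filter
      (fun d : Fin r → ℕ => (univ.filter (fun i => p ∣ d i)).card < K)).card : ℝ) ≤
      2 ^ K * (X : ℝ) ^ r * Real.exp (-(r / (4 * (p : ℝ)))) := by
  classical
  set S := Fintype.piFinset (fun i => Ioc (Y i) (Y i + X)) with hS
  have hp' : (0 : ℝ) < p := by exact_mod_cast hp
  have h1 : ∑ d ∈ S, ∏ i, wt p (d i) ≤ (X : ℝ) ^ r * Real.exp (-(r / (4 * (p : ℝ)))) := by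
    rw [hS, ← Finset.prod_univ_sum]
    have h2 : ∏ i, ∑ x ∈ Ioc (Y i) (Y i + X), wt p x ≤
        ∏ _i : Fin r, (X : ℝ) * Real.exp (-(1 / (4 * (p : ℝ)))) := by
      apply Finset.prod_le_prod
      · intro i _
        apply sum_nonneg
        intro x _
        unfold wt
        split_ifs <;> norm_num
      · intro i _
        refine (sum_wt hp hX).trans ?_
        apply mul_le_mul_of_nonneg_left _ (Nat.cast_nonneg _)
        have := Real.add_one_le_exp (-(1 / (4 * (p : ℝ))))
        linarith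
    refine h2.trans (le_of_eq ?_)
    rw [prod_const, card_univ, Fintype.card_fin, mul_pow, ← Real.exp_nat_mul]
    congr 2
    ring
  have h3 : ∀ d : Fin r → ℕ, ∏ i, wt p (d i) = (1 / 2 : ℝ) ^ (univ.filter (fun i => p ∣ d i)).card := by
    intro d
    unfold wt
    rw [prod_ite, prod_const, prod_const_one, mul_one]
  have h4 : (((S.filter (fun d : Fin r → ℕ => (univ.filter (fun i => p ∣ d i)).card < K)).card : ℝ)) *
      (1 / 2 : ℝ) ^ K ≤ ∑ d ∈ S, ∏ i, wt p (d i) := by
    rw [← nsmul_eq_mul, ← sum_const]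
    calc ∑ _d ∈ S.filter (fun d : Fin r → ℕ => (univ.filter (fun i => p ∣ d i)).card < K), (1 / 2 : ℝ) ^ K
        ≤ ∑ d ∈ S.filter (fun d : Fin r → ℕ => (univ.filter (fun i => p ∣ d i)).card < K),
          ∏ i, wt p (d i) := by
          apply sum_le_sum
          intro d hd
          rw [mem_filter] at hd
          rw [h3 d]
          exact pow_le_pow_of_le_one (by norm_num) (by norm_num) hd.2.le
      _ ≤ _ := by
          apply sum_le_sum_of_subset_of_nonneg (filter_subset _ _)
          intro d _ _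
          rw [h3 d]
          positivity
  have h5 : (0 : ℝ) < 2 ^ K := by positivity
  have h6 := h4.trans h1
  rw [one_div, inv_pow, ← div_eq_mul_inv, div_le_iff₀ h5] at h6
  linarith

/-- many entries divisible by `p` for all small `p` -/
lemma dvd_of_many {r : ℕ} (P : Finset ℕ) (hP : ∀ p ∈ P, p.Prime) (a : ℕ → ℕ) (d : Fin r → ℕ)
    (h : ∀ p ∈ P, a p ≤ (univ.filter (fun i => p ∣ d i)).card) :
    ∏ p ∈ P, p ^ a p ∣ ∏ i, d i := by
  apply Finset.prod_dvd_of_isRelPrime
  · intro p hp q hq hpq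
    simp only [Function.onFun]
    exact Nat.coprime_iff_isRelPrime.1
      (Nat.Coprime.pow _ _ ((Nat.coprime_primes (hP p hp) (hP q hq)).2 hpq))
  · intro p hp
    calc p ^ a p ∣ p ^ (univ.filter (fun i => p ∣ d i)).card := pow_dvd_pow _ (h p hp)
      _ = ∏ i ∈ univ.filter (fun i => p ∣ d i), p := (prod_const _).symm
      _ ∣ ∏ i ∈ univ.filter (fun i => p ∣ d i), d i := by
          apply prod_dvd_prod_of_dvd
          intro i hi
          exact (mem_filter.1 hi).2
      _ ∣ ∏ i, d i := prod_dvd_prod_of_subset _ _ _ (filter_subset _ _)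

/-- the small primes: those up to `r / (8 (A + 1) log r)` -/
noncomputable def small (r A : ℕ) : Finset ℕ :=
  (range (⌊(r : ℝ) / (8 * (A + 1) * Real.log r)⌋₊ + 1)).filter Nat.Prime

/-- **Counting.** For all boxes with sides of length `X ≥ r ≥ 2` and all but `X ^ r / r ^ A` of the tuples `d` of the
box the product of the entries is divisible by `∏ p ^ (M ⌊r / (8 M p)⌋)` over all primes `p` up to
`r / (8 (A + 1) log r)`. -/
theorem typical (r A X M : ℕ) (hr : 2 ≤ r) (hX : r ≤ X) (hM : 1 ≤ M) (Y : Fin r → ℕ) :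
    ∃ E : Finset (Fin r → ℕ), (E.card : ℝ) ≤ (X : ℝ) ^ r / (r : ℝ) ^ A ∧
      ∀ d : Fin r → ℕ, (∀ i, Y i < d i ∧ d i ≤ Y i + X) → d ∉ E →
        ∀ p ∈ small r A, M * (r / (8 * M * p)) ≤ (univ.filter (fun i => p ∣ d i)).card := by
  classical
  have hr0 : (0 : ℝ) < r := by positivity
  have hr2 : (2 : ℝ) ≤ r := by exact_mod_cast hr
  have hlog : 0 < Real.log r := Real.log_pos (by linarith)
  set y : ℝ := (r : ℝ) / (8 * (A + 1) * Real.log r) with hy
  have hA : (0 : ℝ) ≤ A := Nat.cast_nonneg A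
  have hden : 0 < 8 * ((A : ℝ) + 1) * Real.log r := by positivity
  have hy0 : 0 ≤ y := by positivity
  have hsm : small r A = (range (⌊y⌋₊ + 1)).filter Nat.Prime := rfl
  have hlog2 : (1 : ℝ) / 2 ≤ Real.log r := by
    have h1 : Real.log 2 ≤ Real.log r := Real.log_le_log (by norm_num) hr2
    have := Real.log_two_gt_d9
    linarith
  have hyr : y ≤ r / 4 := by
    rw [hy, div_le_div_iff₀ hden (by norm_num)]
    have h1 : (4 : ℝ) ≤ 8 * ((A : ℝ) + 1) * Real.log r := by nlinarith
    nlinarith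
  set S := Fintype.piFinset (fun i => Ioc (Y i) (Y i + X)) with hS
  refine ⟨(small r A).biUnion (fun p => S.filter
    (fun d : Fin r → ℕ => (univ.filter (fun i => p ∣ d i)).card < M * (r / (8 * M * p)))), ?_, ?_⟩
  · have h1 : (((small r A).biUnion (fun p => S.filter
        (fun d : Fin r → ℕ => (univ.filter (fun i => p ∣ d i)).card < M * (r / (8 * M * p))))).card : ℝ) ≤
        ∑ p ∈ small r A, (X : ℝ) ^ r / (r : ℝ) ^ (A + 1) := by
      refine (Nat.cast_le.2 card_biUnion_le).trans ?_
      rw [Nat.cast_sum]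
      apply sum_le_sum
      intro p hp
      rw [hsm, mem_filter, mem_range] at hp
      obtain ⟨hp1, hpp⟩ := hp
      have hp0 : 0 < p := hpp.pos
      have hp0' : (0 : ℝ) < p := by exact_mod_cast hp0
      have hpy : (p : ℝ) ≤ y := by
        have h2 : p ≤ ⌊y⌋₊ := by omega
        exact (Nat.le_floor_iff hy0).1 h2
      have hpX : p ≤ X := by
        have h2 : (p : ℝ) ≤ r := by linarith
        have h3 : p ≤ r := by exact_mod_cast h2
        omega
      refine (few (K := M * (r / (8 * M * p))) hp0 hpX Y).trans ?_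
      have h2 : ((M * (r / (8 * M * p)) : ℕ) : ℝ) ≤ r / (8 * p) := by
        have h3 : M * (r / (8 * M * p)) * (8 * p) ≤ r := by
          calc M * (r / (8 * M * p)) * (8 * p) = (8 * M * p) * (r / (8 * M * p)) := by ring
            _ ≤ r := Nat.mul_div_le _ _
        have h4 : ((M * (r / (8 * M * p)) : ℕ) : ℝ) * (8 * p) ≤ r := by exact_mod_cast h3
        rw [le_div_iff₀ (by positivity)]
        exact h4
      have h5 : (2 : ℝ) ^ (M * (r / (8 * M * p))) ≤ Real.exp (r / (8 * p)) := by
        have h6 : (2 : ℝ) ^ (M * (r / (8 * M * p))) ≤ Real.exp 1 ^ (M * (r / (8 * M * p))) := by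
          apply pow_le_pow_left₀ (by norm_num)
          have := Real.add_one_le_exp (1 : ℝ)
          linarith
        refine h6.trans ?_
        rw [← Real.exp_nat_mul, mul_one]
        exact Real.exp_le_exp.2 h2
      have h7 : Real.exp (r / (8 * (p : ℝ))) * Real.exp (-(r / (4 * (p : ℝ)))) =
          Real.exp (-(r / (8 * (p : ℝ)))) := by
        rw [← Real.exp_add]
        congr 1
        field_simp
        ring
      have h8 : Real.exp (-(r / (8 * (p : ℝ)))) ≤ 1 / (r : ℝ) ^ (A + 1) := by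
        have h9 : (A + 1 : ℝ) * Real.log r ≤ r / (8 * (p : ℝ)) := by
          rw [le_div_iff₀ (by positivity)]
          have h10 : (p : ℝ) * (8 * (A + 1) * Real.log r) ≤ r := by
            rw [hy, le_div_iff₀ hden] at hpy
            exact hpy
          linarith
        calc Real.exp (-(r / (8 * (p : ℝ)))) ≤ Real.exp (-((A + 1 : ℝ) * Real.log r)) :=
              Real.exp_le_exp.2 (by linarith)
          _ = 1 / (r : ℝ) ^ (A + 1) := by
              rw [Real.exp_neg, one_div]
              congr 1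
              have h11 : (A + 1 : ℝ) * Real.log r = Real.log ((r : ℝ) ^ (A + 1)) := by
                rw [Real.log_pow]
                push_cast
                ring
              rw [h11, Real.exp_log (by positivity)]
      have hXr : (0 : ℝ) ≤ (X : ℝ) ^ r := by positivity
      calc (2 : ℝ) ^ (M * (r / (8 * M * p))) * (X : ℝ) ^ r * Real.exp (-(r / (4 * (p : ℝ))))
          ≤ Real.exp (r / (8 * p)) * (X : ℝ) ^ r * Real.exp (-(r / (4 * (p : ℝ)))) := by
            gcongr
        _ = (X : ℝ) ^ r * (Real.exp (r / (8 * (p : ℝ))) * Real.exp (-(r / (4 * (p : ℝ))))) := by ring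
        _ = (X : ℝ) ^ r * Real.exp (-(r / (8 * (p : ℝ)))) := by rw [h7]
        _ ≤ (X : ℝ) ^ r * (1 / (r : ℝ) ^ (A + 1)) := by gcongr
        _ = (X : ℝ) ^ r / (r : ℝ) ^ (A + 1) := by ring
    refine h1.trans ?_
    rw [sum_const, nsmul_eq_mul]
    have h2 : ((small r A).card : ℝ) ≤ r := by
      have h3 : (small r A).card ≤ ⌊y⌋₊ := by
        have h4 : small r A ⊆ Icc 1 ⌊y⌋₊ := by
          intro p hp
          rw [hsm, mem_filter, mem_range] at hp
          rw [mem_Icc]
          exact ⟨hp.2.one_lt.le, by omega⟩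
        have h5 := card_le_card h4
        rwa [Nat.card_Icc, Nat.add_sub_cancel] at h5
      have h6 : ((⌊y⌋₊ : ℕ) : ℝ) ≤ y := Nat.floor_le hy0
      have h7 : ((small r A).card : ℝ) ≤ (⌊y⌋₊ : ℕ) := by exact_mod_cast h3
      linarith
    calc ((small r A).card : ℝ) * ((X : ℝ) ^ r / (r : ℝ) ^ (A + 1))
        ≤ r * ((X : ℝ) ^ r / (r : ℝ) ^ (A + 1)) := by gcongr
      _ = (X : ℝ) ^ r / (r : ℝ) ^ A := by
          rw [pow_succ]
          field_simp
  · intro d hd hdE p hp
    by_contra hcon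
    push Not at hcon
    apply hdE
    rw [mem_biUnion]
    refine ⟨p, hp, ?_⟩
    rw [mem_filter]
    refine ⟨?_, hcon⟩
    rw [hS, Fintype.mem_piFinset]
    intro i
    rw [mem_Ioc]
    exact hd i

end Pool.Agent.Q55.TypDeg
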